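import Pool.Agent.W_5d512e_h4.NT
import Pool.Agent.W_MP_5d512e_h33.Defs
import Pool.Agent.W_MP_5d512e_h33.Queue

/-!
# From a dgsm whose emitted blocks are locally determined to a numerical transducer

State of the numerical transducer: code of the last `K` letters, the most recent letter in the
lowest digit, base `B = d + 2`, letter `x : Fin d` = `x + 2`, digit `0` = in front of the word:
`p = B ^ K`, `δ s x = (s * B + x) % p` for `s < p`, `2 ≤ x < B`, `0` otherwise; `k = K + 1`.
Output: the block emitted at a position `i` with this history and this letter if there is one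
(any choice, by the hypothesis), `[1]` otherwise.
-/

set_option autoImplicit false

namespace Pool.Agent.W_5d512e_h4

open Pool.Agent.W_MP_5d512e_h33

variable {d p : ℕ}

/-- the block emitted at a position is determined by the last `K + 1` letters -/
def LocDet (δ : Fin p → Fin d → Fin p) (q0 : Fin p) (out : Fin p → Fin d → List (Fin d))
    (w : ℕ → Fin d) (K : ℕ) : Prop :=
  ∀ i j : ℕ, K ≤ i → K ≤ j → (∀ l ≤ K, w (i - l) = w (j - l)) →
    out (List.foldl δ q0 ((List.range i).map w)) (w i) =
      out (List.foldl δ q0 ((List.range j).map w)) (w j)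

/-- history before position `i` -/
def hist (B K : ℕ) (w : ℕ → Fin d) : ℕ → ℕ
  | 0 => 0
  | i + 1 => (hist B K w i * B + ((w i : ℕ) + 2)) % B ^ K

lemma Norm_hist_lt (K : ℕ) (w : ℕ → Fin d) (i : ℕ) : hist (d + 2) K w i < (d + 2) ^ K := by
  cases i with
  | zero => exact Nat.pow_pos (by omega)
  | succ i => exact Nat.mod_lt _ (Nat.pow_pos (by omega))

lemma Norm_mod_dig {B K l m : ℕ} (hl : l < K) : m % B ^ K / B ^ l % B = m / B ^ l % B := by
  obtain ⟨r, hr⟩ : ∃ r, K = l + (r + 1) := ⟨K - l - 1, by omega⟩
  rw [hr, pow_add, Nat.mod_mul_right_div_self, Nat.mod_mod_of_dvd]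
  exact Dvd.intro_left (B ^ r) rfl

/-- digits of the history -/
lemma Norm_hist_dig {K : ℕ} (w : ℕ → Fin d) (i : ℕ) : ∀ l < K,
    hist (d + 2) K w i / (d + 2) ^ l % (d + 2) = if l < i then (w (i - 1 - l) : ℕ) + 2 else 0 := by
  induction i with
  | zero =>
    intro l _
    rw [if_neg (by omega)]
    show 0 / _ % _ = 0
    simp
  | succ i ih =>
    intro l hl
    show (hist (d + 2) K w i * (d + 2) + ((w i : ℕ) + 2)) % (d + 2) ^ K / _ % _ = _
    rw [Norm_mod_dig hl]
    have hx : (w i : ℕ) + 2 < d + 2 := by have := (w i).2; omega
    cases l with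
    | zero =>
      rw [pow_zero, Nat.div_one, Nat.mul_add_mod', Nat.mod_eq_of_lt hx, if_pos (by omega)]
      simp
    | succ l =>
      rw [pow_succ', ← Nat.div_div_eq_div_mul, mul_comm, Nat.mul_add_div (by omega),
        Nat.div_eq_of_lt hx, add_zero, ih l (by omega)]
      by_cases h : l < i
      · rw [if_pos h, if_pos (by omega)]
        congr 3
        omega
      · rw [if_neg h, if_neg (by omega)]

/-- equal histories and equal letters give equal blocks -/
lemma hist_out {δ : Fin p → Fin d → Fin p} {q0 : Fin p} {out : Fin p → Fin d → List (Fin d)}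
    {w : ℕ → Fin d} {K : ℕ} (hK : 1 ≤ K) (h : LocDet δ q0 out w K) {i j : ℕ}
    (hh : hist (d + 2) K w i = hist (d + 2) K w j) (hw : w i = w j) :
    out (List.foldl δ q0 ((List.range i).map w)) (w i) =
      out (List.foldl δ q0 ((List.range j).map w)) (w j) := by
  have hd : ∀ l < K, (if l < i then (w (i - 1 - l) : ℕ) + 2 else 0) =
      if l < j then (w (j - 1 - l) : ℕ) + 2 else 0 := by
    intro l hl
    rw [← Norm_hist_dig w i l hl, ← Norm_hist_dig w j l hl, hh]
  by_cases hi : K ≤ i
  · by_cases hj : K ≤ j
    · apply h i j hi hj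
      intro l hl
      cases l with
      | zero => exact hw
      | succ l =>
        have := hd l (by omega)
        rw [if_pos (by omega), if_pos (by omega)] at this
        apply Fin.ext
        rw [show i - (l + 1) = i - 1 - l from by omega,
          show j - (l + 1) = j - 1 - l from by omega]
        omega
    · exfalso
      have := hd j (by omega)
      rw [if_pos (by omega), if_neg (by omega)] at this
      omega
  · have hij : i = j := by
      by_contra hne
      rcases Nat.lt_or_ge i j with h1 | h1
      · have := hd i (by omega)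
        rw [if_neg (by omega), if_pos h1] at this
        omega
      · have := hd j (by omega)
        rw [if_pos (by omega), if_neg (by omega)] at this
        omega
    rw [hij]

lemma Norm_run_fst {S A : Type} (δ : S → A → S) (out : S → A → List A) (q : S) (u : List A) :
    (run δ out q u).1 = List.foldl δ q u := by
  induction u generalizing q with
  | nil => rfl
  | cons x u ih => rw [run_cons]; exact ih _

lemma Norm_trans_snoc (δ : Fin p → Fin d → Fin p) (q0 : Fin p)
    (out : Fin p → Fin d → List (Fin d)) (u : List (Fin d)) (x : Fin d) :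
    trans δ q0 out (u ++ [x]) = trans δ q0 out u ++ out (List.foldl δ q0 u) x := by
  show (run δ out q0 (u ++ [x])).2 = (run δ out q0 u).2 ++ _
  rw [run_append, run_singleton, Norm_run_fst]

lemma Norm_locDet_succ {δ : Fin p → Fin d → Fin p} {q0 : Fin p}
    {out : Fin p → Fin d → List (Fin d)} {w : ℕ → Fin d} {K : ℕ} (h : LocDet δ q0 out w K) :
    LocDet δ q0 out w (K + 1) := fun i j hi hj hl =>
  h i j (by omega) (by omega) fun l hl' => hl l (by omega)

/-- the states of the numerical transducer -/
def Normδ (B K : ℕ) (s x : ℕ) : ℕ :=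
  if s < B ^ K ∧ 2 ≤ x ∧ x < B then (s * B + x) % B ^ K else 0

lemma Normδ_lt {B K : ℕ} (hB : 0 < B) (s x : ℕ) : Normδ B K s x < B ^ K := by
  unfold Normδ
  split_ifs
  · exact Nat.mod_lt _ (Nat.pow_pos hB)
  · exact Nat.pow_pos hB

lemma Norm_definite {B K : ℕ} (hB : 0 < B) (u : List ℕ) : ∀ (j : ℕ), j ≤ K → K ≤ j + u.length →
    ∀ s s', s < B ^ K → s' < B ^ K → s % B ^ j = s' % B ^ j →
      u.foldl (Normδ B K) s = u.foldl (Normδ B K) s' := by
  induction u with
  | nil =>
    intro j hj hK s s' hs hs' h
    have : j = K := by simp at hK; omega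
    subst this
    rw [Nat.mod_eq_of_lt hs, Nat.mod_eq_of_lt hs'] at h
    rw [h]
  | cons x u ih =>
    intro j hj hK s s' hs hs' h
    rw [List.foldl_cons, List.foldl_cons]
    have hlen : (x :: u).length = u.length + 1 := rfl
    apply ih (min (j + 1) K) (by omega) (by omega) _ _ (Normδ_lt hB s x) (Normδ_lt hB s' x)
    unfold Normδ
    by_cases hx : 2 ≤ x ∧ x < B
    · rw [if_pos ⟨hs, hx⟩, if_pos ⟨hs', hx⟩,
        Nat.mod_mod_of_dvd _ (pow_dvd_pow B (Nat.min_le_right _ _)),
        Nat.mod_mod_of_dvd _ (pow_dvd_pow B (Nat.min_le_right _ _))]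
      have h1 : (s * B + x) ≡ (s' * B + x) [MOD B ^ (j + 1)] := by
        apply Nat.ModEq.add_right
        rw [pow_succ]
        exact Nat.ModEq.mul_right' B h
      exact h1.of_dvd (pow_dvd_pow B (Nat.min_le_left _ _))
    · rw [if_neg (fun h => hx h.2), if_neg (fun h => hx h.2)]

/-- **the numerical transducer** -/
theorem exists_NT (δ : Fin p → Fin d → Fin p) (q0 : Fin p) (out : Fin p → Fin d → List (Fin d))
    (a : Fin d) (w : ℕ → Fin d) (hI : Iterates δ q0 out a w) (K : ℕ)
    (h : LocDet δ q0 out w K) :
    ∃ G : NT, (∀ t, G.E t = ((trans δ q0 out)^[t] [a]).length) ∧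
      ∀ t n, n < G.E t → (G.W t).getD n 1 = w n + 2 := by
  classical
  have h' := Norm_locDet_succ h
  set K' := K + 1 with hK'
  set B := d + 2 with hB
  have hw0 : w 0 = a := (hI.limit 0 0 (by simp)).symm
  -- the blocks
  let blk : ℕ → List ℕ := fun i =>
    (out (List.foldl δ q0 ((List.range i).map w)) (w i)).map fun y : Fin d => (y : ℕ) + 2
  have hblk : ∀ i j, hist B K' w i = hist B K' w j → w i = w j → blk i = blk j := by
    intro i j h1 h2
    show List.map _ _ = List.map _ _
    rw [hist_out (by omega) h' h1 h2]
  let o : ℕ → ℕ → List ℕ := fun s x =>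
    if h : ∃ i, hist B K' w i = s ∧ (w i : ℕ) + 2 = x then blk h.choose else [1]
  have ho : ∀ i, o (hist B K' w i) ((w i : ℕ) + 2) = blk i := by
    intro i
    have hex : ∃ j, hist B K' w j = hist B K' w i ∧ (w j : ℕ) + 2 = (w i : ℕ) + 2 :=
      ⟨i, rfl, rfl⟩
    show (if h : _ then _ else _) = _
    rw [dif_pos hex]
    exact hblk _ _ hex.choose_spec.1 (Fin.ext (by have := hex.choose_spec.2; omega))
  have ho1 : ∀ s x, (∃ i, o s x = blk i) ∨ o s x = [1] := by
    intro s x
    by_cases hex : ∃ i, hist B K' w i = s ∧ (w i : ℕ) + 2 = x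
    · exact Or.inl ⟨hex.choose, dif_pos hex⟩
    · exact Or.inr (dif_neg hex)
  -- bound of the lengths
  obtain ⟨b, hb⟩ : ∃ b, ∀ (q : Fin p) (x : Fin d), (out q x).length ≤ b :=
    ⟨Finset.univ.sup fun z : Fin p × Fin d => (out z.1 z.2).length, fun q x =>
      Finset.le_sup (f := fun z : Fin p × Fin d => (out z.1 z.2).length)
        (Finset.mem_univ (q, x))⟩
  -- the first letter
  have htr1 : trans δ q0 out [a] = out q0 a := by
    exact Norm_trans_snoc δ q0 out [] a
  obtain ⟨r, hr⟩ : ∃ r, out q0 a = a :: r := by
    obtain ⟨r, hr⟩ := hI.start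
    rw [htr1] at hr
    exact ⟨r, by rw [← hr]; rfl⟩
  have hrne : r ≠ [] := by
    rintro rfl
    obtain ⟨n, hn⟩ := hI.unbounded 2
    have hit : ∀ n, (trans δ q0 out)^[n] [a] = [a] := by
      intro n
      induction n with
      | zero => rfl
      | succ n ih => rw [Function.iterate_succ_apply', ih, htr1, hr]
    rw [hit] at hn
    simp at hn
  have hblk0 : blk 0 = ((a : ℕ) + 2) :: r.map (fun y : Fin d => (y : ℕ) + 2) := by
    show List.map _ _ = _
    rw [List.range_zero, List.map_nil, List.foldl_nil, hw0, hr]
    rfl
  have hBpos : 0 < B := by omega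
  let G : NT :=
    { p := B ^ K'
      B := B
      b := b + 1
      k := K' + 1
      δ := Normδ B K'
      out := o
      a := a + 2
      r0 := r.map fun y : Fin d => (y : ℕ) + 2
      p_pos := Nat.pow_pos hBpos
      k_pos := by omega
      b_pos := by omega
      a_two := by omega
      a_lt := by have := a.2; omega
      δ_lt := Normδ_lt hBpos
      out_ne := by
        intro s x
        rcases ho1 s x with ⟨i, hi⟩ | hi
        · rw [hi]
          show List.map _ _ ≠ []
          rw [Ne, List.map_eq_nil_iff]
          exact hI.nonerasing _ _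
        · rw [hi]
          simp
      out_len := by
        intro s x
        rcases ho1 s x with ⟨i, hi⟩ | hi
        · rw [hi]
          show (List.map _ _).length ≤ _
          rw [List.length_map]
          have := hb (List.foldl δ q0 ((List.range i).map w)) (w i)
          omega
        · rw [hi]
          simp
      out_pos := by
        intro s x y hy
        rcases ho1 s x with ⟨i, hi⟩ | hi
        · rw [hi] at hy
          obtain ⟨z, -, rfl⟩ := List.mem_map.1 hy
          omega
        · rw [hi] at hy
          rw [List.mem_singleton.1 hy]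
      out_lt := by
        intro s x y hy
        rcases ho1 s x with ⟨i, hi⟩ | hi
        · rw [hi] at hy
          obtain ⟨z, -, rfl⟩ := List.mem_map.1 hy
          have := z.2
          omega
        · rw [hi] at hy
          rw [List.mem_singleton.1 hy]
          omega
      δ_blank := by
        intro s x h1
        unfold Normδ
        rw [if_neg]
        omega
      out_blank := by
        intro s x h1
        apply dif_neg
        rintro ⟨i, h2, h3⟩
        have h4 := Norm_hist_lt K' w i
        have h5 := (w i).2
        rw [← hB, h2] at h4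
        omega
      definite := by
        intro u hu s s'
        cases u with
        | nil => simp at hu
        | cons x u =>
          rw [List.foldl_cons, List.foldl_cons]
          have hlen : (x :: u).length = u.length + 1 := rfl
          exact Norm_definite hBpos u 0 (by omega) (by omega) _ _ (Normδ_lt hBpos s x)
            (Normδ_lt hBpos s' x) (by rw [pow_zero, Nat.mod_one, Nat.mod_one])
      out_a := by
        have := ho 0
        rw [hw0, hblk0] at this
        exact this
      r0_ne := by
        rw [Ne, List.map_eq_nil_iff]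
        exact hrne }
  -- states and outputs on prefixes
  have hst : ∀ n, G.st 0 (((List.range n).map w).map fun y : Fin d => (y : ℕ) + 2) =
      hist B K' w n := by
    intro n
    induction n with
    | zero => rfl
    | succ n ih =>
      rw [List.range_succ, List.map_append, List.map_append, NT.st_append, ih]
      show Normδ B K' (hist B K' w n) ((w n : ℕ) + 2) = _
      unfold Normδ
      have h1 := Norm_hist_lt K' w n
      have h2 := (w n).2
      rw [if_pos ⟨h1, by omega, by omega⟩]
      rfl
  have htr : ∀ n, G.tr 0 (((List.range n).map w).map fun y : Fin d => (y : ℕ) + 2) =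
      (trans δ q0 out ((List.range n).map w)).map fun y : Fin d => (y : ℕ) + 2 := by
    intro n
    induction n with
    | zero => rfl
    | succ n ih =>
      rw [List.range_succ, List.map_append, List.map_append, NT.tr_append, ih, hst]
      show _ ++ (G.out (hist B K' w n) ((w n : ℕ) + 2) ++ []) = _
      rw [List.append_nil]
      show _ ++ o (hist B K' w n) ((w n : ℕ) + 2) = _
      rw [ho, List.map_singleton, Norm_trans_snoc, List.map_append]
  have hpre : ∀ t, (trans δ q0 out)^[t] [a] =
      (List.range ((trans δ q0 out)^[t] [a]).length).map w := by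
    intro t
    apply List.ext_getElem
    · simp
    · intro i h1 h2
      rw [hI.limit t i h1]
      simp
  have hW : ∀ t, G.W t = ((trans δ q0 out)^[t] [a]).map fun y : Fin d => (y : ℕ) + 2 := by
    intro t
    induction t with
    | zero => rfl
    | succ t ih =>
      have h1 : G.W (t + 1) = G.tr 0 (G.W t) := Function.iterate_succ_apply' _ _ _
      rw [h1, ih, Function.iterate_succ_apply', hpre t, htr, ← hpre t]
  have hE : ∀ t, G.E t = ((trans δ q0 out)^[t] [a]).length := by
    intro t
    show (G.W t).length = _
    rw [hW, List.length_map]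
  refine ⟨G, hE, ?_⟩
  intro t n hn
  rw [hE] at hn
  rw [hW, hpre t, List.getD_eq_getElem _ _ (by simpa using hn)]
  simp

end Pool.Agent.W_5d512e_h4
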