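import Pool.Agent.W_5d512e_h4.Gen
import Pool.Agent.W_5d512e_h4.Norm

/-!
# The theorem
-/

set_option autoImplicit false

namespace Pool.Agent.W_5d512e_h4

open Pool.Agent.W_MP_5d512e_h33

/-- pigeonhole: with `n ≤ s ^ 3` the condition holds for some `N` -/
lemma exists_row (G : NT) {n s : ℕ} (hs : 1 ≤ s) (h : n ≤ s ^ 3) :
    ∃ N, (N = 0 ∨ G.E N ≤ G.E (N - 1) + s) ∧ n < G.E (N + s ^ 2) := by
  classical
  by_cases hex : ∃ t, s < (G.rs t).1.length
  · set r := Nat.find hex with hr
    have hr1 : s < (G.rs r).1.length := Nat.find_spec hex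
    have hr2 : ∀ t, t < r → (G.rs t).1.length ≤ s := fun t ht => by
      have := Nat.find_min hex ht
      omega
    refine ⟨r, ?_, ?_⟩
    · rcases Nat.eq_zero_or_pos r with h0 | h0
      · exact Or.inl h0
      · right
        have h1 := G.E_succ (r - 1)
        have h2 := hr2 (r - 1) (by omega)
        have h3 : r - 1 + 1 = r := by omega
        rw [h3] at h1
        omega
    · have key : ∀ j, G.E r + j * (s + 1) ≤ G.E (r + j) := by
        intro j
        induction j with
        | zero => simp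
        | succ j ih =>
          have h1 := G.E_succ (r + j)
          have h2 := G.row_mono (Nat.le_add_right r j)
          rw [← add_assoc, h1]
          have h3 : (j + 1) * (s + 1) = j * (s + 1) + (s + 1) := by ring
          rw [h3]
          omega
      have h1 := key (s ^ 2)
      have h2 := G.lt_E r
      have h3 : s ^ 2 * (s + 1) = s ^ 3 + s ^ 2 := by ring
      rw [h3] at h1
      omega
  · push Not at hex
    refine ⟨n, ?_, ?_⟩
    · rcases Nat.eq_zero_or_pos n with h0 | h0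
      · exact Or.inl h0
      · right
        have h1 := G.E_succ (n - 1)
        have h2 := hex (n - 1)
        have h3 : n - 1 + 1 = n := by omega
        rw [h3] at h1
        omega
    · exact lt_of_lt_of_le (G.lt_E n) (G.E_mono (Nat.le_add_right _ _))

/-- the statement to be handed in -/
theorem main_theorem :
  ∀ (d p : ℕ) (δ : Fin p → Fin d → Fin p) (q0 : Fin p)
    (out : Fin p → Fin d → List (Fin d)) (τ : List (Fin d) → List (Fin d))
    (a : Fin d) (w : ℕ → Fin d),
    (∀ s x, out s x ≠ []) →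
    (τ = fun u => (List.foldl (fun (acc : Fin p × List (Fin d)) (x : Fin d) =>
        (δ acc.1 x, acc.2 ++ out acc.1 x)) (q0, []) u).2) →
    [a] <+: τ [a] →
    (∀ N : ℕ, ∃ n : ℕ, N ≤ (τ^[n] [a]).length) →
    (∀ (n i : ℕ) (h : i < (τ^[n] [a]).length), (τ^[n] [a])[i] = w i) →
    (∃ K : ℕ, ∀ i j : ℕ, K ≤ i → K ≤ j → (∀ l ≤ K, w (i - l) = w (j - l)) →
      out (List.foldl δ q0 ((List.range i).map w)) (w i) =
        out (List.foldl δ q0 ((List.range j).map w)) (w j)) →
    ∃ (m k g C : ℕ)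
      (δM : Fin (m+1) → (Fin k → Fin (g+1)) →
        Fin (m+1) × (Fin k → Fin (g+1)) × (Fin k → Fin 3) × Option (Fin d))
      (conf : ℕ → Fin (m+1) × (Fin k → ℕ → Fin (g+1)) × (Fin k → ℕ) × List (Fin d)),
      conf 0 = (0, fun _ _ => 0, fun _ => 0, []) ∧
      (∀ t : ℕ, conf (t+1) =
        ((δM (conf t).1 (fun j => (conf t).2.1 j ((conf t).2.2.1 j))).1,
         fun j i => if i = (conf t).2.2.1 j
           then (δM (conf t).1 (fun j' => (conf t).2.1 j' ((conf t).2.2.1 j'))).2.1 j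
           else (conf t).2.1 j i,
         fun j => (conf t).2.2.1 j
           + ((δM (conf t).1 (fun j' => (conf t).2.1 j' ((conf t).2.2.1 j'))).2.2.1 j : ℕ) - 1,
         (conf t).2.2.2
           ++ ((δM (conf t).1 (fun j' => (conf t).2.1 j' ((conf t).2.2.1 j'))).2.2.2).toList)) ∧
      (∀ (t i : ℕ) (h : i < (conf t).2.2.2.length), (conf t).2.2.2[i] = w i) ∧
      (∀ n : ℕ, ∃ t : ℕ, n ≤ (conf t).2.2.2.length) ∧
      (∀ n t : ℕ, 1 ≤ n → (∀ t' < t, (conf t').2.2.2.length < n) →
        ∀ j : Fin k, ∀ s : ℕ, 1 ≤ s →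
          (n ≤ s ^ 3 ∨ ∃ N : ℕ, (τ^[N] [a]).length ≤ (τ^[N - 1] [a]).length + s ∧
            n ≤ (τ^[N + s ^ 2] [a]).length) →
          (conf t).2.2.1 j + 1 ≤ C * (s * (Nat.log 2 n + 1))) := by
  intro d p δ q0 out τ a w hne hτ hst hunb hlim hloc
  obtain ⟨K, hK⟩ := hloc
  have hτ' : τ = trans δ q0 out := hτ
  have hI : Iterates δ q0 out a w :=
    ⟨hne, by rw [← hτ']; exact hst, by rw [← hτ']; exact hunb, by rw [← hτ']; exact hlim⟩
  obtain ⟨G, hE, hW⟩ := exists_NT δ q0 out a w hI K hK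
  obtain ⟨sf, hsf, m, k, g, C, δM, conf, h0, h1, h2, h3, h4⟩ := G.gen_NT w hW
  refine ⟨m, k, g, C * 2, δM, conf, h0, h1, h2, h3, ?_⟩
  intro n t hn ht j s hs hcond
  have h5 : sf (n - 1) ≤ s := by
    rcases hcond with hc | ⟨N, hN1, hN2⟩
    · obtain ⟨N, hN1, hN2⟩ := exists_row G hs (n := n - 1) (by omega)
      exact hsf (n - 1) s N hs hN1 hN2
    · refine hsf (n - 1) s N hs (Or.inr ?_) ?_
      · rw [hE, hE, ← hτ']
        exact hN1
      · rw [hE, ← hτ']
        omega
  refine (h4 n t hn ht j).trans ?_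
  rw [mul_assoc]
  refine Nat.mul_le_mul_left C ?_
  rw [← mul_assoc]
  refine Nat.mul_le_mul_right _ ?_
  omega

end Pool.Agent.W_5d512e_h4
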