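import Pool.Agent.W_5d512e_h4.LF

/-!
# Arithmetic in the class `LF`

Everything is derived from `LF.itr` (bounded iteration), `LF.succ`, composition and pairs.
`fun_prop` proves goals `LF fun x => ...` from the lemmas tagged here; goals with `itr`, `∑`,
`fnd`, `mprod` need the corresponding lemma by hand (`refine LF.sum ?_ ?_`).
-/

set_option autoImplicit false

namespace Pool.Agent.W_5d512e_h4

variable {α β γ : Type} [Inp α] [Inp β] [Inp γ]

@[fun_prop] theorem LF.add_one {f : α → ℕ} (hf : LF f) : LF fun x => f x + 1 :=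
  LF.comp LF.succ hf

/-- iterate the successor -/
@[fun_prop] theorem LF.add {f g : α → ℕ} (hf : LF f) (hg : LF g) : LF fun x => f x + g x := by
  have e : ∀ a b : ℕ, Pool.Agent.W_5d512e_h4.itr a (fun acc _ => acc + 1) b = a + b := by
    intro a b
    induction b with
    | zero => rfl
    | succ b ih =>
      show Pool.Agent.W_5d512e_h4.itr a _ b + 1 = _
      rw [ih]
      rfl
  have h := LF.itr (n := g) (g := f) (h := fun _ acc _ => acc + 1) hg hf
    (LF.add_one (LF.fst (LF.snd LF.id))) (by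
      obtain ⟨C1, e1, h1⟩ := hf.bd
      obtain ⟨C2, e2, h2⟩ := hg.bd
      refine ⟨C1 + C2, e1 + e2, fun a i hi => ?_⟩
      rw [e, size_nat]
      have h3 := h1 a
      have h4 := h2 a
      rw [size_nat] at h3 h4
      exact (Nat.add_le_add h3 (hi.trans h4)).trans pb_add)
  simp only [e] at h
  exact h

lemma pb_mul {C C' e e' x : ℕ} :
    C * (x + 1) ^ e * (C' * (x + 1) ^ e') = C * C' * (x + 1) ^ (e + e') := by
  rw [pow_add]
  ring

theorem LF.pred {f : α → ℕ} (hf : LF f) : LF fun x => f x - 1 := by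
  have e : ∀ b : ℕ, Pool.Agent.W_5d512e_h4.itr 0 (fun _ i => i) b = b - 1 := by
    intro b
    cases b <;> rfl
  have h := LF.itr (n := f) (g := fun _ => 0) (h := fun _ _ i => i) hf (LF.const 0)
    (LF.snd (LF.snd LF.id)) (by
      obtain ⟨C1, e1, h1⟩ := hf.bd
      refine ⟨C1, e1, fun a i hi => ?_⟩
      rw [e, size_nat]
      have h3 := h1 a
      rw [size_nat] at h3
      omega)
  simp only [e] at h
  exact h

@[fun_prop] theorem LF.mul {f g : α → ℕ} (hf : LF f) (hg : LF g) : LF fun x => f x * g x := by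
  have e : ∀ a b : ℕ, Pool.Agent.W_5d512e_h4.itr 0 (fun acc _ => acc + a) b = a * b := by
    intro a b
    induction b with
    | zero => rfl
    | succ b ih =>
      show Pool.Agent.W_5d512e_h4.itr 0 _ b + a = _
      rw [ih]
      ring
  have h := LF.itr (n := g) (g := fun _ => 0) (h := fun x acc _ => acc + f x) hg (LF.const 0)
    (LF.add (LF.fst (LF.snd LF.id)) (LF.comp hf (LF.fst LF.id))) (by
      obtain ⟨C1, e1, h1⟩ := hf.bd
      obtain ⟨C2, e2, h2⟩ := hg.bd
      refine ⟨C1 * C2, e1 + e2, fun a i hi => ?_⟩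
      rw [e, size_nat]
      have h3 := h1 a
      have h4 := h2 a
      rw [size_nat] at h3 h4
      exact (Nat.mul_le_mul h3 (hi.trans h4)).trans pb_mul.le)
  simp only [e] at h
  exact h

@[fun_prop] theorem LF.sub {f g : α → ℕ} (hf : LF f) (hg : LF g) : LF fun x => f x - g x := by
  have e : ∀ a b : ℕ, Pool.Agent.W_5d512e_h4.itr a (fun acc _ => acc - 1) b = a - b := by
    intro a b
    induction b with
    | zero => rfl
    | succ b ih =>
      show Pool.Agent.W_5d512e_h4.itr a _ b - 1 = _
      rw [ih]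
      omega
  have h := LF.itr (n := g) (g := f) (h := fun _ acc _ => acc - 1) hg hf
    (LF.pred (LF.fst (LF.snd LF.id))) (by
      obtain ⟨C1, e1, h1⟩ := hf.bd
      refine ⟨C1, e1, fun a i hi => ?_⟩
      rw [e, size_nat]
      have h3 := h1 a
      rw [size_nat] at h3
      omega)
  simp only [e] at h
  exact h

@[fun_prop] theorem LF.pow_const {f : α → ℕ} (hf : LF f) (k : ℕ) : LF fun x => f x ^ k := by
  induction k with
  | zero =>
    simp only [pow_zero]
    exact LF.const 1
  | succ k ih =>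
    simp only [pow_succ]
    exact LF.mul ih hf

/-- bound given by a computable function -/
theorem LF.itr_le {n : α → ℕ} {g : α → β} {h : α → β → ℕ → β} {b : α → ℕ} (hn : LF n)
    (hg : LF g) (hh : LF fun p : α × β × ℕ => h p.1 p.2.1 p.2.2) (hb : LF b)
    (hle : ∀ a, ∀ i ≤ n a, size (Pool.Agent.W_5d512e_h4.itr (g a) (h a) i) ≤ b a) :
    LF fun a => Pool.Agent.W_5d512e_h4.itr (g a) (h a) (n a) := by
  obtain ⟨C, e, h1⟩ := hb.bd
  refine LF.itr hn hg hh ⟨C, e, fun a i hi => (hle a i hi).trans ?_⟩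
  have := h1 a
  rwa [size_nat] at this

theorem LF.ite_zero {c : α → ℕ} {f g : α → β} (hc : LF c) (hf : LF f) (hg : LF g) :
    LF fun x => if c x = 0 then f x else g x := by
  have e : ∀ (a b : β) (n : ℕ),
      Pool.Agent.W_5d512e_h4.itr a (fun _ _ => b) n = if n = 0 then a else b := by
    intro a b n
    cases n <;> rfl
  have h := LF.itr (n := c) (g := f) (h := fun x _ _ => g x) hc hf
    (LF.comp hg (LF.fst LF.id)) (by
      obtain ⟨C1, e1, h1⟩ := hf.bd
      obtain ⟨C2, e2, h2⟩ := hg.bd
      refine ⟨C1 + C2, e1 + e2, fun a i hi => ?_⟩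
      rw [e]
      have h3 := h1 a
      have h4 := h2 a
      have h5 := pb_add (C := C1) (C' := C2) (e := e1) (e' := e2) (x := size a)
      split_ifs <;> omega)
  simp only [e] at h
  exact h

@[fun_prop] theorem LF.ite_lt {f g : α → ℕ} {h k : α → β} (hf : LF f) (hg : LF g) (hh : LF h)
    (hk : LF k) : LF fun x => if f x < g x then h x else k x := by
  have e : (fun x => if f x < g x then h x else k x) =
      fun x => if g x - f x = 0 then k x else h x := by
    funext x
    by_cases h1 : f x < g x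
    · rw [if_pos h1, if_neg (by omega)]
    · rw [if_neg h1, if_pos (by omega)]
  rw [e]
  exact LF.ite_zero (LF.sub hg hf) hk hh

@[fun_prop] theorem LF.ite_le {f g : α → ℕ} {h k : α → β} (hf : LF f) (hg : LF g) (hh : LF h)
    (hk : LF k) : LF fun x => if f x ≤ g x then h x else k x := by
  have e : (fun x => if f x ≤ g x then h x else k x) =
      fun x => if f x - g x = 0 then h x else k x := by
    funext x
    by_cases h1 : f x ≤ g x
    · rw [if_pos h1, if_pos (by omega)]
    · rw [if_neg h1, if_neg (by omega)]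
  rw [e]
  exact LF.ite_zero (LF.sub hf hg) hh hk

@[fun_prop] theorem LF.ite_eq {f g : α → ℕ} {h k : α → β} (hf : LF f) (hg : LF g) (hh : LF h)
    (hk : LF k) : LF fun x => if f x = g x then h x else k x := by
  have e : (fun x => if f x = g x then h x else k x) =
      fun x => if (f x - g x) + (g x - f x) = 0 then h x else k x := by
    funext x
    by_cases h1 : f x = g x
    · rw [if_pos h1, if_pos (by omega)]
    · rw [if_neg h1, if_neg (by omega)]
  rw [e]
  exact LF.ite_zero (LF.add (LF.sub hf hg) (LF.sub hg hf)) hh hk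

@[fun_prop] theorem LF.min {f g : α → ℕ} (hf : LF f) (hg : LF g) :
    LF fun x => min (f x) (g x) := by
  have e : (fun x => Min.min (f x) (g x)) = fun x => if f x ≤ g x then f x else g x := by
    funext x
    exact min_def _ _
  rw [e]
  exact LF.ite_le hf hg hf hg

@[fun_prop] theorem LF.max {f g : α → ℕ} (hf : LF f) (hg : LF g) :
    LF fun x => max (f x) (g x) := by
  have e : (fun x => Max.max (f x) (g x)) = fun x => if f x ≤ g x then g x else f x := by
    funext x
    exact max_def _ _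
  rw [e]
  exact LF.ite_le hf hg hg hf

/-- bounded sums -/
theorem LF.sum {n : α → ℕ} {f : α → ℕ → ℕ} (hn : LF n) (hf : LF fun p : α × ℕ => f p.1 p.2) :
    LF fun a => ∑ i ∈ Finset.range (n a), f a i := by
  have e : ∀ (a : α) (k : ℕ),
      Pool.Agent.W_5d512e_h4.itr 0 (fun acc i => acc + f a i) k = ∑ i ∈ Finset.range k, f a i := by
    intro a k
    induction k with
    | zero => rfl
    | succ k ih =>
      show Pool.Agent.W_5d512e_h4.itr 0 _ k + f a k = _
      rw [ih, Finset.sum_range_succ]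
  have h := LF.itr (n := n) (g := fun _ => 0) (h := fun a acc i => acc + f a i) hn (LF.const 0)
    (LF.add (LF.fst (LF.snd LF.id)) (LF.comp hf (LF.mk (LF.fst LF.id) (LF.snd (LF.snd LF.id)))))
    (by
      obtain ⟨C1, e1, h1⟩ := hn.bd
      obtain ⟨C2, e2, h2⟩ := hf.bd
      refine ⟨C1 * (C2 * (1 + C1 + 1) ^ e2), e1 + (1 + e1) * e2, fun a i hi => ?_⟩
      rw [e, size_nat, ← pb_mul]
      have h3 := h1 a
      rw [size_nat] at h3
      have h5 : ∀ j ∈ Finset.range i, f a j ≤
          C2 * (1 + C1 + 1) ^ e2 * (size a + 1) ^ ((1 + e1) * e2) := by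
        intro j hj
        have h6 := h2 (a, j)
        rw [size_nat, size_pair, size_nat] at h6
        have h7 : size a + j ≤ (1 + C1) * (size a + 1) ^ (1 + e1) := by
          have := Finset.mem_range.1 hj
          exact (Nat.add_le_add pb_self ((by omega : j ≤ n a).trans h3)).trans pb_add
        exact h6.trans (pb_comp h7)
      refine (Finset.sum_le_card_nsmul _ _ _ h5).trans ?_
      rw [Finset.card_range, smul_eq_mul]
      exact Nat.mul_le_mul_right _ (hi.trans h3))
  simp only [e] at h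
  exact h

/-- least `i < n` with `p i ≠ 0`, or `n` -/
def fnd (n : ℕ) (p : ℕ → ℕ) : ℕ :=
  itr 0 (fun acc i => if acc < i then acc else if p i = 0 then i + 1 else i) n

lemma fnd_succ (n : ℕ) (p : ℕ → ℕ) : fnd (n + 1) p =
    if fnd n p < n then fnd n p else if p n = 0 then n + 1 else n := rfl

lemma fnd_le (n : ℕ) (p : ℕ → ℕ) : fnd n p ≤ n := by
  induction n with
  | zero => exact le_rfl
  | succ n ih =>
    rw [fnd_succ]
    split_ifs <;> omega

lemma fnd_lt {n : ℕ} {p : ℕ → ℕ} {j : ℕ} (h : j < fnd n p) : p j = 0 := by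
  induction n with
  | zero => exact absurd h (Nat.not_lt_zero _)
  | succ n ih =>
    have h1 := fnd_le n p
    rw [fnd_succ] at h
    split_ifs at h with h2 h3
    · exact ih h
    · by_cases h4 : j < fnd n p
      · exact ih h4
      · have : j = n := by omega
        rw [this]
        exact h3
    · exact ih (by omega)

lemma fnd_spec {n : ℕ} {p : ℕ → ℕ} (h : fnd n p < n) : p (fnd n p) ≠ 0 := by
  induction n with
  | zero => exact absurd h (Nat.not_lt_zero _)
  | succ n ih =>
    have h1 := fnd_le n p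
    rw [fnd_succ] at h ⊢
    split_ifs at h ⊢ with h2 h3
    · exact ih h2
    · omega
    · exact h3

theorem LF.fnd {n : α → ℕ} {p : α → ℕ → ℕ} (hn : LF n) (hp : LF fun q : α × ℕ => p q.1 q.2) :
    LF fun a => fnd (n a) (p a) := by
  refine LF.itr_le (n := n) (g := fun _ => 0)
    (h := fun a acc i => if acc < i then acc else if p a i = 0 then i + 1 else i) hn (LF.const 0)
    ?_ hn fun a i hi => ?_
  · have h1 : LF fun q : α × ℕ × ℕ => p q.1 q.2.2 :=
      LF.comp hp (LF.mk (LF.fst LF.id) (LF.snd (LF.snd LF.id)))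
    have h2 : LF fun q : α × ℕ × ℕ => q.2.1 := LF.fst (LF.snd LF.id)
    have h3 : LF fun q : α × ℕ × ℕ => q.2.2 := LF.snd (LF.snd LF.id)
    exact LF.ite_lt h2 h3 h2 (LF.ite_zero h1 (LF.add_one h3) h3)
  · rw [size_nat]
    exact (fnd_le i (p a)).trans hi

/-- `f / g = ∑_{i < f} (if (i + 1) * g ≤ f then 1 else 0)` for `g ≠ 0` -/
@[fun_prop] theorem LF.div {f g : α → ℕ} (hf : LF f) (hg : LF g) : LF fun x => f x / g x := by
  have e : (fun x => f x / g x) = fun x => if g x = 0 then 0 else
      ∑ i ∈ Finset.range (f x), if (i + 1) * g x ≤ f x then 1 else 0 := by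
    funext x
    by_cases h : g x = 0
    · rw [if_pos h, h, Nat.div_zero]
    · rw [if_neg h, ← Finset.card_filter]
      have h0 : 0 < g x := Nat.pos_of_ne_zero h
      have h1 : (Finset.range (f x)).filter (fun i => (i + 1) * g x ≤ f x) =
          Finset.range (f x / g x) := by
        ext i
        rw [Finset.mem_filter, Finset.mem_range, Finset.mem_range, ← Nat.le_div_iff_mul_le h0]
        have := Nat.div_le_self (f x) (g x)
        omega
      rw [h1, Finset.card_range]
  rw [e]
  refine LF.ite_zero hg (LF.const 0) (LF.sum hf ?_)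
  have h1 : LF fun p : α × ℕ => f p.1 := LF.comp hf (LF.fst LF.id)
  have h2 : LF fun p : α × ℕ => g p.1 := LF.comp hg (LF.fst LF.id)
  exact LF.ite_le (LF.mul (LF.add_one (LF.snd LF.id)) h2) h1 (LF.const 1) (LF.const 0)

@[fun_prop] theorem LF.mod {f g : α → ℕ} (hf : LF f) (hg : LF g) : LF fun x => f x % g x := by
  have e : (fun x => f x % g x) = fun x => f x - g x * (f x / g x) := by
    funext x
    have := Nat.div_add_mod (f x) (g x)
    omega
  rw [e]
  exact LF.sub hf (LF.mul hg (LF.div hf hg))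

/-- truncated power -/
def tpow (M a b : ℕ) : ℕ := itr (min M 1) (fun acc _ => min M (acc * a)) b

lemma tpow_succ (M a b : ℕ) : tpow M a (b + 1) = min M (tpow M a b * a) := rfl

lemma tpow_eq_min (M a b : ℕ) : tpow M a b = min M (a ^ b) := by
  induction b with
  | zero => rfl
  | succ b ih =>
    rw [tpow_succ, ih, pow_succ]
    rcases le_total M (a ^ b) with h | h
    · rw [min_eq_left h]
      rcases Nat.eq_zero_or_pos a with h0 | h0
      · rw [h0, mul_zero, mul_zero]
      · have h1 : M ≤ M * a := Nat.le_mul_of_pos_right _ h0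
        have h2 : M ≤ a ^ b * a := h.trans (Nat.le_mul_of_pos_right _ h0)
        rw [min_eq_left h1, min_eq_left h2]
    · rw [min_eq_right h]

lemma tpow_eq {M a b : ℕ} (h : a ^ b ≤ M) : tpow M a b = a ^ b := by
  rw [tpow_eq_min, min_eq_right h]

lemma tpow_le (M a b : ℕ) : tpow M a b ≤ M := by
  rw [tpow_eq_min]; exact min_le_left _ _

@[fun_prop] theorem LF.tpow {f g h : α → ℕ} (hf : LF f) (hg : LF g) (hh : LF h) :
    LF fun x => tpow (f x) (g x) (h x) := by
  refine LF.itr_le (n := h) (g := fun x => Min.min (f x) 1)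
    (h := fun x acc _ => Min.min (f x) (acc * g x)) hh (LF.min hf (LF.const 1)) ?_ hf
    fun a i hi => ?_
  · have h1 : LF fun p : α × ℕ × ℕ => f p.1 := LF.comp hf (LF.fst LF.id)
    have h2 : LF fun p : α × ℕ × ℕ => g p.1 := LF.comp hg (LF.fst LF.id)
    exact LF.min h1 (LF.mul (LF.fst (LF.snd LF.id)) h2)
  · rw [size_nat]
    exact tpow_le (f a) (g a) i

/-- products modulo `q` -/
def mprod (q n : ℕ) (f : ℕ → ℕ) : ℕ :=
  itr 1 (fun acc i => if q = 0 then 0 else acc * f i % q) n

lemma mprod_succ (q n : ℕ) (f : ℕ → ℕ) :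
    mprod q (n + 1) f = if q = 0 then 0 else mprod q n f * f n % q := rfl

lemma mprod_le (q n : ℕ) (f : ℕ → ℕ) : mprod q n f ≤ q + 1 := by
  cases n with
  | zero => exact Nat.le_add_left _ _
  | succ n =>
    rw [mprod_succ]
    split_ifs with h
    · exact Nat.zero_le _
    · exact (Nat.mod_lt _ (Nat.pos_of_ne_zero h)).le.trans (Nat.le_succ _)

lemma mprod_cast (q n : ℕ) [NeZero q] (f : ℕ → ℕ) :
    (mprod q n f : ZMod q) = ∏ i ∈ Finset.range n, (f i : ZMod q) := by
  induction n with
  | zero =>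
    rw [Finset.prod_range_zero]
    exact Nat.cast_one
  | succ n ih =>
    rw [mprod_succ, if_neg (NeZero.ne q), ZMod.natCast_mod, Nat.cast_mul, ih,
      Finset.prod_range_succ]

theorem LF.mprod {q n : α → ℕ} {f : α → ℕ → ℕ} (hq : LF q) (hn : LF n)
    (hf : LF fun p : α × ℕ => f p.1 p.2) : LF fun a => mprod (q a) (n a) (f a) := by
  refine LF.itr_le (n := n) (g := fun _ => 1)
    (h := fun a acc i => if q a = 0 then 0 else acc * f a i % q a) hn (LF.const 1) ?_
    (LF.add_one hq) fun a i hi => ?_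
  · have h1 : LF fun p : α × ℕ × ℕ => q p.1 := LF.comp hq (LF.fst LF.id)
    have h2 : LF fun p : α × ℕ × ℕ => f p.1 p.2.2 :=
      LF.comp hf (LF.mk (LF.fst LF.id) (LF.snd (LF.snd LF.id)))
    exact LF.ite_zero h1 (LF.const 0) (LF.mod (LF.mul (LF.fst (LF.snd LF.id)) h2) h1)
  · rw [size_nat]
    exact mprod_le (q a) i (f a)

/-- inverse modulo `q` by search -/
def minv (q a : ℕ) : ℕ := fnd q fun b => if a * b % q = 1 then 1 else 0

lemma minv_cast {q : ℕ} [Fact q.Prime] (a : ℕ) (h : (a : ZMod q) ≠ 0) :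
    (minv q a : ZMod q) = (a : ZMod q)⁻¹ := by
  have hq : 1 < q := (Fact.out : q.Prime).one_lt
  have h1 : minv q a < q := by
    by_contra hcon
    have h2 : ∀ b < q, (if a * b % q = 1 then 1 else 0) = 0 := fun b hb =>
      fnd_lt (n := q) (p := fun b => if a * b % q = 1 then 1 else 0)
        (lt_of_lt_of_le hb (not_lt.1 hcon))
    have h3 := h2 ((a : ZMod q)⁻¹).val (ZMod.val_lt _)
    have h4 : a * ((a : ZMod q)⁻¹).val % q = 1 := by
      have h5 : ((a * ((a : ZMod q)⁻¹).val : ℕ) : ZMod q) = ((1 : ℕ) : ZMod q) := by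
        rw [Nat.cast_mul, ZMod.natCast_val, ZMod.cast_id', id, mul_inv_cancel₀ h, Nat.cast_one]
      have h6 := (ZMod.natCast_eq_natCast_iff' _ _ _).1 h5
      rw [h6, Nat.mod_eq_of_lt hq]
    rw [if_pos h4] at h3
    exact one_ne_zero h3
  have h2 := fnd_spec (n := q) (p := fun b => if a * b % q = 1 then 1 else 0) h1
  have h3 : a * minv q a % q = 1 := by
    by_contra hcon
    exact h2 (if_neg hcon)
  have h4 : (a : ZMod q) * (minv q a : ZMod q) = 1 := by
    have h5 : ((a * minv q a : ℕ) : ZMod q) = ((1 : ℕ) : ZMod q) := by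
      rw [ZMod.natCast_eq_natCast_iff', h3, Nat.mod_eq_of_lt hq]
    rw [← Nat.cast_mul, h5, Nat.cast_one]
  exact eq_inv_of_mul_eq_one_right h4

@[fun_prop] theorem LF.minv {f g : α → ℕ} (hf : LF f) (hg : LF g) :
    LF fun x => minv (f x) (g x) := by
  refine LF.fnd (n := f) (p := fun x b => if g x * b % f x = 1 then 1 else 0) hf ?_
  have h1 : LF fun p : α × ℕ => f p.1 := LF.comp hf (LF.fst LF.id)
  have h2 : LF fun p : α × ℕ => g p.1 := LF.comp hg (LF.fst LF.id)
  exact LF.ite_eq (LF.mod (LF.mul h2 (LF.snd LF.id)) h1) (LF.const 1) (LF.const 1) (LF.const 0)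

/-- indicator of the primes: exactly one `j < n` divides `n` -/
def isPr (n : ℕ) : ℕ :=
  if n < 2 then 0
  else if ∑ j ∈ Finset.range n, (if n % j = 0 then 1 else 0) = 1 then 1 else 0

lemma isPr_iff (n : ℕ) : isPr n ≠ 0 ↔ n.Prime := by
  unfold isPr
  by_cases h : n < 2
  · rw [if_pos h]
    constructor
    · intro h'
      exact absurd rfl h'
    · intro h'
      exact absurd h'.two_le (by omega)
  · rw [if_neg h]
    have h0 : (if ∑ j ∈ Finset.range n, (if n % j = 0 then 1 else 0) = 1 then 1 else 0) ≠ 0 ↔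
        ((Finset.range n).filter fun j => n % j = 0).card = 1 := by
      rw [Finset.card_filter]
      split_ifs with h1
      · exact iff_of_true one_ne_zero h1
      · exact iff_of_false (fun h' => h' rfl) h1
    rw [h0]
    have h1 : 1 ∈ (Finset.range n).filter fun j => n % j = 0 :=
      Finset.mem_filter.2 ⟨Finset.mem_range.2 (by omega), Nat.mod_one n⟩
    constructor
    · intro h2
      obtain ⟨x, hx⟩ := Finset.card_eq_one.1 h2
      rw [hx, Finset.mem_singleton] at h1
      rw [Nat.prime_def_lt]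
      refine ⟨by omega, fun m hm hd => ?_⟩
      have h3 : m ∈ (Finset.range n).filter fun j => n % j = 0 :=
        Finset.mem_filter.2 ⟨Finset.mem_range.2 hm, Nat.mod_eq_zero_of_dvd hd⟩
      rw [hx, Finset.mem_singleton] at h3
      omega
    · intro h2
      rw [Finset.card_eq_one]
      refine ⟨1, ?_⟩
      ext m
      rw [Finset.mem_filter, Finset.mem_singleton, Finset.mem_range]
      constructor
      · rintro ⟨h3, h4⟩
        exact (Nat.prime_def_lt.1 h2).2 m h3 (Nat.dvd_of_mod_eq_zero h4)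
      · rintro rfl
        exact ⟨by omega, Nat.mod_one n⟩

lemma LF.isPr {f : α → ℕ} (hf : LF f) : LF fun x => isPr (f x) := by
  have h1 : LF fun p : α × ℕ => f p.1 := LF.comp hf (LF.fst LF.id)
  exact LF.ite_lt hf (LF.const 2) (LF.const 0) (LF.ite_eq (LF.sum hf
    (LF.ite_eq (LF.mod h1 (LF.snd LF.id)) (LF.const 0) (LF.const 1) (LF.const 0)))
    (LF.const 1) (LF.const 1) (LF.const 0))

/-- a prime `> a`, at most `2 * a + 2` -/
def nxtp (a : ℕ) : ℕ := a + 1 + fnd (a + 2) fun i => isPr (a + 1 + i)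

lemma nxtp_prime (a : ℕ) : (nxtp a).Prime := by
  have h1 : fnd (a + 2) (fun i => isPr (a + 1 + i)) < a + 2 := by
    by_contra hcon
    obtain ⟨p, hp, h2, h3⟩ := Nat.exists_prime_lt_and_le_two_mul (a + 1) (by omega)
    have h4 := fnd_lt (n := a + 2) (p := fun i => isPr (a + 1 + i)) (j := p - (a + 1))
      (lt_of_lt_of_le (by omega) (not_lt.1 hcon))
    have h5 : a + 1 + (p - (a + 1)) = p := by omega
    rw [h5] at h4
    exact (isPr_iff p).2 hp h4
  exact (isPr_iff _).1 (fnd_spec h1)

lemma nxtp_gt (a : ℕ) : a < nxtp a := by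
  unfold nxtp
  omega

lemma nxtp_le (a : ℕ) : nxtp a ≤ 2 * a + 3 := by
  have := fnd_le (a + 2) fun i => isPr (a + 1 + i)
  unfold nxtp
  omega

@[fun_prop] theorem LF.nxtp {f : α → ℕ} (hf : LF f) : LF fun x => nxtp (f x) := by
  unfold Pool.Agent.W_5d512e_h4.nxtp
  have h1 : LF fun p : α × ℕ => f p.1 := LF.comp hf (LF.fst LF.id)
  exact LF.add (LF.add_one hf) (LF.fnd (LF.add hf (LF.const 2))
    (LF.isPr (LF.add (LF.add_one h1) (LF.snd LF.id))))

end Pool.Agent.W_5d512e_h4
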