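import Pool.Agent.W_5d512e_h4.Proc

/-!
# Direct simulation of the short rows
-/

set_option autoImplicit false

namespace Pool.Agent.W_5d512e_h4

namespace NT

variable (G : NT) {α : Type} [Inp α]

/-- image of the word with code `X` and `ln` letters, start state `q`: code, length, end state -/
def img (M ln X q : ℕ) : ℕ × ℕ × ℕ :=
  itr (0, 0, q) (fun x i =>
    (min M (x.1 + tpow M G.B x.2.1 * G.oc x.2.2 (dig G.B X i)),
      min M (x.2.1 + (G.out x.2.2 (dig G.B X i)).length), G.δ x.2.2 (dig G.B X i))) ln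

omit [Inp α] in
lemma Base_B_two : 2 ≤ G.B := by
  have := G.a_two
  have := G.a_lt
  omega

omit [Inp α] in
lemma Base_img_aux {M : ℕ} {u : List ℕ} (hu : ∀ y ∈ u, 1 ≤ y ∧ y < G.B) (q : ℕ)
    (h1 : G.B ^ (G.tr q u).length ≤ M) (t : ℕ) (ht : t ≤ u.length) :
    itr (0, 0, q) (fun x i =>
      (min M (x.1 + tpow M G.B x.2.1 * G.oc x.2.2 (dig G.B (wcod G.B u) i)),
        min M (x.2.1 + (G.out x.2.2 (dig G.B (wcod G.B u) i)).length),
          G.δ x.2.2 (dig G.B (wcod G.B u) i))) t =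
      (wcod G.B (G.tr q (u.take t)), (G.tr q (u.take t)).length, G.st q (u.take t)) := by
  have hB := G.Base_B_two
  induction t with
  | zero => rfl
  | succ t ih =>
    have ht' : t < u.length := ht
    have e0 : dig G.B (wcod G.B u) t = u[t] := by
      rw [dig_wcod (fun x hx => (hu x hx).2), List.getD_eq_getElem _ _ ht']
    have e1 : u.take (t + 1) = u.take t ++ [u[t]] := by
      rw [List.take_succ_eq_append_getElem ht']
    have e2 : G.tr q (u.take (t + 1)) =
        G.tr q (u.take t) ++ G.out (G.st q (u.take t)) u[t] := by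
      rw [e1, tr_append]
      simp [tr]
    have e3 : G.st q (u.take (t + 1)) = G.δ (G.st q (u.take t)) u[t] := by
      rw [e1, st_append]
      rfl
    have e4 : G.tr q u = G.tr q (u.take (t + 1)) ++ G.tr (G.st q (u.take (t + 1)))
        (u.drop (t + 1)) := by
      rw [← tr_append, List.take_append_drop]
    have e5 : (G.tr q (u.take (t + 1))).length ≤ (G.tr q u).length := by
      rw [e4, List.length_append]
      omega
    have e6 : G.B ^ (G.tr q (u.take (t + 1))).length ≤ M :=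
      (Nat.pow_le_pow_right (by omega) e5).trans h1
    have e7 : (G.tr q (u.take t)).length ≤ (G.tr q (u.take (t + 1))).length := by
      rw [e2, List.length_append]
      omega
    have e8 : G.B ^ (G.tr q (u.take t)).length ≤ M :=
      (Nat.pow_le_pow_right (by omega) e7).trans e6
    have e9 : wcod G.B (G.tr q (u.take (t + 1))) < G.B ^ (G.tr q (u.take (t + 1))).length :=
      wcod_lt fun x hx => (G.tr_range _ _ x hx).2
    have e10 : (G.tr q (u.take (t + 1))).length < G.B ^ (G.tr q (u.take (t + 1))).length :=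
      Nat.lt_pow_self (by omega)
    have e11 := ih ht'.le
    show (fun x i =>
      (min M (x.1 + tpow M G.B x.2.1 * G.oc x.2.2 (dig G.B (wcod G.B u) i)),
        min M (x.2.1 + (G.out x.2.2 (dig G.B (wcod G.B u) i)).length),
          G.δ x.2.2 (dig G.B (wcod G.B u) i))) (itr (0, 0, q) (fun x i =>
      (min M (x.1 + tpow M G.B x.2.1 * G.oc x.2.2 (dig G.B (wcod G.B u) i)),
        min M (x.2.1 + (G.out x.2.2 (dig G.B (wcod G.B u) i)).length),
          G.δ x.2.2 (dig G.B (wcod G.B u) i))) t) t = _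
    rw [e11, e3]
    show (min M (wcod G.B (G.tr q (u.take t)) + tpow M G.B (G.tr q (u.take t)).length *
        G.oc (G.st q (u.take t)) (dig G.B (wcod G.B u) t)),
        min M ((G.tr q (u.take t)).length +
        (G.out (G.st q (u.take t)) (dig G.B (wcod G.B u) t)).length),
        G.δ (G.st q (u.take t)) (dig G.B (wcod G.B u) t)) = _
    rw [e0]
    have e12 : wcod G.B (G.tr q (u.take (t + 1))) = wcod G.B (G.tr q (u.take t)) +
        G.B ^ (G.tr q (u.take t)).length * G.oc (G.st q (u.take t)) u[t] := by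
      rw [e2, wcod_append]
      rfl
    have e13 : (G.tr q (u.take (t + 1))).length = (G.tr q (u.take t)).length +
        (G.out (G.st q (u.take t)) u[t]).length := by
      rw [e2, List.length_append]
    show (min M (wcod G.B (G.tr q (u.take t)) + tpow M G.B (G.tr q (u.take t)).length *
        G.oc (G.st q (u.take t)) u[t]), min M ((G.tr q (u.take t)).length +
        (G.out (G.st q (u.take t)) u[t]).length), G.δ (G.st q (u.take t)) u[t]) = _
    rw [tpow_eq e8, ← e12, ← e13, min_eq_right (by omega), min_eq_right (by omega)]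

lemma img_eq {M : ℕ} {u : List ℕ} (hu : ∀ y ∈ u, 1 ≤ y ∧ y < G.B) (q : ℕ)
    (h1 : G.B ^ (G.tr q u).length ≤ M) :
    G.img M u.length (wcod G.B u) q = (wcod G.B (G.tr q u), (G.tr q u).length, G.st q u) := by
  have h := G.Base_img_aux hu q h1 u.length le_rfl
  rw [List.take_length] at h
  exact h

omit [Inp α] in
lemma Base_img_bound (M ln X q : ℕ) : (G.img M ln X q).1 ≤ M ∧ (G.img M ln X q).2.1 ≤ M ∧
    (G.img M ln X q).2.2 ≤ q + G.p := by
  unfold img
  cases ln with
  | zero => exact ⟨Nat.zero_le _, Nat.zero_le _, Nat.le_add_right _ _⟩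
  | succ t => exact ⟨min_le_left _ _, min_le_left _ _, (G.δ_lt _ _).le.trans (Nat.le_add_left _ _)⟩

omit [Inp α] in
lemma Base_img_state (M ln X q : ℕ) (hq : q < G.p) : (G.img M ln X q).2.2 < G.p := by
  unfold img
  cases ln with
  | zero => exact hq
  | succ t => exact G.δ_lt _ _

theorem LF_img {M ln X q : α → ℕ} (hM : LF M) (hln : LF ln) (hX : LF X) (hq : LF q) :
    LF fun a => G.img (M a) (ln a) (X a) (q a) := by
  unfold img
  refine LF.itr_le (b := fun a => M a + M a + (q a + G.p)) hln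
    (LF.mk (LF.const 0) (LF.mk (LF.const 0) hq)) ?_ (by fun_prop) fun a i _ => ?_
  · have h1 : LF fun p : α × (ℕ × ℕ × ℕ) × ℕ => G.oc p.2.1.2.2 (dig G.B (X p.1) p.2.2) :=
      G.LF_oc (by fun_prop) (by fun_prop)
    have h2 : LF fun p : α × (ℕ × ℕ × ℕ) × ℕ =>
        (G.out p.2.1.2.2 (dig G.B (X p.1) p.2.2)).length :=
      G.LF_outlen (by fun_prop) (by fun_prop)
    have h3 : LF fun p : α × (ℕ × ℕ × ℕ) × ℕ => G.δ p.2.1.2.2 (dig G.B (X p.1) p.2.2) :=
      G.LF_δ (by fun_prop) (by fun_prop)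
    exact LF.mk (LF.min (by fun_prop) (LF.add (by fun_prop) (LF.mul (by fun_prop) h1)))
      (LF.mk (LF.min (by fun_prop) (LF.add (by fun_prop) h2)) h3)
  · obtain ⟨h1, h2, h3⟩ := G.Base_img_bound (M a) i (X a) (q a)
    have h4 : ∀ y : ℕ × ℕ × ℕ, size y = y.1 + (y.2.1 + y.2.2) := by
      intro y
      rw [show y = (y.1, y.2.1, y.2.2) from rfl, size_pair, size_pair, size_nat, size_nat, size_nat]
    rw [h4]
    unfold img at h1 h2 h3
    show _ ≤ M a + M a + (q a + G.p)
    omega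

/-- rows: code, length, start state, number of letters in front -/
def rowc (M t : ℕ) : ℕ × ℕ × ℕ × ℕ :=
  itr (wcod G.B G.r0, G.r0.length, G.δ 0 G.a, 1) (fun x _ =>
    ((G.img M x.2.1 x.1 x.2.2.1).1, (G.img M x.2.1 x.1 x.2.2.1).2.1,
      (G.img M x.2.1 x.1 x.2.2.1).2.2, min M (x.2.2.2 + x.2.1))) t

lemma rowc_eq {M s t : ℕ} (hs : ∀ i < t, (G.rs i).1.length ≤ s)
    (hM : G.B ^ (G.b * s + G.r0.length) ≤ M) (hE : G.E t ≤ M) :
    G.rowc M t = (wcod G.B (G.rs t).1, (G.rs t).1.length, (G.rs t).2, G.E t) := by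
  have hB := G.Base_B_two
  induction t with
  | zero =>
    rw [E_zero]
    rfl
  | succ t ih =>
    have hE' : G.E t ≤ M := (G.E_mono (Nat.le_succ t)).trans hE
    have h1 := ih (fun i hi => hs i (Nat.lt_succ_of_lt hi)) hE'
    have h2 : (G.tr (G.rs t).2 (G.rs t).1).length ≤ G.b * s + G.r0.length := by
      have h3 := G.tr_length_le (G.rs t).2 (G.rs t).1
      have h4 : G.b * (G.rs t).1.length ≤ G.b * s := Nat.mul_le_mul_left _ (hs t (Nat.lt_succ_self t))
      omega
    have h3 := G.img_eq (M := M) (G.rs_range t) (G.rs t).2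
      ((Nat.pow_le_pow_right (by omega) h2).trans hM)
    show ((G.img M (G.rowc M t).2.1 (G.rowc M t).1 (G.rowc M t).2.2.1).1,
      (G.img M (G.rowc M t).2.1 (G.rowc M t).1 (G.rowc M t).2.2.1).2.1,
      (G.img M (G.rowc M t).2.1 (G.rowc M t).1 (G.rowc M t).2.2.1).2.2,
      min M ((G.rowc M t).2.2.2 + (G.rowc M t).2.1)) = _
    rw [h1]
    show ((G.img M (G.rs t).1.length (wcod G.B (G.rs t).1) (G.rs t).2).1,
      (G.img M (G.rs t).1.length (wcod G.B (G.rs t).1) (G.rs t).2).2.1,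
      (G.img M (G.rs t).1.length (wcod G.B (G.rs t).1) (G.rs t).2).2.2,
      min M (G.E t + (G.rs t).1.length)) = _
    rw [h3, ← E_succ, min_eq_right hE]
    rfl

omit [Inp α] in
lemma Base_rowc_bound (M t : ℕ) : (G.rowc M t).1 ≤ M + wcod G.B G.r0 ∧
    (G.rowc M t).2.1 ≤ M + G.r0.length ∧ (G.rowc M t).2.2.1 < G.p ∧
    (G.rowc M t).2.2.2 ≤ M + 1 := by
  induction t with
  | zero => exact ⟨Nat.le_add_left _ _, Nat.le_add_left _ _, G.δ_lt _ _, Nat.le_add_left _ _⟩
  | succ t ih =>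
    obtain ⟨h1, h2, -⟩ := G.Base_img_bound M (G.rowc M t).2.1 (G.rowc M t).1 (G.rowc M t).2.2.1
    have h3 := G.Base_img_state M (G.rowc M t).2.1 (G.rowc M t).1 (G.rowc M t).2.2.1 ih.2.2.1
    exact ⟨h1.trans (Nat.le_add_right _ _), h2.trans (Nat.le_add_right _ _), h3,
      (min_le_left _ _).trans (Nat.le_add_right _ _)⟩

theorem LF_rowc {M t : α → ℕ} (hM : LF M) (ht : LF t) : LF fun a => G.rowc (M a) (t a) := by
  unfold rowc
  refine LF.itr_le (b := fun a => (M a + wcod G.B G.r0) + ((M a + G.r0.length) +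
    (G.p + (M a + 1)))) ht (LF.const _) ?_ (by fun_prop) fun a i _ => ?_
  · have h0 : LF fun p : α × (ℕ × ℕ × ℕ × ℕ) × ℕ =>
        G.img (M p.1) p.2.1.2.1 p.2.1.1 p.2.1.2.2.1 :=
      G.LF_img (by fun_prop) (by fun_prop) (by fun_prop) (by fun_prop)
    exact LF.mk h0.fst (LF.mk h0.snd.fst (LF.mk h0.snd.snd (LF.min (by fun_prop) (by fun_prop))))
  · obtain ⟨h1, h2, h3, h4⟩ := G.Base_rowc_bound (M a) i
    have h5 : ∀ y : ℕ × ℕ × ℕ × ℕ, size y = y.1 + (y.2.1 + (y.2.2.1 + y.2.2.2)) := by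
      intro y
      rw [show y = (y.1, y.2.1, y.2.2.1, y.2.2.2) from rfl, size_pair, size_pair, size_pair,
        size_nat, size_nat, size_nat, size_nat]
    rw [h5]
    unfold rowc at h1 h2 h3 h4
    show _ ≤ (M a + wcod G.B G.r0) + ((M a + G.r0.length) + (G.p + (M a + 1)))
    omega

/-- number of short rows, at most `n` -/
def T0 (n s : ℕ) : ℕ := fnd n fun i => if s < (G.rs i).1.length then 1 else 0

lemma T0_le (n s : ℕ) : G.T0 n s ≤ n := fnd_le _ _

lemma T0_short {n s i : ℕ} (h : i < G.T0 n s) : (G.rs i).1.length ≤ s := by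
  have h1 := fnd_lt h
  by_contra hcon
  rw [if_pos (not_le.1 hcon)] at h1
  exact one_ne_zero h1

lemma T0_long {n s : ℕ} (h : G.T0 n s < n) : s < (G.rs (G.T0 n s)).1.length := by
  have h1 := fnd_spec h
  by_contra hcon
  apply h1
  exact if_neg hcon

lemma E_T0_le (n s : ℕ) : G.E (G.T0 n s) ≤ 1 + n * s := by
  have key : ∀ t, t ≤ G.T0 n s → G.E t ≤ 1 + t * s := by
    intro t
    induction t with
    | zero =>
      intro _
      rw [E_zero]
      omega
    | succ t ih =>
      intro ht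
      have h1 := ih (by omega)
      have h2 := G.T0_short (n := n) (s := s) (i := t) (by omega)
      rw [E_succ]
      have h3 : (t + 1) * s = t * s + s := by ring
      omega
  have h1 := key _ le_rfl
  have h2 : G.T0 n s * s ≤ n * s := Nat.mul_le_mul_right _ (G.T0_le n s)
  omega

/-- computed number of short rows -/
def t0c (M n s : ℕ) : ℕ := fnd n fun i => if s < (G.rowc M i).2.1 then 1 else 0

omit [Inp α] in
lemma Base_fnd_congr {n : ℕ} {f g : ℕ → ℕ} (h : ∀ i, i ≤ fnd n g → i < n → f i = g i) :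
    fnd n f = fnd n g := by
  rcases lt_trichotomy (fnd n f) (fnd n g) with h1 | h1 | h1
  · exfalso
    have h2 := fnd_le n g
    have h3 := fnd_spec (h1.trans_le h2)
    rw [h _ h1.le (h1.trans_le h2), fnd_lt h1] at h3
    exact h3 rfl
  · exact h1
  · exfalso
    have h2 := fnd_le n f
    have h3 := fnd_spec (h1.trans_le h2)
    rw [← h _ le_rfl (h1.trans_le h2), fnd_lt h1] at h3
    exact h3 rfl

omit [Inp α] in
lemma Base_rowc {M n s : ℕ} (hM : G.B ^ (G.b * s + G.r0.length) ≤ M)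
    (hM' : 1 + n * s + G.b * s + G.r0.length ≤ M) {i : ℕ} (hi : i ≤ G.T0 n s) :
    G.rowc M i = (wcod G.B (G.rs i).1, (G.rs i).1.length, (G.rs i).2, G.E i) := by
  have h1 := G.E_T0_le n s
  have h2 := G.E_mono hi
  exact G.rowc_eq (fun j hj => G.T0_short (n := n) (by omega)) hM (by omega)

lemma t0c_eq {M n s : ℕ} (hM : G.B ^ (G.b * s + G.r0.length) ≤ M)
    (hM' : 1 + n * s + G.b * s + G.r0.length ≤ M) :
    G.t0c M n s = G.T0 n s := by
  refine Base_fnd_congr fun i hi _ => ?_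
  rw [G.Base_rowc hM hM' hi]

theorem LF_t0c {M n s : α → ℕ} (hM : LF M) (hn : LF n) (hs : LF s) :
    LF fun a => G.t0c (M a) (n a) (s a) := by
  unfold t0c
  refine LF.fnd hn ?_
  have h0 : LF fun q : α × ℕ => G.rowc (M q.1) q.2 := G.LF_rowc (by fun_prop) (by fun_prop)
  exact LF.ite_lt (by fun_prop) h0.snd.fst (by fun_prop) (by fun_prop)

/-- number of letters of the iterate number `t0` -/
def e0c (M n s : ℕ) : ℕ := (G.rowc M (G.t0c M n s)).2.2.2

lemma e0c_eq {M n s : ℕ} (hM : G.B ^ (G.b * s + G.r0.length) ≤ M)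
    (hM' : 1 + n * s + G.b * s + G.r0.length ≤ M) :
    G.e0c M n s = G.E (G.T0 n s) := by
  unfold e0c
  rw [G.t0c_eq hM hM', G.Base_rowc hM hM' le_rfl]

/-- letter number `x` from the right of the iterate number `t0` -/
def bas (M n s x : ℕ) : ℕ :=
  if G.e0c M n s ≤ x then 1
  else if G.e0c M n s - 1 - x = 0 then G.a
  else dig G.B (G.rowc M (fnd (G.t0c M n s) fun i =>
      if G.e0c M n s - 1 - x < (G.rowc M i).2.2.2 + (G.rowc M i).2.1 then 1 else 0)).1
    (G.e0c M n s - 1 - x - (G.rowc M (fnd (G.t0c M n s) fun i =>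
      if G.e0c M n s - 1 - x < (G.rowc M i).2.2.2 + (G.rowc M i).2.1 then 1 else 0)).2.2.2)

theorem bas_eq {M n s : ℕ} (x : ℕ) (hM : G.B ^ (G.b * s + G.r0.length) ≤ M)
    (hM' : 1 + n * s + G.b * s + G.r0.length ≤ M) :
    G.bas M n s x = ltr (G.W (G.T0 n s)) x := by
  have hlen : (G.W (G.T0 n s)).length = G.E (G.T0 n s) := rfl
  unfold bas
  rw [G.e0c_eq hM hM', G.t0c_eq hM hM']
  by_cases h1 : G.E (G.T0 n s) ≤ x
  · rw [if_pos h1]
    unfold ltr
    rw [List.getD_eq_default]
    rw [List.length_reverse, hlen]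
    exact h1
  rw [if_neg h1]
  obtain ⟨i, hi⟩ : ∃ i, i = G.E (G.T0 n s) - 1 - x := ⟨_, rfl⟩
  have hiE : i < G.E (G.T0 n s) := by omega
  have hx : x = (G.W (G.T0 n s)).length - 1 - i := by
    rw [hlen]
    omega
  have h2 : ltr (G.W (G.T0 n s)) x = (G.W (G.T0 n s)).getD i 1 := by
    rw [hx, ltr_left (by rw [hlen]; exact hiE)]
  rw [h2, ← hi]
  by_cases h3 : i = 0
  · rw [if_pos h3, h3, G.W_getD (t := 0) (by rw [E_zero]; exact Nat.one_pos) (Nat.zero_le _)]
    rfl
  rw [if_neg h3]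
  have hfc : fnd (G.T0 n s) (fun j => if i < (G.rowc M j).2.2.2 + (G.rowc M j).2.1 then 1 else 0) =
      fnd (G.T0 n s) (fun j => if i < G.E (j + 1) then 1 else 0) := by
    refine Base_fnd_congr fun j _ hj => ?_
    rw [G.Base_rowc hM hM' hj.le, E_succ]
  rw [hfc]
  obtain ⟨r, hr⟩ : ∃ r, r = fnd (G.T0 n s) (fun j => if i < G.E (j + 1) then 1 else 0) := ⟨_, rfl⟩
  rw [← hr]
  have hT : 1 ≤ G.T0 n s := by
    by_contra hcon
    have : G.T0 n s = 0 := by omega
    rw [this, E_zero] at hiE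
    omega
  have hrT : r < G.T0 n s := by
    by_contra hcon
    have h4 : G.T0 n s - 1 < fnd (G.T0 n s) (fun j => if i < G.E (j + 1) then 1 else 0) := by
      rw [← hr]
      omega
    have h5 := fnd_lt h4
    rw [Nat.sub_add_cancel hT, if_pos hiE] at h5
    exact one_ne_zero h5
  have hr1 : i < G.E (r + 1) := by
    have h4 : fnd (G.T0 n s) (fun j => if i < G.E (j + 1) then 1 else 0) < G.T0 n s := by
      rw [← hr]
      exact hrT
    have h5 := fnd_spec h4
    rw [← hr] at h5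
    by_contra hcon
    apply h5
    exact if_neg hcon
  have hr0 : G.E r ≤ i := by
    rcases Nat.eq_zero_or_pos r with h0 | h0
    · rw [h0, E_zero]
      omega
    · have h4 : r - 1 < fnd (G.T0 n s) (fun j => if i < G.E (j + 1) then 1 else 0) := by
        rw [← hr]
        omega
      have h5 := fnd_lt h4
      rw [Nat.sub_add_cancel h0] at h5
      by_contra hcon
      rw [if_pos (not_le.1 hcon)] at h5
      exact one_ne_zero h5
  rw [G.Base_rowc hM hM' hrT.le, G.W_getD hr1 hrT, W_succ]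
  have hWr : (G.W r).length = G.E r := rfl
  rw [List.getD_append_right _ _ _ _ (by rw [hWr]; exact hr0), hWr]
  show dig G.B (wcod G.B (G.rs r).1) (i - G.E r) = _
  rw [dig_wcod (fun y hy => (G.rs_range r y hy).2)]
  have h6 : i - G.E r < (G.rs r).1.length := by
    rw [E_succ] at hr1
    omega
  rw [List.getD_eq_getElem _ _ h6, List.getD_eq_getElem _ _ h6]

theorem LF_e0c {M n s : α → ℕ} (hM : LF M) (hn : LF n) (hs : LF s) :
    LF fun a => G.e0c (M a) (n a) (s a) := by
  unfold e0c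
  exact (G.LF_rowc hM (G.LF_t0c hM hn hs)).snd.snd.snd

theorem LF_bas {M n s x : α → ℕ} (hM : LF M) (hn : LF n) (hs : LF s) (hx : LF x) :
    LF fun a => G.bas (M a) (n a) (s a) (x a) := by
  have he := G.LF_e0c hM hn hs
  have ht := G.LF_t0c hM hn hs
  have he' : LF fun a => G.e0c (M a) (n a) (s a) - 1 - x a :=
    LF.sub (LF.sub he (LF.const 1)) hx
  have hf : LF fun a => fnd (G.t0c (M a) (n a) (s a)) fun i =>
      if G.e0c (M a) (n a) (s a) - 1 - x a < (G.rowc (M a) i).2.2.2 + (G.rowc (M a) i).2.1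
      then 1 else 0 := by
    refine LF.fnd ht ?_
    have h0 : LF fun q : α × ℕ => G.rowc (M q.1) q.2 := G.LF_rowc (by fun_prop) (by fun_prop)
    exact LF.ite_lt (LF.comp he' LF.fst') (LF.add h0.snd.snd.snd h0.snd.fst) (by fun_prop)
      (by fun_prop)
  have hr := G.LF_rowc hM hf
  unfold bas
  exact LF.ite_le he hx (LF.const 1) (LF.ite_eq he' (LF.const 0) (LF.const G.a)
    (LF.dig (LF.const G.B) hr.fst (LF.sub he' hr.snd.snd.snd)))

end NT

end Pool.Agent.W_5d512e_h4
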