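import Pool.Agent.W_5d512e_h4.NT

/-!
# Cascades of a numerical transducer, words seen from the right
-/

set_option autoImplicit false

namespace Pool.Agent.W_5d512e_h4

namespace NT

variable (G : NT)

/-! ### Cascades -/

/-- cascade: list of the states of the levels, input word; new states and output word -/
def casc : List ℕ → List ℕ → List ℕ × List ℕ
  | [], u => ([], u)
  | s :: S, u => (G.st s u :: (casc S (G.tr s u)).1, (casc S (G.tr s u)).2)

lemma casc_nil (S : List ℕ) : G.casc S [] = (S, []) := by
  induction S with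
  | nil => rfl
  | cons s S ih =>
    show (G.st s [] :: (G.casc S (G.tr s [])).1, (G.casc S (G.tr s [])).2) = (s :: S, [])
    have h1 : G.tr s [] = [] := rfl
    have h2 : G.st s [] = s := rfl
    rw [h1, h2, ih]

lemma casc_append (S u v : List ℕ) :
    G.casc S (u ++ v) = ((G.casc (G.casc S u).1 v).1, (G.casc S u).2 ++
      (G.casc (G.casc S u).1 v).2) := by
  induction S generalizing u v with
  | nil => rfl
  | cons s S ih =>
    show (G.st s (u ++ v) :: (G.casc S (G.tr s (u ++ v))).1, (G.casc S (G.tr s (u ++ v))).2) = _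
    rw [st_append, tr_append, ih]
    rfl

lemma casc_states (S u : List ℕ) : (G.casc S u).1.length = S.length := by
  induction S generalizing u with
  | nil => rfl
  | cons s S ih =>
    show (G.st s u :: (G.casc S (G.tr s u)).1).length = _
    rw [List.length_cons, ih, List.length_cons]

lemma length_le_casc (S u : List ℕ) : u.length ≤ (G.casc S u).2.length := by
  induction S generalizing u with
  | nil => exact le_rfl
  | cons s S ih => exact (G.length_le_tr s u).trans (ih _)

lemma casc_length_le (S u : List ℕ) : (G.casc S u).2.length ≤ G.b ^ S.length * u.length := by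
  induction S generalizing u with
  | nil =>
    show u.length ≤ G.b ^ 0 * u.length
    rw [pow_zero, one_mul]
  | cons s S ih =>
    refine (ih (G.tr s u)).trans ?_
    rw [List.length_cons, pow_succ, mul_assoc]
    exact Nat.mul_le_mul_left _ (G.tr_length_le s u)

lemma casc_range (S u : List ℕ) (hS : S ≠ []) : ∀ y ∈ (G.casc S u).2, 1 ≤ y ∧ y < G.B := by
  induction S generalizing u with
  | nil => exact absurd rfl hS
  | cons s S ih =>
    show ∀ y ∈ (G.casc S (G.tr s u)).2, 1 ≤ y ∧ y < G.B
    by_cases h : S = []
    · subst h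
      exact G.tr_range s u
    · exact ih (G.tr s u) h

lemma casc_replicate (g : ℕ) (u : List ℕ) :
    (G.casc (List.replicate g 0) u).2 = (G.tr 0)^[g] u := by
  induction g generalizing u with
  | zero => rfl
  | succ g ih =>
    rw [Function.iterate_succ_apply, ← ih]
    rfl

lemma Cas_definite (n : ℕ) : ∀ S S' u : List ℕ, S.length = n → S'.length = n →
    G.k * n ≤ u.length → (G.casc S u).1 = (G.casc S' u).1 := by
  induction n with
  | zero =>
    intro S S' u h h' _
    rw [List.length_eq_zero_iff.1 h, List.length_eq_zero_iff.1 h']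
  | succ n ih =>
    intro S S' u h h' hu
    cases S with
    | nil => simp at h
    | cons s S =>
    cases S' with
    | nil => simp at h'
    | cons s' S' =>
      rw [List.length_cons] at h h'
      rw [Nat.mul_succ] at hu
      show G.st s u :: (G.casc S (G.tr s u)).1 = G.st s' u :: (G.casc S' (G.tr s' u)).1
      have h1 : G.st s u = G.st s' u := G.definite u (by omega) s s'
      have hk : (u.take G.k).length = G.k := by
        rw [List.length_take]
        omega
      have h2 : G.st s (u.take G.k) = G.st s' (u.take G.k) := G.definite _ (by omega) s s'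
      have e1 : G.tr s u = G.tr s (u.take G.k) ++ G.tr (G.st s (u.take G.k)) (u.drop G.k) := by
        rw [← tr_append, List.take_append_drop]
      have e2 : G.tr s' u = G.tr s' (u.take G.k) ++
          G.tr (G.st s (u.take G.k)) (u.drop G.k) := by
        rw [h2, ← tr_append, List.take_append_drop]
      have e3 : (G.casc S (G.tr s u)).1 = (G.casc (G.casc S (G.tr s (u.take G.k))).1
          (G.tr (G.st s (u.take G.k)) (u.drop G.k))).1 := by
        rw [e1, casc_append]
      have e4 : (G.casc S' (G.tr s' u)).1 = (G.casc (G.casc S' (G.tr s' (u.take G.k))).1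
          (G.tr (G.st s (u.take G.k)) (u.drop G.k))).1 := by
        rw [e2, casc_append]
      rw [h1, e3, e4]
      congr 1
      refine ih _ _ _ ?_ ?_ ?_
      · rw [casc_states]
        omega
      · rw [casc_states]
        omega
      · refine le_trans ?_ (G.length_le_tr _ _)
        rw [List.length_drop]
        omega

/-- a cascade of `g` levels forgets its states after `k * g` letters -/
lemma casc_definite {S S' u : List ℕ} (h : S.length = S'.length)
    (hu : G.k * S.length ≤ u.length) : (G.casc S u).1 = (G.casc S' u).1 :=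
  G.Cas_definite S.length S S' u rfl h.symm hu

lemma Cas_tr_blank (s m : ℕ) : G.tr s (List.replicate m 1) = List.replicate m 1 := by
  induction m generalizing s with
  | zero => rfl
  | succ m ih =>
    rw [List.replicate_succ]
    show G.out s 1 ++ G.tr (G.δ s 1) (List.replicate m 1) = _
    rw [ih, G.out_blank s 1 (Or.inr (Or.inr le_rfl))]
    rfl

lemma Cas_st_zero (m : ℕ) : G.st 0 (List.replicate m 1) = 0 := by
  induction m with
  | zero => rfl
  | succ m ih =>
    rw [List.replicate_succ]
    show G.st (G.δ 0 1) (List.replicate m 1) = 0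
    rw [G.δ_blank 0 1 (Or.inr (Or.inr le_rfl)), ih]

lemma Cas_st_blank (s m : ℕ) : G.st s (List.replicate (m + 1) 1) = 0 := by
  rw [List.replicate_succ]
  show G.st (G.δ s 1) (List.replicate m 1) = 0
  rw [G.δ_blank s 1 (Or.inr (Or.inr le_rfl)), Cas_st_zero]

lemma casc_blank (S : List ℕ) (m : ℕ) :
    G.casc S (List.replicate (m + 1) 1) =
      (List.replicate S.length 0, List.replicate (m + 1) 1) := by
  induction S with
  | nil => rfl
  | cons s S ih =>
    show (G.st s (List.replicate (m + 1) 1) :: (G.casc S (G.tr s (List.replicate (m + 1) 1))).1,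
      (G.casc S (G.tr s (List.replicate (m + 1) 1))).2) = _
    rw [Cas_tr_blank, Cas_st_blank, ih]
    rfl

lemma iter_blank (g m : ℕ) (u : List ℕ) :
    (G.tr 0)^[g] (List.replicate m 1 ++ u) = List.replicate m 1 ++ (G.tr 0)^[g] u := by
  induction g generalizing u with
  | zero => rfl
  | succ g ih =>
    rw [Function.iterate_succ_apply, Function.iterate_succ_apply, tr_append, Cas_tr_blank,
      Cas_st_zero, ih]

/-- output on the word `w0` of the cascade of `g` levels after the warm-up word `w1` -/
def OS (g : ℕ) (w1 w0 : List ℕ) : List ℕ :=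
  (G.casc (G.casc (List.replicate g 0) w1).1 w0).2

/-! ### Words seen from the right -/

/-- the letter number `x` from the right, blanks in front of the word -/
def ltr (u : List ℕ) (x : ℕ) : ℕ := u.reverse.getD x 1

/-- segment number `j` from the right, `c` letters, read from left to right -/
def seg (A : ℕ → ℕ) (c j : ℕ) : List ℕ := ((List.range c).map fun i => A (j * c + i)).reverse

/-- number of letters of the image of the last `j` segments under `g` generations -/
def R (g c : ℕ) (A : ℕ → ℕ) (j : ℕ) : ℕ :=
  ∑ i ∈ Finset.range j, (G.OS g (seg A c (i + 1)) (seg A c i)).length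

/-- the last `L` letters -/
def lst (A : ℕ → ℕ) (L : ℕ) : List ℕ := ((List.range L).map A).reverse

lemma Cas_length_lst (A : ℕ → ℕ) (L : ℕ) : (lst A L).length = L := by
  simp [lst]

lemma Cas_length_seg (A : ℕ → ℕ) (c j : ℕ) : (seg A c j).length = c := by
  simp [seg]

lemma Cas_getElem_lst (A : ℕ → ℕ) (L x : ℕ) (hx : x < L) :
    (lst A L)[L - 1 - x]'(by rw [Cas_length_lst]; omega) = A x := by
  unfold lst
  rw [List.getElem_reverse, List.getElem_map, List.getElem_range]
  congr 1
  simp only [List.length_map, List.length_range]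
  omega

lemma lst_seg (A : ℕ → ℕ) (c j : ℕ) : lst A ((j + 1) * c) = seg A c j ++ lst A (j * c) := by
  unfold lst seg
  rw [Nat.succ_mul, List.range_add, List.map_append, List.reverse_append, List.map_map]
  rfl

lemma lst_suffix (u : List ℕ) (m L : ℕ) (h : L ≤ m + u.length) :
    ∃ v, List.replicate m 1 ++ u = v ++ lst (ltr u) L := by
  refine ⟨(List.replicate m 1 ++ u).take (m + u.length - L), ?_⟩
  have h1 : lst (ltr u) L = (List.replicate m 1 ++ u).drop (m + u.length - L) := by
    apply List.ext_getElem
    · rw [Cas_length_lst, List.length_drop, List.length_append, List.length_replicate]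
      omega
    · intro i hi1 hi2
      rw [Cas_length_lst] at hi1
      have e1 := Cas_getElem_lst (ltr u) L (L - 1 - i) (by omega)
      have e2 : L - 1 - (L - 1 - i) = i := by omega
      simp only [e2] at e1
      rw [e1, List.getElem_drop]
      unfold ltr
      by_cases hu : L - 1 - i < u.length
      · rw [List.getD_eq_getElem _ _ (by rw [List.length_reverse]; exact hu),
          List.getElem_reverse, List.getElem_append_right (by rw [List.length_replicate]; omega)]
        congr 1
        rw [List.length_replicate]
        omega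
      · rw [List.getD_eq_default _ _ (by rw [List.length_reverse]; omega),
          List.getElem_append_left (by rw [List.length_replicate]; omega), List.getElem_replicate]
  rw [h1, List.take_append_drop]

/-- the images of the last `j` segments -/
def Cas_F (g c : ℕ) (A : ℕ → ℕ) (j : ℕ) : List ℕ :=
  ((List.range j).reverse.map fun i => G.OS g (seg A c (i + 1)) (seg A c i)).flatten

lemma Cas_F_succ (g c : ℕ) (A : ℕ → ℕ) (j : ℕ) :
    G.Cas_F g c A (j + 1) = G.OS g (seg A c (j + 1)) (seg A c j) ++ G.Cas_F g c A j := by
  unfold Cas_F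
  rw [List.range_succ, List.reverse_append, List.map_append, List.flatten_append]
  simp

lemma Cas_R_succ (g c : ℕ) (A : ℕ → ℕ) (j : ℕ) :
    G.R g c A (j + 1) = G.R g c A j + (G.OS g (seg A c (j + 1)) (seg A c j)).length := by
  unfold R
  rw [Finset.sum_range_succ]

lemma Cas_F_length (g c : ℕ) (A : ℕ → ℕ) (j : ℕ) :
    (G.Cas_F g c A j).length = G.R g c A j := by
  induction j with
  | zero => rfl
  | succ j ih => rw [Cas_F_succ, Cas_R_succ, List.length_append, ih, add_comm]

lemma Cas_main {g c : ℕ} (hg : G.k * g ≤ c) (A : ℕ → ℕ) (j : ℕ) :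
    (G.casc (G.casc (List.replicate g 0) (seg A c j)).1 (lst A (j * c))).2 = G.Cas_F g c A j := by
  induction j with
  | zero =>
    rw [Nat.zero_mul]
    have h1 : lst A 0 = [] := rfl
    rw [h1, casc_nil]
    rfl
  | succ j ih =>
    rw [lst_seg, casc_append, Cas_F_succ]
    have h1 : (G.casc (G.casc (List.replicate g 0) (seg A c (j + 1))).1 (seg A c j)).1 =
        (G.casc (List.replicate g 0) (seg A c j)).1 := by
      refine G.casc_definite ?_ ?_
      · rw [casc_states]
      · rw [casc_states, List.length_replicate, Cas_length_seg]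
        exact hg
    rw [h1, ih]
    rfl

lemma Cas_split {g c : ℕ} (hg : G.k * g ≤ c) (u : List ℕ) (j : ℕ) :
    ∃ X : List ℕ, u.length + c ≤ X.length ∧
      List.replicate ((j + 1) * c) 1 ++ (G.tr 0)^[g] u = X ++ G.Cas_F g c (ltr u) j := by
  obtain ⟨v, hv⟩ := lst_suffix u ((j + 1) * c) ((j + 1) * c) (Nat.le_add_right _ _)
  have hvl : v.length = u.length := by
    have h1 := congrArg List.length hv
    rw [List.length_append, List.length_append, List.length_replicate, Cas_length_lst] at h1
    omega
  refine ⟨(G.casc (List.replicate g 0) (v ++ seg (ltr u) c j)).2, ?_, ?_⟩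
  · refine le_trans ?_ (G.length_le_casc _ _)
    rw [List.length_append, Cas_length_seg, hvl]
  · have e1 : (G.casc (List.replicate g 0) (v ++ seg (ltr u) c j)).1 =
        (G.casc (List.replicate g 0) (seg (ltr u) c j)).1 := by
      have e0 : (G.casc (List.replicate g 0) (v ++ seg (ltr u) c j)).1 =
          (G.casc (G.casc (List.replicate g 0) v).1 (seg (ltr u) c j)).1 := by
        rw [casc_append]
      rw [e0]
      refine G.casc_definite ?_ ?_
      · rw [casc_states]
      · rw [casc_states, List.length_replicate, Cas_length_seg]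
        exact hg
    have e2 : (G.casc (List.replicate g 0) ((v ++ seg (ltr u) c j) ++ lst (ltr u) (j * c))).2 =
        (G.casc (List.replicate g 0) (v ++ seg (ltr u) c j)).2 ++
        (G.casc (G.casc (List.replicate g 0) (v ++ seg (ltr u) c j)).1
          (lst (ltr u) (j * c))).2 := by
      rw [casc_append]
    rw [← iter_blank, hv, lst_seg, ← List.append_assoc, ← casc_replicate, e2, e1,
      G.Cas_main hg (ltr u) j]

/-- the images of the last `j` segments, written one after the other, are the last letters of the
iterate -/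
lemma image_segs {g c : ℕ} (hc : 1 ≤ c) (hg : G.k * g ≤ c) (u : List ℕ) (j : ℕ) :
    ((List.range j).reverse.map fun i =>
      G.OS g (seg (ltr u) c (i + 1)) (seg (ltr u) c i)).flatten =
      lst (ltr ((G.tr 0)^[g] u)) (G.R g c (ltr u) j) := by
  obtain ⟨X, _, hX⟩ := G.Cas_split hg u j
  have hl := congrArg List.length hX
  rw [List.length_append, List.length_append, List.length_replicate, Cas_F_length] at hl
  obtain ⟨v, hv⟩ := lst_suffix ((G.tr 0)^[g] u) ((j + 1) * c) (G.R g c (ltr u) j) (by omega)
  rw [hX] at hv
  have h1 : (G.Cas_F g c (ltr u) j).length =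
      (lst (ltr ((G.tr 0)^[g] u)) (G.R g c (ltr u) j)).length := by
    rw [Cas_F_length, Cas_length_lst]
  exact List.append_inj_right' hv h1

/-- **letters of the iterate.**  `x` in the image of segment `j`. -/
theorem ltr_iter {g c : ℕ} (hc : 1 ≤ c) (hg : G.k * g ≤ c) (u : List ℕ) {j x : ℕ}
    (h1 : G.R g c (ltr u) j ≤ x) (h2 : x < G.R g c (ltr u) (j + 1)) :
    ltr ((G.tr 0)^[g] u) x = (G.OS g (seg (ltr u) c (j + 1)) (seg (ltr u) c j)).getD
      ((G.OS g (seg (ltr u) c (j + 1)) (seg (ltr u) c j)).length - 1 -
        (x - G.R g c (ltr u) j)) 0 := by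
  have h3 : lst (ltr ((G.tr 0)^[g] u)) (G.R g c (ltr u) (j + 1)) =
      G.OS g (seg (ltr u) c (j + 1)) (seg (ltr u) c j) ++ G.Cas_F g c (ltr u) j := by
    rw [← G.image_segs hc hg u (j + 1)]
    exact G.Cas_F_succ g c (ltr u) j
  have h4 := Cas_getElem_lst (ltr ((G.tr 0)^[g] u)) (G.R g c (ltr u) (j + 1)) x h2
  rw [← h4, ← List.getD_eq_getElem _ 0, h3]
  rw [Cas_R_succ] at h2 ⊢
  rw [List.getD_append _ _ _ _ (by omega)]
  congr 1
  omega

/-- all letters are covered -/
theorem R_total {g c J : ℕ} (hc : 1 ≤ c) (hg : G.k * g ≤ c) (u : List ℕ)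
    (hJ : u.length ≤ J * c) :
    G.R g c (ltr u) J + u.length = J * c + ((G.tr 0)^[g] u).length := by
  have h1 : seg (ltr u) c J = List.replicate c 1 := by
    apply List.ext_getElem
    · rw [Cas_length_seg, List.length_replicate]
    · intro i hi1 hi2
      unfold seg
      rw [List.getElem_reverse, List.getElem_map, List.getElem_range, List.getElem_replicate]
      unfold ltr
      rw [List.getD_eq_default]
      rw [List.length_reverse]
      omega
  obtain ⟨v, hv⟩ := lst_suffix u (J * c - u.length) (J * c) (by omega)
  have hvl : v = [] := by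
    have h2 := congrArg List.length hv
    rw [List.length_append, List.length_append, List.length_replicate, Cas_length_lst] at h2
    exact List.length_eq_zero_iff.1 (by omega)
  rw [hvl, List.nil_append] at hv
  have h3 := G.Cas_main hg (ltr u) J
  obtain ⟨c', rfl⟩ : ∃ c', c = c' + 1 := ⟨c - 1, by omega⟩
  rw [h1, casc_blank, List.length_replicate, casc_replicate, ← hv, iter_blank] at h3
  rw [← Cas_F_length, ← h3, List.length_append, List.length_replicate]
  omega

lemma Cas_le_OS {g c : ℕ} (A : ℕ → ℕ) (j : ℕ) :
    c ≤ (G.OS g (seg A c (j + 1)) (seg A c j)).length := by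
  have h1 := G.length_le_casc (G.casc (List.replicate g 0) (seg A c (j + 1))).1 (seg A c j)
  rw [Cas_length_seg] at h1
  exact h1

lemma Cas_R_add {g c : ℕ} (A : ℕ → ℕ) (j d : ℕ) : G.R g c A j + d * c ≤ G.R g c A (j + d) := by
  induction d with
  | zero => simp
  | succ d ih =>
    have h1 := G.Cas_le_OS (g := g) (c := c) A (j + d)
    rw [← add_assoc, Cas_R_succ, Nat.succ_mul]
    omega

lemma le_R {g c : ℕ} (A : ℕ → ℕ) (j : ℕ) : j * c ≤ G.R g c A j := by
  have h1 := G.Cas_R_add (g := g) (c := c) A 0 j
  rw [zero_add] at h1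
  omega

lemma R_mono {g c : ℕ} (A : ℕ → ℕ) {j j' : ℕ} (h : j ≤ j') : G.R g c A j ≤ G.R g c A j' := by
  have h1 := G.Cas_R_add (g := g) (c := c) A j (j' - j)
  rw [Nat.add_sub_cancel' h] at h1
  omega

lemma R_le {g c : ℕ} (hc : 1 ≤ c) (hg : G.k * g ≤ c) (u : List ℕ) (j : ℕ) :
    G.R g c (ltr u) j ≤ j * c + ((G.tr 0)^[g] u).length := by
  have h1 : u.length ≤ (j + u.length) * c := by
    have h2 := Nat.mul_le_mul_left (j + u.length) hc
    omega
  have h3 := G.R_total hc hg u h1
  have h4 := G.Cas_R_add (g := g) (c := c) (ltr u) j u.length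
  rw [Nat.add_mul] at h3
  omega

lemma seg_length (A : ℕ → ℕ) (c j : ℕ) : (seg A c j).length = c := by
  simp [seg]

lemma ltr_range {t x : ℕ} : 1 ≤ ltr (G.W t) x ∧ ltr (G.W t) x < G.B := by
  unfold ltr
  by_cases h : x < (G.W t).reverse.length
  · rw [List.getD_eq_getElem _ _ h]
    exact G.W_range t _ (List.mem_reverse.1 (List.getElem_mem h))
  · rw [List.getD_eq_default _ _ (not_lt.1 h)]
    have h1 := G.a_two
    have h2 := G.a_lt
    omega

/-- letter number `i` from the left -/
lemma ltr_left {u : List ℕ} {i : ℕ} (h : i < u.length) :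
    ltr u (u.length - 1 - i) = u.getD i 1 := by
  unfold ltr
  rw [List.getD_eq_getElem _ _ (by rw [List.length_reverse]; omega), List.getElem_reverse,
    List.getD_eq_getElem _ _ h]
  congr 1
  omega

end NT

end Pool.Agent.W_5d512e_h4
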