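import Pool.Agent.W_5d512e_h4.Arith

/-!
# Digits: vectors of numbers below `B` coded by one number
-/

set_option autoImplicit false

namespace Pool.Agent.W_5d512e_h4

variable {α β γ : Type} [Inp α] [Inp β] [Inp γ]

/-- digit `i` of `X` in base `B` -/
def dig (B X i : ℕ) : ℕ := X / B ^ i % B

/-- number with digits `x 0, ..., x (c-1)` in base `B` -/
def cod (B c : ℕ) (x : ℕ → ℕ) : ℕ := ∑ i ∈ Finset.range c, x i * B ^ i

/-- change digit `i` of `X` to `d`; the power is truncated at `M` -/
def setd (M B X i d : ℕ) : ℕ := X - dig B X i * tpow M B i + d * tpow M B i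

/-- `cod` with the powers truncated at `M` -/
def codt (M B c : ℕ) (x : ℕ → ℕ) : ℕ := ∑ i ∈ Finset.range c, x i * tpow M B i

lemma dig_lt {B : ℕ} (hB : 0 < B) (X i : ℕ) : dig B X i < B := Nat.mod_lt _ hB

lemma cod_lt {B c : ℕ} {x : ℕ → ℕ} (hx : ∀ i < c, x i < B) : cod B c x < B ^ c := by
  induction c with
  | zero => simp [cod]
  | succ c ih =>
    have h1 := ih fun i hi => hx i (by omega)
    have h2 := hx c (by omega)
    unfold cod at *
    rw [Finset.sum_range_succ, pow_succ]
    have h3 : (x c + 1) * B ^ c ≤ B * B ^ c := Nat.mul_le_mul_right _ h2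
    rw [add_mul, one_mul] at h3
    rw [mul_comm (B ^ c) B]
    omega

lemma cod_succ' (B c : ℕ) (x : ℕ → ℕ) :
    cod B (c + 1) x = x 0 + B * cod B c (fun i => x (i + 1)) := by
  unfold cod
  rw [Finset.sum_range_succ', Finset.mul_sum]
  simp only [pow_zero, mul_one]
  rw [add_comm]
  congr 1
  exact Finset.sum_congr rfl fun i _ => by ring

lemma dig_succ (B X i : ℕ) : dig B X (i + 1) = dig B (X / B) i := by
  unfold dig
  rw [pow_succ', ← Nat.div_div_eq_div_mul]

lemma dig_zero' (B X : ℕ) : dig B X 0 = X % B := by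
  unfold dig
  rw [pow_zero, Nat.div_one]

lemma dig_cod {B c : ℕ} {x : ℕ → ℕ} (hx : ∀ i < c, x i < B) {i : ℕ} (hi : i < c) :
    dig B (cod B c x) i = x i := by
  induction i generalizing c x with
  | zero =>
    obtain ⟨c, rfl⟩ : ∃ k, c = k + 1 := ⟨c - 1, by omega⟩
    rw [cod_succ', dig_zero', Nat.add_mul_mod_self_left]
    exact Nat.mod_eq_of_lt (hx 0 (by omega))
  | succ i ih =>
    obtain ⟨c, rfl⟩ : ∃ k, c = k + 1 := ⟨c - 1, by omega⟩
    have hB : 0 < B := lt_of_le_of_lt (Nat.zero_le _) (hx 0 (by omega))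
    rw [cod_succ', dig_succ, Nat.add_mul_div_left _ _ hB,
      Nat.div_eq_of_lt (hx 0 (by omega)), zero_add]
    exact ih (fun j hj => hx (j + 1) (by omega)) (by omega)

lemma cod_dig {B c X : ℕ} (hX : X < B ^ c) : cod B c (dig B X) = X := by
  induction c generalizing X with
  | zero =>
    rw [pow_zero] at hX
    simp [cod]
    omega
  | succ c ih =>
    rw [cod_succ', dig_zero']
    have h1 : (fun i => dig B X (i + 1)) = dig B (X / B) := by
      funext i
      exact dig_succ B X i
    rw [h1, ih (Nat.div_lt_of_lt_mul (by rw [← pow_succ']; exact hX))]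
    exact Nat.mod_add_div X B

/-- two numbers below `B ^ c` with the same digits are equal -/
lemma dig_ext {B c X Y : ℕ} (hX : X < B ^ c) (hY : Y < B ^ c)
    (h : ∀ i < c, dig B X i = dig B Y i) : X = Y := by
  rw [← cod_dig hX, ← cod_dig hY]
  exact Finset.sum_congr rfl fun i hi => by rw [h i (Finset.mem_range.1 hi)]

lemma dig_zero (B i : ℕ) : dig B 0 i = 0 := by
  unfold dig
  rw [Nat.zero_div, Nat.zero_mod]

lemma cod_congr {B c : ℕ} {x y : ℕ → ℕ} (h : ∀ i < c, x i = y i) : cod B c x = cod B c y :=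
  Finset.sum_congr rfl fun i hi => by rw [h i (Finset.mem_range.1 hi)]

lemma codt_eq {M B c : ℕ} (hB : 1 ≤ B) (h : B ^ c ≤ M) (x : ℕ → ℕ) :
    codt M B c x = cod B c x := by
  unfold codt cod
  refine Finset.sum_congr rfl fun i hi => ?_
  rw [tpow_eq ((Nat.pow_le_pow_right hB (Finset.mem_range.1 hi).le).trans h)]

lemma setd_key {M B c X i d : ℕ} (hM : B ^ c ≤ M) (hX : X < B ^ c) (hi : i < c) (hd : d < B) :
    setd M B X i d = cod B c fun j => if j = i then d else dig B X j := by
  have hB : 0 < B := lt_of_le_of_lt (Nat.zero_le _) hd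
  have h1 : tpow M B i = B ^ i := tpow_eq ((Nat.pow_le_pow_right hB hi.le).trans hM)
  unfold setd
  rw [h1]
  have h2 : X = cod B c (dig B X) := (cod_dig hX).symm
  have hmem : i ∈ Finset.range c := Finset.mem_range.2 hi
  have h3 : cod B c (dig B X) = dig B X i * B ^ i +
      ∑ j ∈ (Finset.range c).erase i, dig B X j * B ^ j := by
    unfold cod
    exact (Finset.add_sum_erase _ _ hmem).symm
  have h4 : (cod B c fun j => if j = i then d else dig B X j) = d * B ^ i +
      ∑ j ∈ (Finset.range c).erase i, dig B X j * B ^ j := by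
    unfold cod
    rw [← Finset.add_sum_erase _ _ hmem]
    congr 1
    · show (if i = i then d else dig B X i) * B ^ i = _
      rw [if_pos rfl]
    · refine Finset.sum_congr rfl fun j hj => ?_
      show (if j = i then d else dig B X j) * B ^ j = _
      rw [if_neg (Finset.ne_of_mem_erase hj)]
  rw [h4]
  rw [h3] at h2
  omega

lemma dig_setd {M B c X i d : ℕ} (hM : B ^ c ≤ M) (hX : X < B ^ c) (hi : i < c) (hd : d < B)
    (j : ℕ) : dig B (setd M B X i d) j = if j = i then d else dig B X j := by
  have hB : 0 < B := lt_of_le_of_lt (Nat.zero_le _) hd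
  rw [setd_key hM hX hi hd]
  have hlt : ∀ k < c, (if k = i then d else dig B X k) < B := fun k _ => by
    split_ifs
    · exact hd
    · exact dig_lt hB X k
  by_cases hj : j < c
  · rw [dig_cod hlt hj]
  · rw [if_neg (by omega)]
    have h1 : B ^ c ≤ B ^ j := Nat.pow_le_pow_right hB (by omega)
    have h2 : ∀ Y < B ^ c, dig B Y j = 0 := fun Y hY => by
      unfold dig
      rw [Nat.div_eq_of_lt (hY.trans_le h1), Nat.zero_mod]
    rw [h2 _ (cod_lt hlt), h2 _ hX]

lemma setd_lt {M B c X i d : ℕ} (hM : B ^ c ≤ M) (hX : X < B ^ c) (hi : i < c) (hd : d < B) :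
    setd M B X i d < B ^ c := by
  have hB : 0 < B := lt_of_le_of_lt (Nat.zero_le _) hd
  rw [setd_key hM hX hi hd]
  refine cod_lt fun k _ => ?_
  split_ifs
  · exact hd
  · exact dig_lt hB X k

/-- `X / B ^ i = X / min (X + 1) (B ^ i)` -/
@[fun_prop] theorem LF.dig {f g h : α → ℕ} (hf : LF f) (hg : LF g) (hh : LF h) :
    LF fun x => dig (f x) (g x) (h x) := by
  have key : ∀ B X i : ℕ, Pool.Agent.W_5d512e_h4.dig B X i =
      X / Pool.Agent.W_5d512e_h4.tpow (X + 1) B i % B := by
    intro B X i
    unfold Pool.Agent.W_5d512e_h4.dig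
    rw [tpow_eq_min]
    rcases le_total (X + 1) (B ^ i) with h1 | h1
    · rw [min_eq_left h1, Nat.div_eq_of_lt (by omega), Nat.div_eq_of_lt (by omega)]
    · rw [min_eq_right h1]
  simp only [key]
  fun_prop

@[fun_prop] theorem LF.setd {f g h k l : α → ℕ} (hf : LF f) (hg : LF g) (hh : LF h) (hk : LF k)
    (hl : LF l) : LF fun x => setd (f x) (g x) (h x) (k x) (l x) := by
  unfold Pool.Agent.W_5d512e_h4.setd
  fun_prop

theorem LF.codt {M B c : α → ℕ} {x : α → ℕ → ℕ} (hM : LF M) (hB : LF B) (hc : LF c)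
    (hx : LF fun p : α × ℕ => x p.1 p.2) : LF fun a => codt (M a) (B a) (c a) (x a) := by
  unfold Pool.Agent.W_5d512e_h4.codt
  refine LF.sum hc ?_
  have h1 : LF fun p : α × ℕ => M p.1 := LF.comp hM (LF.fst LF.id)
  have h2 : LF fun p : α × ℕ => B p.1 := LF.comp hB (LF.fst LF.id)
  fun_prop

/-- every function on numbers below a constant is computable: table look-up in a constant -/
theorem LF.table {f : α → ℕ} (hf : LF f) (n : ℕ) (x : ℕ → ℕ) :
    LF fun a => if f a < n then x (f a) else 0 := by
  induction n with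
  | zero =>
    simp only [Nat.not_lt_zero, if_false]
    fun_prop
  | succ n ih =>
    have h1 : (fun a => if f a < n + 1 then x (f a) else 0) =
        fun a => if f a = n then x n else if f a < n then x (f a) else 0 := by
      funext a
      by_cases h : f a = n
      · rw [if_pos (by omega), if_pos h, h]
      · rw [if_neg h]
        by_cases h' : f a < n
        · rw [if_pos (by omega), if_pos h']
        · rw [if_neg (by omega), if_neg h']
    rw [h1]
    fun_prop

/-! ### Words coded by numbers: letters `1, ..., B - 1`, first letter = lowest digit -/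

/-- code of a word -/
def wcod (B : ℕ) : List ℕ → ℕ
  | [] => 0
  | x :: l => x + B * wcod B l

lemma wcod_eq_zero {B : ℕ} (hB : 0 < B) {l : List ℕ} (h : ∀ x ∈ l, 0 < x) :
    wcod B l = 0 ↔ l = [] := by
  cases l with
  | nil => simp [wcod]
  | cons x l =>
    have := h x (by simp)
    simp only [wcod, reduceCtorEq, iff_false]
    omega

lemma wcod_lt {B : ℕ} {l : List ℕ} (h : ∀ x ∈ l, x < B) : wcod B l < B ^ l.length := by
  induction l with
  | nil => simp [wcod]
  | cons x l ih =>
    have h1 := h x (by simp)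
    have h2 := ih fun y hy => h y (by simp [hy])
    simp only [wcod, List.length_cons, pow_succ']
    have h3 : B * (wcod B l + 1) ≤ B * B ^ l.length := Nat.mul_le_mul_left _ h2
    rw [mul_add, mul_one] at h3
    omega

lemma wcod_mod {B x : ℕ} (hx : x < B) (l : List ℕ) : wcod B (x :: l) % B = x := by
  rw [wcod, Nat.add_mul_mod_self_left]
  exact Nat.mod_eq_of_lt hx

lemma wcod_div {B x : ℕ} (hx : x < B) (l : List ℕ) : wcod B (x :: l) / B = wcod B l := by
  rw [wcod, Nat.add_mul_div_left _ _ (by omega), Nat.div_eq_of_lt hx, zero_add]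

lemma wcod_append (B : ℕ) (l l' : List ℕ) :
    wcod B (l ++ l') = wcod B l + B ^ l.length * wcod B l' := by
  induction l with
  | nil => simp [wcod]
  | cons x l ih =>
    simp only [List.cons_append, wcod, List.length_cons, ih]
    ring

lemma dig_wcod {B : ℕ} {l : List ℕ} (h : ∀ x ∈ l, x < B) (i : ℕ) :
    dig B (wcod B l) i = l.getD i 0 := by
  induction l generalizing i with
  | nil =>
    rw [wcod, dig_zero]
    simp
  | cons x l ih =>
    cases i with
    | zero =>
      rw [dig_zero', wcod_mod (h x (by simp))]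
      simp
    | succ i =>
      rw [dig_succ, wcod_div (h x (by simp)), ih fun y hy => h y (by simp [hy])]
      simp

end Pool.Agent.W_5d512e_h4
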