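import Pool.Agent.W_5d512e_h4.Dig

/-!
# Polynomial extension of a function on a grid

`ext m n F` extends the function `F` on `{0, ..., m-1} ^ n` (points coded in base `m`) to a
polynomial function on `(ZMod q) ^ n` of degree at most `n * (m - 1)`.
-/

set_option autoImplicit false

namespace Pool.Agent.W_5d512e_h4

variable {q : ℕ} [Fact q.Prime]

/-- Lagrange polynomial for the nodes `0, ..., m-1` -/
noncomputable def lag (m a : ℕ) (y : ZMod q) : ZMod q :=
  ∏ b ∈ Finset.range m, if b = a then 1 else (y - b) * ((a : ZMod q) - b)⁻¹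

/-- the extension; `F` is a function of the code, the first `n` values of `y` are used -/
noncomputable def ext (m n : ℕ) (F : ℕ → ℕ) (y : ℕ → ZMod q) : ZMod q :=
  ∑ X ∈ Finset.range (m ^ n), (F X : ZMod q) * ∏ l ∈ Finset.range n, lag m (dig m X l) (y l)

lemma Ext_cast_inj {a b : ℕ} (ha : a < q) (hb : b < q) (h : (a : ZMod q) = (b : ZMod q)) :
    a = b := by
  rw [ZMod.natCast_eq_natCast_iff', Nat.mod_eq_of_lt ha, Nat.mod_eq_of_lt hb] at h
  exact h

lemma lag_nat {m a b : ℕ} (hm : m ≤ q) (ha : a < m) (hb : b < m) :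
    lag m a (b : ZMod q) = if b = a then 1 else 0 := by
  unfold lag
  split_ifs with hba
  · subst hba
    apply Finset.prod_eq_one
    intro c hc
    split_ifs with h
    · rfl
    · refine mul_inv_cancel₀ (sub_ne_zero.2 fun h' => h ?_)
      exact (Ext_cast_inj (hb.trans_le hm) ((Finset.mem_range.1 hc).trans_le hm) h').symm
  · apply Finset.prod_eq_zero (Finset.mem_range.2 hb)
    rw [if_neg hba, sub_self, zero_mul]

/-- the extension extends: only the point `X` with digits `x l` contributes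
(`dig_ext`, `dig_cod`) -/
lemma ext_nat {m n : ℕ} (hm : m ≤ q) (F : ℕ → ℕ) {y : ℕ → ZMod q} {x : ℕ → ℕ}
    (hx : ∀ l < n, x l < m) (hy : ∀ l < n, y l = (x l : ZMod q)) :
    ext m n F y = (F (cod m n x) : ZMod q) := by
  unfold ext
  rw [Finset.sum_eq_single_of_mem (cod m n x) (Finset.mem_range.2 (cod_lt hx))]
  · rw [Finset.prod_eq_one, mul_one]
    intro l hl
    have hl := Finset.mem_range.1 hl
    rw [dig_cod hx hl, hy l hl, lag_nat hm (hx l hl) (hx l hl), if_pos rfl]
  · intro X hX hne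
    have hX := Finset.mem_range.1 hX
    have : ∃ l < n, dig m X l ≠ x l := by
      by_contra hcon
      push Not at hcon
      apply hne
      apply dig_ext hX (cod_lt hx)
      intro i hi
      rw [dig_cod hx hi, hcon i hi]
    obtain ⟨l, hl, hne'⟩ := this
    have hm0 : 0 < m := lt_of_le_of_lt (Nat.zero_le _) (hx l hl)
    rw [Finset.prod_eq_zero (Finset.mem_range.2 hl), mul_zero]
    rw [hy l hl, lag_nat hm (dig_lt hm0 _ _) (hx l hl), if_neg (Ne.symm hne')]

/-- only the first `n` values matter -/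
lemma ext_congr {m n : ℕ} (F : ℕ → ℕ) {y y' : ℕ → ZMod q} (h : ∀ l < n, y l = y' l) :
    ext m n F y = ext m n F y' := by
  unfold ext
  refine Finset.sum_congr rfl fun X _ => ?_
  congr 1
  exact Finset.prod_congr rfl fun l hl => by rw [h l (Finset.mem_range.1 hl)]

lemma ext_zero {m n : ℕ} {F : ℕ → ℕ} (h : ∀ X < m ^ n, F X = 0) (y : ℕ → ZMod q) :
    ext m n F y = 0 := by
  unfold ext
  refine Finset.sum_eq_zero fun X hX => ?_
  rw [h X (Finset.mem_range.1 hX), Nat.cast_zero, zero_mul]

lemma Ext_lag_line {m a : ℕ} (ha : a < m) (r v : ZMod q) :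
    ∃ p : Polynomial (ZMod q), p.natDegree ≤ m - 1 ∧
      ∀ z : ZMod q, p.eval z = lag m a (z * r + v) := by
  refine ⟨∏ b ∈ (Finset.range m).erase a,
    (Polynomial.X * Polynomial.C r + Polynomial.C v - Polynomial.C (b : ZMod q)) *
      Polynomial.C (((a : ZMod q) - b)⁻¹), ?_, ?_⟩
  · refine (Polynomial.natDegree_prod_le _ _).trans ?_
    refine (Finset.sum_le_sum (g := fun _ => 1) fun b _ => ?_).trans ?_
    · compute_degree
    · rw [Finset.sum_const, smul_eq_mul, mul_one, Finset.card_erase_of_mem (Finset.mem_range.2 ha),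
        Finset.card_range]
  · intro z
    rw [Polynomial.eval_prod]
    unfold lag
    rw [← Finset.mul_prod_erase _ _ (Finset.mem_range.2 ha), if_pos rfl, one_mul]
    refine Finset.prod_congr rfl fun b hb => ?_
    rw [if_neg (Finset.ne_of_mem_erase hb)]
    simp only [Polynomial.eval_mul, Polynomial.eval_sub, Polynomial.eval_add, Polynomial.eval_X,
      Polynomial.eval_C]

/-- along a line `z ↦ z ρ + v` the extension is a polynomial of degree `≤ n * (m - 1)` in `z` -/
lemma ext_line (m n : ℕ) (F : ℕ → ℕ) (ρ v : ℕ → ZMod q) :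
    ∃ p : Polynomial (ZMod q), p.natDegree ≤ n * (m - 1) ∧
      ∀ z : ZMod q, p.eval z = ext m n F fun l => z * ρ l + v l := by
  have key : ∀ X ∈ Finset.range (m ^ n), ∀ l ∈ Finset.range n, ∃ p : Polynomial (ZMod q),
      p.natDegree ≤ m - 1 ∧ ∀ z : ZMod q, p.eval z = lag m (dig m X l) (z * ρ l + v l) := by
    intro X hX l hl
    have hm : 0 < m := by
      rcases Nat.eq_zero_or_pos m with rfl | h
      · have h1 := Finset.mem_range.1 hX
        have h2 := Finset.mem_range.1 hl
        rw [Nat.zero_pow (by omega)] at h1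
        omega
      · exact h
    exact Ext_lag_line (dig_lt hm X l) _ _
  choose! P hP using key
  refine ⟨∑ X ∈ Finset.range (m ^ n), Polynomial.C (F X : ZMod q) *
    ∏ l ∈ Finset.range n, P X l, ?_, ?_⟩
  · refine Polynomial.natDegree_sum_le_of_forall_le _ _ fun X hX => ?_
    refine (Polynomial.natDegree_C_mul_le _ _).trans ?_
    refine (Polynomial.natDegree_prod_le _ _).trans ?_
    refine (Finset.sum_le_sum (g := fun _ => m - 1) fun l hl => (hP X hX l hl).1).trans ?_
    rw [Finset.sum_const, smul_eq_mul, Finset.card_range]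
  · intro z
    rw [Polynomial.eval_finsetSum]
    unfold ext
    refine Finset.sum_congr rfl fun X hX => ?_
    rw [Polynomial.eval_mul, Polynomial.eval_C, Polynomial.eval_prod]
    congr 1
    exact Finset.prod_congr rfl fun l hl => (hP X hX l hl).2 z

lemma Ext_sum_univ (f : ZMod q → ZMod q) :
    ∑ z : ZMod q, f z = ∑ i ∈ Finset.range q, f (i : ZMod q) := by
  symm
  refine Finset.sum_bij (fun i _ => (i : ZMod q)) (fun _ _ => Finset.mem_univ _) ?_ ?_ ?_
  · intro a ha b hb h
    exact Ext_cast_inj (Finset.mem_range.1 ha) (Finset.mem_range.1 hb) h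
  · intro b _
    exact ⟨b.val, Finset.mem_range.2 (ZMod.val_lt b), ZMod.natCast_zmod_val b⟩
  · intro a _
    rfl

/-- sum of a polynomial of degree `< q - 1` over the nonzero elements
(`FiniteField.sum_pow_lt_card_sub_one`) -/
lemma sum_eval_ne_zero {p : Polynomial (ZMod q)} (hp : p.natDegree < q - 1) :
    ∑ z ∈ Finset.range (q - 1), p.eval ((z + 1 : ℕ) : ZMod q) = - p.eval 0 := by
  have h1 : ∑ z : ZMod q, p.eval z = 0 := by
    simp_rw [Polynomial.eval_eq_sum_range]
    rw [Finset.sum_comm]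
    refine Finset.sum_eq_zero fun i hi => ?_
    rw [← Finset.mul_sum, FiniteField.sum_pow_lt_card_sub_one, mul_zero]
    rw [ZMod.card]
    have := Finset.mem_range.1 hi
    omega
  rw [Ext_sum_univ] at h1
  have hq : q = q - 1 + 1 := by
    have := (Fact.out : q.Prime).pos
    omega
  have h2 : ∑ i ∈ Finset.range (q - 1 + 1), p.eval (i : ZMod q) = 0 := by
    rw [← hq]
    exact h1
  rw [Finset.sum_range_succ', Nat.cast_zero] at h2
  exact eq_neg_of_add_eq_zero_left h2

/-- **the Cook-Mertz identity** -/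
theorem ext_sum {m n : ℕ} (h : n * (m - 1) < q - 1) (F : ℕ → ℕ) (ρ v : ℕ → ZMod q) :
    ∑ z ∈ Finset.range (q - 1), ext m n F (fun l => ((z + 1 : ℕ) : ZMod q) * ρ l + v l) =
      - ext m n F v := by
  obtain ⟨p, hp, he⟩ := ext_line m n F ρ v
  have h1 := sum_eval_ne_zero (p := p) (by omega)
  rw [he 0] at h1
  simp only [he, zero_mul, zero_add] at h1
  exact h1

/-! ### Computable version -/

/-- Lagrange polynomial modulo `q` -/
def lagd (q m a y : ℕ) : ℕ :=
  mprod q m fun b => if b = a then 1 else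
    (y + (q - 1) * b) * minv q ((a + (q - 1) * b) % q) % q

lemma lagd_cast {m a : ℕ} (hm : m ≤ q) (ha : a < m) (y : ℕ) :
    (lagd q m a y : ZMod q) = lag m a (y : ZMod q) := by
  unfold lagd lag
  rw [mprod_cast]
  refine Finset.prod_congr rfl fun b hb => ?_
  have hb := Finset.mem_range.1 hb
  split_ifs with h
  · exact Nat.cast_one
  · have hq : 1 ≤ q := (Fact.out : q.Prime).pos
    have e : ∀ x : ℕ, ((x + (q - 1) * b : ℕ) : ZMod q) = x - b := by
      intro x
      push_cast [Nat.cast_sub hq]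
      rw [ZMod.natCast_self]
      ring
    have hne : (((a + (q - 1) * b) % q : ℕ) : ZMod q) ≠ 0 := by
      rw [ZMod.natCast_mod, e, sub_ne_zero]
      exact fun h' => h (Ext_cast_inj (ha.trans_le hm) (hb.trans_le hm) h').symm
    rw [ZMod.natCast_mod, Nat.cast_mul, e, minv_cast _ hne, ZMod.natCast_mod, e]

/-- the extension modulo `q`; the number of points is truncated at `M` -/
def extd (q M m n : ℕ) (F : ℕ → ℕ) (y : ℕ → ℕ) : ℕ :=
  (∑ X ∈ Finset.range (tpow M m n), F X * mprod q n fun l => lagd q m (dig m X l) (y l)) % q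

lemma extd_cast {M m n : ℕ} (hm : m ≤ q) (hm0 : 1 ≤ m) (hM : m ^ n ≤ M) (F : ℕ → ℕ)
    (y : ℕ → ℕ) : (extd q M m n F y : ZMod q) = ext m n F fun l => (y l : ZMod q) := by
  unfold extd ext
  rw [ZMod.natCast_mod, tpow_eq hM, Nat.cast_sum]
  refine Finset.sum_congr rfl fun X _ => ?_
  rw [Nat.cast_mul, mprod_cast]
  congr 1
  exact Finset.prod_congr rfl fun l _ => lagd_cast hm (dig_lt hm0 _ _) _

section

variable {α : Type} [Inp α]

@[fun_prop] theorem LF.lagd {f g h k : α → ℕ} (hf : LF f) (hg : LF g) (hh : LF h) (hk : LF k) :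
    LF fun x => lagd (f x) (g x) (h x) (k x) := by
  unfold Pool.Agent.W_5d512e_h4.lagd
  refine LF.mprod hf hg ?_
  fun_prop

theorem LF.extd {q M m n : α → ℕ} {F y : α → ℕ → ℕ} (hq : LF q) (hM : LF M) (hm : LF m)
    (hn : LF n) (hF : LF fun p : α × ℕ => F p.1 p.2) (hy : LF fun p : α × ℕ => y p.1 p.2) :
    LF fun a => extd (q a) (M a) (m a) (n a) (F a) (y a) := by
  unfold Pool.Agent.W_5d512e_h4.extd
  refine LF.mod (LF.sum (LF.tpow hM hm hn) ?_) hq
  refine LF.mul hF ?_
  refine LF.mprod (hq.comp LF.fst') (hn.comp LF.fst') ?_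
  refine LF.lagd ?_ ?_ ?_ ?_
  · fun_prop
  · fun_prop
  · fun_prop
  · exact LF.comp hy (g := fun p : (α × ℕ) × ℕ => (p.1.1, p.2)) (by fun_prop)

end

end Pool.Agent.W_5d512e_h4
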