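import Pool.Agent.W_5d512e_h4.Arith

/-!
# From computable functions to generating machines

`gen_of_cm`, `gen_of_prog` generalise `log_of_cm`, `log_of_prog` of
`Pool.Agent.W_MP_5d512e_dic` (same proofs, with an arbitrary monotone bound `Nf` of the registers
instead of a polynomial one; the space is `log₂ (Nf (n-1)) + 1` up to a constant factor).
-/

set_option autoImplicit false

namespace Pool.Agent.W_5d512e_h4

open Pool.Agent.W_MP_5d512e_dic Pool.Agent.W_MP_5d512e_lc

/-- `w` is generated by a deterministic multi-tape machine whose heads stay, until `n` letters are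
output, in the first `C * S n` cells, for a constant `C`. -/
def GenIn {d : ℕ} (w : ℕ → Fin d) (S : ℕ → ℕ) : Prop :=
  ∃ (m k g C : ℕ)
    (δM : Fin (m+1) → (Fin k → Fin (g+1)) →
      Fin (m+1) × (Fin k → Fin (g+1)) × (Fin k → Fin 3) × Option (Fin d))
    (conf : ℕ → Fin (m+1) × (Fin k → ℕ → Fin (g+1)) × (Fin k → ℕ) × List (Fin d)),
    conf 0 = (0, fun _ _ => 0, fun _ => 0, []) ∧
    (∀ t : ℕ, conf (t+1) =
      ((δM (conf t).1 (fun j => (conf t).2.1 j ((conf t).2.2.1 j))).1,
       fun j i => if i = (conf t).2.2.1 j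
         then (δM (conf t).1 (fun j' => (conf t).2.1 j' ((conf t).2.2.1 j'))).2.1 j
         else (conf t).2.1 j i,
       fun j => (conf t).2.2.1 j
         + ((δM (conf t).1 (fun j' => (conf t).2.1 j' ((conf t).2.2.1 j'))).2.2.1 j : ℕ) - 1,
       (conf t).2.2.2
         ++ ((δM (conf t).1 (fun j' => (conf t).2.1 j' ((conf t).2.2.1 j'))).2.2.2).toList)) ∧
    (∀ (t i : ℕ) (h : i < (conf t).2.2.2.length), (conf t).2.2.2[i] = w i) ∧
    (∀ n : ℕ, ∃ t : ℕ, n ≤ (conf t).2.2.2.length) ∧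
    (∀ n t : ℕ, 1 ≤ n → (∀ t' < t, (conf t').2.2.2.length < n) →
      ∀ j : Fin k, (conf t).2.2.1 j + 1 ≤ C * S n)

lemma GenIn.mono {d : ℕ} {w : ℕ → Fin d} {S S' : ℕ → ℕ} (h : GenIn w S) (D : ℕ)
    (hS : ∀ n, 1 ≤ n → S n ≤ D * S' n) : GenIn w S' := by
  obtain ⟨m, k, g, C, δM, conf, h0, h1, h2, h3, h4⟩ := h
  refine ⟨m, k, g, C * D, δM, conf, h0, h1, h2, h3, ?_⟩
  intro n t hn ht j
  refine (h4 n t hn ht j).trans ?_
  rw [mul_assoc]
  exact Nat.mul_le_mul_left C (hS n hn)

/-- As `log_of_cm`, with an arbitrary bound for the registers.  Note `Nf (n - 1)`: the `n`-th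
letter is output in the run `hrun (n - 1)`. -/
theorem gen_of_cm {Q R : Type} [Finite Q] [Finite R] [DecidableEq R] {d : ℕ}
    (P : Q → Ins Q R (Fin d)) (w : ℕ → Fin d) (Nf : ℕ → ℕ) (hmono : Monotone Nf)
    (h1 : 1 ≤ Nf 0) (qs : ℕ → Q) (vs : ℕ → R → ℕ) (hv0 : vs 0 = fun _ => 0)
    (hrun : ∀ n, CS P (Nf n) (qs n, vs n, (List.range n).map w)
      (qs (n + 1), vs (n + 1), (List.range n).map w ++ [w n])) :
    GenIn w fun n => Nat.log 2 (Nf (n - 1)) + 1 := by
  classical
  set δ := tm P (qs 0) with hδ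
  set Bf : ℕ → ℕ := fun n => Nat.log 2 (2 * Nf n) + 1 with hBf
  have hBmono : Monotone Bf := by
    intro a b hab
    simp only [hBf]
    have := Nat.log_mono_right (b := 2) (Nat.mul_le_mul_left 2 (hmono hab))
    omega
  have hpos : ∀ n, 1 ≤ Nf n := fun n => h1.trans (hmono (Nat.zero_le n))
  have hB : ∀ n L, 2 ^ L ≤ 2 * Nf n → L + 1 ≤ Bf n := by
    intro n L hL
    have h2 : 2 * Nf n ≠ 0 := by have := hpos n; omega
    have := Nat.le_log_of_pow_le (b := 2) (by norm_num) hL
    simp only [hBf]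
    omega
  set c0 : Cfg R (Ts Q) (Fin 4) (Fin d) := (.ini, fun _ _ => 0, fun _ => 0, []) with hc0
  have key : ∀ n, ∃ ds, Rp (Nf (n - 1)) ds (vs n) ∧
      Reach δ (Bf (n - 1)) c0 (tc (qs n) ds ((List.range n).map w)) := by
    intro n
    induction n with
    | zero =>
      refine ⟨fun _ => [], ?_, ?_⟩
      · intro r
        rw [hv0]
        refine ⟨rfl, ?_⟩
        have := hpos 0
        show 2 ^ 0 ≤ 2 * Nf 0
        omega
      · refine Reach.one ?_ (fun j => Nat.zero_le _) (fun j => Nat.zero_le _)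
        rw [hc0, hδ]
        unfold step tc
        simp only [tm]
        refine Prod.ext rfl (Prod.ext ?_ (Prod.ext ?_ rfl))
        · funext j i
          simp only
          cases i with
          | zero => rfl
          | succ i => simp [enc]
        · funext j
          simp
    | succ n ih =>
      obtain ⟨ds, k1, k2⟩ := ih
      obtain ⟨ds', k3, k4⟩ := sim_run P (qs 0) (hB n) (hpos n) (hrun n) ds
        (k1.mono (hmono (by omega)))
      have e : (List.range (n + 1)).map w = (List.range n).map w ++ [w n] := by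
        rw [List.range_succ, List.map_append]
        rfl
      refine ⟨ds', k3.mono (hmono (by omega)), ?_⟩
      rw [e]
      exact (Reach.monoB k2 (hBmono (by omega))).trans k4
  -- times
  have key2 : ∀ n, ∃ t, ((step δ)^[t] c0).2.2.2 = (List.range n).map w ∧
      ∀ i ≤ t, ok (Bf (n - 1)) ((step δ)^[i] c0) := by
    intro n
    obtain ⟨ds, -, k⟩ := key n
    obtain ⟨t, k1, k2⟩ := k.iter
    exact ⟨t, by rw [k1]; rfl, k2⟩
  obtain ⟨m, k, g, δM, conf, ee, hh0, hstep, hout, hhead⟩ := encode (ι := R) (Ts.ini : Ts Q)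
    (0 : Fin 4) δ
  have hout' : ∀ t, (conf t).2.2.2 = ((step δ)^[t] c0).2.2.2 := hout
  have hhead' : ∀ t j, (conf t).2.2.1 j = ((step δ)^[t] c0).2.2.1 (ee.symm j) := hhead
  refine ⟨m, k, g, 3, δM, conf, hh0, hstep, ?_, ?_, ?_⟩
  · intro t i h
    obtain ⟨s, hs, -⟩ := key2 ((conf t).2.2.2.length + 1)
    have hts : t ≤ s := by
      by_contra hcon
      have hp := out_prefix_iter δ c0 s t (by omega)
      rw [hs, ← hout'] at hp
      have := hp.length_le
      simp at this
    have hp := out_prefix_iter δ c0 t s hts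
    rw [hs, ← hout'] at hp
    rw [hp.getElem h]
    simp
  · intro n
    obtain ⟨t, ht, -⟩ := key2 n
    refine ⟨t, ?_⟩
    rw [hout', ht]
    simp
  · intro n t hn ht j
    obtain ⟨s, hs, hok⟩ := key2 n
    have hts : t ≤ s := by
      by_contra hcon
      have := ht s (by omega)
      rw [hout', hs] at this
      simp at this
    have h2 := hok t hts (ee.symm j)
    rw [hhead']
    have h3 : ((step δ)^[t] c0).2.2.1 (ee.symm j) ≤ Nat.log 2 (2 * Nf (n - 1)) + 1 := h2
    have h4 : Nat.log 2 (2 * Nf (n - 1)) = Nat.log 2 (Nf (n - 1)) + 1 := by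
      rw [mul_comm]
      exact Nat.log_mul_base (by norm_num) (by have := hpos (n - 1); omega)
    show _ ≤ 3 * (Nat.log 2 (Nf (n - 1)) + 1)
    omega

/-- As `log_of_prog`, with an arbitrary bound for the registers. -/
theorem gen_of_prog {E R : Type} [Finite E] [Finite R] [DecidableEq R] {d : ℕ}
    (body : Cmd E R (Fin d)) (w : ℕ → Fin d) (Nf : ℕ → ℕ) (hmono : Monotone Nf)
    (h1 : 1 ≤ Nf 0) (Inv : ℕ → E × (R → ℕ) → Prop)
    (σ0 : E) (h0 : Inv 0 (σ0, fun _ => 0))
    (hstep : ∀ n s, Inv n s → ∃ s', Ev (Nf n) body s [w n] s' ∧ Inv (n + 1) s') :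
    GenIn w fun n => Nat.log 2 (Nf (n - 1)) + 1 := by
  classical
  -- the sequence of the stores
  choose! f hf using hstep
  let ss : ℕ → E × (R → ℕ) := fun n => Nat.rec (σ0, fun _ => 0) (fun n s => f n s) n
  have hss : ∀ n, Inv n (ss n) := by
    intro n
    induction n with
    | zero => exact h0
    | succ n ih => exact (hf n _ ih).2
  let Z : Set (List (Cmd E R (Fin d)) × E) := {q | q.1 ∈ cls body []}
  have hfin : Z.Finite := by
    have : Z ⊆ (cls body []) ×ˢ (Set.univ : Set E) := fun q hq => ⟨hq, trivial⟩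
    exact ((cls_finite body []).prod Set.finite_univ).subset this
  have hZfin : Finite Z := hfin
  let z0 : Z := ⟨([], σ0), tail_mem_cls body []⟩
  let ρ : List (Cmd E R (Fin d)) × E → Z := fun q => if h : q ∈ Z then ⟨q, h⟩ else z0
  have hρ : ∀ q ∈ Z, (ρ q).1 = q := by
    intro q hq
    simp only [ρ, dif_pos hq]
  let P' : Z → Ins Z R (Fin d) := fun z => (pg body z.1).map ρ
  have hP : ∀ q ∈ Z, P' (ρ q) = (pg body q).map ρ := by
    intro q hq
    simp only [P', hρ q hq]
  have hZ : ∀ q ∈ Z, ∀ q' ∈ tg (pg body q), q' ∈ Z := by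
    rintro ⟨L, σ⟩ hq q' hq'
    by_cases hL : L = []
    · subst hL
      have : q' = ([body], σ) := hq'
      rw [this]
      exact head_mem_cls body []
    · exact cls_closed body body [] L hq hL σ q' hq'
  refine gen_of_cm P' w Nf hmono h1 (fun n => ρ ([], (ss n).1)) (fun n => (ss n).2) rfl ?_
  intro n
  have k1 := run_of_ev body (hf n _ (hss n)).1 [] ((List.range n).map w)
  have k0 : CStep (pg body) (Nf n) (([], (ss n).1), (ss n).2, (List.range n).map w)
      (([body], (ss n).1), (ss n).2, (List.range n).map w) := CStep.jmp _ _ _ _ rfl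
  have k2 := (Relation.ReflTransGen.single k0).trans k1
  exact (CS.transfer ρ Z hZ hP k2 (tail_mem_cls body [])).2

/-- Programs over the registers `ℕ` which use only the registers below `K`: the invariant is
that register `0` holds `n` and all other registers are zero. -/
theorem gen_of_natprog {d K : ℕ} (body : Cmd Unit ℕ (Fin d)) (hK : Uses (Set.Iio K) body)
    (hK0 : 0 < K) (w : ℕ → Fin d) (Nf : ℕ → ℕ) (hmono : Monotone Nf) (h1 : 1 ≤ Nf 0)
    (hstep : ∀ n : ℕ, Ev (Nf n) body ((), Inp.enc n) [w n] ((), Inp.enc (n + 1))) :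
    GenIn w fun n => Nat.log 2 (Nf (n - 1)) + 1 := by
  classical
  let f : ℕ → Fin K := fun r => if h : r < K then ⟨r, h⟩ else ⟨0, hK0⟩
  let g : (ℕ → ℕ) → Fin K → ℕ := fun v i => v i
  have hf : ∀ r, r < K → ((f r : Fin K) : ℕ) = r := by
    intro r hr
    simp only [f, dif_pos hr]
  refine gen_of_prog (cmap f body) w Nf hmono h1
    (fun n s => s = ((), g (Inp.enc n))) () ?_ ?_
  · refine Prod.ext rfl ?_
    funext i
    show 0 = (if (i : ℕ) = 0 then 0 else 0)
    split_ifs <;> rfl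
  · intro n s hs
    rw [hs]
    refine ⟨((), g (Inp.enc (n + 1))), ?_, rfl⟩
    refine Ev.map f g (Set.Iio K) ?_ ?_ hK (hstep n)
    · intro v r hr
      show v (f r : Fin K) = v r
      rw [hf r hr]
    · intro v r hr x
      funext i
      show Function.update v r x (i : ℕ) = _
      by_cases hi : i = f r
      · rw [hi, Function.update_self, hf r hr, Function.update_self]
      · rw [Function.update_of_ne hi, Function.update_of_ne]
        intro h
        apply hi
        apply Fin.ext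
        rw [hf r hr, h]

/-- Output of the letter whose number is in register `r`; the register is cleared. -/
def sel {d : ℕ} (r : ℕ) : List (Fin d) → Cmd Unit ℕ (Fin d)
  | [] => clr r
  | x :: l => .ifz r (.out fun _ => x) (.sq (.dec r) (sel r l))

lemma ev_sel {d N : ℕ} (r : ℕ) (l : List (Fin d)) (v : ℕ → ℕ) (i : ℕ) (hi : i < l.length)
    (hv : v r = i) :
    Ev N (sel r l) ((), v) [l[i]] ((), Function.update v r 0) := by
  induction l generalizing v i with
  | nil => exact absurd hi (Nat.not_lt_zero i)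
  | cons x l ih =>
    cases i with
    | zero =>
      have e : Function.update v r 0 = v := by
        rw [← hv]
        exact Function.update_eq_self r v
      rw [e]
      exact Ev.ifz0 r _ _ () v _ _ hv (Ev.out _ () v)
    | succ i =>
      have h0 : v r ≠ 0 := by omega
      have h2 := ih (Function.update v r (v r - 1)) i (by simpa using hi)
        (by rw [Function.update_self]; omega)
      rw [Function.update_idem] at h2
      exact Ev.ifz1 r _ _ () v _ _ h0 (Ev.sq _ _ _ _ _ [] _ (Ev.dec r () v h0) h2)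

/-- Contents of the registers of the driver. -/
def spaceSt (n s M f x : ℕ) : ℕ → ℕ := fun i =>
  if i = 0 then n else if i = 1 then s else if i = 2 then M else if i = 3 then f
  else if i = 4 then x else 0

lemma spaceSt_up0 (n s M f x y : ℕ) :
    Function.update (spaceSt n s M f x) 0 y = spaceSt y s M f x := by
  funext i
  by_cases hi : i = 0
  · rw [hi, Function.update_self]; rfl
  · rw [Function.update_of_ne hi]
    simp only [spaceSt, if_neg hi]

lemma spaceSt_up1 (n s M f x y : ℕ) :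
    Function.update (spaceSt n s M f x) 1 y = spaceSt n y M f x := by
  funext i
  by_cases hi : i = 1
  · rw [hi, Function.update_self]; rfl
  · rw [Function.update_of_ne hi]
    simp only [spaceSt, if_neg hi]

lemma spaceSt_up2 (n s M f x y : ℕ) :
    Function.update (spaceSt n s M f x) 2 y = spaceSt n s y f x := by
  funext i
  by_cases hi : i = 2
  · rw [hi, Function.update_self]; rfl
  · rw [Function.update_of_ne hi]
    simp only [spaceSt, if_neg hi]

lemma spaceSt_up3 (n s M f x y : ℕ) :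
    Function.update (spaceSt n s M f x) 3 y = spaceSt n s M y x := by
  funext i
  by_cases hi : i = 3
  · rw [hi, Function.update_self]; rfl
  · rw [Function.update_of_ne hi]
    simp only [spaceSt, if_neg hi]

lemma spaceSt_up4 (n s M f x y : ℕ) :
    Function.update (spaceSt n s M f x) 4 y = spaceSt n s M f y := by
  funext i
  by_cases hi : i = 4
  · rw [hi, Function.update_self]; rfl
  · rw [Function.update_of_ne hi]
    simp only [spaceSt, if_neg hi]

lemma spaceSt_enc (n : ℕ) : (Inp.enc n : ℕ → ℕ) = spaceSt n 0 0 0 0 := by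
  funext i
  show (if i = 0 then n else 0) = _
  unfold spaceSt
  split_ifs <;> rfl

/-- Call of a computed function of the registers `0, 1, 2`, with result in register `t`. -/
lemma space_call {A : Type} {N : ℕ} {f : ℕ × ℕ × ℕ → ℕ} {c : Cmd Unit ℕ A} {n s M fl x : ℕ}
    (hc : Comp N c () 3 1 (Inp.enc (n, s, M)) (Inp.enc (f (n, s, M)))) (t : ℕ) (ht : t + 1 ≤ 5)
    (h0 : spaceSt n s M fl x t = 0) (hn : n ≤ N) (hs : s ≤ N) (hM : M ≤ N) :
    Ev N (call c 3 1 0 t 5) ((), spaceSt n s M fl x) []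
      ((), Function.update (spaceSt n s M fl x) t (f (n, s, M))) := by
  have henc : ∀ i, (Inp.enc (n, s, M) : ℕ → ℕ) i =
      if i = 0 then n else if i = 1 then s else if i = 2 then M else 0 := by
    intro i
    match i with
    | 0 => rfl
    | 1 => rfl
    | 2 => rfl
    | (i + 3) => rfl
  have h := ev_call (N := N) (a := 0) (t := t) (m := 5) (v := spaceSt n s M fl x) hc ?_ ?_
    (by norm_num) ht ?_ ?_ ?_
  · have e : blk (spaceSt n s M fl x) t 1 (Inp.enc (f (n, s, M))) =
        Function.update (spaceSt n s M fl x) t (f (n, s, M)) := by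
      funext i
      unfold blk
      by_cases hi : i = t
      · subst hi
        rw [Function.update_self, if_pos ⟨le_refl _, Nat.lt_succ_self _⟩, Nat.sub_self]
        rfl
      · rw [Function.update_of_ne hi, if_neg (by omega)]
    rw [e] at h
    exact h
  · intro i hi
    rw [henc, if_neg (by omega), if_neg (by omega), if_neg (by omega)]
  · intro i
    rw [henc]
    split_ifs <;> omega
  · intro i hi
    unfold spaceSt
    rw [if_neg (by omega), if_neg (by omega), if_neg (by omega), if_neg (by omega),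
      if_neg (by omega)]
  · intro i hi
    rw [henc, zero_add]
    unfold spaceSt
    match i, hi with
    | 0, _ => rfl
    | 1, _ => rfl
    | 2, _ => rfl
  · intro i hi
    have : i = 0 := by omega
    rw [this, add_zero]
    exact h0

/-- The body of the search loop. -/
def spaceLp {A : Type} (cM cf : Cmd Unit ℕ A) : Cmd Unit ℕ A :=
  .sq (clr 3) (.sq (call cM 3 1 0 4 5) (.sq (clr 2) (.sq (mv 4 2) (.sq (.inc 1)
    (call cf 3 1 0 3 5)))))

/-- The driver. -/
def spaceDr {d : ℕ} (cI cM cf cF : Cmd Unit ℕ (Fin d)) : Cmd Unit ℕ (Fin d) :=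
  .sq (.sq (call cI 3 1 0 2 5) (.sq (call cf 3 1 0 3 5) (.sq (.wh 3 (spaceLp cM cf))
    (call cF 3 1 0 4 5)))) (.sq (sel 4 (List.finRange d)) (.sq (clr 1) (.sq (clr 2) (.inc 0))))

lemma space_uses_sel {d K : ℕ} (r : ℕ) (hr : r < K) (l : List (Fin d)) :
    Uses (Set.Iio K) (sel r l) := by
  induction l with
  | nil => exact uses_clr hr
  | cons x l ih => exact ⟨hr, trivial, hr, ih⟩

lemma space_uses {d K : ℕ} {cI cM cf cF : Cmd Unit ℕ (Fin d)} (hI : Uses (Set.Iio K) cI)
    (hM : Uses (Set.Iio K) cM) (hf : Uses (Set.Iio K) cf) (hF : Uses (Set.Iio K) cF) :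
    Uses (Set.Iio (K + 10)) (spaceDr cI cM cf cF) := by
  have hc : ∀ (c : Cmd Unit ℕ (Fin d)) (t : ℕ), Uses (Set.Iio K) c → t + 1 ≤ 5 →
      Uses (Set.Iio (K + 10)) (call c 3 1 0 t 5) := fun c t h ht =>
    uses_call h (by norm_num) ht (by omega) (by omega)
  have hr : ∀ r : ℕ, r < 10 → r ∈ Set.Iio (K + 10) := fun r h => by
    show r < K + 10
    omega
  refine ⟨⟨hc _ _ hI (by norm_num), hc _ _ hf (by norm_num), ⟨hr _ (by norm_num), ?_⟩,
    hc _ _ hF (by norm_num)⟩, space_uses_sel 4 (hr _ (by norm_num)) _,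
    uses_clr (hr _ (by norm_num)), uses_clr (hr _ (by norm_num)), hr _ (by norm_num)⟩
  exact ⟨uses_clr (hr _ (by norm_num)), hc _ _ hM (by norm_num), uses_clr (hr _ (by norm_num)),
    ⟨hr _ (by norm_num), hr _ (by norm_num), hr _ (by norm_num)⟩, hr _ (by norm_num),
    hc _ _ hf (by norm_num)⟩

/-- One round of the loop. -/
lemma space_ev_lp {A : Type} {N : ℕ} {gM gf : ℕ × ℕ × ℕ → ℕ} {cM cf : Cmd Unit ℕ A}
    {n s M M' fl : ℕ}
    (hM : Comp N cM () 3 1 (Inp.enc (n, s, M)) (Inp.enc (gM (n, s, M))))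
    (hM' : gM (n, s, M) = M')
    (hf : Comp N cf () 3 1 (Inp.enc (n, s + 1, M')) (Inp.enc (gf (n, s + 1, M'))))
    (h1 : n ≤ N) (h2 : s + 1 ≤ N) (h3 : M ≤ N) (h4 : M' ≤ N) :
    Ev N (spaceLp cM cf) ((), spaceSt n s M fl 0) []
      ((), spaceSt n (s + 1) M' (gf (n, s + 1, M')) 0) := by
  have k1 := ev_cl (A := A) (N := N) 3 () (spaceSt n s M fl 0)
  rw [spaceSt_up3] at k1
  have k2 := space_call (fl := 0) (x := 0) hM 4 (by norm_num) rfl h1 (by omega) h3
  rw [spaceSt_up4, hM'] at k2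
  have k3 := ev_cl (A := A) (N := N) 2 () (spaceSt n s M 0 M')
  rw [spaceSt_up2] at k3
  have k4 := ev_mv (A := A) (N := N) (a := 4) (b := 2) (by norm_num) () (spaceSt n s 0 0 M')
    (by show M' + 0 ≤ N; omega)
  have e4 : (spaceSt n s 0 0 M') 2 + (spaceSt n s 0 0 M') 4 = M' := by
    show 0 + M' = M'
    omega
  rw [e4, spaceSt_up4, spaceSt_up2] at k4
  have k5 := Ev.inc (A := A) (N := N) 1 () (spaceSt n s M' 0 0) (by show s + 1 ≤ N; exact h2)
  have e5 : (spaceSt n s M' 0 0) 1 + 1 = s + 1 := rfl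
  rw [e5, spaceSt_up1] at k5
  have k6 := space_call (fl := 0) (x := 0) hf 3 (by norm_num) rfl h1 h2 h4
  rw [spaceSt_up3] at k6
  exact Ev.sq0 k1 (Ev.sq0 k2 (Ev.sq0 k3 (Ev.sq0 k4 (Ev.sq0 k5 k6))))

/-- **The interface.**  For the letter with index `n` the numbers `s = 0, 1, 2, ...` are tried,
each with `M = (n + 2) ^ (B * (s + 1))`, until `P (n, s, M) ≠ 0`; then `F (n, s, M)` is the
letter.  Program: register `0` = `n`, `1` = `s`, `2` = `M`, `3` = flag (`1` if `P (n, s, M) = 0`),
`4` = temporary; while flag: `M := M * (n + 2) ^ B`, `s := s + 1`, new flag.  Then `F` into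
register `4`, `sel`, clear `1, 2, 3`, increment `0`.  All registers are bounded by a fixed power
of `(n + 2) ^ (B * (sf n + 1))` times a constant. -/
theorem gen_of_LF {d : ℕ} (w : ℕ → Fin d) {P F : ℕ × ℕ × ℕ → ℕ} (hP : LF P) (hF : LF F)
    (B : ℕ) (hB : 1 ≤ B) (sf : ℕ → ℕ) (hmono : Monotone sf)
    (h0 : ∀ n s, s < sf n → P (n, s, (n + 2) ^ (B * (s + 1))) = 0)
    (h1 : ∀ n, P (n, sf n, (n + 2) ^ (B * (sf n + 1))) ≠ 0)
    (hw : ∀ n, F (n, sf n, (n + 2) ^ (B * (sf n + 1))) = (w n : ℕ)) :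
    GenIn w fun n => (sf (n - 1) + 1) * (Nat.log 2 n + 1) := by
  classical
  -- the functions
  let gI : ℕ × ℕ × ℕ → ℕ := fun a => (a.1 + 2) ^ B
  let gM : ℕ × ℕ × ℕ → ℕ := fun a => a.2.2 * (a.1 + 2) ^ B
  let gf : ℕ × ℕ × ℕ → ℕ := fun a => if P a = 0 then 1 else 0
  have lI : LF gI := LF.pow_const (LF.add (LF.fst LF.id) (LF.const 2)) B
  have lM : LF gM := LF.mul (LF.snd (LF.snd LF.id))
    (LF.pow_const (LF.add (LF.fst LF.id) (LF.const 2)) B)
  have lf : LF gf := LF.ite_zero hP (LF.const 1) (LF.const 0)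
  obtain ⟨cI, KI, CI, eI, uI, hI⟩ := lI (Fin d)
  obtain ⟨cM, KM, CM, eM, uM, hM⟩ := lM (Fin d)
  obtain ⟨cf, Kf, Cf, ef, uf, hf⟩ := lf (Fin d)
  obtain ⟨cF, KF, CF, eF, uF, hFF⟩ := hF (Fin d)
  set C := CI + CM + Cf + CF + 1 with hC
  set e := eI + eM + ef + eF + 1 with he
  set X : ℕ → ℕ := fun n => (n + 2) ^ (B * (sf n + 1)) with hX
  set Nf : ℕ → ℕ := fun n => C * (4 * X n) ^ e with hNf
  have hXpos : ∀ n, 1 ≤ X n := fun n => Nat.one_le_pow _ _ (by omega)
  have hXmono : Monotone X := by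
    intro a b hab
    show (a + 2) ^ (B * (sf a + 1)) ≤ (b + 2) ^ (B * (sf b + 1))
    refine (Nat.pow_le_pow_left (by omega) _).trans (Nat.pow_le_pow_right (by omega) ?_)
    exact Nat.mul_le_mul_left B (by have := hmono hab; omega)
  have hNmono : Monotone Nf := by
    intro a b hab
    exact Nat.mul_le_mul_left C (Nat.pow_le_pow_left (Nat.mul_le_mul_left 4 (hXmono hab)) e)
  have hN4 : ∀ n, 4 * X n ≤ Nf n := by
    intro n
    have h2 : 4 * X n ≤ (4 * X n) ^ e := by
      calc 4 * X n = (4 * X n) ^ 1 := (pow_one _).symm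
        _ ≤ (4 * X n) ^ e := Nat.pow_le_pow_right (by have := hXpos n; omega) (by omega)
    exact h2.trans (Nat.le_mul_of_pos_left _ (by omega))
  have hNpos : ∀ n, 1 ≤ Nf n := fun n => by
    have := hN4 n
    have := hXpos n
    omega
  -- sizes
  have hM1 : ∀ n s, s ≤ sf n → (n + 2) ^ (B * (s + 1)) ≤ X n := by
    intro n s hs
    exact Nat.pow_le_pow_right (by omega) (Nat.mul_le_mul_left B (by omega))
  have hn1 : ∀ n, n + 2 ≤ X n := by
    intro n
    calc n + 2 = (n + 2) ^ 1 := (pow_one _).symm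
      _ ≤ (n + 2) ^ (B * (sf n + 1)) := Nat.pow_le_pow_right (by omega)
        (Nat.mul_pos (by omega) (by omega))
  have hs1 : ∀ n s, s ≤ sf n → s + 1 ≤ X n := by
    intro n s hs
    calc s + 1 ≤ 2 ^ (s + 1) := (Nat.lt_two_pow_self).le
      _ ≤ (n + 2) ^ (s + 1) := Nat.pow_le_pow_left (by omega) _
      _ ≤ (n + 2) ^ (B * (s + 1)) := Nat.pow_le_pow_right (by omega)
        (Nat.le_mul_of_pos_left _ (by omega))
      _ ≤ X n := hM1 n s hs
  have hsz : ∀ n s M, s ≤ sf n → M ≤ X n → size (n, s, M) + 1 ≤ 4 * X n := by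
    intro n s M hs hM
    rw [size_pair, size_pair, size_nat, size_nat, size_nat]
    have := hn1 n
    have := hs1 n s hs
    omega
  have hbd : ∀ n s M C' e', s ≤ sf n → M ≤ X n → C' ≤ C → e' ≤ e →
      C' * (size (n, s, M) + 1) ^ e' ≤ Nf n := by
    intro n s M C' e' hs hM hC' he'
    refine (Nat.mul_le_mul hC' (Nat.pow_le_pow_left (hsz n s M hs hM) e')).trans ?_
    exact Nat.mul_le_mul_left C (Nat.pow_le_pow_right (by have := hXpos n; omega) he')
  have cI' : ∀ n s M, s ≤ sf n → M ≤ X n →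
      Comp (Nf n) cI () 3 1 (Inp.enc (n, s, M)) (Inp.enc (gI (n, s, M))) := fun n s M hs hM =>
    comp_mono (hbd n s M CI eI hs hM (by omega) (by omega)) (hI (n, s, M))
  have cM' : ∀ n s M, s ≤ sf n → M ≤ X n →
      Comp (Nf n) cM () 3 1 (Inp.enc (n, s, M)) (Inp.enc (gM (n, s, M))) :=
    fun n s M hs hMX => comp_mono (hbd n s M CM eM hs hMX (by omega) (by omega)) (hM (n, s, M))
  have cf' : ∀ n s M, s ≤ sf n → M ≤ X n →
      Comp (Nf n) cf () 3 1 (Inp.enc (n, s, M)) (Inp.enc (gf (n, s, M))) := fun n s M hs hM =>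
    comp_mono (hbd n s M Cf ef hs hM (by omega) (by omega)) (hf (n, s, M))
  have cF' : ∀ n s M, s ≤ sf n → M ≤ X n →
      Comp (Nf n) cF () 3 1 (Inp.enc (n, s, M)) (Inp.enc (F (n, s, M))) := fun n s M hs hM =>
    comp_mono (hbd n s M CF eF hs hM (by omega) (by omega)) (hFF (n, s, M))
  -- the loop
  have hloop : ∀ n j s, s + j = sf n →
      Ev (Nf n) (.wh 3 (spaceLp cM cf))
        ((), spaceSt n s ((n + 2) ^ (B * (s + 1))) (gf (n, s, (n + 2) ^ (B * (s + 1)))) 0) []
        ((), spaceSt n (sf n) ((n + 2) ^ (B * (sf n + 1))) 0 0) := by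
    intro n j
    induction j with
    | zero =>
      intro s hs
      have hs' : s = sf n := by omega
      subst hs'
      have e0 : gf (n, sf n, (n + 2) ^ (B * (sf n + 1))) = 0 := if_neg (h1 n)
      rw [e0]
      exact Ev.wh0 3 _ () _ rfl
    | succ j ih =>
      intro s hs
      have hs' : s < sf n := by omega
      have e1 : gf (n, s, (n + 2) ^ (B * (s + 1))) = 1 := if_pos (h0 n s hs')
      rw [e1]
      have hMs := hM1 n s hs'.le
      have hMs' := hM1 n (s + 1) hs'
      have hX4 := hN4 n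
      have hXp := hXpos n
      have hnX := hn1 n
      have hsX := hs1 n (s + 1) hs'
      have hMM : gM (n, s, (n + 2) ^ (B * (s + 1))) = (n + 2) ^ (B * (s + 1 + 1)) := by
        show (n + 2) ^ (B * (s + 1)) * (n + 2) ^ B = (n + 2) ^ (B * (s + 1 + 1))
        rw [← pow_add]
        congr 1
      have k1 := space_ev_lp (fl := 1) (cM' n s _ hs'.le hMs) hMM (cf' n (s + 1) _ hs' hMs')
        (by omega) (by omega) (by omega) (by omega)
      exact Ev.wh1' (by show (1 : ℕ) ≠ 0; norm_num) k1 (ih (s + 1) (by omega))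
  -- the whole program
  have hprog : ∀ n : ℕ, Ev (Nf n) (spaceDr cI cM cf cF) ((), Inp.enc n) [w n]
      ((), Inp.enc (n + 1)) := by
    intro n
    rw [spaceSt_enc, spaceSt_enc]
    have hX4 := hN4 n
    have hXp := hXpos n
    have hnX := hn1 n
    have hMs0 := hM1 n 0 (Nat.zero_le _)
    have hMs := hM1 n (sf n) le_rfl
    have hsX := hs1 n (sf n) le_rfl
    have k1 := space_call (fl := 0) (x := 0) (cI' n 0 0 (Nat.zero_le _) (Nat.zero_le _)) 2
      (by norm_num) rfl (by omega) (by omega) (by omega)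
    have e1 : gI (n, 0, 0) = (n + 2) ^ (B * (0 + 1)) := by
      show (n + 2) ^ B = _
      rw [zero_add, mul_one]
    rw [spaceSt_up2, e1] at k1
    have k2 := space_call (fl := 0) (x := 0) (cf' n 0 _ (Nat.zero_le _) hMs0) 3
      (by norm_num) rfl (by omega) (by omega) (by omega)
    rw [spaceSt_up3] at k2
    have k3 := hloop n (sf n) 0 (by omega)
    have k4 := space_call (fl := 0) (x := 0) (cF' n (sf n) _ le_rfl hMs) 4
      (by norm_num) rfl (by omega) (by omega) (by omega)
    rw [spaceSt_up4, hw n] at k4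
    have k5 := ev_sel (N := Nf n) 4 (List.finRange d)
      (spaceSt n (sf n) ((n + 2) ^ (B * (sf n + 1))) 0 (w n : ℕ)) (w n : ℕ)
      (by rw [List.length_finRange]; exact (w n).2) rfl
    rw [spaceSt_up4] at k5
    have e5 : (List.finRange d)[((w n : Fin d) : ℕ)]'(by
        rw [List.length_finRange]; exact (w n).2) = w n := by
      simp
    rw [e5] at k5
    have k6 := ev_cl (A := Fin d) (N := Nf n) 1 ()
      (spaceSt n (sf n) ((n + 2) ^ (B * (sf n + 1))) 0 0)
    rw [spaceSt_up1] at k6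
    have k7 := ev_cl (A := Fin d) (N := Nf n) 2 ()
      (spaceSt n 0 ((n + 2) ^ (B * (sf n + 1))) 0 0)
    rw [spaceSt_up2] at k7
    have k8 := Ev.inc (A := Fin d) (N := Nf n) 0 () (spaceSt n 0 0 0 0)
      (by show n + 1 ≤ Nf n; omega)
    have e8 : (spaceSt n 0 0 0 0) 0 + 1 = n + 1 := rfl
    rw [e8, spaceSt_up0] at k8
    exact Ev.sq _ _ _ _ _ [] _ (Ev.sq0 k1 (Ev.sq0 k2 (Ev.sq0 k3 k4)))
      (Ev.sq _ _ _ _ _ [w n] [] k5 (Ev.sq0 k6 (Ev.sq0 k7 k8)))
  have hK : Uses (Set.Iio (KI + KM + Kf + KF + 10)) (spaceDr cI cM cf cF) :=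
    space_uses (uI.mono (Set.Iio_subset_Iio (by omega))) (uM.mono (Set.Iio_subset_Iio (by omega)))
      (uf.mono (Set.Iio_subset_Iio (by omega))) (uF.mono (Set.Iio_subset_Iio (by omega)))
  have hgen := gen_of_natprog (spaceDr cI cM cf cF) hK (by omega) w Nf hNmono (hNpos 0) hprog
  refine hgen.mono (Nat.log 2 C + 2 + 2 * e + e * B) ?_
  intro n hn
  have hn2 : n - 1 + 2 = n + 1 := by omega
  set S := sf (n - 1) + 1 with hS
  set L := Nat.log 2 n + 1 with hL
  have hnL : n + 1 ≤ 2 ^ L := Nat.lt_pow_succ_log_self (by norm_num) n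
  have hXL : X (n - 1) ≤ 2 ^ (L * (B * S)) := by
    show (n - 1 + 2) ^ (B * S) ≤ _
    rw [hn2, pow_mul 2 L (B * S)]
    exact Nat.pow_le_pow_left hnL _
  have hCC : C < 2 ^ (Nat.log 2 C + 1) := Nat.lt_pow_succ_log_self (by norm_num) C
  have hlog : Nat.log 2 (Nf (n - 1)) < (Nat.log 2 C + 1) + (2 + L * (B * S)) * e := by
    apply Nat.log_lt_of_lt_pow
    · have := hNpos (n - 1)
      omega
    · rw [pow_add, pow_mul]
      show C * (4 * X (n - 1)) ^ e < _
      refine Nat.mul_lt_mul_of_lt_of_le hCC (Nat.pow_le_pow_left ?_ _) (by positivity)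
      rw [pow_add]
      exact Nat.mul_le_mul (by norm_num) hXL
  have hSL : 1 ≤ S * L := Nat.mul_pos (by omega) (by omega)
  have h5 : (Nat.log 2 C + 2 + 2 * e + e * B) * (S * L) =
      (Nat.log 2 C + 2 + 2 * e) * (S * L) + L * (B * S) * e := by ring
  have h6 : Nat.log 2 C + 2 + 2 * e ≤ (Nat.log 2 C + 2 + 2 * e) * (S * L) :=
    Nat.le_mul_of_pos_right _ hSL
  have h7 : (2 + L * (B * S)) * e = 2 * e + L * (B * S) * e := by ring
  show Nat.log 2 (Nf (n - 1)) + 1 ≤ (Nat.log 2 C + 2 + 2 * e + e * B) * (S * L)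
  rw [h5]
  omega

end Pool.Agent.W_5d512e_h4
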