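import Pool.Agent.W_5d512e_h4.Top
import Pool.Agent.W_5d512e_h4.Space

/-!
# The space bound for numerical transducers
-/

set_option autoImplicit false

namespace Pool.Agent.W_5d512e_h4

namespace NT

variable (G : NT)

/-- if the bound `n` is not reached, rows below a short row are below `T0` -/
theorem Gen_T0_ge {n s N : ℕ} (hN : N = 0 ∨ G.E N ≤ G.E (N - 1) + s) (h : G.T0 n s < n) :
    N ≤ G.T0 n s := by
  rcases hN with hN | hN
  · omega
  · by_contra hc
    push Not at hc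
    have h1 := G.T0_long h
    have h2 : (G.rs (G.T0 n s)).1.length ≤ (G.rs (N - 1)).1.length := G.row_mono (by omega)
    have h3 := G.E_succ (N - 1)
    rw [show N - 1 + 1 = N by omega] at h3
    omega

/-- the test is passed if the count stops at `n` -/
theorem Gen_top {n s : ℕ} (h : ¬ G.T0 n s < n) : n < G.E (G.T0 n s + s ^ 2) := by
  have h1 := G.lt_E (G.T0 n s + s ^ 2)
  omega

/-- the test is monotone -/
theorem Gen_mono {n s : ℕ} (h : n + 1 < G.E (G.T0 (n + 1) s + s ^ 2)) :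
    n < G.E (G.T0 n s + s ^ 2) := by
  by_cases h1 : G.T0 n s < n
  · have h2 : G.T0 (n + 1) s ≤ G.T0 n s := by
      by_contra hc
      push Not at hc
      have h3 := G.T0_short hc
      have h4 := G.T0_long h1
      omega
    have h5 : G.E (G.T0 (n + 1) s + s ^ 2) ≤ G.E (G.T0 n s + s ^ 2) := G.E_mono (by omega)
    omega
  · exact G.Gen_top h1

/-- the test is passed at `n + 1` -/
theorem Gen_ex (n : ℕ) : ∃ s, 1 ≤ s ∧ n < G.E (G.T0 n s + s ^ 2) := by
  refine ⟨n + 1, by omega, ?_⟩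
  have h1 := G.lt_E (G.T0 n (n + 1) + (n + 1) ^ 2)
  have h2 : n + 1 ≤ (n + 1) ^ 2 := Nat.le_self_pow (by omega) _
  omega

/-- the threshold: least `s ≥ 1` with `n < E (t0 + s ^ 2)` -/
theorem exists_sf : ∃ sf : ℕ → ℕ, Monotone sf ∧ (∀ n, 1 ≤ sf n) ∧ (∀ n, sf n ≤ n + 1) ∧
    (∀ n, n < G.E (G.T0 n (sf n) + sf n ^ 2)) ∧
    (∀ n s, 1 ≤ s → s < sf n → ¬ n < G.E (G.T0 n s + s ^ 2)) ∧
    (∀ n s N, 1 ≤ s → (N = 0 ∨ G.E N ≤ G.E (N - 1) + s) → n < G.E (N + s ^ 2) → sf n ≤ s) := by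
  classical
  refine ⟨fun n => Nat.find (G.Gen_ex n), ?_, ?_, ?_, ?_, ?_, ?_⟩
  · refine monotone_nat_of_le_succ fun n => ?_
    refine Nat.find_min' _ ?_
    have h := Nat.find_spec (G.Gen_ex (n + 1))
    exact ⟨h.1, G.Gen_mono h.2⟩
  · intro n
    exact (Nat.find_spec (G.Gen_ex n)).1
  · intro n
    refine Nat.find_min' _ ⟨by omega, ?_⟩
    have h1 := G.lt_E (G.T0 n (n + 1) + (n + 1) ^ 2)
    have h2 : n + 1 ≤ (n + 1) ^ 2 := Nat.le_self_pow (by omega) _
    omega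
  · intro n
    exact (Nat.find_spec (G.Gen_ex n)).2
  · intro n s hs hlt h
    exact Nat.find_min (G.Gen_ex n) hlt ⟨hs, h⟩
  · intro n s N hs hN h
    refine Nat.find_min' _ ⟨hs, ?_⟩
    by_cases h1 : G.T0 n s < n
    · have h2 := G.Gen_T0_ge hN h1
      have h5 : G.E (N + s ^ 2) ≤ G.E (G.T0 n s + s ^ 2) := G.E_mono (by omega)
      omega
    · exact G.Gen_top h1

/-- **space bound for the word of a numerical transducer** -/
theorem gen_NT {d : ℕ} (w : ℕ → Fin d) (hw : ∀ t n, n < G.E t → (G.W t).getD n 1 = w n + 2) :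
    ∃ sf : ℕ → ℕ, (∀ n s N, 1 ≤ s → (N = 0 ∨ G.E N ≤ G.E (N - 1) + s) →
      n < G.E (N + s ^ 2) → sf n ≤ s) ∧
      GenIn w fun n => (sf (n - 1) + 1) * (Nat.log 2 n + 1) := by
  obtain ⟨sf, hmono, hs1, hsn, hpass, hfail, hmin⟩ := G.exists_sf
  obtain ⟨B, hB, hbig⟩ := G.exists_big
  refine ⟨sf, hmin, ?_⟩
  refine gen_of_LF w G.LF_PT G.LF_FT B hB sf hmono ?_ ?_ ?_
  · intro n s hs
    by_cases h0 : s = 0
    · subst h0
      unfold PT
      rw [if_pos rfl]
    · by_contra hc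
      have hb := hbig n s (by omega) (by have := hsn n; omega)
      exact hfail n s (by omega) hs ((G.PT_ne_zero hb).1 hc)
  · intro n
    exact (G.PT_ne_zero (hbig n (sf n) (hs1 n) (hsn n))).2 (hpass n)
  · intro n
    have hb := hbig n (sf n) (hs1 n) (hsn n)
    rw [G.FT_eq hb (hpass n) _ (hpass n), hw _ n (hpass n)]
    omega

end NT

end Pool.Agent.W_5d512e_h4
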