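import Pool.Agent.W_5d512e_h4.Reg

/-!
# Functions computed by register programs with polynomially bounded registers

Basic functions, composition, pairs and polynomially bounded iteration.
-/

set_option autoImplicit false

namespace Pool.Agent.W_5d512e_h4

open Pool.Agent.W_MP_5d512e_dic

/-- Tuples of natural numbers. -/
class Inp (α : Type) where
  /-- number of components -/
  len : ℕ
  /-- the components, then zeros -/
  enc : α → ℕ → ℕ
  zero : ∀ a i, len ≤ i → enc a i = 0

instance : Inp ℕ := ⟨1, fun a i => if i = 0 then a else 0, by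
  intro a i hi
  rw [if_neg (by omega)]⟩

instance {α β : Type} [Inp α] [Inp β] : Inp (α × β) :=
  ⟨Inp.len α + Inp.len β,
    fun a i => if i < Inp.len α then Inp.enc a.1 i else Inp.enc a.2 (i - Inp.len α), by
    intro a i hi
    rw [if_neg (by omega)]
    exact Inp.zero _ _ (by omega)⟩

variable {α β γ : Type} [Inp α] [Inp β] [Inp γ]

/-- Sum of the components. -/
def size (a : α) : ℕ := ∑ i ∈ Finset.range (Inp.len α), Inp.enc a i

omit [Inp α] in
lemma len_nat : Inp.len ℕ = 1 := rfl

lemma len_pair : Inp.len (α × β) = Inp.len α + Inp.len β := rfl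

lemma enc_nat (a i : ℕ) : Inp.enc a i = if i = 0 then a else 0 := rfl

lemma enc_pair (x : α × β) (i : ℕ) :
    Inp.enc x i = if i < Inp.len α then Inp.enc x.1 i else Inp.enc x.2 (i - Inp.len α) := rfl

lemma size_nat (a : ℕ) : size a = a := by
  unfold size
  rw [len_nat, Finset.sum_range_one, enc_nat, if_pos rfl]

lemma size_pair (a : α) (b : β) : size (a, b) = size a + size b := by
  unfold size
  rw [len_pair, Finset.sum_range_add]
  congr 1
  · apply Finset.sum_congr rfl
    intro i hi
    rw [enc_pair, if_pos (Finset.mem_range.1 hi)]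
  · apply Finset.sum_congr rfl
    intro i hi
    rw [enc_pair, if_neg (by omega), Nat.add_sub_cancel_left]

lemma enc_le_size (a : α) (i : ℕ) : Inp.enc a i ≤ size a := by
  by_cases h : i < Inp.len α
  · exact Finset.single_le_sum (f := fun i => Inp.enc a i) (fun _ _ => Nat.zero_le _)
      (Finset.mem_range.2 h)
  · rw [Inp.zero a i (by omega)]
    exact Nat.zero_le _

/-! ### Polynomial bounds -/

lemma pb_mono {C C' e e' x : ℕ} (hC : C ≤ C') (he : e ≤ e') :
    C * (x + 1) ^ e ≤ C' * (x + 1) ^ e' :=
  Nat.mul_le_mul hC (Nat.pow_le_pow_right (Nat.succ_pos x) he)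

lemma pb_add {C C' e e' x : ℕ} :
    C * (x + 1) ^ e + C' * (x + 1) ^ e' ≤ (C + C') * (x + 1) ^ (e + e') := by
  rw [Nat.add_mul]
  exact Nat.add_le_add (pb_mono le_rfl (Nat.le_add_right _ _))
    (pb_mono le_rfl (Nat.le_add_left _ _))

lemma pb_self {x : ℕ} : x ≤ 1 * (x + 1) ^ 1 := by
  rw [pow_one, one_mul]
  exact Nat.le_succ x

lemma pb_const {C x : ℕ} : C ≤ C * (x + 1) ^ 0 := by
  rw [pow_zero, mul_one]

lemma pb_comp {C C' e e' x y : ℕ} (h : y ≤ C' * (x + 1) ^ e') :
    C * (y + 1) ^ e ≤ C * (C' + 1) ^ e * (x + 1) ^ (e' * e) := by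
  have h1 : y + 1 ≤ (C' + 1) * (x + 1) ^ e' := by
    have : 1 ≤ (x + 1) ^ e' := Nat.one_le_pow _ _ (Nat.succ_pos x)
    calc y + 1 ≤ C' * (x + 1) ^ e' + (x + 1) ^ e' := Nat.add_le_add h this
      _ = (C' + 1) * (x + 1) ^ e' := by ring
  calc C * (y + 1) ^ e ≤ C * ((C' + 1) * (x + 1) ^ e') ^ e :=
        Nat.mul_le_mul_left _ (Nat.pow_le_pow_left h1 e)
    _ = C * (C' + 1) ^ e * (x + 1) ^ (e' * e) := by rw [mul_pow, ← pow_mul, mul_assoc]

/-- `f` is computed by a register program whose registers are bounded by a polynomial in the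
size of the input. -/
@[fun_prop]
def LF (f : α → β) : Prop :=
  ∀ A : Type, ∃ (c : Cmd Unit ℕ A) (K C e : ℕ), Uses (Set.Iio K) c ∧
    ∀ a : α, Comp (C * (size a + 1) ^ e) c () (Inp.len α) (Inp.len β) (Inp.enc a) (Inp.enc (f a))

/-- Values are polynomially bounded. -/
lemma LF.bd {f : α → β} (hf : LF f) : ∃ C e, ∀ a, size (f a) ≤ C * (size a + 1) ^ e := by
  obtain ⟨c, K, C, e, -, hc⟩ := hf Unit
  refine ⟨Inp.len β * (C + 1), e + 1, ?_⟩
  intro a
  have h1 : Ev (C * (size a + 1) ^ e + 1 * (size a + 1) ^ 1) c ((), Inp.enc a) []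
      ((), blk (Inp.enc a) (Inp.len α) (Inp.len β) (Inp.enc (f a))) :=
    Ev.mono (Nat.le_add_right _ _) (hc a)
  have h2 : ∀ i < Inp.len β, Inp.enc (f a) i ≤ (C + 1) * (size a + 1) ^ (e + 1) := by
    intro i hi
    have h3 := Ev.bound h1 (fun r => (enc_le_size a r).trans (pb_self.trans
      (Nat.le_add_left _ _))) (Inp.len α + i)
    have e1 : blk (Inp.enc a) (Inp.len α) (Inp.len β) (Inp.enc (f a)) (Inp.len α + i) =
        Inp.enc (f a) i := by
      unfold blk
      rw [if_pos (by omega), Nat.add_sub_cancel_left]
    simp only [e1] at h3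
    exact h3.trans pb_add
  unfold size
  calc ∑ i ∈ Finset.range (Inp.len β), Inp.enc (f a) i
      ≤ ∑ _i ∈ Finset.range (Inp.len β), (C + 1) * (size a + 1) ^ (e + 1) :=
        Finset.sum_le_sum fun i hi => h2 i (Finset.mem_range.1 hi)
    _ = Inp.len β * (C + 1) * (size a + 1) ^ (e + 1) := by
        rw [Finset.sum_const, Finset.card_range, smul_eq_mul, mul_assoc]

/-- The bounds in the definition may be increased. -/
lemma comp_mono {A : Type} {N N' : ℕ} (h : N ≤ N') {c : Cmd Unit ℕ A} {n k : ℕ} {x y : ℕ → ℕ}
    (hc : Comp N c () n k x y) : Comp N' c () n k x y := Ev.mono h hc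

/-- Copy of a part of the input. -/
lemma lf_copy {f : α → β} (s : ℕ) (hs : s + Inp.len β ≤ Inp.len α)
    (h : ∀ a, ∀ i < Inp.len β, Inp.enc (f a) i = Inp.enc a (s + i)) : LF f := by
  intro A
  refine ⟨cpb s (Inp.len α) (Inp.len β) (Inp.len α + Inp.len β),
    Inp.len α + Inp.len β + 1, 1, 1, uses_cpb (by omega) (by omega) (by omega), ?_⟩
  intro a
  have h1 := ev_cpb (A := A) (N := 1 * (size a + 1) ^ 1) (a := s) (b := Inp.len α)
    (k := Inp.len β) (t := Inp.len α + Inp.len β) (Or.inl (by omega)) (Or.inr (by omega))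
    (Or.inr (by omega)) () (Inp.enc a) (Inp.zero a _ (by omega))
    (fun i _ => Inp.zero a _ (by omega)) (fun i _ => (enc_le_size a _).trans pb_self)
  have e : blk (Inp.enc a) (Inp.len α) (Inp.len β) (fun i => Inp.enc a (s + i)) =
      blk (Inp.enc a) (Inp.len α) (Inp.len β) (Inp.enc (f a)) := by
    funext r
    unfold blk
    by_cases hr : Inp.len α ≤ r ∧ r < Inp.len α + Inp.len β
    · rw [if_pos hr, if_pos hr, h a _ (by omega)]
    · rw [if_neg hr, if_neg hr]
  rw [e] at h1
  exact h1

@[fun_prop] theorem LF.id : LF (fun a : α => a) :=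
  lf_copy 0 (by omega) fun a i _ => by rw [Nat.zero_add]

/-- Set a register to a constant. -/
def setc {E A : Type} (r m : ℕ) : Cmd E ℕ A := rep (fun _ => .inc r) m

lemma ev_setc {A : Type} {N : ℕ} (r m : ℕ) (v : ℕ → ℕ) (h0 : v r = 0) (hN : m ≤ N) :
    Ev (A := A) N (setc r m) ((), v) [] ((), Function.update v r m) := by
  have h := ev_rep (A := A) (N := N) (f := fun _ => (.inc r : Cmd Unit ℕ A))
    (S := fun i => ((), Function.update v r i)) (n := m) (by
      intro i hi
      have h1 := Ev.inc (A := A) (N := N) r () (Function.update v r i)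
        (by rw [Function.update_self]; omega)
      rw [Function.update_self, Function.update_idem] at h1
      exact h1)
  have e0 : Function.update v r 0 = v := by rw [← h0]; exact Function.update_eq_self r v
  simp only [e0] at h
  exact h

@[fun_prop] theorem LF.const (b : β) : LF (fun _ : α => b) := by
  intro A
  refine ⟨rep (fun i => setc (Inp.len α + i) (Inp.enc b i)) (Inp.len β),
    Inp.len α + Inp.len β, size b, 0, ?_, ?_⟩
  · refine uses_rep fun i hi => uses_rep fun j _ => ?_
    exact Set.mem_Iio.2 (by omega)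
  · intro a
    have h := ev_rep (A := A) (N := size b * (size a + 1) ^ 0)
      (f := fun i => (setc (Inp.len α + i) (Inp.enc b i) : Cmd Unit ℕ A))
      (S := fun i => ((), blk (Inp.enc a) (Inp.len α) i (Inp.enc b))) (n := Inp.len β) (by
        intro i hi
        have h1 := ev_setc (A := A) (N := size b * (size a + 1) ^ 0) (Inp.len α + i)
          (Inp.enc b i) (blk (Inp.enc a) (Inp.len α) i (Inp.enc b)) (by
            unfold blk
            rw [if_neg (by omega)]
            exact Inp.zero a _ (by omega)) ((enc_le_size b i).trans pb_const)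
        have e : Function.update (blk (Inp.enc a) (Inp.len α) i (Inp.enc b)) (Inp.len α + i)
            (Inp.enc b i) = blk (Inp.enc a) (Inp.len α) (i + 1) (Inp.enc b) := by
          funext r
          by_cases h : r = Inp.len α + i
          · subst h
            rw [Function.update_self]
            unfold blk
            rw [if_pos (by omega), Nat.add_sub_cancel_left]
          · rw [Function.update_of_ne h]
            unfold blk
            by_cases h' : Inp.len α ≤ r ∧ r < Inp.len α + i
            · rw [if_pos h', if_pos (by omega)]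
            · rw [if_neg h', if_neg (by omega)]
        rw [e] at h1
        exact h1)
    have e0 : blk (Inp.enc a) (Inp.len α) 0 (Inp.enc b) = Inp.enc a := by
      funext r
      unfold blk
      rw [if_neg (by omega)]
    simp only [e0] at h
    exact h

@[fun_prop] theorem LF.comp {f : β → γ} {g : α → β} (hf : LF f) (hg : LF g) :
    LF fun x => f (g x) := by
  intro A
  obtain ⟨C1, e1, hb1⟩ := hg.bd
  obtain ⟨cf, Kf, Cf, ef, huf, hcf⟩ := hf A
  obtain ⟨cg, Kg, Cg, eg, hug, hcg⟩ := hg A
  set n := Inp.len α with hn
  set m := Inp.len β with hm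
  set k := Inp.len γ with hk
  refine ⟨.sq (call cg n m 0 (n + k) (n + k + m)) (.sq (call cf m k (n + k) n (n + k + m))
    (clb (n + k) m)), n + k + m + (n + m + k) + Kf + Kg + 1,
    1 + C1 + Cg + Cf * (C1 + 1) ^ ef, 1 + e1 + eg + e1 * ef, ⟨?_, ?_, ?_⟩, ?_⟩
  · exact uses_call hug (by omega) (by omega) (by omega) (by omega)
  · exact uses_call huf (by omega) (by omega) (by omega) (by omega)
  · exact uses_clb (by omega)
  · intro a
    set N := (1 + C1 + Cg + Cf * (C1 + 1) ^ ef) * (size a + 1) ^ (1 + e1 + eg + e1 * ef) with hN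
    have hN1 : size a ≤ N := pb_self.trans (pb_mono (by omega) (by omega))
    have hN2 : size (g a) ≤ N := (hb1 a).trans (pb_mono (by omega) (by omega))
    have hN3 : Cg * (size a + 1) ^ eg ≤ N := pb_mono (by omega) (by omega)
    have hN4 : Cf * (size (g a) + 1) ^ ef ≤ N :=
      (pb_comp (hb1 a)).trans (pb_mono (by omega) (by omega))
    have s1 := ev_call (A := A) (N := N) (c := cg) (n := n) (k := m) (a := 0) (t := n + k)
      (m := n + k + m) (σ := ()) (x := Inp.enc a) (y := Inp.enc (g a)) (v := Inp.enc a)
      (comp_mono hN3 (hcg a)) (Inp.zero a) (fun i => (enc_le_size a i).trans hN1)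
      (by omega) (by omega) (fun i hi => Inp.zero a i (by omega))
      (fun i _ => by rw [Nat.zero_add]) (fun i _ => Inp.zero a _ (by omega))
    set v1 := blk (Inp.enc a) (n + k) m (Inp.enc (g a)) with hv1
    have s2 := ev_call (A := A) (N := N) (c := cf) (n := m) (k := k) (a := n + k) (t := n)
      (m := n + k + m) (σ := ()) (x := Inp.enc (g a)) (y := Inp.enc (f (g a))) (v := v1)
      (comp_mono hN4 (hcf (g a))) (Inp.zero (g a)) (fun i => (enc_le_size (g a) i).trans hN2)
      (by omega) (by omega)
      (fun i hi => by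
        rw [hv1]
        unfold blk
        rw [if_neg (by omega)]
        exact Inp.zero a i (by omega))
      (fun i hi => by
        rw [hv1]
        unfold blk
        rw [if_pos (by omega), Nat.add_sub_cancel_left])
      (fun i hi => by
        rw [hv1]
        unfold blk
        rw [if_neg (by omega)]
        exact Inp.zero a _ (by omega))
    set v2 := blk v1 n k (Inp.enc (f (g a))) with hv2
    have s3 := ev_clb (A := A) (N := N) (n + k) m () v2
    have e3 : (blk v2 (n + k) m fun _ => 0) = blk (Inp.enc a) n k (Inp.enc (f (g a))) := by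
      funext r
      rw [hv2, hv1]
      unfold blk
      by_cases h1 : n + k ≤ r ∧ r < n + k + m
      · rw [if_pos h1, if_neg (by omega)]
        exact (Inp.zero a r (by omega)).symm
      · rw [if_neg h1]
        by_cases h2 : n ≤ r ∧ r < n + k
        · rw [if_pos h2, if_pos h2]
        · rw [if_neg h2, if_neg h2, if_neg h1]
    rw [e3] at s3
    exact Ev.sq0 s1 (Ev.sq0 s2 s3)

@[fun_prop] theorem LF.mk {f : α → β} {g : α → γ} (hf : LF f) (hg : LF g) :
    LF fun x => (f x, g x) := by
  intro A
  obtain ⟨cf, Kf, Cf, ef, huf, hcf⟩ := hf A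
  obtain ⟨cg, Kg, Cg, eg, hug, hcg⟩ := hg A
  have hlen : Inp.len (β × γ) = Inp.len β + Inp.len γ := rfl
  set n := Inp.len α with hn
  set m := Inp.len β with hm
  set k := Inp.len γ with hk
  refine ⟨.sq (call cf n m 0 n (n + m + k)) (call cg n k 0 (n + m) (n + m + k)),
    n + m + k + (n + m + k) + Kf + Kg + 1, 1 + Cf + Cg, 1 + ef + eg, ⟨?_, ?_⟩, ?_⟩
  · exact uses_call huf (by omega) (by omega) (by omega) (by omega)
  · exact uses_call hug (by omega) (by omega) (by omega) (by omega)
  · intro a
    set N := (1 + Cf + Cg) * (size a + 1) ^ (1 + ef + eg) with hN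
    have hN1 : size a ≤ N := pb_self.trans (pb_mono (by omega) (by omega))
    have hN2 : Cf * (size a + 1) ^ ef ≤ N := pb_mono (by omega) (by omega)
    have hN3 : Cg * (size a + 1) ^ eg ≤ N := pb_mono (by omega) (by omega)
    have s1 := ev_call (A := A) (N := N) (c := cf) (n := n) (k := m) (a := 0) (t := n)
      (m := n + m + k) (σ := ()) (x := Inp.enc a) (y := Inp.enc (f a)) (v := Inp.enc a)
      (comp_mono hN2 (hcf a)) (Inp.zero a) (fun i => (enc_le_size a i).trans hN1)
      (by omega) (by omega) (fun i hi => Inp.zero a i (by omega))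
      (fun i _ => by rw [Nat.zero_add]) (fun i _ => Inp.zero a _ (by omega))
    set v1 := blk (Inp.enc a) n m (Inp.enc (f a)) with hv1
    have s2 := ev_call (A := A) (N := N) (c := cg) (n := n) (k := k) (a := 0) (t := n + m)
      (m := n + m + k) (σ := ()) (x := Inp.enc a) (y := Inp.enc (g a)) (v := v1)
      (comp_mono hN3 (hcg a)) (Inp.zero a) (fun i => (enc_le_size a i).trans hN1)
      (by omega) (by omega)
      (fun i hi => by
        rw [hv1]
        unfold blk
        rw [if_neg (by omega)]
        exact Inp.zero a i (by omega))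
      (fun i hi => by
        rw [hv1]
        unfold blk
        rw [if_neg (by omega), Nat.zero_add])
      (fun i hi => by
        rw [hv1]
        unfold blk
        rw [if_neg (by omega)]
        exact Inp.zero a _ (by omega))
    have e3 : blk v1 (n + m) k (Inp.enc (g a)) =
        blk (Inp.enc a) n (Inp.len (β × γ)) (Inp.enc (f a, g a)) := by
      funext r
      rw [hv1, hlen]
      unfold blk
      by_cases h1 : n + m ≤ r ∧ r < n + m + k
      · rw [if_pos h1, if_pos (by omega), enc_pair, if_neg (by omega)]
        congr 1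
        omega
      · rw [if_neg h1]
        by_cases h2 : n ≤ r ∧ r < n + m
        · rw [if_pos h2, if_pos (by omega), enc_pair, if_pos (by omega)]
        · rw [if_neg h2, if_neg (by omega)]
    rw [e3] at s2
    exact Ev.sq0 s1 s2

theorem LF.fst' : LF fun x : α × β => x.1 :=
  lf_copy 0 (by rw [len_pair]; omega) fun x i hi => by
    rw [Nat.zero_add, enc_pair, if_pos hi]

theorem LF.snd' : LF fun x : α × β => x.2 :=
  lf_copy (Inp.len α) (by rw [len_pair]) fun x i hi => by
    rw [enc_pair, if_neg (by omega), Nat.add_sub_cancel_left]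

@[fun_prop] theorem LF.fst {f : α → β × γ} (hf : LF f) : LF fun x => (f x).1 :=
  LF.comp LF.fst' hf

@[fun_prop] theorem LF.snd {f : α → β × γ} (hf : LF f) : LF fun x => (f x).2 :=
  LF.comp LF.snd' hf

theorem LF.succ : LF fun x : ℕ => x + 1 := by
  intro A
  refine ⟨.sq (cp 0 1 2) (.inc 1), 3, 1, 1, ⟨uses_cp (Set.mem_Iio.2 (by omega))
    (Set.mem_Iio.2 (by omega)) (Set.mem_Iio.2 (by omega)), Set.mem_Iio.2 (by omega)⟩, ?_⟩
  intro a
  rw [size_nat]
  have h0 : Inp.enc a 0 = a := rfl
  have h1 : Inp.enc a 1 = 0 := rfl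
  have h2 : Inp.enc a 2 = 0 := rfl
  have s1 := ev_cp (A := A) (N := 1 * (a + 1) ^ 1) (a := 0) (b := 1) (t := 2) (by omega)
    (by omega) (by omega) () (Inp.enc a) h2 (by rw [h0, h1, pow_one]; omega)
  rw [h0, h1, Nat.zero_add] at s1
  have s2 := Ev.inc (A := A) (N := 1 * (a + 1) ^ 1) 1 ()
    (Function.update (Inp.enc a) 1 a) (by rw [Function.update_self, pow_one]; omega)
  rw [Function.update_self, Function.update_idem] at s2
  have e : Function.update (Inp.enc a) 1 (a + 1) =
      blk (Inp.enc a) (Inp.len ℕ) (Inp.len ℕ) (Inp.enc (a + 1)) := by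
    funext r
    rw [len_nat]
    unfold blk
    by_cases h : r = 1
    · subst h
      rw [Function.update_self, if_pos (by omega), enc_nat, if_pos (by omega)]
    · rw [Function.update_of_ne h, if_neg (by omega)]
  rw [e] at s2
  exact Ev.sq0 s1 s2

/-- Iteration with a counter. -/
def itr {β : Type} (g : β) (h : β → ℕ → β) : ℕ → β
  | 0 => g
  | i + 1 => h (itr g h i) i

/-- **Polynomially bounded iteration.** -/
theorem LF.itr {n : α → ℕ} {g : α → β} {h : α → β → ℕ → β} (hn : LF n) (hg : LF g)
    (hh : LF fun p : α × β × ℕ => h p.1 p.2.1 p.2.2)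
    (hb : ∃ C e, ∀ a, ∀ i ≤ n a, size (itr (g a) (h a) i) ≤ C * (size a + 1) ^ e) :
    LF fun a => itr (g a) (h a) (n a) := by
  intro A
  obtain ⟨C1, e1, hb1⟩ := hb
  obtain ⟨C2, e2, hb2⟩ := hn.bd
  obtain ⟨cn, Kn, Cn, en, hun, hcn⟩ := hn A
  obtain ⟨cg, Kg, Cg, eg, hug, hcg⟩ := hg A
  obtain ⟨ch, Kh, Ch, eh, huh, hch⟩ := hh A
  have hlen : Inp.len (α × β × ℕ) = Inp.len α + (Inp.len β + 1) := rfl
  have hlen1 : Inp.len ℕ = 1 := rfl
  rw [hlen] at hch
  rw [hlen1] at hcn
  set p := Inp.len α with hp
  set q := Inp.len β with hq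
  -- registers: input [0, p), output [p, p + q), argument [p + q, 2p + 2q + 1), counter
  -- 2p + 2q + 1, new value [2p + 2q + 2, 2p + 3q + 2), working space from 2p + 3q + 2
  set t0 := 2 * p + 2 * q + 1 with ht0
  set M := t0 + 1 + q with hM
  let body : Cmd Unit ℕ A := .sq (.dec t0) (.sq (call ch (p + (q + 1)) q (p + q) (t0 + 1) M)
    (.sq (clb (2 * p + q) q) (.sq (cpb (t0 + 1) (2 * p + q) q M) (.sq (clb (t0 + 1) q)
      (.inc (2 * p + 2 * q))))))
  let prog : Cmd Unit ℕ A := .sq (call cn p 1 0 t0 M) (.sq (cpb 0 (p + q) p M)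
    (.sq (call cg p q 0 (2 * p + q) M) (.sq (.wh t0 body) (.sq (cpb (2 * p + q) p q M)
      (clb (p + q) (p + (q + 1)))))))
  refine ⟨prog, M + (p + (q + 1) + q) + p + q + Kn + Kg + Kh + 3,
    1 + C1 + C2 + Cn + Cg + Ch * (1 + C1 + C2 + 1) ^ eh + (1 + C1 + C2),
    1 + e1 + e2 + en + eg + (1 + e1 + e2) * eh + (1 + e1 + e2), ?_, ?_⟩
  · refine ⟨uses_call hun ?_ ?_ ?_ ?_, uses_cpb ?_ ?_ ?_, uses_call hug ?_ ?_ ?_ ?_,
      ⟨?_, ?_, uses_call huh ?_ ?_ ?_ ?_, uses_clb ?_, uses_cpb ?_ ?_ ?_, uses_clb ?_, ?_⟩,
      uses_cpb ?_ ?_ ?_, uses_clb ?_⟩ <;> first | exact Set.mem_Iio.2 (by omega) | omega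
  · intro a
    set N := (1 + C1 + C2 + Cn + Cg + Ch * (1 + C1 + C2 + 1) ^ eh + (1 + C1 + C2)) *
      (size a + 1) ^ (1 + e1 + e2 + en + eg + (1 + e1 + e2) * eh + (1 + e1 + e2)) with hN
    have hN1 : size a ≤ N := pb_self.trans (pb_mono (by omega) (by omega))
    have hN2 : Cn * (size a + 1) ^ en ≤ N := pb_mono (by omega) (by omega)
    have hN3 : Cg * (size a + 1) ^ eg ≤ N := pb_mono (by omega) (by omega)
    set s : ℕ → β := fun i => Pool.Agent.W_5d512e_h4.itr (g a) (h a) i with hs
    have hsz : ∀ i ≤ n a, size (a, s i, i) ≤ (1 + C1 + C2) * (size a + 1) ^ (1 + e1 + e2) := by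
      intro i hi
      rw [size_pair, size_pair, size_nat]
      have k1 : size a ≤ 1 * (size a + 1) ^ 1 := pb_self
      have k2 := hb1 a i hi
      have k3 : i ≤ C2 * (size a + 1) ^ e2 := hi.trans (by
        have := hb2 a
        rwa [size_nat] at this)
      calc size a + (size (s i) + i)
          ≤ (1 * (size a + 1) ^ 1 + C1 * (size a + 1) ^ e1) + C2 * (size a + 1) ^ e2 := by
            have : size (s i) ≤ C1 * (size a + 1) ^ e1 := k2
            omega
        _ ≤ (1 + C1) * (size a + 1) ^ (1 + e1) + C2 * (size a + 1) ^ e2 :=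
            Nat.add_le_add_right pb_add _
        _ ≤ _ := pb_add
    have hsN : ∀ i ≤ n a, size (a, s i, i) ≤ N := fun i hi =>
      (hsz i hi).trans (pb_mono (by omega) (by omega))
    have hhN : ∀ i ≤ n a, Ch * (size (a, s i, i) + 1) ^ eh ≤ N := fun i hi =>
      (pb_comp (hsz i hi)).trans (pb_mono (by omega) (by omega))
    have hnN : n a ≤ N := by
      have := hsN (n a) le_rfl
      rw [size_pair, size_pair, size_nat] at this
      omega
    -- the contents of the registers in the loop
    let V : ℕ → ℕ → ℕ → ℕ := fun i T =>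
      blk (blk (Inp.enc a) (p + q) (p + (q + 1)) (Inp.enc (a, s i, i))) t0 1 fun _ => T
    have V0 : ∀ i T r, M ≤ r → V i T r = 0 := by
      intro i T r hr
      show blk _ _ _ _ r = 0
      unfold blk
      rw [if_neg (by omega), if_neg (by omega)]
      exact Inp.zero a r (by omega)
    have Varg : ∀ i T, ∀ j < p + (q + 1), V i T (p + q + j) = Inp.enc (a, s i, i) j := by
      intro i T j hj
      show blk _ _ _ _ _ = _
      unfold blk
      rw [if_neg (by omega), if_pos (by omega), Nat.add_sub_cancel_left]
    have Vt : ∀ i T, V i T t0 = T := by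
      intro i T
      show blk _ _ _ _ _ = _
      unfold blk
      rw [if_pos (by omega)]
    have Vnew : ∀ i T, ∀ j < q, V i T (t0 + 1 + j) = 0 := by
      intro i T j hj
      show blk _ _ _ _ _ = _
      unfold blk
      rw [if_neg (by omega), if_neg (by omega)]
      exact Inp.zero a _ (by omega)
    have Vin : ∀ i T, ∀ j < p, V i T j = Inp.enc a j := by
      intro i T j hj
      show blk _ _ _ _ _ = _
      unfold blk
      rw [if_neg (by omega), if_neg (by omega)]
    have Vout : ∀ i T, ∀ j < q, V i T (p + j) = 0 := by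
      intro i T j hj
      show blk _ _ _ _ _ = _
      unfold blk
      rw [if_neg (by omega), if_neg (by omega)]
      exact Inp.zero a _ (by omega)
    have Vst : ∀ i T, ∀ j < q, V i T (2 * p + q + j) = Inp.enc (s i) j := by
      intro i T j hj
      have := Varg i T (p + j) (by omega)
      rw [show p + q + (p + j) = 2 * p + q + j from by omega, enc_pair, if_neg (by omega),
        enc_pair, if_pos (by show p + j - p < q; omega)] at this
      rw [this]
      congr 1
      show p + j - p = j
      omega
    have Vi : ∀ i T, V i T (2 * p + 2 * q) = i := by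
      intro i T
      have := Varg i T (p + q) (by omega)
      rw [show p + q + (p + q) = 2 * p + 2 * q from by omega, enc_pair, if_neg (by omega),
        enc_pair, if_neg (by show ¬ p + q - p < q; omega), enc_nat,
        if_pos (by show p + q - p - q = 0; omega)] at this
      exact this
    -- two functions with the same values are equal
    have Vext : ∀ (u : ℕ → ℕ) (i T : ℕ), (∀ r, M ≤ r → u r = 0) →
        (∀ j < p, u j = Inp.enc a j) → (∀ j < q, u (p + j) = 0) →
        (∀ j < p, u (p + q + j) = Inp.enc a j) → (∀ j < q, u (2 * p + q + j) = Inp.enc (s i) j) →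
        u (2 * p + 2 * q) = i → u t0 = T → (∀ j < q, u (t0 + 1 + j) = 0) → u = V i T := by
      intro u i T h1 h2 h3 h4 h5 h6 h7 h8
      funext r
      by_cases k1 : M ≤ r
      · rw [h1 r k1, V0 i T r k1]
      by_cases k2 : r < p
      · rw [h2 r k2, Vin i T r k2]
      by_cases k3 : r < p + q
      · have e1 := h3 (r - p) (by omega)
        have e2 := Vout i T (r - p) (by omega)
        rw [show p + (r - p) = r from by omega] at e1 e2
        rw [e1, e2]
      by_cases k4 : r < 2 * p + q
      · have e1 := h4 (r - (p + q)) (by omega)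
        have e2 := Varg i T (r - (p + q)) (by omega)
        rw [enc_pair, if_pos (by show r - (p + q) < p; omega)] at e2
        rw [show p + q + (r - (p + q)) = r from by omega] at e1 e2
        rw [e1, e2]
      by_cases k5 : r < 2 * p + 2 * q
      · have e1 := h5 (r - (2 * p + q)) (by omega)
        have e2 := Vst i T (r - (2 * p + q)) (by omega)
        rw [show 2 * p + q + (r - (2 * p + q)) = r from by omega] at e1 e2
        rw [e1, e2]
      by_cases k6 : r = 2 * p + 2 * q
      · rw [k6, h6, Vi]
      by_cases k7 : r = t0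
      · rw [k7, h7, Vt]
      · have e1 := h8 (r - (t0 + 1)) (by omega)
        have e2 := Vnew i T (r - (t0 + 1)) (by omega)
        rw [show t0 + 1 + (r - (t0 + 1)) = r from by omega] at e1 e2
        rw [e1, e2]
    -- one round
    have round : ∀ i T, i < n a → T ≠ 0 → T ≤ N →
        Ev N body ((), V i T) [] ((), V (i + 1) (T - 1)) := by
      intro i T hi hT hTN
      have s0 := Ev.dec (A := A) (N := N) t0 () (V i T) (by rw [Vt]; exact hT)
      rw [Vt] at s0
      have e0 : Function.update (V i T) t0 (T - 1) = V i (T - 1) := by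
        apply Vext
        · intro r hr
          rw [Function.update_of_ne (by omega)]
          exact V0 i T r hr
        · intro j hj
          rw [Function.update_of_ne (by omega)]
          exact Vin i T j hj
        · intro j hj
          rw [Function.update_of_ne (by omega)]
          exact Vout i T j hj
        · intro j hj
          rw [Function.update_of_ne (by omega), Varg i T j (by omega), enc_pair,
            if_pos (by show j < p; omega)]
        · intro j hj
          rw [Function.update_of_ne (by omega)]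
          exact Vst i T j hj
        · rw [Function.update_of_ne (by omega)]
          exact Vi i T
        · rw [Function.update_self]
        · intro j hj
          rw [Function.update_of_ne (by omega)]
          exact Vnew i T j hj
      rw [e0] at s0
      have s1 := ev_call (A := A) (N := N) (c := ch) (n := p + (q + 1)) (k := q) (a := p + q)
        (t := t0 + 1) (m := M) (σ := ()) (x := Inp.enc (a, s i, i)) (y := Inp.enc (h a (s i) i))
        (v := V i (T - 1)) (comp_mono (hhN i hi.le) (hch (a, s i, i)))
        (fun j hj => Inp.zero (a, s i, i) j hj)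
        (fun j => (enc_le_size _ j).trans (hsN i hi.le)) (by omega) (by omega)
        (V0 i (T - 1)) (Varg i (T - 1)) (Vnew i (T - 1))
      set v1 := blk (V i (T - 1)) (t0 + 1) q (Inp.enc (h a (s i) i)) with hv1
      have s2 := ev_clb (A := A) (N := N) (2 * p + q) q () v1
      set v2 := blk v1 (2 * p + q) q (fun _ => 0) with hv2
      have g2 : ∀ j < q, v2 (t0 + 1 + j) = Inp.enc (h a (s i) i) j := by
        intro j hj
        rw [hv2, hv1]
        unfold blk
        rw [if_neg (by omega), if_pos (by omega), Nat.add_sub_cancel_left]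
      have hsz1 : size (s (i + 1)) ≤ N := by
        have := hsN (i + 1) hi
        rw [size_pair, size_pair] at this
        omega
      have s3 := ev_cpb (A := A) (N := N) (a := t0 + 1) (b := 2 * p + q) (k := q) (t := M)
        (Or.inr (by omega)) (Or.inr (by omega)) (Or.inr (by omega)) () v2
        (by
          rw [hv2, hv1]
          unfold blk
          rw [if_neg (by omega), if_neg (by omega)]
          exact V0 i (T - 1) M le_rfl)
        (by
          intro j hj
          rw [hv2]
          unfold blk
          rw [if_pos (by omega)])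
        (by
          intro j hj
          rw [g2 j hj]
          exact (enc_le_size (s (i + 1)) j).trans hsz1)
      set v3 := blk v2 (2 * p + q) q (fun j => v2 (t0 + 1 + j)) with hv3
      have s4 := ev_clb (A := A) (N := N) (t0 + 1) q () v3
      set v4 := blk v3 (t0 + 1) q (fun _ => 0) with hv4
      have g4 : ∀ r, (r < 2 * p + q ∨ 2 * p + 2 * q ≤ r) → (r < t0 + 1 ∨ t0 + 1 + q ≤ r) →
          v4 r = V i (T - 1) r := by
        intro r h1 h2
        rw [hv4, hv3, hv2, hv1]
        unfold blk
        rw [if_neg (by omega), if_neg (by omega), if_neg (by omega), if_neg (by omega)]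
      have s5 := Ev.inc (A := A) (N := N) (2 * p + 2 * q) () v4 (by
        rw [g4 _ (by omega) (by omega), Vi]
        omega)
      rw [g4 _ (by omega) (by omega), Vi] at s5
      have e5 : Function.update v4 (2 * p + 2 * q) (i + 1) = V (i + 1) (T - 1) := by
        apply Vext
        · intro r hr
          rw [Function.update_of_ne (by omega), g4 _ (by omega) (by omega)]
          exact V0 i _ r hr
        · intro j hj
          rw [Function.update_of_ne (by omega), g4 _ (by omega) (by omega)]
          exact Vin i _ j hj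
        · intro j hj
          rw [Function.update_of_ne (by omega), g4 _ (by omega) (by omega)]
          exact Vout i _ j hj
        · intro j hj
          rw [Function.update_of_ne (by omega), g4 _ (by omega) (by omega),
            Varg i _ j (by omega), enc_pair, if_pos (by show j < p; omega)]
        · intro j hj
          rw [Function.update_of_ne (by omega), hv4]
          unfold blk
          rw [if_neg (by omega), hv3]
          unfold blk
          rw [if_pos (by omega), Nat.add_sub_cancel_left]
          exact g2 j hj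
        · rw [Function.update_self]
        · rw [Function.update_of_ne (by omega), g4 _ (by omega) (by omega)]
          exact Vt i _
        · intro j hj
          rw [Function.update_of_ne (by omega), hv4]
          unfold blk
          rw [if_pos (by omega)]
      rw [e5] at s5
      exact Ev.sq0 s0 (Ev.sq0 s1 (Ev.sq0 s2 (Ev.sq0 s3 (Ev.sq0 s4 s5))))
    -- the loop
    have loop : ∀ T, T ≤ n a → Ev N (.wh t0 body) ((), V (n a - T) T) [] ((), V (n a) 0) := by
      intro T
      induction T with
      | zero =>
        intro _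
        exact Ev.wh0 _ _ _ _ (Vt _ _)
      | succ T ih =>
        intro hT
        have r1 := round (n a - (T + 1)) (T + 1) (by omega) (by omega) (hT.trans hnN)
        rw [show n a - (T + 1) + 1 = n a - T from by omega, Nat.add_sub_cancel] at r1
        exact Ev.wh1' (by rw [Vt]; omega) r1 (ih (by omega))
    have l1 := loop (n a) le_rfl
    rw [Nat.sub_self] at l1
    -- before the loop
    have s1 := ev_call (A := A) (N := N) (c := cn) (n := p) (k := 1) (a := 0) (t := t0)
      (m := M) (σ := ()) (x := Inp.enc a) (y := Inp.enc (n a)) (v := Inp.enc a)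
      (comp_mono hN2 (hcn a)) (Inp.zero a) (fun i => (enc_le_size a i).trans hN1)
      (by omega) (by omega) (fun i hi => Inp.zero a i (by omega))
      (fun i _ => by rw [Nat.zero_add]) (fun i _ => Inp.zero a _ (by omega))
    set v1 := blk (Inp.enc a) t0 1 (Inp.enc (n a)) with hv1
    have g1 : ∀ r, r ≠ t0 → v1 r = Inp.enc a r := by
      intro r hr
      rw [hv1]
      unfold blk
      rw [if_neg (by omega)]
    have s2 := ev_cpb (A := A) (N := N) (a := 0) (b := p + q) (k := p) (t := M)
      (Or.inl (by omega)) (Or.inr (by omega)) (Or.inr (by omega)) () v1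
      (by rw [g1 _ (by omega)]; exact Inp.zero a _ (by omega))
      (fun i hi => by rw [g1 _ (by omega)]; exact Inp.zero a _ (by omega))
      (fun i hi => by rw [g1 _ (by omega)]; exact (enc_le_size a _).trans hN1)
    set v2 := blk v1 (p + q) p (fun i => v1 (0 + i)) with hv2
    have g2 : ∀ r, (r < p + q ∨ 2 * p + q ≤ r) → v2 r = v1 r := by
      intro r hr
      rw [hv2]
      unfold blk
      rw [if_neg (by omega)]
    have s3 := ev_call (A := A) (N := N) (c := cg) (n := p) (k := q) (a := 0)
      (t := 2 * p + q) (m := M) (σ := ()) (x := Inp.enc a) (y := Inp.enc (g a)) (v := v2)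
      (comp_mono hN3 (hcg a)) (Inp.zero a) (fun i => (enc_le_size a i).trans hN1)
      (by omega) (by omega)
      (fun i hi => by
        rw [g2 _ (by omega), g1 _ (by omega)]
        exact Inp.zero a i (by omega))
      (fun i hi => by rw [Nat.zero_add, g2 _ (by omega), g1 _ (by omega)])
      (fun i hi => by
        rw [g2 _ (by omega), g1 _ (by omega)]
        exact Inp.zero a _ (by omega))
    have e3 : blk v2 (2 * p + q) q (Inp.enc (g a)) = V 0 (n a) := by
      set v3 := blk v2 (2 * p + q) q (Inp.enc (g a)) with hv3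
      have g3 : ∀ r, (r < 2 * p + q ∨ 2 * p + 2 * q ≤ r) → v3 r = v2 r := by
        intro r hr
        rw [hv3]
        unfold blk
        rw [if_neg (by omega)]
      apply Vext
      · intro r hr
        rw [g3 _ (by omega), g2 _ (by omega), g1 _ (by omega)]
        exact Inp.zero a _ (by omega)
      · intro j hj
        rw [g3 _ (by omega), g2 _ (by omega), g1 _ (by omega)]
      · intro j hj
        rw [g3 _ (by omega), g2 _ (by omega), g1 _ (by omega)]
        exact Inp.zero a _ (by omega)
      · intro j hj
        rw [g3 _ (by omega), hv2]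
        unfold blk
        rw [if_pos (by omega), Nat.add_sub_cancel_left]
        show v1 (0 + j) = _
        rw [Nat.zero_add, g1 _ (by omega)]
      · intro j hj
        rw [hv3]
        unfold blk
        rw [if_pos (by omega), Nat.add_sub_cancel_left]
        rfl
      · rw [g3 _ (by omega), g2 _ (by omega), g1 _ (by omega)]
        exact Inp.zero a _ (by omega)
      · rw [g3 _ (by omega), g2 _ (by omega), hv1]
        unfold blk
        rw [if_pos (by omega), Nat.sub_self, enc_nat, if_pos rfl]
      · intro j hj
        rw [g3 _ (by omega), g2 _ (by omega), g1 _ (by omega)]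
        exact Inp.zero a _ (by omega)
    rw [e3] at s3
    -- after the loop
    have hsz1 : size (s (n a)) ≤ N := by
      have := hsN (n a) le_rfl
      rw [size_pair, size_pair] at this
      omega
    have s5 := ev_cpb (A := A) (N := N) (a := 2 * p + q) (b := p) (k := q) (t := M)
      (Or.inr (by omega)) (Or.inr (by omega)) (Or.inr (by omega)) () (V (n a) 0)
      (V0 _ _ _ le_rfl) (Vout _ _)
      (fun j hj => by rw [Vst _ _ j hj]; exact (enc_le_size _ j).trans hsz1)
    set v5 := blk (V (n a) 0) p q (fun j => V (n a) 0 (2 * p + q + j)) with hv5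
    have s6 := ev_clb (A := A) (N := N) (p + q) (p + (q + 1)) () v5
    have e6 : (blk v5 (p + q) (p + (q + 1)) fun _ => 0) =
        blk (Inp.enc a) p q (Inp.enc (s (n a))) := by
      funext r
      rw [hv5]
      unfold blk
      by_cases h1 : p + q ≤ r ∧ r < p + q + (p + (q + 1))
      · rw [if_pos h1, if_neg (by omega)]
        exact (Inp.zero a r (by omega)).symm
      · rw [if_neg h1]
        by_cases h2 : p ≤ r ∧ r < p + q
        · rw [if_pos h2, if_pos h2]
          exact Vst _ _ _ (by omega)
        · rw [if_neg h2, if_neg h2]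
          by_cases h3 : r < p
          · exact Vin _ _ r h3
          · rw [Inp.zero a r (by omega)]
            by_cases h4 : r = t0
            · rw [h4]
              exact Vt _ _
            · by_cases h5 : M ≤ r
              · exact V0 _ _ r h5
              · have := Vnew (n a) 0 (r - (t0 + 1)) (by omega)
                rwa [show t0 + 1 + (r - (t0 + 1)) = r from by omega] at this
    rw [e6] at s6
    exact Ev.sq0 s1 (Ev.sq0 s2 (Ev.sq0 s3 (Ev.sq0 l1 (Ev.sq0 s5 s6))))

end Pool.Agent.W_5d512e_h4
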