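import Pool.Agent.W_5d512e_h4.TreeLF
import Pool.Agent.W_5d512e_h4.Base

/-!
# The evaluation problem for every `s`-th row

Parameters `(n, s, M)`.  Level `2 ℓ`: node `j` = segment `j` (of length `c = k * s`, from the
right) of the iterate number `t0 + ℓ * s`.  Level `2 ℓ + 1`: node `2 j` = the same segment, node
`2 j + 1` = the number `R j` of letters of the iterate number `t0 + (ℓ + 1) * s` which come from
the last `j` segments (at position `0`).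
-/

set_option autoImplicit false

namespace Pool.Agent.W_5d512e_h4

namespace NT

variable (G : NT)

/-- parameters `(n, s, M)` -/
abbrev Par := ℕ × ℕ × ℕ

/-- length of the segments -/
def cc (P : Par) : ℕ := G.k * P.2.1

/-- bound for the values -/
def mm (P : Par) : ℕ := (P.1 + P.2.1 + 2) * (G.k * P.2.1) + P.1 + G.B + 2

/-- number of terms -/
def II (P : Par) : ℕ := P.1 + P.2.1 + 3

/-- the prime -/
def qq (P : Par) : ℕ := nxtp (3 * G.cc P * (G.mm P - 1) + G.mm P + 2)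

/-- input letters from the code `X` of three values: the word of child `1`, then the word of
child `2`, each read from left to right (= from high to low positions) -/
def inp (m c X i : ℕ) : ℕ :=
  if i < c then dig m X (c + (c - 1 - i)) else dig m X (2 * c + (2 * c - 1 - i))

/-- length of the image of child `2` after `g` generations -/
def cnt (M m g c X : ℕ) : ℕ := (G.proc M g c 0 (inp m c X)).2.1

/-- letter number `x` (from the right) of the iterate, if it comes from child `2`; child `0` is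
the number of letters to the right of the image -/
def fA (M m g c x X : ℕ) : ℕ :=
  if dig m X 0 ≤ x then
    (if x < dig m X 0 + G.cnt M m g c X then
      (G.proc M g c (G.cnt M m g c X - 1 - (x - dig m X 0)) (inp m c X)).2.2.1 else 0)
  else 0

/-- the data of the evaluation problem -/
def cd : CD Par where
  q := G.qq
  M P := P.2.2
  c := G.cc
  I := II
  m := G.mm
  base P u s' := G.bas P.2.2 P.1 P.2.1 (u * G.cc P + s')
  ch _ d u i p :=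
    if d % 2 = 1 then (if p = 0 then 2 * i + 1 else if p = 1 then 2 * i + 2 else 2 * i)
    else if u % 2 = 1 then (if p = 0 then 0 else if p = 1 then i + 1 else i)
    else u / 2
  F P d u i s' X :=
    if d % 2 = 1 then
      (if i ≤ u then G.fA P.2.2 (G.mm P) P.2.1 (G.cc P) (u * G.cc P + s') X else 0)
    else if u % 2 = 1 then
      (if i < u / 2 then (if s' = 0 then G.cnt P.2.2 (G.mm P) P.2.1 (G.cc P) X else 0) else 0)
    else (if i = 0 then dig (G.mm P) X s' else 0)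

theorem Lev_L {α β γ : Type} [Inp α] [Inp β] [Inp γ] {f : α → γ} (hf : LF f) :
    LF fun p : α × β => f p.1 := LF.comp (f := f) (g := fun p : α × β => p.1) hf LF.fst'

theorem Lev_inp {α : Type} [Inp α] {m c X i : α → ℕ} (hm : LF m) (hc : LF c) (hX : LF X)
    (hi : LF i) : LF fun a => inp (m a) (c a) (X a) (i a) := by
  unfold inp
  exact LF.ite_lt hi hc (LF.dig hm hX (LF.add hc (LF.sub (LF.sub hc (LF.const 1)) hi)))
    (LF.dig hm hX (LF.add (LF.mul (LF.const 2) hc)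
      (LF.sub (LF.sub (LF.mul (LF.const 2) hc) (LF.const 1)) hi)))

theorem Lev_proc {α : Type} [Inp α] {M m g c X pp : α → ℕ} (hM : LF M) (hm : LF m) (hg : LF g)
    (hc : LF c) (hX : LF X) (hpp : LF pp) :
    LF fun a => G.proc (M a) (g a) (c a) (pp a) (inp (m a) (c a) (X a)) :=
  G.LF_proc hM hg hc hpp (Lev_inp (Lev_L hm) (Lev_L hc) (Lev_L hX) LF.snd')

theorem Lev_cnt {α : Type} [Inp α] {M m g c X : α → ℕ} (hM : LF M) (hm : LF m) (hg : LF g)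
    (hc : LF c) (hX : LF X) : LF fun a => G.cnt (M a) (m a) (g a) (c a) (X a) := by
  unfold cnt
  exact LF.fst (LF.snd (G.Lev_proc hM hm hg hc hX (LF.const 0)))

theorem Lev_fA {α : Type} [Inp α] {M m g c x X : α → ℕ} (hM : LF M) (hm : LF m) (hg : LF g)
    (hc : LF c) (hx : LF x) (hX : LF X) :
    LF fun a => G.fA (M a) (m a) (g a) (c a) (x a) (X a) := by
  have h0 : LF fun a => dig (m a) (X a) 0 := LF.dig hm hX (LF.const 0)
  have h1 := G.Lev_cnt hM hm hg hc hX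
  unfold fA
  refine LF.ite_le h0 hx (LF.ite_lt hx (LF.add h0 h1) ?_ (LF.const 0)) (LF.const 0)
  exact LF.fst (LF.snd (LF.snd (G.Lev_proc hM hm hg hc hX
    (LF.sub (LF.sub h1 (LF.const 1)) (LF.sub hx h0)))))

theorem Lev_cc : LF G.cc := by
  unfold cc
  exact LF.mul (LF.const G.k) (LF.fst LF.snd')

theorem Lev_mm : LF G.mm := by
  unfold mm
  exact LF.add (LF.add (LF.add (LF.mul (LF.add (LF.add LF.fst' (LF.fst LF.snd')) (LF.const 2))
    (LF.mul (LF.const G.k) (LF.fst LF.snd'))) LF.fst') (LF.const G.B)) (LF.const 2)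

theorem Lev_II : LF II := by
  unfold II
  exact LF.add (LF.add LF.fst' (LF.fst LF.snd')) (LF.const 3)

theorem Lev_qq : LF G.qq := by
  unfold qq
  exact LF.nxtp (LF.add (LF.add (LF.mul (LF.mul (LF.const 3) G.Lev_cc)
    (LF.sub G.Lev_mm (LF.const 1))) G.Lev_mm) (LF.const 2))

theorem cd_cpt : G.cd.Cpt := by
  constructor
  · exact G.Lev_qq
  · exact LF.snd LF.snd'
  · exact G.Lev_cc
  · exact Lev_II
  · exact G.Lev_mm
  · have hP : LF fun p : Par × ℕ × ℕ => p.1 := LF.fst'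
    have hcc : LF fun p : Par × ℕ × ℕ => G.cc p.1 := Lev_L G.Lev_cc
    exact G.LF_bas (LF.snd (LF.snd hP)) (LF.fst hP) (LF.fst (LF.snd hP))
      (LF.add (LF.mul (LF.fst LF.snd') hcc) (LF.snd LF.snd'))
  · have hd : LF fun p : Par × ℕ × ℕ × ℕ × ℕ => p.2.1 := LF.fst LF.snd'
    have hu : LF fun p : Par × ℕ × ℕ × ℕ × ℕ => p.2.2.1 := LF.fst (LF.snd LF.snd')
    have hi : LF fun p : Par × ℕ × ℕ × ℕ × ℕ => p.2.2.2.1 := LF.fst (LF.snd (LF.snd LF.snd'))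
    have hp : LF fun p : Par × ℕ × ℕ × ℕ × ℕ => p.2.2.2.2 := LF.snd (LF.snd (LF.snd LF.snd'))
    refine LF.ite_eq (LF.mod hd (LF.const 2)) (LF.const 1) ?_
      (LF.ite_eq (LF.mod hu (LF.const 2)) (LF.const 1) ?_ (LF.div hu (LF.const 2)))
    · exact LF.ite_eq hp (LF.const 0) (LF.add (LF.mul (LF.const 2) hi) (LF.const 1))
        (LF.ite_eq hp (LF.const 1) (LF.add (LF.mul (LF.const 2) hi) (LF.const 2))
          (LF.mul (LF.const 2) hi))
    · exact LF.ite_eq hp (LF.const 0) (LF.const 0)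
        (LF.ite_eq hp (LF.const 1) (LF.add hi (LF.const 1)) hi)
  · have hP : LF fun p : Par × ℕ × ℕ × ℕ × ℕ × ℕ => p.1 := LF.fst'
    have hcc : LF fun p : Par × ℕ × ℕ × ℕ × ℕ × ℕ => G.cc p.1 := Lev_L G.Lev_cc
    have hmm : LF fun p : Par × ℕ × ℕ × ℕ × ℕ × ℕ => G.mm p.1 := Lev_L G.Lev_mm
    have hd : LF fun p : Par × ℕ × ℕ × ℕ × ℕ × ℕ => p.2.1 := LF.fst LF.snd'
    have hu : LF fun p : Par × ℕ × ℕ × ℕ × ℕ × ℕ => p.2.2.1 := LF.fst (LF.snd LF.snd')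
    have hi : LF fun p : Par × ℕ × ℕ × ℕ × ℕ × ℕ => p.2.2.2.1 :=
      LF.fst (LF.snd (LF.snd LF.snd'))
    have hs : LF fun p : Par × ℕ × ℕ × ℕ × ℕ × ℕ => p.2.2.2.2.1 :=
      LF.fst (LF.snd (LF.snd (LF.snd LF.snd')))
    have hX : LF fun p : Par × ℕ × ℕ × ℕ × ℕ × ℕ => p.2.2.2.2.2 :=
      LF.snd (LF.snd (LF.snd (LF.snd LF.snd')))
    refine LF.ite_eq (LF.mod hd (LF.const 2)) (LF.const 1) ?_
      (LF.ite_eq (LF.mod hu (LF.const 2)) (LF.const 1) ?_ ?_)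
    · exact LF.ite_le hi hu (G.Lev_fA (LF.snd (LF.snd hP)) hmm (LF.fst (LF.snd hP)) hcc
        (LF.add (LF.mul hu hcc) hs) hX) (LF.const 0)
    · exact LF.ite_lt hi (LF.div hu (LF.const 2)) (LF.ite_eq hs (LF.const 0)
        (G.Lev_cnt (LF.snd (LF.snd hP)) hmm (LF.fst (LF.snd hP)) hcc hX) (LF.const 0))
        (LF.const 0)
    · exact LF.ite_eq hi (LF.const 0) (LF.dig hmm hX hs) (LF.const 0)

/-- `M` is large enough -/
structure Big (n s M : ℕ) : Prop where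
  s1 : 1 ≤ s
  b1 : G.B ^ (G.b * s + G.r0.length) ≤ M
  b2 : 1 + n * s + G.b * s + G.r0.length ≤ M
  p1 : (G.B ^ G.b) ^ s ≤ M
  p2 : (G.p + 1) ^ s ≤ M
  p3 : 2 * (G.k * s) * (G.b + 1) ^ (s + 1) ≤ M
  t1 : G.qq (n, s, M) ^ (4 * (G.k * s)) ≤ M
  t2 : G.mm (n, s, M) ^ (3 * (G.k * s)) ≤ M
  t3 : (9 * (G.qq (n, s, M) - 1) * II (n, s, M)) ^ (2 * s) ≤ M
  t4 : 2 * (n + s) + 10 ≤ M
  t5 : G.b * (n + 1) + (n + 1) * (G.k * s) ≤ M

/-- polynomial bounds -/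
def Lev_P (f : ℕ → ℕ → ℕ) : Prop := ∃ e, ∀ n s, 1 ≤ s → s ≤ n + 1 → f n s ≤ (n + 2) ^ e

/-- bounds with exponent `O (s + 1)` -/
def Lev_E (f : ℕ → ℕ → ℕ) : Prop :=
  ∃ e, ∀ n s, 1 ≤ s → s ≤ n + 1 → f n s ≤ (n + 2) ^ (e * (s + 1))

theorem Lev_pow_le {n a b : ℕ} (h : a ≤ b) : (n + 2) ^ a ≤ (n + 2) ^ b :=
  Nat.pow_le_pow_right (by omega) h

theorem Lev_Pc (c : ℕ) : Lev_P fun _ _ => c :=
  ⟨c, fun n _ _ _ => (Nat.lt_two_pow_self (n := c)).le.trans (Nat.pow_le_pow_left (by omega) c)⟩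

theorem Lev_Pn : Lev_P fun n _ => n := ⟨1, fun n _ _ _ => by
  show n ≤ (n + 2) ^ 1
  rw [pow_one]
  omega⟩

theorem Lev_Ps : Lev_P fun _ s => s := ⟨1, fun n s _ _ => by
  show s ≤ (n + 2) ^ 1
  rw [pow_one]
  omega⟩

theorem Lev_P.add {f g : ℕ → ℕ → ℕ} (hf : Lev_P f) (hg : Lev_P g) :
    Lev_P fun n s => f n s + g n s := by
  obtain ⟨e, he⟩ := hf
  obtain ⟨e', he'⟩ := hg
  refine ⟨e + e' + 1, fun n s h1 h2 => ?_⟩
  have h3 := (he n s h1 h2).trans (Lev_pow_le (n := n) (Nat.le_add_right e e'))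
  have h4 := (he' n s h1 h2).trans (Lev_pow_le (n := n) (Nat.le_add_left e' e))
  show f n s + g n s ≤ _
  rw [pow_succ, Nat.mul_add, Nat.mul_comm _ 2]
  have h5 : 0 ≤ (n + 2) ^ (e + e') * n := Nat.zero_le _
  omega

theorem Lev_P.mul {f g : ℕ → ℕ → ℕ} (hf : Lev_P f) (hg : Lev_P g) :
    Lev_P fun n s => f n s * g n s := by
  obtain ⟨e, he⟩ := hf
  obtain ⟨e', he'⟩ := hg
  refine ⟨e + e', fun n s h1 h2 => ?_⟩
  rw [pow_add]
  exact Nat.mul_le_mul (he n s h1 h2) (he' n s h1 h2)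

theorem Lev_P.mono {f g : ℕ → ℕ → ℕ} (hg : Lev_P g) (h : ∀ n s, f n s ≤ g n s) : Lev_P f := by
  obtain ⟨e, he⟩ := hg
  exact ⟨e, fun n s h1 h2 => (h n s).trans (he n s h1 h2)⟩

theorem Lev_P.E {f : ℕ → ℕ → ℕ} (hf : Lev_P f) : Lev_E f := by
  obtain ⟨e, he⟩ := hf
  refine ⟨e, fun n s h1 h2 => (he n s h1 h2).trans (Lev_pow_le ?_)⟩
  exact Nat.le_mul_of_pos_right e (by omega)

theorem Lev_P.pow {f : ℕ → ℕ → ℕ} (hf : Lev_P f) (c c' : ℕ) :
    Lev_E fun n s => f n s ^ (c * s + c') := by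
  obtain ⟨e, he⟩ := hf
  refine ⟨e * (c + c'), fun n s h1 h2 => ?_⟩
  refine (Nat.pow_le_pow_left (he n s h1 h2) _).trans ?_
  rw [← pow_mul]
  refine Lev_pow_le ?_
  rw [Nat.mul_assoc]
  refine Nat.mul_le_mul_left e ?_
  nlinarith

theorem Lev_E.mul {f g : ℕ → ℕ → ℕ} (hf : Lev_E f) (hg : Lev_E g) :
    Lev_E fun n s => f n s * g n s := by
  obtain ⟨e, he⟩ := hf
  obtain ⟨e', he'⟩ := hg
  refine ⟨e + e', fun n s h1 h2 => ?_⟩
  rw [Nat.add_mul, pow_add]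
  exact Nat.mul_le_mul (he n s h1 h2) (he' n s h1 h2)

theorem Lev_Pcc : Lev_P fun _ s => G.k * s := (Lev_Pc G.k).mul Lev_Ps

theorem Lev_Pmm : Lev_P fun n s => G.mm (n, s, 0) :=
  (((((Lev_Pn.add Lev_Ps).add (Lev_Pc 2)).mul G.Lev_Pcc).add Lev_Pn).add (Lev_Pc G.B)).add
    (Lev_Pc 2)

theorem Lev_Pqq : Lev_P fun n s => G.qq (n, s, 0) := by
  have h1 : Lev_P fun n s => 2 * (3 * (G.k * s) * G.mm (n, s, 0) + G.mm (n, s, 0) + 2) + 3 :=
    ((Lev_Pc 2).mul (((((Lev_Pc 3).mul G.Lev_Pcc).mul G.Lev_Pmm).add G.Lev_Pmm).add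
      (Lev_Pc 2))).add (Lev_Pc 3)
  refine h1.mono fun n s => ?_
  refine (nxtp_le _).trans ?_
  have h2 : 3 * G.cc (n, s, 0) * (G.mm (n, s, 0) - 1) ≤ 3 * (G.k * s) * G.mm (n, s, 0) :=
    Nat.mul_le_mul_left _ (Nat.sub_le _ _)
  omega

theorem Lev_PII : Lev_P fun n s => II (n, s, 0) := (Lev_Pn.add Lev_Ps).add (Lev_Pc 3)

/-- powers of `n + 2` are large enough -/
theorem exists_big : ∃ B, 1 ≤ B ∧ ∀ n s, 1 ≤ s → s ≤ n + 1 →
    G.Big n s ((n + 2) ^ (B * (s + 1))) := by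
  obtain ⟨e1, h1⟩ := (Lev_Pc G.B).pow G.b G.r0.length
  obtain ⟨e2, h2⟩ := ((((Lev_Pc 1).add (Lev_Pn.mul Lev_Ps)).add
    ((Lev_Pc G.b).mul Lev_Ps)).add (Lev_Pc G.r0.length)).E
  obtain ⟨e3, h3⟩ := (Lev_Pc (G.B ^ G.b)).pow 1 0
  obtain ⟨e4, h4⟩ := (Lev_Pc (G.p + 1)).pow 1 0
  obtain ⟨e5, h5⟩ := ((Lev_Pc 2).mul G.Lev_Pcc).E.mul ((Lev_Pc (G.b + 1)).pow 1 1)
  obtain ⟨e6, h6⟩ := G.Lev_Pqq.pow (4 * G.k) 0
  obtain ⟨e7, h7⟩ := G.Lev_Pmm.pow (3 * G.k) 0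
  obtain ⟨e8, h8⟩ := (((Lev_Pc 9).mul G.Lev_Pqq).mul Lev_PII).pow 2 0
  obtain ⟨e9, h9⟩ := (((Lev_Pc 2).mul (Lev_Pn.add Lev_Ps)).add (Lev_Pc 10)).E
  obtain ⟨e10, h10⟩ := (((Lev_Pc G.b).mul (Lev_Pn.add (Lev_Pc 1))).add
    ((Lev_Pn.add (Lev_Pc 1)).mul G.Lev_Pcc)).E
  refine ⟨e1 + e2 + e3 + e4 + e5 + e6 + e7 + e8 + e9 + e10 + 1, by omega, fun n s hs hn => ?_⟩
  have key : ∀ e x, x ≤ (n + 2) ^ (e * (s + 1)) →
      e ≤ e1 + e2 + e3 + e4 + e5 + e6 + e7 + e8 + e9 + e10 + 1 →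
      x ≤ (n + 2) ^ ((e1 + e2 + e3 + e4 + e5 + e6 + e7 + e8 + e9 + e10 + 1) * (s + 1)) :=
    fun e x hx he => hx.trans (Lev_pow_le (Nat.mul_le_mul_right _ he))
  generalize hM : (n + 2) ^ ((e1 + e2 + e3 + e4 + e5 + e6 + e7 + e8 + e9 + e10 + 1) * (s + 1)) =
    M at key
  have g1 := h1 n s hs hn
  have g2 := h2 n s hs hn
  have g3 := h3 n s hs hn
  have g4 := h4 n s hs hn
  have g5 := h5 n s hs hn
  have g6 := h6 n s hs hn
  have g7 := h7 n s hs hn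
  have g8 := h8 n s hs hn
  have g9 := h9 n s hs hn
  have g10 := h10 n s hs hn
  simp only [Nat.one_mul, Nat.add_zero] at g3 g4 g5 g6 g7 g8
  constructor
  · exact hs
  · exact key e1 _ g1 (by omega)
  · exact key e2 _ g2 (by omega)
  · exact key e3 _ g3 (by omega)
  · exact key e4 _ g4 (by omega)
  · exact key e5 _ g5 (by omega)
  · rw [← Nat.mul_assoc]
    exact key e6 _ g6 (by omega)
  · rw [← Nat.mul_assoc]
    exact key e7 _ g7 (by omega)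
  · refine key e8 _ ((Nat.pow_le_pow_left ?_ _).trans g8) (by omega)
    exact Nat.mul_le_mul_right _ (Nat.mul_le_mul_left _ (Nat.sub_le _ _))
  · exact key e9 _ g9 (by omega)
  · exact key e10 _ g10 (by omega)

end NT

end Pool.Agent.W_5d512e_h4
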