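import Mathlib

/-!
# Numerical transducers and cascades

States are numbers `< p`, letters are numbers `1 ≤ x < B`; the letter `1` is the blank.  Blanks
are written to the left of the words, they reset the state to the initial state `0` and are
reproduced.  The transducer is definite: words of length `≥ k` act as constant maps.
-/

set_option autoImplicit false

namespace Pool.Agent.W_5d512e_h4

/-- definite non-erasing transducers with a blank -/
structure NT where
  p : ℕ
  B : ℕ
  b : ℕ
  k : ℕ
  δ : ℕ → ℕ → ℕ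
  out : ℕ → ℕ → List ℕ
  a : ℕ
  r0 : List ℕ
  p_pos : 0 < p
  k_pos : 0 < k
  b_pos : 0 < b
  a_two : 2 ≤ a
  a_lt : a < B
  δ_lt : ∀ s x, δ s x < p
  out_ne : ∀ s x, out s x ≠ []
  out_len : ∀ s x, (out s x).length ≤ b
  out_pos : ∀ s x, ∀ y ∈ out s x, 1 ≤ y
  out_lt : ∀ s x, ∀ y ∈ out s x, y < B
  /-- blanks and pairs outside the range -/
  δ_blank : ∀ s x, p ≤ s ∨ B ≤ x ∨ x ≤ 1 → δ s x = 0
  out_blank : ∀ s x, p ≤ s ∨ B ≤ x ∨ x ≤ 1 → out s x = [1]
  definite : ∀ u : List ℕ, k ≤ u.length → ∀ s s', u.foldl δ s = u.foldl δ s'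
  out_a : out 0 a = a :: r0
  r0_ne : r0 ≠ []

namespace NT

variable (G : NT)

/-- state after reading a word -/
def st (s : ℕ) (u : List ℕ) : ℕ := u.foldl G.δ s

/-- output on a word -/
def tr : ℕ → List ℕ → List ℕ
  | _, [] => []
  | s, x :: u => G.out s x ++ tr (G.δ s x) u

lemma st_append (s : ℕ) (u v : List ℕ) : G.st s (u ++ v) = G.st (G.st s u) v := by
  unfold st
  rw [List.foldl_append]

lemma tr_append (s : ℕ) (u v : List ℕ) : G.tr s (u ++ v) = G.tr s u ++ G.tr (G.st s u) v := by
  induction u generalizing s with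
  | nil => rfl
  | cons x u ih =>
    have h1 : G.tr s (x :: u ++ v) = G.out s x ++ G.tr (G.δ s x) (u ++ v) := rfl
    have h2 : G.tr s (x :: u) = G.out s x ++ G.tr (G.δ s x) u := rfl
    have h3 : G.st s (x :: u) = G.st (G.δ s x) u := rfl
    rw [h1, h2, h3, ih, List.append_assoc]

lemma length_le_tr (s : ℕ) (u : List ℕ) : u.length ≤ (G.tr s u).length := by
  induction u generalizing s with
  | nil => exact Nat.zero_le _
  | cons x u ih =>
    unfold tr
    rw [List.length_append, List.length_cons]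
    have h1 := ih (G.δ s x)
    have h2 := List.length_pos_of_ne_nil (G.out_ne s x)
    omega

lemma tr_length_le (s : ℕ) (u : List ℕ) : (G.tr s u).length ≤ G.b * u.length := by
  induction u generalizing s with
  | nil => exact Nat.zero_le _
  | cons x u ih =>
    unfold tr
    rw [List.length_append, List.length_cons, Nat.mul_add, Nat.mul_one]
    have h1 := ih (G.δ s x)
    have h2 := G.out_len s x
    omega

lemma tr_range (s : ℕ) (u : List ℕ) : ∀ y ∈ G.tr s u, 1 ≤ y ∧ y < G.B := by
  induction u generalizing s with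
  | nil =>
    intro y hy
    exact absurd hy (List.not_mem_nil)
  | cons x u ih =>
    intro y hy
    unfold tr at hy
    rcases List.mem_append.1 hy with h | h
    · exact ⟨G.out_pos s x y h, G.out_lt s x y h⟩
    · exact ih (G.δ s x) y h

/-- the iterates -/
def W (t : ℕ) : List ℕ := (G.tr 0)^[t] [G.a]

/-- number of letters of the iterates -/
def E (t : ℕ) : ℕ := (G.W t).length

/-- the rows and the states in front of them -/
def rs : ℕ → List ℕ × ℕ
  | 0 => (G.r0, G.δ 0 G.a)
  | t + 1 => (G.tr (rs t).2 (rs t).1, G.st (rs t).2 (rs t).1)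

lemma NT_W_succ (t : ℕ) : G.W (t + 1) = G.tr 0 (G.W t) := by
  unfold W
  rw [Function.iterate_succ_apply']

lemma NT_inv (t : ℕ) : G.W (t + 1) = G.W t ++ (G.rs t).1 ∧ (G.rs t).2 = G.st 0 (G.W t) := by
  induction t with
  | zero =>
    constructor
    · rw [NT_W_succ]
      have h1 : G.W 0 = [G.a] := rfl
      rw [h1]
      unfold tr tr
      rw [G.out_a, List.append_nil]
      rfl
    · rfl
  | succ t ih =>
    obtain ⟨ih1, ih2⟩ := ih
    constructor
    · rw [NT_W_succ]
      conv_lhs => rw [ih1]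
      rw [tr_append, ← NT_W_succ, ← ih2]
      rfl
    · have h1 : (G.rs (t + 1)).2 = G.st (G.rs t).2 (G.rs t).1 := rfl
      rw [h1, ih2, ← st_append, ← ih1]

lemma W_succ (t : ℕ) : G.W (t + 1) = G.W t ++ (G.rs t).1 := by
  exact (G.NT_inv t).1

lemma W_range (t : ℕ) : ∀ y ∈ G.W t, 1 ≤ y ∧ y < G.B := by
  induction t with
  | zero =>
    intro y hy
    have h1 : y ∈ [G.a] := hy
    rw [List.mem_singleton] at h1
    rw [h1]
    have h2 := G.a_two
    have h3 := G.a_lt
    omega
  | succ t _ =>
    rw [NT_W_succ]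
    exact G.tr_range 0 _

lemma rs_range (t : ℕ) : ∀ y ∈ (G.rs t).1, 1 ≤ y ∧ y < G.B := by
  intro y hy
  refine G.W_range (t + 1) y ?_
  rw [W_succ]
  exact List.mem_append_right _ hy

lemma row_le_succ (t : ℕ) : (G.rs t).1.length ≤ (G.rs (t + 1)).1.length := by
  exact G.length_le_tr _ _

lemma row_mono {t t' : ℕ} (h : t ≤ t') : (G.rs t).1.length ≤ (G.rs t').1.length := by
  exact monotone_nat_of_le_succ (f := fun t => (G.rs t).1.length) (fun t => G.row_le_succ t) h

lemma row_pos (t : ℕ) : 0 < (G.rs t).1.length := by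
  have h1 : 0 < (G.rs 0).1.length := List.length_pos_of_ne_nil G.r0_ne
  exact lt_of_lt_of_le h1 (G.row_mono (Nat.zero_le t))

lemma E_zero : G.E 0 = 1 := by
  rfl

lemma E_succ (t : ℕ) : G.E (t + 1) = G.E t + (G.rs t).1.length := by
  unfold E
  rw [W_succ, List.length_append]

lemma lt_E (t : ℕ) : t < G.E t := by
  induction t with
  | zero =>
    rw [E_zero]
    exact Nat.one_pos
  | succ t ih =>
    rw [E_succ]
    have := G.row_pos t
    omega

lemma E_mono {t t' : ℕ} (h : t ≤ t') : G.E t ≤ G.E t' := by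
  refine monotone_nat_of_le_succ (f := G.E) (fun t => ?_) h
  rw [E_succ]
  exact Nat.le_add_right _ _

lemma E_succ_le (t : ℕ) : G.E (t + 1) ≤ G.b * G.E t := by
  unfold E
  rw [NT_W_succ]
  exact G.tr_length_le 0 _

/-- iterates of prefixes: the letter `i` of `W t` does not depend on `t` -/
lemma W_getD {t t' i : ℕ} (h : i < G.E t) (h' : t ≤ t') (z : ℕ) :
    (G.W t').getD i z = (G.W t).getD i z := by
  induction t', h' using Nat.le_induction with
  | base => rfl
  | succ t' h' ih =>
    rw [W_succ, List.getD_append _ _ _ _ (lt_of_lt_of_le h (G.E_mono h')), ih]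

end NT

end Pool.Agent.W_5d512e_h4
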