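import Pool.Agent.W_5d512e_h4.Cas
import Pool.Agent.W_5d512e_h4.Dig

/-!
# The cascade as a computable function

Levels `0, ..., g-1`; the states are the digits of `XS` in base `p + 1`, the pending output words
of the levels are the digits of `XP` in base `B ^ b` (each word coded by `wcod B`).  A step feeds
the first letter of the deepest nonempty pending word to the next level (or outputs it), or feeds
the next input letter to level `0`.  The outputs are counted after `c` input letters.
-/

set_option autoImplicit false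

namespace Pool.Agent.W_5d512e_h4

lemma Proc_fnd_eq {n k : ℕ} {p : ℕ → ℕ} (hk : k < n) (h1 : p k ≠ 0) (h2 : ∀ j < k, p j = 0) :
    fnd n p = k := by
  rcases lt_trichotomy (fnd n p) k with h | h | h
  · exact absurd (h2 _ h) (fnd_spec (by omega))
  · exact h
  · exact absurd (fnd_lt h) h1

lemma Proc_fnd_all {n : ℕ} {p : ℕ → ℕ} (h : ∀ j < n, p j = 0) : fnd n p = n := by
  rcases lt_or_eq_of_le (fnd_le n p) with h1 | h1
  · exact absurd (h _ h1) (fnd_spec h1)
  · exact h1

lemma Proc_itr_const {β : Type} (x : β) (f : β → β) (n : ℕ) :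
    itr x (fun y _ => f y) n = f^[n] x := by
  induction n with
  | zero => rfl
  | succ n ih => rw [Function.iterate_succ_apply', ← ih]; rfl

lemma Proc_getD_mid {β : Type} (pre suf : List β) (a d : β) (j : ℕ) :
    (pre ++ a :: suf).getD j d = if j < pre.length then pre.getD j d else
      if j = pre.length then a else suf.getD (j - pre.length - 1) d := by
  rcases lt_trichotomy j pre.length with h | h | h
  · rw [if_pos h, List.getD_append _ _ _ _ h]
  · rw [if_neg (by omega), if_pos h, List.getD_append_right _ _ _ _ (by omega), h]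
    simp
  · rw [if_neg (by omega), if_neg (by omega), List.getD_append_right _ _ _ _ (by omega)]
    obtain ⟨k, hk⟩ : ∃ k, j - pre.length = k + 1 := ⟨j - pre.length - 1, by omega⟩
    rw [hk]
    simp

namespace NT

variable (G : NT) {α : Type} [Inp α]

/-- flush the pending words: end states, output -/
def fls : List (ℕ × List ℕ) → List ℕ × List ℕ
  | [] => ([], [])
  | x :: T => (x.1 :: (G.casc (fls T).1 x.2).1, (fls T).2 ++ (G.casc (fls T).1 x.2).2)
  

lemma Proc_fls_empty (T : List (ℕ × List ℕ)) (h : ∀ x ∈ T, x.2 = []) :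
    G.fls T = (T.map Prod.fst, []) := by
  induction T with
  | nil => rfl
  | cons x T ih =>
    have h1 : x.2 = [] := h x (by simp)
    have h2 := ih fun y hy => h y (by simp [hy])
    simp only [fls, h2, h1, casc_nil, List.map_cons, List.append_nil]

/-- changing the deep part of the levels -/
lemma Proc_fls_congr (pre : List (ℕ × List ℕ)) {T T' : List (ℕ × List ℕ)} (z : List ℕ)
    (h1 : (G.fls T).1 = (G.fls T').1) (h2 : (G.fls T).2 = z ++ (G.fls T').2) :
    (G.fls (pre ++ T)).1 = (G.fls (pre ++ T')).1 ∧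
      (G.fls (pre ++ T)).2 = z ++ (G.fls (pre ++ T')).2 := by
  induction pre with
  | nil => exact ⟨h1, h2⟩
  | cons x pre ih =>
    simp only [List.cons_append, fls, ih.1, ih.2, List.append_assoc]
    exact ⟨trivial, trivial⟩

/-- output of a letter of the last level -/
lemma Proc_fls_emit (pre : List (ℕ × List ℕ)) (s y : ℕ) (P : List ℕ) :
    (G.fls (pre ++ [(s, y :: P)])).1 = (G.fls (pre ++ [(s, P)])).1 ∧
      (G.fls (pre ++ [(s, y :: P)])).2 = y :: (G.fls (pre ++ [(s, P)])).2 := by
  have := G.Proc_fls_congr pre (T := [(s, y :: P)]) (T' := [(s, P)]) [y]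
    (by simp [fls, casc]) (by simp [fls, casc])
  simpa using this

lemma Proc_casc_single (s y : ℕ) (S : List ℕ) :
    G.casc (s :: S) [y] = (G.δ s y :: (G.casc S (G.out s y)).1, (G.casc S (G.out s y)).2) := by
  simp [casc, st, tr]

/-- a letter moves to the next level -/
lemma Proc_fls_move (pre suf : List (ℕ × List ℕ)) (s s' y : ℕ) (P : List ℕ)
    (hs : ∀ x ∈ suf, x.2 = []) :
    (G.fls (pre ++ (s, y :: P) :: (s', []) :: suf)).1 =
        (G.fls (pre ++ (s, P) :: (G.δ s' y, G.out s' y) :: suf)).1 ∧
      (G.fls (pre ++ (s, y :: P) :: (s', []) :: suf)).2 =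
        (G.fls (pre ++ (s, P) :: (G.δ s' y, G.out s' y) :: suf)).2 := by
  have e := G.Proc_fls_empty suf hs
  have h := G.Proc_fls_congr pre (T := (s, y :: P) :: (s', []) :: suf)
    (T' := (s, P) :: (G.δ s' y, G.out s' y) :: suf) [] ?_ ?_
  · simpa using h
  · have h1 : y :: P = [y] ++ P := rfl
    simp only [fls, e, casc_nil, List.append_nil]
    rw [h1, casc_append, Proc_casc_single]
  · have h1 : y :: P = [y] ++ P := rfl
    simp only [fls, e, casc_nil, List.append_nil, List.nil_append]
    rw [h1, casc_append, Proc_casc_single]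

/-- an input letter -/
lemma Proc_fls_feed (suf : List (ℕ × List ℕ)) (s' y : ℕ) (hs : ∀ x ∈ suf, x.2 = []) :
    G.fls ((G.δ s' y, G.out s' y) :: suf) = G.casc (G.fls ((s', []) :: suf)).1 [y] := by
  have e := G.Proc_fls_empty suf hs
  simp only [fls, e, casc_nil, List.nil_append]
  rw [Proc_casc_single]

/-- weights -/
def wt : ℕ → ℕ
  | 0 => 1
  | n + 1 => 1 + G.b * wt n

lemma Proc_wt_pos (n : ℕ) : 1 ≤ G.wt n := by
  cases n with
  | zero => exact le_rfl
  | succ n => unfold wt; omega

lemma Proc_wt_le (n : ℕ) : G.wt n ≤ (G.b + 1) ^ n := by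
  induction n with
  | zero => simp [wt]
  | succ n ih =>
    have h1 := G.Proc_wt_pos n
    calc G.wt (n + 1) = 1 + G.b * G.wt n := rfl
      _ ≤ G.wt n + G.b * G.wt n := by omega
      _ = G.wt n * (G.b + 1) := by ring
      _ ≤ (G.b + 1) ^ n * (G.b + 1) := Nat.mul_le_mul_right _ ih
      _ = (G.b + 1) ^ (n + 1) := by ring

/-- number of steps needed to flush the levels -/
def mes : List (ℕ × List ℕ) → ℕ
  | [] => 0
  | x :: T => x.2.length * G.wt T.length + mes T

lemma Proc_mes_append (pre T : List (ℕ × List ℕ)) {T' : List (ℕ × List ℕ)}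
    (hl : T.length = T'.length) (h : G.mes T < G.mes T') :
    G.mes (pre ++ T) < G.mes (pre ++ T') := by
  induction pre with
  | nil => exact h
  | cons x pre ih =>
    simp only [List.cons_append, mes, List.length_append, hl]
    omega

lemma Proc_mes_empty (T : List (ℕ × List ℕ)) (h : ∀ x ∈ T, x.2 = []) : G.mes T = 0 := by
  induction T with
  | nil => rfl
  | cons x T ih =>
    have h1 : x.2 = [] := h x (by simp)
    have h2 := ih fun y hy => h y (by simp [hy])
    simp [mes, h1, h2]

lemma Proc_mes_emit (pre : List (ℕ × List ℕ)) (s y : ℕ) (P : List ℕ) :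
    G.mes (pre ++ [(s, P)]) < G.mes (pre ++ [(s, y :: P)]) := by
  refine G.Proc_mes_append pre _ (by simp) ?_
  simp [mes, wt]

lemma Proc_mes_move (pre suf : List (ℕ × List ℕ)) (s s' y : ℕ) (P : List ℕ) :
    G.mes (pre ++ (s, P) :: (G.δ s' y, G.out s' y) :: suf) <
      G.mes (pre ++ (s, y :: P) :: (s', []) :: suf) := by
  refine G.Proc_mes_append pre _ (by simp) ?_
  simp only [mes, List.length_cons, List.length_nil, zero_mul, zero_add, wt]
  have h1 := G.out_len s' y
  have h2 : (G.out s' y).length * G.wt suf.length ≤ G.b * G.wt suf.length :=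
    Nat.mul_le_mul_right _ h1
  nlinarith

/-- code of the output -/
def oc (s x : ℕ) : ℕ := wcod G.B (G.out s x)

/-- codes of the levels -/
structure PRep (g XS XP : ℕ) (T : List (ℕ × List ℕ)) : Prop where
  len : T.length = g
  xs : XS < (G.p + 1) ^ g
  xp : XP < (G.B ^ G.b) ^ g
  ds : ∀ l < g, dig (G.p + 1) XS l = (T.getD l (0, [])).1
  dp : ∀ l < g, dig (G.B ^ G.b) XP l = wcod G.B (T.getD l (0, [])).2
  wr : ∀ x ∈ T, (∀ y ∈ x.2, 1 ≤ y ∧ y < G.B) ∧ x.2.length ≤ G.b ∧ x.1 ≤ G.p



/-- the deepest nonempty level -/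
lemma Proc_split (T : List (ℕ × List ℕ)) :
    (∀ x ∈ T, x.2 = []) ∨ ∃ pre s y P suf, T = pre ++ (s, y :: P) :: suf ∧
      ∀ x ∈ suf, x.2 = [] := by
  induction T with
  | nil => left; simp
  | cons x T ih =>
    rcases ih with h | ⟨pre, s, y, P, suf, h1, h2⟩
    · rcases hx : x.2 with _ | ⟨y, P⟩
      · left
        intro z hz
        rcases List.mem_cons.1 hz with hz | hz
        · rw [hz]; exact hx
        · exact h z hz
      · right
        exact ⟨[], x.1, y, P, T, by rw [← hx]; rfl, h⟩
    · right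
      exact ⟨x :: pre, s, y, P, suf, by rw [h1]; rfl, h2⟩

variable {G}

lemma Proc_getD_empty {T : List (ℕ × List ℕ)} (h : ∀ x ∈ T, x.2 = []) (l : ℕ) :
    (T.getD l (0, [])).2 = [] := by
  rcases lt_or_ge l T.length with hl | hl
  · rw [List.getD_eq_getElem _ _ hl]
    exact h _ (List.getElem_mem hl)
  · rw [List.getD_eq_default _ _ hl]

lemma PRep.all_zero {g XS XP : ℕ} {T : List (ℕ × List ℕ)} (h : G.PRep g XS XP T)
    (hT : ∀ x ∈ T, x.2 = []) : fnd g (fun j => dig (G.B ^ G.b) XP (g - 1 - j)) = g := by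
  apply Proc_fnd_all
  intro j hj
  rw [h.dp _ (by omega), Proc_getD_empty hT]
  rfl

lemma PRep.fnd_eq {g XS XP : ℕ} {pre suf : List (ℕ × List ℕ)} {s y : ℕ} {P : List ℕ}
    (h : G.PRep g XS XP (pre ++ (s, y :: P) :: suf)) (hs : ∀ x ∈ suf, x.2 = []) :
    fnd g (fun j => dig (G.B ^ G.b) XP (g - 1 - j)) = suf.length := by
  have hlen := h.len
  simp only [List.length_append, List.length_cons] at hlen
  have hw := h.wr (s, y :: P) (by simp)
  apply Proc_fnd_eq (by omega)
  · rw [h.dp _ (by omega), Proc_getD_mid, if_neg (by omega), if_pos (by omega)]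
    have h1 : wcod G.B (y :: P) = y + G.B * wcod G.B P := rfl
    have h2 := (hw.1 y (by simp)).1
    simp only
    rw [h1]
    omega
  · intro j hj
    rw [h.dp _ (by omega), Proc_getD_mid, if_neg (by omega), if_neg (by omega),
      Proc_getD_empty hs]
    rfl

/-- change of a state -/
lemma PRep.set_s {M g XS XP : ℕ} {pre suf : List (ℕ × List ℕ)} {s s' : ℕ} {P : List ℕ}
    (h2 : (G.p + 1) ^ g ≤ M) (h : G.PRep g XS XP (pre ++ (s, P) :: suf)) (hs : s' ≤ G.p) :
    G.PRep g (min M (setd M (G.p + 1) XS pre.length s')) XP (pre ++ (s', P) :: suf) := by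
  have hlen := h.len
  simp only [List.length_append, List.length_cons] at hlen
  have hl : pre.length < g := by omega
  have hxs := setd_lt (M := M) (d := s') h2 h.xs hl (by omega)
  rw [min_eq_right (by omega)]
  refine ⟨by simp only [List.length_append, List.length_cons]; exact hlen, hxs, h.xp, ?_, ?_, ?_⟩
  · intro l hl'
    rw [dig_setd h2 h.xs hl (by omega), Proc_getD_mid]
    rcases lt_trichotomy l pre.length with hc | hc | hc
    · rw [if_neg (by omega), if_pos hc, h.ds l hl', Proc_getD_mid, if_pos hc]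
    · rw [if_pos hc, if_neg (by omega), if_pos hc]
    · rw [if_neg (by omega), if_neg (by omega), if_neg (by omega), h.ds l hl', Proc_getD_mid,
        if_neg (by omega), if_neg (by omega)]
  · intro l hl'
    rw [h.dp l hl', Proc_getD_mid, Proc_getD_mid]
    rcases lt_trichotomy l pre.length with hc | hc | hc
    · rw [if_pos hc, if_pos hc]
    · rw [if_neg (by omega), if_pos hc, if_neg (by omega), if_pos hc]
    · rw [if_neg (by omega), if_neg (by omega), if_neg (by omega), if_neg (by omega)]
  · intro z hz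
    rcases List.mem_append.1 hz with hz | hz
    · exact h.wr z (by simp [hz])
    · rcases List.mem_cons.1 hz with hz | hz
      · rw [hz]
        have := h.wr (s, P) (by simp)
        exact ⟨this.1, this.2.1, hs⟩
      · exact h.wr z (by simp [hz])

/-- change of a pending word -/
lemma PRep.set_p {M g XS XP : ℕ} {pre suf : List (ℕ × List ℕ)} {s : ℕ} {P P' : List ℕ}
    (h1 : (G.B ^ G.b) ^ g ≤ M) (h : G.PRep g XS XP (pre ++ (s, P) :: suf))
    (hP : ∀ y ∈ P', 1 ≤ y ∧ y < G.B) (hP' : P'.length ≤ G.b) :
    G.PRep g XS (min M (setd M (G.B ^ G.b) XP pre.length (wcod G.B P')))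
      (pre ++ (s, P') :: suf) := by
  have hlen := h.len
  simp only [List.length_append, List.length_cons] at hlen
  have hl : pre.length < g := by omega
  have hB : 0 < G.B := by have := G.a_two; have := G.a_lt; omega
  have hwc : wcod G.B P' < G.B ^ G.b :=
    lt_of_lt_of_le (wcod_lt fun y hy => (hP y hy).2) (Nat.pow_le_pow_right hB hP')
  have hxp := setd_lt (M := M) (d := wcod G.B P') h1 h.xp hl hwc
  rw [min_eq_right (by omega)]
  refine ⟨by simp only [List.length_append, List.length_cons]; exact hlen, h.xs, hxp, ?_, ?_, ?_⟩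
  · intro l hl'
    rw [h.ds l hl', Proc_getD_mid, Proc_getD_mid]
    rcases lt_trichotomy l pre.length with hc | hc | hc
    · rw [if_pos hc, if_pos hc]
    · rw [if_neg (by omega), if_pos hc, if_neg (by omega), if_pos hc]
    · rw [if_neg (by omega), if_neg (by omega), if_neg (by omega), if_neg (by omega)]
  · intro l hl'
    rw [dig_setd h1 h.xp hl hwc, Proc_getD_mid]
    rcases lt_trichotomy l pre.length with hc | hc | hc
    · rw [if_neg (by omega), if_pos hc, h.dp l hl', Proc_getD_mid, if_pos hc]
    · rw [if_pos hc, if_neg (by omega), if_pos hc]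
    · rw [if_neg (by omega), if_neg (by omega), if_neg (by omega), h.dp l hl', Proc_getD_mid,
        if_neg (by omega), if_neg (by omega)]
  · intro z hz
    rcases List.mem_append.1 hz with hz | hz
    · exact h.wr z (by simp [hz])
    · rcases List.mem_cons.1 hz with hz | hz
      · rw [hz]
        have := h.wr (s, P) (by simp)
        exact ⟨hP, hP', this.2.2⟩
      · exact h.wr z (by simp [hz])

/-- digits of the level in the middle -/
lemma PRep.mid {g XS XP : ℕ} {pre suf : List (ℕ × List ℕ)} {s : ℕ} {P : List ℕ}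
    (h : G.PRep g XS XP (pre ++ (s, P) :: suf)) :
    dig (G.p + 1) XS pre.length = s ∧ dig (G.B ^ G.b) XP pre.length = wcod G.B P := by
  have hlen := h.len
  simp only [List.length_append, List.length_cons] at hlen
  rw [h.ds _ (by omega), h.dp _ (by omega), Proc_getD_mid, if_neg (by omega), if_pos rfl]
  exact ⟨rfl, rfl⟩


variable (G)

/-- one step; configuration = number of input letters read, number of output letters counted,
recorded letter (the `pp`-th), states, pending words -/
def pstep (M g c pp : ℕ) (inp : ℕ → ℕ) (x : ℕ × ℕ × ℕ × ℕ × ℕ) : ℕ × ℕ × ℕ × ℕ × ℕ :=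
  if fnd g (fun j => dig (G.B ^ G.b) x.2.2.2.2 (g - 1 - j)) < g then
    (if fnd g (fun j => dig (G.B ^ G.b) x.2.2.2.2 (g - 1 - j)) = 0 then
      -- output a letter of level `g - 1`
      (x.1, (if c < x.1 then x.2.1 + 1 else x.2.1),
        (if c < x.1 then (if x.2.1 = pp then dig (G.B ^ G.b) x.2.2.2.2 (g - 1) % G.B
          else x.2.2.1) else x.2.2.1),
        x.2.2.2.1,
        min M (setd M (G.B ^ G.b) x.2.2.2.2 (g - 1)
          (dig (G.B ^ G.b) x.2.2.2.2 (g - 1) / G.B)))
    else
      -- from level `l = g - 1 - f` to level `l + 1`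
      (x.1, x.2.1, x.2.2.1,
        min M (setd M (G.p + 1) x.2.2.2.1
          (g - fnd g (fun j => dig (G.B ^ G.b) x.2.2.2.2 (g - 1 - j)))
          (G.δ (dig (G.p + 1) x.2.2.2.1
            (g - fnd g (fun j => dig (G.B ^ G.b) x.2.2.2.2 (g - 1 - j))))
            (dig (G.B ^ G.b) x.2.2.2.2
              (g - 1 - fnd g (fun j => dig (G.B ^ G.b) x.2.2.2.2 (g - 1 - j))) % G.B))),
        min M (setd M (G.B ^ G.b)
          (min M (setd M (G.B ^ G.b) x.2.2.2.2
            (g - 1 - fnd g (fun j => dig (G.B ^ G.b) x.2.2.2.2 (g - 1 - j)))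
            (dig (G.B ^ G.b) x.2.2.2.2
              (g - 1 - fnd g (fun j => dig (G.B ^ G.b) x.2.2.2.2 (g - 1 - j))) / G.B)))
          (g - fnd g (fun j => dig (G.B ^ G.b) x.2.2.2.2 (g - 1 - j)))
          (G.oc (dig (G.p + 1) x.2.2.2.1
            (g - fnd g (fun j => dig (G.B ^ G.b) x.2.2.2.2 (g - 1 - j))))
            (dig (G.B ^ G.b) x.2.2.2.2
              (g - 1 - fnd g (fun j => dig (G.B ^ G.b) x.2.2.2.2 (g - 1 - j))) % G.B)))))
  else if x.1 < 2 * c then
    -- next input letter
    (x.1 + 1, x.2.1, x.2.2.1,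
      min M (setd M (G.p + 1) x.2.2.2.1 0 (G.δ (dig (G.p + 1) x.2.2.2.1 0) (inp x.1))),
      min M (setd M (G.B ^ G.b) x.2.2.2.2 0 (G.oc (dig (G.p + 1) x.2.2.2.1 0) (inp x.1))))
  else x

/-- the process, `M` steps -/
def proc (M g c pp : ℕ) (inp : ℕ → ℕ) : ℕ × ℕ × ℕ × ℕ × ℕ :=
  itr (0, 0, 0, 0, 0) (fun x _ => G.pstep M g c pp inp x) M


variable {G}

lemma Proc_B_pos : 0 < G.B := by have := G.a_two; have := G.a_lt; omega

lemma Proc_emit {M g c pp i cnt rec XS XP : ℕ} {inp : ℕ → ℕ} {pre : List (ℕ × List ℕ)} {s y : ℕ}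
    {P : List ℕ} (h1 : (G.B ^ G.b) ^ g ≤ M)
    (h : G.PRep g XS XP (pre ++ [(s, y :: P)])) :
    ∃ XP', G.pstep M g c pp inp (i, cnt, rec, XS, XP) =
      (i, (if c < i then cnt + 1 else cnt), (if c < i then (if cnt = pp then y else rec) else rec),
        XS, XP') ∧ G.PRep g XS XP' (pre ++ [(s, P)]) := by
  have hlen := h.len
  simp only [List.length_append, List.length_cons, List.length_nil] at hlen
  have hw := h.wr (s, y :: P) (by simp)
  have hf := h.fnd_eq (by simp)
  have hm := h.mid
  have hg1 : g - 1 = pre.length := by omega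
  have hy := (hw.1 y (by simp))
  refine ⟨min M (setd M (G.B ^ G.b) XP pre.length (wcod G.B P)), ?_, ?_⟩
  · unfold pstep
    simp only [hf, List.length_nil]
    rw [if_pos (by omega)]
    simp only [hg1, hm.2, wcod_mod hy.2, wcod_div hy.2, if_true]
  · exact h.set_p h1 (fun z hz => hw.1 z (by simp [hz])) (by
      have := hw.2.1
      simp only [List.length_cons] at this
      omega)

lemma Proc_move {M g c pp i cnt rec XS XP : ℕ} {inp : ℕ → ℕ} {pre suf : List (ℕ × List ℕ)}
    {s s' y : ℕ} {P : List ℕ} (h1 : (G.B ^ G.b) ^ g ≤ M) (h2 : (G.p + 1) ^ g ≤ M)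
    (h : G.PRep g XS XP (pre ++ (s, y :: P) :: (s', []) :: suf)) (hs : ∀ x ∈ suf, x.2 = []) :
    ∃ XS' XP', G.pstep M g c pp inp (i, cnt, rec, XS, XP) = (i, cnt, rec, XS', XP') ∧
      G.PRep g XS' XP' (pre ++ (s, P) :: (G.δ s' y, G.out s' y) :: suf) := by
  have hlen := h.len
  simp only [List.length_append, List.length_cons] at hlen
  have hw := h.wr (s, y :: P) (by simp)
  have hf := h.fnd_eq (by
    intro x hx
    rcases List.mem_cons.1 hx with hx | hx
    · rw [hx]
    · exact hs x hx)
  have hm := h.mid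
  have hy := (hw.1 y (by simp))
  have e1 : g - 1 - (suf.length + 1) = pre.length := by omega
  have e2 : g - (suf.length + 1) = pre.length + 1 := by omega
  have hP := h.set_p (P' := P) h1 (fun z hz => hw.1 z (by simp [hz])) (by
      have := hw.2.1
      simp only [List.length_cons] at this
      omega)
  have r1 : pre ++ (s, P) :: (s', []) :: suf = (pre ++ [(s, P)]) ++ (s', []) :: suf := by simp
  have r2 : ∀ z : ℕ × List ℕ, pre ++ (s, P) :: z :: suf = (pre ++ [(s, P)]) ++ z :: suf := by
    simp
  have l1 : (pre ++ [(s, P)]).length = pre.length + 1 := by simp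
  rw [r1] at hP
  have hm2 := hP.mid
  rw [l1] at hm2
  have hS := hP.set_s (s' := G.δ s' y) h2 (G.δ_lt _ _).le
  have hPP := hS.set_p (P' := G.out s' y) h1
    (fun z hz => ⟨G.out_pos _ _ z hz, G.out_lt _ _ z hz⟩) (G.out_len _ _)
  rw [l1] at hS hPP
  refine ⟨_, _, ?_, by rw [r2]; exact hPP⟩
  unfold pstep
  simp only [hf, List.length_cons, e1, e2, hm.2, hm2.1, wcod_mod hy.2, wcod_div hy.2]
  rw [if_pos (by omega), if_neg (by omega)]
  rfl

lemma Proc_feed {M g c pp i cnt rec XS XP : ℕ} {inp : ℕ → ℕ} {suf : List (ℕ × List ℕ)}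
    {s' : ℕ} (h1 : (G.B ^ G.b) ^ g ≤ M) (h2 : (G.p + 1) ^ g ≤ M)
    (h : G.PRep g XS XP ((s', []) :: suf)) (hs : ∀ x ∈ suf, x.2 = []) (hi : i < 2 * c) :
    ∃ XS' XP', G.pstep M g c pp inp (i, cnt, rec, XS, XP) = (i + 1, cnt, rec, XS', XP') ∧
      G.PRep g XS' XP' ((G.δ s' (inp i), G.out s' (inp i)) :: suf) := by
  have hf := h.all_zero (by
    intro x hx
    rcases List.mem_cons.1 hx with hx | hx
    · rw [hx]
    · exact hs x hx)
  have hm := PRep.mid (pre := []) h
  have hS := PRep.set_s (pre := []) (s' := G.δ s' (inp i)) h2 h (G.δ_lt _ _).le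
  have hPP := hS.set_p (P' := G.out s' (inp i)) h1
    (fun z hz => ⟨G.out_pos _ _ z hz, G.out_lt _ _ z hz⟩) (G.out_len _ _)
  refine ⟨_, _, ?_, hPP⟩
  unfold pstep
  simp only [hf, List.length_nil] at hm ⊢
  rw [if_neg (by omega), if_pos hi, hm.1]
  rfl

lemma Proc_done {M g c pp i cnt rec XS XP : ℕ} {inp : ℕ → ℕ} {T : List (ℕ × List ℕ)}
    (h : G.PRep g XS XP T) (hs : ∀ x ∈ T, x.2 = []) (hi : ¬ i < 2 * c) :
    G.pstep M g c pp inp (i, cnt, rec, XS, XP) = (i, cnt, rec, XS, XP) := by
  have hf := h.all_zero hs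
  unfold pstep
  simp only [hf]
  rw [if_neg (by omega), if_neg hi]

/-- the invariant -/
def PInv (G : NT) (c pp : ℕ) (w1 w0 : List ℕ) (S1 O : List ℕ) (i cnt rec : ℕ)
    (T : List (ℕ × List ℕ)) : Prop :=
  (i ≤ c ∧ cnt = 0 ∧ rec = 0 ∧ (G.casc (G.fls T).1 (w1.drop i)).1 = S1) ∨
  (c < i ∧ i ≤ 2 * c ∧ cnt ≤ O.length ∧ rec = (if pp < cnt then O.getD pp 0 else 0) ∧
    (G.fls T).2 ++ (G.casc (G.fls T).1 (w0.drop (i - c))).2 = O.drop cnt)

lemma Proc_casc_cons (S : List ℕ) (x : ℕ) (v : List ℕ) :
    G.casc S (x :: v) = ((G.casc (G.casc S [x]).1 v).1, (G.casc S [x]).2 ++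
      (G.casc (G.casc S [x]).1 v).2) := by
  rw [show x :: v = [x] ++ v from rfl, casc_append]

lemma Proc_drop_map (f : ℕ → ℕ) {c i : ℕ} (h : i < c) :
    ((List.range c).map f).drop i = f i :: ((List.range c).map f).drop (i + 1) := by
  rw [List.drop_eq_getElem_cons (by simpa using h)]
  simp

lemma Proc_main {M g c pp : ℕ} {inp : ℕ → ℕ} {w1 w0 S1 O : List ℕ} (hg : 1 ≤ g)
    (h1 : (G.B ^ G.b) ^ g ≤ M) (h2 : (G.p + 1) ^ g ≤ M)
    (hw1 : w1 = (List.range c).map inp) (hw0 : w0 = (List.range c).map fun i => inp (c + i))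
    (hO : O = (G.casc S1 w0).2) :
    ∀ (N i cnt rec XS XP : ℕ) (T : List (ℕ × List ℕ)), G.PRep g XS XP T →
      G.PInv c pp w1 w0 S1 O i cnt rec T → (2 * c - i) * G.wt g + G.mes T ≤ N →
      ((G.pstep M g c pp inp)^[N] (i, cnt, rec, XS, XP)).2.1 = O.length ∧
      ((G.pstep M g c pp inp)^[N] (i, cnt, rec, XS, XP)).2.2.1 = O.getD pp 0 := by
  have hfin : ∀ (i cnt rec : ℕ) (T : List (ℕ × List ℕ)), (∀ x ∈ T, x.2 = []) → ¬ i < 2 * c →
      G.PInv c pp w1 w0 S1 O i cnt rec T → cnt = O.length ∧ rec = O.getD pp 0 := by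
    intro i cnt rec T hT hi hI
    have e := G.Proc_fls_empty T hT
    rcases hI with ⟨k1, k2, k3, k4⟩ | ⟨k1, k2, k3, k4, k5⟩
    · have hc : c = 0 := by omega
      have : O = [] := by
        rw [hO, hw0, hc]
        simp [casc_nil]
      rw [k2, k3, this]
      simp
    · have hd : w0.drop (i - c) = [] := by
        apply List.drop_eq_nil_of_le
        rw [hw0]
        simp
        omega
      rw [hd, casc_nil, e] at k5
      have h3 : O.drop cnt = [] := by
        rw [← k5]; rfl
      have h4 : O.length ≤ cnt := List.drop_eq_nil_iff.1 h3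
      have h5 : cnt = O.length := by omega
      refine ⟨h5, ?_⟩
      rw [k4, h5]
      split_ifs with h6
      · rfl
      · rw [List.getD_eq_default _ _ (by omega)]
  intro N
  induction N with
  | zero =>
    intro i cnt rec XS XP T hR hI hm
    have hwt := G.Proc_wt_pos g
    have hi : ¬ i < 2 * c := by
      intro hi
      have : 1 * 1 ≤ (2 * c - i) * G.wt g := Nat.mul_le_mul (by omega) hwt
      omega
    have hmes : G.mes T = 0 := by omega
    have hT : ∀ x ∈ T, x.2 = [] := by
      rcases Proc_split T with h | ⟨pre, s, y, P, suf, h, -⟩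
      · exact h
      · exfalso
        have h3 : ∀ (pre : List (ℕ × List ℕ)), G.mes (pre ++ (s, y :: P) :: suf) ≠ 0 := by
          intro pre
          induction pre with
          | nil =>
            have := G.Proc_wt_pos suf.length
            simp only [List.nil_append, mes, List.length_cons]
            nlinarith
          | cons x pre ih =>
            simp only [List.cons_append, mes]
            omega
        exact h3 pre (by rw [← h]; exact hmes)
    exact hfin i cnt rec T hT hi hI
  | succ N ih =>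
    intro i cnt rec XS XP T hR hI hm
    rw [Function.iterate_succ_apply]
    rcases Proc_split T with hT | ⟨pre, s, y, P, suf, hT, hs⟩
    · by_cases hi : i < 2 * c
      · -- feed
        have hlen := hR.len
        rcases T with _ | ⟨⟨s', P'⟩, suf⟩
        · simp at hlen; omega
        have hP' : P' = [] := hT (s', P') (by simp)
        subst hP'
        have hs : ∀ x ∈ suf, x.2 = [] := fun x hx => hT x (by simp [hx])
        obtain ⟨XS', XP', hp, hR'⟩ := Proc_feed (c := c) (pp := pp) (cnt := cnt) (rec := rec)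
          (inp := inp) h1 h2 hR hs hi
        rw [hp]
        have hfl := G.Proc_fls_feed suf s' (inp i) hs
        have hfe := G.Proc_fls_empty _ hT
        refine ih _ _ _ _ _ _ hR' ?_ ?_
        · rcases hI with ⟨k1, k2, k3, k4⟩ | ⟨k1, k2, k3, k4, k5⟩
          · rcases lt_or_eq_of_le k1 with hic | hic
            · left
              refine ⟨by omega, k2, k3, ?_⟩
              rw [hfl]
              rw [hw1, Proc_drop_map inp hic, Proc_casc_cons] at k4
              rw [hw1]
              exact k4
            · right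
              refine ⟨by omega, by omega, by omega, ?_, ?_⟩
              · rw [k2, k3]; simp
              · have hd : w1.drop i = [] := by
                  apply List.drop_eq_nil_of_le
                  rw [hw1]
                  simp
                  omega
                rw [hd, casc_nil] at k4
                have k4' : (G.fls ((s', []) :: suf)).1 = S1 := k4
                have hc0 : (0 : ℕ) < c := by omega
                have e0 : w0 = inp i :: w0.drop 1 := by
                  have := Proc_drop_map (fun j => inp (c + j)) hc0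
                  rw [← hw0, List.drop_zero] at this
                  rw [this]
                  simp [hic]
                rw [hfl, k4', k2, List.drop_zero, hO]
                conv_rhs => rw [e0, Proc_casc_cons]
                rw [show i + 1 - c = 1 by omega]
          · right
            refine ⟨by omega, by omega, k3, k4, ?_⟩
            have hd : w0.drop (i - c) = inp i :: w0.drop (i + 1 - c) := by
              have := Proc_drop_map (fun j => inp (c + j)) (show i - c < c by omega)
              rw [← hw0] at this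
              rw [this, show i - c + 1 = i + 1 - c by omega]
              rw [show c + (i - c) = i by omega]
            rw [hd, Proc_casc_cons] at k5
            rw [hfl]
            rw [hfe] at k5 ⊢
            simpa using k5
        · have hmz := G.Proc_mes_empty _ hT
          have hmz2 := G.Proc_mes_empty _ hs
          have hl : suf.length = g - 1 := by simp at hlen; omega
          have hwg : G.wt g = 1 + G.b * G.wt (g - 1) := by
            conv_lhs => rw [show g = (g - 1) + 1 by omega]
            rfl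
          have ho := G.out_len s' (inp i)
          have ho2 : (G.out s' (inp i)).length * G.wt (g - 1) ≤ G.b * G.wt (g - 1) :=
            Nat.mul_le_mul_right _ ho
          have hsub : (2 * c - i) * G.wt g = (2 * c - (i + 1)) * G.wt g + G.wt g := by
            rw [show 2 * c - i = (2 * c - (i + 1)) + 1 by omega]
            ring
          simp only [mes, hmz2, hl] at hm ⊢
          simp only [List.length_nil, zero_mul] at hm
          omega
      · -- done
        rw [Proc_done hR hT hi]
        have hfix : (G.pstep M g c pp inp)^[N] (i, cnt, rec, XS, XP) = (i, cnt, rec, XS, XP) :=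
          Function.iterate_fixed (Proc_done hR hT hi) N
        rw [hfix]
        exact hfin i cnt rec T hT hi hI
    · rcases suf with _ | ⟨⟨s', P'⟩, suf⟩
      · -- emit
        rw [hT] at hR
        obtain ⟨XP', hp, hR'⟩ := Proc_emit (c := c) (pp := pp) (i := i) (cnt := cnt) (rec := rec)
          (inp := inp) h1 hR
        rw [hp]
        have hfl := G.Proc_fls_emit pre s y P
        have hme := G.Proc_mes_emit pre s y P
        refine ih _ _ _ _ _ _ hR' ?_ ?_
        · rw [hT] at hI
          rcases hI with ⟨k1, k2, k3, k4⟩ | ⟨k1, k2, k3, k4, k5⟩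
          · left
            rw [if_neg (by omega), if_neg (by omega), ← hfl.1]
            exact ⟨k1, k2, k3, k4⟩
          · right
            rw [hfl.2, hfl.1, List.cons_append] at k5
            have hlt : cnt < O.length := by
              by_contra hcon
              rw [List.drop_eq_nil_of_le (as := O) (by omega)] at k5
              exact absurd k5 (by simp)
            rw [List.drop_eq_getElem_cons hlt, List.cons.injEq] at k5
            rw [if_pos k1, if_pos k1]
            refine ⟨k1, k2, hlt, ?_, k5.2⟩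
            by_cases hpp : cnt = pp
            · rw [if_pos hpp, if_pos (by omega), ← hpp, List.getD_eq_getElem _ _ hlt]
              exact k5.1
            · rw [if_neg hpp, k4]
              by_cases h6 : pp < cnt
              · rw [if_pos h6, if_pos (by omega)]
              · rw [if_neg h6, if_neg (by omega)]
        · rw [hT] at hm
          omega
      · -- move
        have hP' : P' = [] := hs (s', P') (by simp)
        subst hP'
        have hs' : ∀ x ∈ suf, x.2 = [] := fun x hx => hs x (by simp [hx])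
        rw [hT] at hR
        obtain ⟨XS', XP', hp, hR'⟩ := Proc_move (c := c) (pp := pp) (i := i) (cnt := cnt)
          (rec := rec) (inp := inp) h1 h2 hR hs'
        rw [hp]
        have hfl := G.Proc_fls_move pre suf s s' y P hs'
        have hme := G.Proc_mes_move pre suf s s' y P
        refine ih _ _ _ _ _ _ hR' ?_ ?_
        · rw [hT] at hI
          unfold PInv at hI ⊢
          rw [← hfl.1, ← hfl.2]
          exact hI
        · rw [hT] at hm
          omega

variable (G)

/-- **the process computes the cascade**: `w1` = the first `c` input letters (warm-up), `w0` = the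
next `c` letters.  Number of steps needed: at most `2 * c * (b + 1) ^ (g + 1)`. -/
theorem proc_eq {M g c : ℕ} (pp : ℕ) (inp : ℕ → ℕ) (hg : 1 ≤ g)
    (h1 : (G.B ^ G.b) ^ g ≤ M) (h2 : (G.p + 1) ^ g ≤ M)
    (h3 : 2 * c * (G.b + 1) ^ (g + 1) ≤ M) :
    (G.proc M g c pp inp).2.1 = (G.OS g ((List.range c).map inp)
      ((List.range c).map fun i => inp (c + i))).length ∧
    (G.proc M g c pp inp).2.2.1 = (G.OS g ((List.range c).map inp)
      ((List.range c).map fun i => inp (c + i))).getD pp 0 := by
  have hR : G.PRep g 0 0 (List.replicate g (0, [])) := by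
    refine ⟨by simp, by positivity, ?_, ?_, ?_, ?_⟩
    · have := Proc_B_pos (G := G)
      positivity
    · intro l hl
      rw [dig_zero, List.getD_eq_getElem _ _ (by simpa using hl), List.getElem_replicate]
    · intro l hl
      rw [dig_zero, List.getD_eq_getElem _ _ (by simpa using hl), List.getElem_replicate]
      rfl
    · intro x hx
      rw [List.eq_of_mem_replicate hx]
      simp
  have hfe := G.Proc_fls_empty (List.replicate g (0, [])) (by
    intro x hx
    rw [List.eq_of_mem_replicate hx])
  have hmz := G.Proc_mes_empty (List.replicate g (0, [])) (by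
    intro x hx
    rw [List.eq_of_mem_replicate hx])
  have hN : (2 * c - 0) * G.wt g + G.mes (List.replicate g (0, [])) ≤ M := by
    rw [hmz, Nat.sub_zero, add_zero]
    refine le_trans ?_ h3
    apply Nat.mul_le_mul_left
    refine (G.Proc_wt_le g).trans ?_
    exact Nat.pow_le_pow_right (by omega) (by omega)
  unfold proc
  rw [Proc_itr_const]
  refine Proc_main (w1 := (List.range c).map inp) (w0 := (List.range c).map fun i => inp (c + i))
    (S1 := (G.casc (List.replicate g 0) ((List.range c).map inp)).1) hg h1 h2 rfl rfl rfl M 0 0 0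
    0 0 _ hR ?_ hN
  left
  refine ⟨by omega, rfl, rfl, ?_⟩
  rw [hfe]
  simp

/-! ### Computability -/

/-- table look-up in `s * B + x < p * B`, see `LF.table` -/
theorem Proc_table (F : ℕ → ℕ → ℕ) (e : ℕ) (hF : ∀ s x, G.p ≤ s ∨ G.B ≤ x → F s x = e)
    {f g : α → ℕ} (hf : LF f) (hg : LF g) : LF fun x => F (f x) (g x) := by
  have hB : 0 < G.B := Proc_B_pos
  have key : (fun x => F (f x) (g x)) = fun x => if f x < G.p then (if g x < G.B then
      (if f x * G.B + g x < G.p * G.B then
        (fun i => F (i / G.B) (i % G.B)) (f x * G.B + g x) else 0) else e) else e := by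
    funext x
    by_cases h1 : f x < G.p
    · by_cases h2 : g x < G.B
      · have h3 : f x * G.B + g x < G.p * G.B := by
          have : (f x + 1) * G.B ≤ G.p * G.B := Nat.mul_le_mul_right _ h1
          have e1 : (f x + 1) * G.B = f x * G.B + G.B := by ring
          omega
        have h4 : (f x * G.B + g x) / G.B = f x := by
          rw [Nat.add_comm, Nat.add_mul_div_right _ _ hB, Nat.div_eq_of_lt h2, zero_add]
        have h5 : (f x * G.B + g x) % G.B = g x := by
          rw [Nat.add_comm, Nat.add_mul_mod_self_right, Nat.mod_eq_of_lt h2]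
        rw [if_pos h1, if_pos h2, if_pos h3]
        simp only [h4, h5]
      · rw [if_pos h1, if_neg h2, hF _ _ (Or.inr (by omega))]
    · rw [if_neg h1, hF _ _ (Or.inl (by omega))]
  rw [key]
  exact LF.ite_lt hf (LF.const _) (LF.ite_lt hg (LF.const _)
    (LF.table (f := fun x => f x * G.B + g x) (by fun_prop) (G.p * G.B)
      (fun i => F (i / G.B) (i % G.B))) (LF.const _)) (LF.const _)

/-- table look-up in `s * B + x < p * B`, see `LF.table` -/
@[fun_prop] theorem LF_δ {f g : α → ℕ} (hf : LF f) (hg : LF g) :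
    LF fun x => G.δ (f x) (g x) :=
  G.Proc_table G.δ 0 (fun s x h => G.δ_blank s x (by omega)) hf hg

lemma oc_lt (s x : ℕ) : G.oc s x < G.B ^ G.b :=
  lt_of_lt_of_le (wcod_lt (G.out_lt s x)) (Nat.pow_le_pow_right Proc_B_pos (G.out_len s x))

@[fun_prop] theorem LF_oc {f g : α → ℕ} (hf : LF f) (hg : LF g) :
    LF fun x => G.oc (f x) (g x) :=
  G.Proc_table G.oc (wcod G.B [1])
    (fun s x h => by unfold oc; rw [G.out_blank s x (by omega)]) hf hg

@[fun_prop] theorem LF_outlen {f g : α → ℕ} (hf : LF f) (hg : LF g) :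
    LF fun x => (G.out (f x) (g x)).length :=
  G.Proc_table (fun s x => (G.out s x).length) 1
    (fun s x h => by rw [G.out_blank s x (by omega)]; rfl) hf hg

/-- one step, the value of the search and the input letter given -/
def pstepF (M g c pp v f : ℕ) (x : ℕ × ℕ × ℕ × ℕ × ℕ) : ℕ × ℕ × ℕ × ℕ × ℕ :=
  if f < g then
    (if f = 0 then
      (x.1, (if c < x.1 then x.2.1 + 1 else x.2.1),
        (if c < x.1 then (if x.2.1 = pp then dig (G.B ^ G.b) x.2.2.2.2 (g - 1) % G.B
          else x.2.2.1) else x.2.2.1),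
        x.2.2.2.1,
        min M (setd M (G.B ^ G.b) x.2.2.2.2 (g - 1)
          (dig (G.B ^ G.b) x.2.2.2.2 (g - 1) / G.B)))
    else
      (x.1, x.2.1, x.2.2.1,
        min M (setd M (G.p + 1) x.2.2.2.1 (g - f)
          (G.δ (dig (G.p + 1) x.2.2.2.1 (g - f))
            (dig (G.B ^ G.b) x.2.2.2.2 (g - 1 - f) % G.B))),
        min M (setd M (G.B ^ G.b)
          (min M (setd M (G.B ^ G.b) x.2.2.2.2 (g - 1 - f)
            (dig (G.B ^ G.b) x.2.2.2.2 (g - 1 - f) / G.B)))
          (g - f)
          (G.oc (dig (G.p + 1) x.2.2.2.1 (g - f))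
            (dig (G.B ^ G.b) x.2.2.2.2 (g - 1 - f) % G.B)))))
  else if x.1 < 2 * c then
    (x.1 + 1, x.2.1, x.2.2.1,
      min M (setd M (G.p + 1) x.2.2.2.1 0 (G.δ (dig (G.p + 1) x.2.2.2.1 0) v)),
      min M (setd M (G.B ^ G.b) x.2.2.2.2 0 (G.oc (dig (G.p + 1) x.2.2.2.1 0) v)))
  else x

lemma pstep_eq (M g c pp : ℕ) (inp : ℕ → ℕ) (x : ℕ × ℕ × ℕ × ℕ × ℕ) :
    G.pstep M g c pp inp x = G.pstepF M g c pp (inp x.1)
      (fnd g (fun j => dig (G.B ^ G.b) x.2.2.2.2 (g - 1 - j))) x := rfl

theorem LF_pstepF {M g c pp v f : α → ℕ} {x : α → ℕ × ℕ × ℕ × ℕ × ℕ} (hM : LF M) (hg : LF g)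
    (hc : LF c) (hpp : LF pp) (hv : LF v) (hf : LF f) (hx : LF x) :
    LF fun a => G.pstepF (M a) (g a) (c a) (pp a) (v a) (f a) (x a) := by
  unfold pstepF
  refine LF.ite_lt hf hg (LF.ite_eq hf (LF.const 0) ?_ ?_) (LF.ite_lt ?_ ?_ ?_ ?_)
  all_goals fun_prop

lemma Proc_size (x : ℕ × ℕ × ℕ × ℕ × ℕ) :
    size x = x.1 + (x.2.1 + (x.2.2.1 + (x.2.2.2.1 + x.2.2.2.2))) := by
  obtain ⟨a, b, c, d, e⟩ := x
  simp only [size_pair, size_nat]

lemma Proc_bound (M g c pp : ℕ) (inp : ℕ → ℕ) (n : ℕ) :
    (itr (0, 0, 0, 0, 0) (fun x _ => G.pstep M g c pp inp x) n).1 ≤ n ∧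
    (itr (0, 0, 0, 0, 0) (fun x _ => G.pstep M g c pp inp x) n).2.1 ≤ n ∧
    (itr (0, 0, 0, 0, 0) (fun x _ => G.pstep M g c pp inp x) n).2.2.1 ≤ G.B ∧
    (itr (0, 0, 0, 0, 0) (fun x _ => G.pstep M g c pp inp x) n).2.2.2.1 ≤ M ∧
    (itr (0, 0, 0, 0, 0) (fun x _ => G.pstep M g c pp inp x) n).2.2.2.2 ≤ M := by
  induction n with
  | zero => simp [itr]
  | succ n ih =>
    obtain ⟨k1, k2, k3, k4, k5⟩ := ih
    have hmod : ∀ z, z % G.B ≤ G.B := fun z => (Nat.mod_lt _ Proc_B_pos).le
    simp only [itr]
    generalize itr (0, 0, 0, 0, 0) (fun x _ => G.pstep M g c pp inp x) n = x at k1 k2 k3 k4 k5 ⊢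
    rw [pstep_eq]
    unfold pstepF
    split_ifs <;> refine ⟨?_, ?_, ?_, ?_, ?_⟩ <;>
      first
        | exact min_le_left _ _
        | exact hmod _
        | (dsimp only; omega)
        | omega

theorem LF_proc {M g c pp : α → ℕ} {inp : α → ℕ → ℕ} (hM : LF M) (hg : LF g) (hc : LF c)
    (hpp : LF pp) (hi : LF fun p : α × ℕ => inp p.1 p.2) :
    LF fun a => G.proc (M a) (g a) (c a) (pp a) (inp a) := by
  unfold proc
  refine LF.itr_le (g := fun _ => (0, 0, 0, 0, 0))
    (h := fun a x _ => G.pstep (M a) (g a) (c a) (pp a) (inp a) x)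
    (b := fun a => M a + M a + G.B + M a + M a) hM (LF.const _) ?_ (by fun_prop) ?_
  · simp only [pstep_eq]
    refine G.LF_pstepF (by fun_prop) (by fun_prop) (by fun_prop) (by fun_prop) ?_ ?_
      (by fun_prop)
    · exact LF.comp hi (g := fun p : α × (ℕ × ℕ × ℕ × ℕ × ℕ) × ℕ => (p.1, p.2.1.1))
        (by fun_prop)
    · refine LF.fnd (n := fun p : α × (ℕ × ℕ × ℕ × ℕ × ℕ) × ℕ => g p.1)
        (p := fun p j => dig (G.B ^ G.b) p.2.1.2.2.2.2 (g p.1 - 1 - j)) (by fun_prop)
        (by fun_prop)
  · intro a n hn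
    have := G.Proc_bound (M a) (g a) (c a) (pp a) (inp a) n
    rw [Proc_size]
    omega

end NT

end Pool.Agent.W_5d512e_h4
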