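import Pool.Agent.W_MP_5d512e_dic.Cmd

/-!
# Register programs: renaming of the registers, blocks of registers

`Cmd E R A` and its evaluation `Ev N` (all registers at most `N`) are in
`Pool.Agent.W_MP_5d512e_dic.Cmd`.
-/

set_option autoImplicit false

namespace Pool.Agent.W_5d512e_h4

open Pool.Agent.W_MP_5d512e_dic

section map

variable {E R R' A : Type} [DecidableEq R] [DecidableEq R']

omit [DecidableEq R] [DecidableEq R'] in
/-- Renaming of the registers. -/
def cmap (f : R → R') : Cmd E R A → Cmd E R' A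
  | .act g => .act g
  | .inc r => .inc (f r)
  | .dec r => .dec (f r)
  | .out o => .out o
  | .sq c c' => .sq (cmap f c) (cmap f c')
  | .cas g => .cas fun σ => cmap f (g σ)
  | .ifz r c c' => .ifz (f r) (cmap f c) (cmap f c')
  | .wh r c => .wh (f r) (cmap f c)

omit [DecidableEq R] [DecidableEq R'] in
/-- All registers of the program are in `U`. -/
def Uses (U : Set R) : Cmd E R A → Prop
  | .act _ => True
  | .inc r => r ∈ U
  | .dec r => r ∈ U
  | .out _ => True
  | .sq c c' => Uses U c ∧ Uses U c'
  | .cas g => ∀ σ, Uses U (g σ)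
  | .ifz r c c' => r ∈ U ∧ Uses U c ∧ Uses U c'
  | .wh r c => r ∈ U ∧ Uses U c

/-- Evaluation with a larger bound. -/
lemma Ev.mono {N N' : ℕ} (hN : N ≤ N') {c : Cmd E R A} {s s' : E × (R → ℕ)} {o : List A}
    (h : Ev N c s o s') : Ev N' c s o s' := by
  induction h with
  | act f σ v => exact Ev.act f σ v
  | inc r σ v h => exact Ev.inc r σ v (h.trans hN)
  | dec r σ v h => exact Ev.dec r σ v h
  | out o σ v => exact Ev.out o σ v
  | sq c c' s s' s'' o o' _ _ ih1 ih2 => exact Ev.sq c c' s s' s'' o o' ih1 ih2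
  | cas f σ v s' o _ ih => exact Ev.cas f σ v s' o ih
  | ifz0 r c c' σ v s' o h0 _ ih => exact Ev.ifz0 r c c' σ v s' o h0 ih
  | ifz1 r c c' σ v s' o h0 _ ih => exact Ev.ifz1 r c c' σ v s' o h0 ih
  | wh0 r c σ v h0 => exact Ev.wh0 r c σ v h0
  | wh1 r c σ v s' s'' o o' h0 _ _ ih1 ih2 => exact Ev.wh1 r c σ v s' s'' o o' h0 ih1 ih2

/-- The registers stay bounded. -/
lemma Ev.bound {N : ℕ} {c : Cmd E R A} {s s' : E × (R → ℕ)} {o : List A}
    (h : Ev N c s o s') (hs : ∀ r, s.2 r ≤ N) : ∀ r, s'.2 r ≤ N := by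
  induction h with
  | act f σ v => exact hs
  | inc r σ v h =>
    intro r'
    show Function.update v r (v r + 1) r' ≤ N
    by_cases h1 : r' = r
    · subst h1
      rw [Function.update_self]
      exact h
    · rw [Function.update_of_ne h1]
      exact hs r'
  | dec r σ v h =>
    intro r'
    show Function.update v r (v r - 1) r' ≤ N
    by_cases h1 : r' = r
    · subst h1
      rw [Function.update_self]
      have : v r' ≤ N := hs r'
      omega
    · rw [Function.update_of_ne h1]
      exact hs r'
  | out o σ v => exact hs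
  | sq c c' s s' s'' o o' _ _ ih1 ih2 => exact ih2 (ih1 hs)
  | cas f σ v s' o _ ih => exact ih hs
  | ifz0 r c c' σ v s' o h0 _ ih => exact ih hs
  | ifz1 r c c' σ v s' o h0 _ ih => exact ih hs
  | wh0 r c σ v h0 => exact hs
  | wh1 r c σ v s' s'' o o' h0 _ _ ih1 ih2 => exact ih2 (ih1 hs)

/-- Transport of an evaluation: `f` renames the registers, `g` the register contents. -/
lemma Ev.map {N : ℕ} (f : R → R') (g : (R → ℕ) → R' → ℕ) (U : Set R)
    (h1 : ∀ v, ∀ r ∈ U, g v (f r) = v r)
    (h2 : ∀ v, ∀ r ∈ U, ∀ x, g (Function.update v r x) = Function.update (g v) (f r) x)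
    {c : Cmd E R A} (hc : Uses U c) {s s' : E × (R → ℕ)} {o : List A}
    (h : Ev N c s o s') : Ev N (cmap f c) (s.1, g s.2) o (s'.1, g s'.2) := by
  induction h with
  | act k σ v => exact Ev.act k σ (g v)
  | inc r σ v h =>
    have hr : r ∈ U := hc
    have e1 := h1 v r hr
    have := Ev.inc (A := A) (N := N) (f r) σ (g v) (by rw [e1]; exact h)
    rw [e1, ← h2 v r hr] at this
    exact this
  | dec r σ v h =>
    have hr : r ∈ U := hc
    have e1 := h1 v r hr
    have := Ev.dec (A := A) (N := N) (f r) σ (g v) (by rw [e1]; exact h)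
    rw [e1, ← h2 v r hr] at this
    exact this
  | out o σ v => exact Ev.out o σ (g v)
  | sq c c' s s' s'' o o' _ _ ih1 ih2 =>
    exact Ev.sq _ _ _ _ _ o o' (ih1 hc.1) (ih2 hc.2)
  | cas k σ v s' o _ ih => exact Ev.cas _ σ (g v) _ o (ih (hc σ))
  | ifz0 r c c' σ v s' o h0 _ ih =>
    exact Ev.ifz0 _ _ _ σ (g v) _ o (by rw [h1 v r hc.1]; exact h0) (ih hc.2.1)
  | ifz1 r c c' σ v s' o h0 _ ih =>
    exact Ev.ifz1 _ _ _ σ (g v) _ o (by rw [h1 v r hc.1]; exact h0) (ih hc.2.2)
  | wh0 r c σ v h0 => exact Ev.wh0 _ _ σ (g v) (by rw [h1 v r hc.1]; exact h0)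
  | wh1 r c σ v s' s'' o o' h0 _ _ ih1 ih2 =>
    exact Ev.wh1 _ _ σ (g v) _ _ o o' (by rw [h1 v r hc.1]; exact h0) (ih1 hc.2) (ih2 hc)

omit [DecidableEq R] [DecidableEq R'] in
lemma Uses.mono {U V : Set R} (h : U ⊆ V) {c : Cmd E R A} (hc : Uses U c) : Uses V c := by
  induction c with
  | act f => trivial
  | inc r => exact h hc
  | dec r => exact h hc
  | out o => trivial
  | sq c c' ih1 ih2 => exact ⟨ih1 hc.1, ih2 hc.2⟩
  | cas f ih => exact fun σ => ih σ (hc σ)
  | ifz r c c' ih1 ih2 => exact ⟨h hc.1, ih1 hc.2.1, ih2 hc.2.2⟩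
  | wh r c ih => exact ⟨h hc.1, ih hc.2⟩

omit [DecidableEq R] in
lemma uses_univ (c : Cmd E R A) : Uses Set.univ c := by
  induction c with
  | act f => trivial
  | inc r => exact Set.mem_univ r
  | dec r => exact Set.mem_univ r
  | out o => trivial
  | sq c c' ih1 ih2 => exact ⟨ih1, ih2⟩
  | cas f ih => exact fun σ => ih σ
  | ifz r c c' ih1 ih2 => exact ⟨Set.mem_univ r, ih1, ih2⟩
  | wh r c ih => exact ⟨Set.mem_univ r, ih⟩

omit [DecidableEq R] [DecidableEq R'] in
lemma Uses.map {U : Set R} {V : Set R'} {f : R → R'} (h : ∀ r ∈ U, f r ∈ V) {c : Cmd E R A}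
    (hc : Uses U c) : Uses V (cmap f c) := by
  induction c with
  | act g => trivial
  | inc r => exact h r hc
  | dec r => exact h r hc
  | out o => trivial
  | sq c c' ih1 ih2 => exact ⟨ih1 hc.1, ih2 hc.2⟩
  | cas g ih => exact fun σ => ih σ (hc σ)
  | ifz r c c' ih1 ih2 => exact ⟨h r hc.1, ih1 hc.2.1, ih2 hc.2.2⟩
  | wh r c ih => exact ⟨h r hc.1, ih hc.2⟩

end map

/-! ### Blocks of registers, registers indexed by `ℕ` -/

section blocks

variable {E A : Type} {N : ℕ}

/-- Repetition. -/
def rep (f : ℕ → Cmd E ℕ A) : ℕ → Cmd E ℕ A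
  | 0 => skp
  | n + 1 => .sq (rep f n) (f n)

lemma ev_rep {f : ℕ → Cmd E ℕ A} {S : ℕ → E × (ℕ → ℕ)} {n : ℕ}
    (h : ∀ i < n, Ev N (f i) (S i) [] (S (i + 1))) : Ev N (rep f n) (S 0) [] (S n) := by
  induction n with
  | zero => exact ev_skp _
  | succ n ih => exact Ev.sq0 (ih fun i hi => h i (by omega)) (h n (by omega))

/-- Overwrite a block of registers. -/
def blk (v : ℕ → ℕ) (t k : ℕ) (x : ℕ → ℕ) : ℕ → ℕ :=
  fun r => if t ≤ r ∧ r < t + k then x (r - t) else v r

/-- Clear the block `[a, a + k)`. -/
def clb (a k : ℕ) : Cmd E ℕ A := rep (fun i => clr (a + i)) k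

lemma ev_clb (a k : ℕ) (σ : E) (v : ℕ → ℕ) :
    Ev (A := A) N (clb a k) (σ, v) [] (σ, blk v a k fun _ => 0) := by
  have h := ev_rep (A := A) (N := N) (f := fun i => clr (a + i))
    (S := fun i => (σ, blk v a i fun _ => 0)) (n := k) (by
      intro i _
      have h1 := ev_cl (A := A) (N := N) (a + i) σ (blk v a i fun _ => 0)
      have e : Function.update (blk v a i fun _ => 0) (a + i) 0 = blk v a (i + 1) fun _ => 0 := by
        funext r
        by_cases h : r = a + i
        · subst h
          rw [Function.update_self]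
          unfold blk
          rw [if_pos (by omega)]
        · rw [Function.update_of_ne h]
          unfold blk
          by_cases h' : a ≤ r ∧ r < a + i
          · rw [if_pos h', if_pos (by omega)]
          · rw [if_neg h', if_neg (by omega)]
      rw [e] at h1
      exact h1)
  have e0 : blk v a 0 (fun _ => 0) = v := by
    funext r
    unfold blk
    rw [if_neg (by omega)]
  simp only [e0] at h
  exact h

/-- Copy the block `[a, a + k)` to the block `[b, b + k)` (which is zero), `t` = a register
which is zero. -/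
def cpb (a b k t : ℕ) : Cmd E ℕ A := rep (fun i => cp (a + i) (b + i) t) k

lemma ev_cpb {a b k t : ℕ} (hab : a + k ≤ b ∨ b + k ≤ a) (hta : t < a ∨ a + k ≤ t)
    (htb : t < b ∨ b + k ≤ t) (σ : E) (v : ℕ → ℕ) (h0 : v t = 0) (hb : ∀ i < k, v (b + i) = 0)
    (hN : ∀ i < k, v (a + i) ≤ N) :
    Ev (A := A) N (cpb a b k t) (σ, v) [] (σ, blk v b k fun i => v (a + i)) := by
  have h := ev_rep (A := A) (N := N) (f := fun i => cp (a + i) (b + i) t)
    (S := fun i => (σ, blk v b i fun i => v (a + i))) (n := k) (by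
      intro i hi
      set u := blk v b i fun i => v (a + i) with hu
      have ha : u (a + i) = v (a + i) := by
        rw [hu]
        unfold blk
        rw [if_neg (by omega)]
      have hb' : u (b + i) = 0 := by
        rw [hu]
        unfold blk
        rw [if_neg (by omega)]
        exact hb i hi
      have ht : u t = 0 := by
        rw [hu]
        unfold blk
        rw [if_neg (by omega)]
        exact h0
      have h1 := ev_cp (A := A) (N := N) (a := a + i) (b := b + i) (t := t) (by omega) (by omega)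
        (by omega) σ u ht (by rw [ha, hb', Nat.zero_add]; exact hN i hi)
      have e : Function.update u (b + i) (u (b + i) + u (a + i)) =
          blk v b (i + 1) fun i => v (a + i) := by
        funext r
        by_cases h : r = b + i
        · subst h
          rw [Function.update_self, ha, hb', Nat.zero_add]
          unfold blk
          rw [if_pos (by omega), Nat.add_sub_cancel_left]
        · rw [Function.update_of_ne h, hu]
          unfold blk
          by_cases h' : b ≤ r ∧ r < b + i
          · rw [if_pos h', if_pos (by omega)]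
          · rw [if_neg h', if_neg (by omega)]
      rw [e] at h1
      exact h1)
  have e0 : blk v b 0 (fun i => v (a + i)) = v := by
    funext r
    unfold blk
    rw [if_neg (by omega)]
  simp only [e0] at h
  exact h

lemma uses_rep {U : Set ℕ} {f : ℕ → Cmd E ℕ A} {n : ℕ} (h : ∀ i < n, Uses U (f i)) :
    Uses U (rep f n) := by
  induction n with
  | zero => trivial
  | succ n ih => exact ⟨ih fun i hi => h i (by omega), h n (by omega)⟩

lemma uses_clr {U : Set ℕ} {a : ℕ} (h : a ∈ U) : Uses U (clr a : Cmd E ℕ A) := ⟨h, h⟩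

lemma uses_cp {U : Set ℕ} {a b t : ℕ} (ha : a ∈ U) (hb : b ∈ U) (ht : t ∈ U) :
    Uses U (cp a b t : Cmd E ℕ A) :=
  ⟨⟨ha, ha, hb, ht⟩, ht, ht, ha⟩

lemma uses_clb {K a k : ℕ} (h : a + k ≤ K) : Uses (Set.Iio K) (clb a k : Cmd E ℕ A) :=
  uses_rep fun i hi => uses_clr (Set.mem_Iio.2 (by omega))

lemma uses_cpb {K a b k t : ℕ} (ha : a + k ≤ K) (hb : b + k ≤ K) (ht : t < K) :
    Uses (Set.Iio K) (cpb a b k t : Cmd E ℕ A) :=
  uses_rep fun i hi => uses_cp (Set.mem_Iio.2 (by omega)) (Set.mem_Iio.2 (by omega))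
    (Set.mem_Iio.2 ht)

/-- Call of a program with `n` inputs (read from the block `[a, a + n)`) and `k` outputs (written
to the block `[t, t + k)`, which is zero), all registers `≥ m` are zero and used as working space:
copy the inputs to `[m, m + n)`, run the program with registers shifted by `m`, copy the outputs
from `[m + n, m + n + k)` to the target, clear. -/
def call (c : Cmd E ℕ A) (n k a t m : ℕ) : Cmd E ℕ A :=
  .sq (cpb a m n (m + n + k)) (.sq (cmap (fun r => r + m) c)
    (.sq (cpb (m + n) t k (m + n + k)) (clb m (n + k))))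

/-- `c` computes from the register contents `x` (zero from `n` on) the register contents `y`
(zero from `k` on), which it writes to the block `[n, n + k)`. -/
def Comp (N : ℕ) (c : Cmd E ℕ A) (σ : E) (n k : ℕ) (x y : ℕ → ℕ) : Prop :=
  Ev N c (σ, x) [] (σ, blk x n k y)

lemma ev_call {c : Cmd E ℕ A} {n k a t m : ℕ} {σ : E} {x y v : ℕ → ℕ}
    (hc : Comp N c σ n k x y) (hx0 : ∀ i, n ≤ i → x i = 0) (hxN : ∀ i, x i ≤ N)
    (ha : a + n ≤ m) (ht : t + k ≤ m) (hm : ∀ i, m ≤ i → v i = 0)
    (hx : ∀ i < n, v (a + i) = x i) (hv : ∀ i < k, v (t + i) = 0) :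
    Ev N (call c n k a t m) (σ, v) [] (σ, blk v t k y) := by
  -- copy the inputs
  have s1 := ev_cpb (A := A) (N := N) (a := a) (b := m) (k := n) (t := m + n + k) (Or.inl ha)
    (Or.inr (by omega)) (Or.inr (by omega)) σ v (hm _ (by omega)) (fun i _ => hm _ (by omega))
    (fun i hi => by rw [hx i hi]; exact hxN i)
  -- the program
  let g : (ℕ → ℕ) → ℕ → ℕ := fun u r => if m ≤ r then u (r - m) else v r
  have s2 := Ev.map (fun r : ℕ => r + m) g Set.univ
    (by
      intro u r _
      show (if m ≤ r + m then u (r + m - m) else v (r + m)) = u r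
      rw [if_pos (by omega), Nat.add_sub_cancel])
    (by
      intro u r _ z
      funext r'
      show (if m ≤ r' then Function.update u r z (r' - m) else v r') =
        Function.update (g u) (r + m) z r'
      by_cases h : r' = r + m
      · subst h
        rw [Function.update_self, if_pos (by omega), Nat.add_sub_cancel, Function.update_self]
      · rw [Function.update_of_ne h]
        by_cases h' : m ≤ r'
        · rw [if_pos h', Function.update_of_ne (by omega)]
          show _ = if m ≤ r' then u (r' - m) else v r'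
          rw [if_pos h']
        · rw [if_neg h']
          show _ = if m ≤ r' then u (r' - m) else v r'
          rw [if_neg h'])
    (uses_univ c) hc
  have e1 : g x = blk v m n fun i => v (a + i) := by
    funext r
    show (if m ≤ r then x (r - m) else v r) = _
    unfold blk
    by_cases h : m ≤ r
    · rw [if_pos h]
      by_cases h' : r < m + n
      · rw [if_pos ⟨h, h'⟩]
        exact (hx (r - m) (by omega)).symm
      · rw [if_neg (by omega), hx0 (r - m) (by omega), hm r h]
    · rw [if_neg h, if_neg (by omega)]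
  simp only [e1] at s2
  -- copy the outputs
  set v2 := g (blk x n k y) with hv2
  have e2 : ∀ r, v2 r = if m ≤ r then blk x n k y (r - m) else v r := fun r => rfl
  have hyN : ∀ i < k, y i ≤ N := by
    intro i hi
    have := Ev.bound hc hxN (n + i)
    have e : blk x n k y (n + i) = y i := by
      unfold blk
      rw [if_pos (by omega), Nat.add_sub_cancel_left]
    rw [← e]
    exact this
  have e3 : ∀ i < k, v2 (m + n + i) = y i := by
    intro i hi
    rw [e2, if_pos (by omega)]
    unfold blk
    rw [if_pos (by omega)]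
    congr 1
    omega
  have s3 := ev_cpb (A := A) (N := N) (a := m + n) (b := t) (k := k) (t := m + n + k)
    (Or.inr (by omega)) (Or.inr (by omega)) (Or.inr (by omega)) σ v2
    (by
      rw [e2, if_pos (by omega)]
      unfold blk
      rw [if_neg (by omega)]
      exact hx0 _ (by omega))
    (fun i hi => by rw [e2, if_neg (by omega)]; exact hv i hi)
    (fun i hi => by rw [e3 i hi]; exact hyN i hi)
  set v3 := blk v2 t k fun i => v2 (m + n + i) with hv3
  have s4 := ev_clb (A := A) (N := N) m (n + k) σ v3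
  have e4 : (blk v3 m (n + k) fun _ => 0) = blk v t k y := by
    funext r
    rw [hv3]
    unfold blk
    by_cases h1 : m ≤ r ∧ r < m + (n + k)
    · rw [if_pos h1, if_neg (by omega), hm r h1.1]
    · rw [if_neg h1]
      by_cases h2 : t ≤ r ∧ r < t + k
      · rw [if_pos h2, if_pos h2]
        exact e3 (r - t) (by omega)
      · rw [if_neg h2, if_neg h2, e2]
        by_cases h3 : m ≤ r
        · rw [if_pos h3, hm r h3]
          unfold blk
          rw [if_neg (by omega)]
          exact hx0 _ (by omega)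
        · rw [if_neg h3]
  rw [e4] at s4
  exact Ev.sq0 s1 (Ev.sq0 s2 (Ev.sq0 s3 s4))

lemma uses_call {K K' : ℕ} {c : Cmd E ℕ A} (hc : Uses (Set.Iio K) c) {n k a t m : ℕ}
    (ha : a + n ≤ m) (ht : t + k ≤ m) (hK : m + K ≤ K') (hK' : m + n + k + 1 ≤ K') :
    Uses (Set.Iio K') (call c n k a t m) :=
  ⟨uses_cpb (by omega) (by omega) (by omega),
    Uses.map (fun r hr => Set.mem_Iio.2 (by have := Set.mem_Iio.1 hr; omega)) hc,
    uses_cpb (by omega) (by omega) (by omega), uses_clb (by omega)⟩

end blocks

end Pool.Agent.W_5d512e_h4
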