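import Pool.Agent.W_5d512e_h4.Lev

/-!
# The values of the nodes
-/

set_option autoImplicit false

namespace Pool.Agent.W_5d512e_h4

namespace NT

variable (G : NT)

/-- words of the children -/
lemma inp_words {m c : ℕ} {x : ℕ → ℕ} (hx : ∀ l < 3 * c, x l < m) {A : ℕ → ℕ} {j : ℕ}
    (h1 : ∀ i < c, x (c + i) = A ((j + 1) * c + i)) (h2 : ∀ i < c, x (2 * c + i) = A (j * c + i)) :
    (List.range c).map (inp m c (cod m (3 * c) x)) = seg A c (j + 1) ∧
      (List.range c).map (fun i => inp m c (cod m (3 * c) x) (c + i)) = seg A c j := by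
  have hd : ∀ l < 3 * c, dig m (cod m (3 * c) x) l = x l := fun l hl => dig_cod hx hl
  constructor
  · apply List.ext_getElem
    · simp [seg]
    · intro i hi1 hi2
      have hi : i < c := by simpa using hi1
      simp only [seg, List.getElem_map, List.getElem_range, List.getElem_reverse,
        List.length_map, List.length_range]
      unfold inp
      rw [if_pos hi, hd _ (by omega), h1 _ (by omega)]
  · apply List.ext_getElem
    · simp [seg]
    · intro i hi1 hi2
      have hi : i < c := by simpa using hi1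
      simp only [seg, List.getElem_map, List.getElem_range, List.getElem_reverse,
        List.length_map, List.length_range]
      unfold inp
      rw [if_neg (by omega), hd _ (by omega)]
      have e : 2 * c + (2 * c - 1 - (c + i)) = 2 * c + (c - 1 - i) := by omega
      rw [e, h2 _ (by omega)]

lemma Val_div {c i : ℕ} (a : ℕ) (hi : i < c) : (a * c + i) / c = a ∧ (a * c + i) % c = i := by
  constructor
  · rw [Nat.add_comm, Nat.add_mul_div_right _ _ (by omega), Nat.div_eq_of_lt hi, Nat.zero_add]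
  · rw [Nat.add_comm, Nat.add_mul_mod_self_right, Nat.mod_eq_of_lt hi]

lemma Val_par {n s M g : ℕ} (hB : G.Big n s M) (hgs : g ≤ s) :
    (G.B ^ G.b) ^ g ≤ M ∧ (G.p + 1) ^ g ≤ M ∧ 2 * (G.k * s) * (G.b + 1) ^ (g + 1) ≤ M := by
  have hB1 : 1 ≤ G.B := by
    have := G.a_lt
    omega
  exact ⟨(Nat.pow_le_pow_right (Nat.one_le_pow _ _ hB1) hgs).trans hB.p1,
    (Nat.pow_le_pow_right (by omega) hgs).trans hB.p2,
    (Nat.mul_le_mul_left _ (Nat.pow_le_pow_right (by omega) (by omega))).trans hB.p3⟩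

lemma cnt_eq {n s M g : ℕ} (hB : G.Big n s M) (hg : 1 ≤ g) (hgs : g ≤ s) {x : ℕ → ℕ}
    (hx : ∀ l < 3 * (G.k * s), x l < G.mm (n, s, M)) {u : List ℕ} {j : ℕ}
    (h1 : ∀ i < G.k * s, x (G.k * s + i) = ltr u ((j + 1) * (G.k * s) + i))
    (h2 : ∀ i < G.k * s, x (2 * (G.k * s) + i) = ltr u (j * (G.k * s) + i)) :
    G.cnt M (G.mm (n, s, M)) g (G.k * s) (cod (G.mm (n, s, M)) (3 * (G.k * s)) x) =
      (G.OS g (seg (ltr u) (G.k * s) (j + 1)) (seg (ltr u) (G.k * s) j)).length := by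
  obtain ⟨w1, w2⟩ := inp_words (A := ltr u) hx h1 h2
  obtain ⟨q1, q2, q3⟩ := G.Val_par hB hgs
  have key := (G.proc_eq (M := M) (g := g) (c := G.k * s) 0
    (inp (G.mm (n, s, M)) (G.k * s) (cod (G.mm (n, s, M)) (3 * (G.k * s)) x)) hg q1 q2 q3).1
  unfold cnt
  rw [key, w1, w2]

lemma fA_eq {n s M g : ℕ} (hB : G.Big n s M) (hg : 1 ≤ g) (hgs : g ≤ s) {x : ℕ → ℕ}
    (hx : ∀ l < 3 * (G.k * s), x l < G.mm (n, s, M)) {u : List ℕ} {j : ℕ}
    (h0 : x 0 = G.R g (G.k * s) (ltr u) j)
    (h1 : ∀ i < G.k * s, x (G.k * s + i) = ltr u ((j + 1) * (G.k * s) + i))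
    (h2 : ∀ i < G.k * s, x (2 * (G.k * s) + i) = ltr u (j * (G.k * s) + i)) (y : ℕ) :
    G.fA M (G.mm (n, s, M)) g (G.k * s) y (cod (G.mm (n, s, M)) (3 * (G.k * s)) x) =
      if G.R g (G.k * s) (ltr u) j ≤ y ∧ y < G.R g (G.k * s) (ltr u) (j + 1) then
        ltr ((G.tr 0)^[g] u) y else 0 := by
  have hs1 : 1 ≤ s := hg.trans hgs
  have hc : 1 ≤ G.k * s := Nat.mul_pos G.k_pos hs1
  have hkg : G.k * g ≤ G.k * s := Nat.mul_le_mul_left _ hgs
  have hx0 : dig (G.mm (n, s, M)) (cod (G.mm (n, s, M)) (3 * (G.k * s)) x) 0 =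
      G.R g (G.k * s) (ltr u) j := by rw [dig_cod hx (by omega), h0]
  have hcnt := G.cnt_eq hB hg hgs hx h1 h2
  have hR : G.R g (G.k * s) (ltr u) (j + 1) = G.R g (G.k * s) (ltr u) j +
      (G.OS g (seg (ltr u) (G.k * s) (j + 1)) (seg (ltr u) (G.k * s) j)).length :=
    Finset.sum_range_succ _ _
  obtain ⟨w1, w2⟩ := inp_words (A := ltr u) hx h1 h2
  obtain ⟨q1, q2, q3⟩ := G.Val_par hB hgs
  unfold fA
  rw [hx0, hcnt]
  by_cases a1 : G.R g (G.k * s) (ltr u) j ≤ y
  · rw [if_pos a1]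
    by_cases a2 : y < G.R g (G.k * s) (ltr u) (j + 1)
    · rw [if_pos (by omega), if_pos ⟨a1, a2⟩, G.ltr_iter hc hkg u a1 a2]
      have key := (G.proc_eq (M := M) (g := g) (c := G.k * s)
        ((G.OS g (seg (ltr u) (G.k * s) (j + 1)) (seg (ltr u) (G.k * s) j)).length - 1 -
          (y - G.R g (G.k * s) (ltr u) j))
        (inp (G.mm (n, s, M)) (G.k * s) (cod (G.mm (n, s, M)) (3 * (G.k * s)) x))
        hg q1 q2 q3).2
      rw [key, w1, w2]
    · rw [if_neg (by omega), if_neg (fun h => a2 h.2)]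
  · rw [if_neg a1, if_neg (fun h => a1 h.1)]

section

variable {n s M : ℕ} [Fact (G.cd.q (n, s, M)).Prime]
  (h : 3 * G.cd.c (n, s, M) * (G.cd.m (n, s, M) - 1) < G.cd.q (n, s, M) - 1)

lemma Val_succ (d u s' : ℕ) : (G.cd.td (n, s, M) h).V (d + 1) u s' =
    ∑ i ∈ Finset.range (n + s + 3), ext (q := G.cd.q (n, s, M)) (G.mm (n, s, M)) (3 * (G.k * s))
      (G.cd.F (n, s, M) d u i s') (fun l => (G.cd.td (n, s, M) h).V d
        (min M (G.cd.ch (n, s, M) d u i (l / (G.k * s)))) (l % (G.k * s))) := rfl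

omit [Fact (G.cd.q (n, s, M)).Prime] in
lemma Val_mq : G.mm (n, s, M) ≤ G.cd.q (n, s, M) := by
  have h1 : G.cd.q (n, s, M) =
      nxtp (3 * G.cc (n, s, M) * (G.mm (n, s, M) - 1) + G.mm (n, s, M) + 2) := rfl
  have h2 := nxtp_gt (3 * G.cc (n, s, M) * (G.mm (n, s, M) - 1) + G.mm (n, s, M) + 2)
  rw [h1]
  omega

omit [Fact (G.cd.q (n, s, M)).Prime] in
lemma Val_B_lt : G.B < G.mm (n, s, M) := by
  unfold mm
  omega

omit [Fact (G.cd.q (n, s, M)).Prime] in
/-- letter of a row is a small number -/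
lemma Val_lt (t y : ℕ) : ltr (G.W t) y < G.mm (n, s, M) :=
  (G.ltr_range (t := t) (x := y)).2.trans G.Val_B_lt

/-- odd levels, even nodes: copies of the segments -/
lemma Val_even (hB : G.Big n s M) (ℓ t : ℕ) (N : ℕ) (hN : N ≤ n + s + 2)
    (ih : ∀ j ≤ N, ∀ i < G.k * s, (G.cd.td (n, s, M) h).V (2 * ℓ) j i =
      (ltr (G.W t) (j * (G.k * s) + i) : ZMod (G.cd.q (n, s, M)))) {j i : ℕ} (hj : j ≤ N)
    (hi : i < G.k * s) : (G.cd.td (n, s, M) h).V (2 * ℓ + 1) (2 * j) i =
      (ltr (G.W t) (j * (G.k * s) + i) : ZMod (G.cd.q (n, s, M))) := by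
  have hs1 := hB.s1
  have hc : 1 ≤ G.k * s := Nat.mul_pos G.k_pos hs1
  rw [G.Val_succ h]
  rw [Finset.sum_eq_single_of_mem 0 (Finset.mem_range.2 (by omega))]
  · have hx : ∀ l < 3 * (G.k * s), ltr (G.W t) (j * (G.k * s) + l % (G.k * s)) <
        G.mm (n, s, M) := fun l _ => G.Val_lt _ _
    rw [ext_nat (x := fun l => ltr (G.W t) (j * (G.k * s) + l % (G.k * s))) G.Val_mq _ hx]
    · have hF : G.cd.F (n, s, M) (2 * ℓ) (2 * j) 0 i
          (cod (G.mm (n, s, M)) (3 * (G.k * s))
            (fun l => ltr (G.W t) (j * (G.k * s) + l % (G.k * s)))) =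
          dig (G.mm (n, s, M)) (cod (G.mm (n, s, M)) (3 * (G.k * s))
            (fun l => ltr (G.W t) (j * (G.k * s) + l % (G.k * s)))) i := by
        show (if 2 * ℓ % 2 = 1 then _ else if 2 * j % 2 = 1 then _ else
          (if 0 = 0 then dig (G.mm (n, s, M)) _ i else 0)) = _
        rw [if_neg (by omega), if_neg (by omega), if_pos rfl]
      rw [hF, dig_cod hx (by omega), Nat.mod_eq_of_lt hi]
    · intro l hl
      have hch : G.cd.ch (n, s, M) (2 * ℓ) (2 * j) 0 (l / (G.k * s)) = j := by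
        show (if 2 * ℓ % 2 = 1 then _ else if 2 * j % 2 = 1 then _ else 2 * j / 2) = _
        rw [if_neg (by omega), if_neg (by omega)]
        omega
      have ht4 := hB.t4
      rw [hch, Nat.min_eq_right (by omega)]
      exact ih j hj _ (Nat.mod_lt _ hc)
  · intro i' _ hi'
    refine ext_zero (fun X _ => ?_) _
    show (if 2 * ℓ % 2 = 1 then _ else if 2 * j % 2 = 1 then _ else
      (if i' = 0 then dig (G.mm (n, s, M)) _ i else 0)) = _
    rw [if_neg (by omega), if_neg (by omega), if_neg hi']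

/-- odd levels, odd nodes: lengths of the images -/
lemma Val_odd (hB : G.Big n s M) (ℓ t : ℕ) (N : ℕ) (hN : N ≤ n + s + 2)
    (ih : ∀ j ≤ N, ∀ i < G.k * s, (G.cd.td (n, s, M) h).V (2 * ℓ) j i =
      (ltr (G.W t) (j * (G.k * s) + i) : ZMod (G.cd.q (n, s, M)))) {j i : ℕ} (hj : j ≤ N) :
    (G.cd.td (n, s, M) h).V (2 * ℓ + 1) (2 * j + 1) i =
      ((if i = 0 then G.R s (G.k * s) (ltr (G.W t)) j else 0 : ℕ) :
        ZMod (G.cd.q (n, s, M))) := by
  have hs1 := hB.s1
  have ht4 := hB.t4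
  have hc : 1 ≤ G.k * s := Nat.mul_pos G.k_pos hs1
  have hF : ∀ i' X, G.cd.F (n, s, M) (2 * ℓ) (2 * j + 1) i' i X =
      if i' < j then (if i = 0 then G.cnt M (G.mm (n, s, M)) s (G.k * s) X else 0) else 0 := by
    intro i' X
    show (if 2 * ℓ % 2 = 1 then _ else if (2 * j + 1) % 2 = 1 then
      (if i' < (2 * j + 1) / 2 then
        (if i = 0 then G.cnt M (G.mm (n, s, M)) s (G.k * s) X else 0) else 0) else _) = _
    rw [if_neg (by omega), if_pos (by omega)]
    have e : (2 * j + 1) / 2 = j := by omega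
    rw [e]
  rw [G.Val_succ h]
  by_cases hi0 : i = 0
  · rw [if_pos hi0]
    have key : ∀ i' ∈ Finset.range (n + s + 3), ext (q := G.cd.q (n, s, M)) (G.mm (n, s, M))
        (3 * (G.k * s)) (G.cd.F (n, s, M) (2 * ℓ) (2 * j + 1) i' i)
        (fun l => (G.cd.td (n, s, M) h).V (2 * ℓ)
          (min M (G.cd.ch (n, s, M) (2 * ℓ) (2 * j + 1) i' (l / (G.k * s))))
            (l % (G.k * s))) =
        ((if i' < j then (G.OS s (seg (ltr (G.W t)) (G.k * s) (i' + 1))
          (seg (ltr (G.W t)) (G.k * s) i')).length else 0 : ℕ) : ZMod (G.cd.q (n, s, M))) := by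
      intro i' hi'
      have hi' := Finset.mem_range.1 hi'
      by_cases hlt : i' < j
      · rw [if_pos hlt]
        have hx : ∀ l < 3 * (G.k * s), (fun l => ltr (G.W t)
            ((if l / (G.k * s) = 0 then 0 else if l / (G.k * s) = 1 then i' + 1 else i') *
              (G.k * s) + l % (G.k * s))) l < G.mm (n, s, M) := fun l _ => G.Val_lt _ _
        rw [ext_nat G.Val_mq _ hx]
        · rw [hF, if_pos hlt, if_pos hi0]
          congr 1
          refine G.cnt_eq hB hs1 le_rfl hx ?_ ?_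
          · intro i'' hi''
            have e1 := (Val_div 1 hi'').1
            have e2 := (Val_div 1 hi'').2
            rw [Nat.one_mul] at e1 e2
            show ltr (G.W t) ((if (G.k * s + i'') / (G.k * s) = 0 then 0 else
              if (G.k * s + i'') / (G.k * s) = 1 then i' + 1 else i') * (G.k * s) +
                (G.k * s + i'') % (G.k * s)) = _
            rw [e1, e2, if_neg (by omega), if_pos rfl]
          · intro i'' hi''
            have e1 := (Val_div 2 hi'').1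
            have e2 := (Val_div 2 hi'').2
            show ltr (G.W t) ((if (2 * (G.k * s) + i'') / (G.k * s) = 0 then 0 else
              if (2 * (G.k * s) + i'') / (G.k * s) = 1 then i' + 1 else i') * (G.k * s) +
                (2 * (G.k * s) + i'') % (G.k * s)) = _
            rw [e1, e2, if_neg (by omega), if_neg (by omega)]
        · intro l hl
          have hch : G.cd.ch (n, s, M) (2 * ℓ) (2 * j + 1) i' (l / (G.k * s)) =
              if l / (G.k * s) = 0 then 0 else if l / (G.k * s) = 1 then i' + 1 else i' := by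
            show (if 2 * ℓ % 2 = 1 then _ else if (2 * j + 1) % 2 = 1 then
              (if l / (G.k * s) = 0 then 0 else if l / (G.k * s) = 1 then i' + 1 else i')
                else _) = _
            rw [if_neg (by omega), if_pos (by omega)]
          have hb : (if l / (G.k * s) = 0 then 0 else if l / (G.k * s) = 1 then i' + 1 else i')
              ≤ N := by
            split_ifs <;> omega
          rw [hch, Nat.min_eq_right (by omega)]
          exact ih _ hb _ (Nat.mod_lt _ hc)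
      · rw [if_neg hlt, Nat.cast_zero]
        refine ext_zero (fun X _ => ?_) _
        rw [hF, if_neg hlt]
    rw [Finset.sum_congr rfl key, ← Nat.cast_sum]
    congr 1
    rw [← Finset.sum_filter]
    unfold R
    apply Finset.sum_congr
    · ext a
      simp only [Finset.mem_filter, Finset.mem_range]
      omega
    · intro a _
      rfl
  · rw [if_neg hi0, Nat.cast_zero]
    refine Finset.sum_eq_zero fun i' _ => ext_zero (fun X _ => ?_) _
    rw [hF, if_neg hi0, ite_self]

/-- the values of three children -/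
def Val_x (A : ℕ → ℕ) (c a0 j1 j2 l : ℕ) : ℕ :=
  if l / c = 0 then (if l % c = 0 then a0 else 0)
  else if l / c = 1 then A (j1 * c + l % c) else A (j2 * c + l % c)

/-- even levels -/
lemma Val_step (hB : G.Big n s M) (ℓ t : ℕ) (N : ℕ) (hN : N ≤ n + s + 2)
    (hE : G.E (t + s) ≤ n)
    (ih : ∀ j ≤ N, ∀ i < G.k * s, (G.cd.td (n, s, M) h).V (2 * ℓ) j i =
      (ltr (G.W t) (j * (G.k * s) + i) : ZMod (G.cd.q (n, s, M)))) {j i : ℕ} (hj : j + 1 ≤ N)
    (hi : i < G.k * s) :
    (G.cd.td (n, s, M) h).V (2 * ℓ + 1 + 1) j i =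
      (ltr (G.W (t + s)) (j * (G.k * s) + i) : ZMod (G.cd.q (n, s, M))) := by
  have hs1 := hB.s1
  have ht4 := hB.t4
  have hc : 1 ≤ G.k * s := Nat.mul_pos G.k_pos hs1
  have hWt : (G.tr 0)^[s] (G.W t) = G.W (t + s) := by
    unfold W
    rw [← Function.iterate_add_apply, Nat.add_comm]
  have hF : ∀ i' X, G.cd.F (n, s, M) (2 * ℓ + 1) j i' i X =
      if i' ≤ j then G.fA M (G.mm (n, s, M)) s (G.k * s) (j * (G.k * s) + i) X else 0 := by
    intro i' X
    show (if (2 * ℓ + 1) % 2 = 1 then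
      (if i' ≤ j then G.fA M (G.mm (n, s, M)) s (G.k * s) (j * (G.k * s) + i) X else 0)
        else _) = _
    rw [if_pos (by omega)]
  have hch : ∀ i' p, G.cd.ch (n, s, M) (2 * ℓ + 1) j i' p =
      if p = 0 then 2 * i' + 1 else if p = 1 then 2 * i' + 2 else 2 * i' := by
    intro i' p
    show (if (2 * ℓ + 1) % 2 = 1 then _ else _) = _
    rw [if_pos (by omega)]
  rw [G.Val_succ h]
  have key : ∀ i' ∈ Finset.range (n + s + 3), ext (q := G.cd.q (n, s, M)) (G.mm (n, s, M))
      (3 * (G.k * s)) (G.cd.F (n, s, M) (2 * ℓ + 1) j i' i)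
      (fun l => (G.cd.td (n, s, M) h).V (2 * ℓ + 1)
        (min M (G.cd.ch (n, s, M) (2 * ℓ + 1) j i' (l / (G.k * s)))) (l % (G.k * s))) =
      ((if i' ≤ j then (if G.R s (G.k * s) (ltr (G.W t)) i' ≤ j * (G.k * s) + i ∧
          j * (G.k * s) + i < G.R s (G.k * s) (ltr (G.W t)) (i' + 1) then
            ltr (G.W (t + s)) (j * (G.k * s) + i) else 0) else 0 : ℕ) :
        ZMod (G.cd.q (n, s, M))) := by
    intro i' _
    by_cases hle : i' ≤ j
    · rw [if_pos hle]
      have hx : ∀ l < 3 * (G.k * s), Val_x (ltr (G.W t)) (G.k * s)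
          (G.R s (G.k * s) (ltr (G.W t)) i') (i' + 1) i' l < G.mm (n, s, M) := by
        intro l _
        unfold Val_x
        split_ifs
        · have h1 := G.R_le hc le_rfl (G.W t) i'
          rw [hWt] at h1
          have h2 : (G.W (t + s)).length ≤ n := hE
          have h3 : i' * (G.k * s) ≤ (n + s + 2) * (G.k * s) :=
            Nat.mul_le_mul_right _ (by omega)
          unfold mm
          show _ < (n + s + 2) * (G.k * s) + n + G.B + 2
          omega
        · unfold mm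
          omega
        · exact G.Val_lt _ _
        · exact G.Val_lt _ _
      rw [ext_nat (x := Val_x (ltr (G.W t)) (G.k * s)
          (G.R s (G.k * s) (ltr (G.W t)) i') (i' + 1) i') G.Val_mq _ hx]
      · rw [hF, if_pos hle, G.fA_eq hB hs1 le_rfl hx (u := G.W t) (j := i'), hWt]
        · unfold Val_x
          rw [Nat.zero_div, Nat.zero_mod, if_pos rfl, if_pos rfl]
        · intro i'' hi''
          have e1 := (Val_div 1 hi'').1
          have e2 := (Val_div 1 hi'').2
          rw [Nat.one_mul] at e1 e2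
          unfold Val_x
          rw [e1, e2, if_neg (by omega), if_pos rfl]
        · intro i'' hi''
          have e1 := (Val_div 2 hi'').1
          have e2 := (Val_div 2 hi'').2
          unfold Val_x
          rw [e1, e2, if_neg (by omega), if_neg (by omega)]
      · intro l _
        have hmod := Nat.mod_lt l hc
        rw [hch]
        unfold Val_x
        by_cases h0 : l / (G.k * s) = 0
        · rw [if_pos h0, if_pos h0, Nat.min_eq_right (by omega)]
          exact G.Val_odd h hB ℓ t N hN ih (by omega)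
        · rw [if_neg h0, if_neg h0]
          by_cases h1 : l / (G.k * s) = 1
          · rw [if_pos h1, if_pos h1, Nat.min_eq_right (by omega)]
            exact G.Val_even h hB ℓ t N hN ih (j := i' + 1) (by omega) hmod
          · rw [if_neg h1, if_neg h1, Nat.min_eq_right (by omega)]
            exact G.Val_even h hB ℓ t N hN ih (j := i') (by omega) hmod
    · rw [if_neg hle, Nat.cast_zero]
      refine ext_zero (fun X _ => ?_) _
      rw [hF, if_neg hle]
  rw [Finset.sum_congr rfl key, ← Nat.cast_sum]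
  congr 1
  -- the segment which contains the letter
  have hR0 : G.R s (G.k * s) (ltr (G.W t)) 0 = 0 := by
    unfold R
    exact Finset.sum_range_zero _
  have hRj : j * (G.k * s) + i < G.R s (G.k * s) (ltr (G.W t)) (j + 1) := by
    have h1 := G.le_R (g := s) (c := G.k * s) (ltr (G.W t)) (j + 1)
    rw [Nat.add_mul, Nat.one_mul] at h1
    omega
  have hex : ∃ i0, j * (G.k * s) + i < G.R s (G.k * s) (ltr (G.W t)) (i0 + 1) := ⟨j, hRj⟩
  obtain ⟨i0, hi0, hmin⟩ : ∃ i0, j * (G.k * s) + i < G.R s (G.k * s) (ltr (G.W t)) (i0 + 1) ∧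
      ∀ i' < i0, ¬ j * (G.k * s) + i < G.R s (G.k * s) (ltr (G.W t)) (i' + 1) :=
    ⟨Nat.find hex, Nat.find_spec hex, fun i' hi' => Nat.find_min hex hi'⟩
  have hi0j : i0 ≤ j := by
    by_contra hcon
    exact hmin j (by omega) hRj
  have hlow : G.R s (G.k * s) (ltr (G.W t)) i0 ≤ j * (G.k * s) + i := by
    rcases Nat.eq_zero_or_pos i0 with h0 | h0
    · rw [h0, hR0]
      exact Nat.zero_le _
    · have := hmin (i0 - 1) (by omega)
      rw [Nat.sub_add_cancel h0] at this
      omega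
  rw [Finset.sum_eq_single_of_mem i0 (Finset.mem_range.2 (by omega))]
  · rw [if_pos hi0j, if_pos ⟨hlow, hi0⟩]
  · intro i' _ hne
    split_ifs with h1 h2
    · exfalso
      rcases Nat.lt_or_gt_of_ne hne with h3 | h3
      · exact hmin i' h3 h2.2
      · have h4 := G.R_mono (g := s) (c := G.k * s) (ltr (G.W t)) (j := i0 + 1) (j' := i')
          (by omega)
        omega
    · rfl
    · rfl

end

/-- **the values of the nodes** -/
theorem V_good {n s M : ℕ} (hB : G.Big n s M) [Fact (G.cd.q (n, s, M)).Prime]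
    (h : 3 * G.cd.c (n, s, M) * (G.cd.m (n, s, M) - 1) < G.cd.q (n, s, M) - 1) (ℓ : ℕ)
    (hℓ : ℓ ≤ s) (hE : G.E (G.T0 n s + ℓ * s) ≤ n) (j : ℕ) (hj : j + ℓ ≤ n + s + 2) :
    ∀ i < G.k * s, (G.cd.td (n, s, M) h).V (2 * ℓ) j i =
      (ltr (G.W (G.T0 n s + ℓ * s)) (j * (G.k * s) + i) : ZMod (G.cd.q (n, s, M))) := by
  induction ℓ generalizing j with
  | zero =>
    intro i _
    rw [Nat.zero_mul, Nat.add_zero]
    show ((G.bas M n s (j * (G.k * s) + i) : ℕ) : ZMod (G.cd.q (n, s, M))) = _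
    rw [G.bas_eq _ hB.b1 hB.b2]
  | succ ℓ ih =>
    intro i hi
    have e : G.T0 n s + (ℓ + 1) * s = G.T0 n s + ℓ * s + s := by ring
    rw [e] at hE ⊢
    have hE' : G.E (G.T0 n s + ℓ * s) ≤ n := (G.E_mono (Nat.le_add_right _ _)).trans hE
    exact G.Val_step h hB ℓ (G.T0 n s + ℓ * s) (n + s + 2 - ℓ) (by omega) hE
      (fun j' hj' => ih (by omega) hE' j' (by omega)) (by omega) hi

/-- the computed values -/
theorem TV_good {n s M : ℕ} (hB : G.Big n s M) (ℓ : ℕ) (hℓ : ℓ ≤ s)
    (hE : G.E (G.T0 n s + ℓ * s) ≤ n) (j : ℕ) (hj : j + ℓ ≤ n + s + 2) (i : ℕ)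
    (hi : i < G.k * s) :
    G.cd.TV ((n, s, M), 2 * ℓ, j, i) =
      ltr (G.W (G.T0 n s + ℓ * s)) (j * (G.k * s) + i) := by
  have hs1 := hB.s1
  have hc : 1 ≤ G.k * s := Nat.mul_pos G.k_pos hs1
  have hq : G.cd.q (n, s, M) =
      nxtp (3 * (G.k * s) * (G.mm (n, s, M) - 1) + G.mm (n, s, M) + 2) := rfl
  have : Fact (G.cd.q (n, s, M)).Prime := ⟨by rw [hq]; exact nxtp_prime _⟩
  have hgt := nxtp_gt (3 * (G.k * s) * (G.mm (n, s, M) - 1) + G.mm (n, s, M) + 2)
  rw [← hq] at hgt
  have h : 3 * G.cd.c (n, s, M) * (G.cd.m (n, s, M) - 1) < G.cd.q (n, s, M) - 1 := by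
    show 3 * (G.k * s) * (G.mm (n, s, M) - 1) < G.cd.q (n, s, M) - 1
    omega
  have hm1 : 1 ≤ G.mm (n, s, M) := by
    unfold mm
    omega
  have hK : G.cd.K (n, s, M) ^ (2 * ℓ) ≤ M := by
    refine le_trans ?_ hB.t3
    show (9 * (G.qq (n, s, M) - 1) * II (n, s, M)) ^ (2 * ℓ) ≤ _
    refine Nat.pow_le_pow_right ?_ (by omega)
    have hq' : G.qq (n, s, M) = G.cd.q (n, s, M) := rfl
    have h1 : 0 < G.qq (n, s, M) - 1 := by omega
    have h2 : 0 < II (n, s, M) := by
      unfold II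
      omega
    positivity
  obtain ⟨h1, h2⟩ := G.cd.TV_eq (n, s, M) h hc hm1 G.Val_mq hB.t1 hB.t2 (2 * ℓ) j i hK hi
  rw [G.V_good hB h ℓ hℓ hE j hj i hi] at h1
  exact Ext_cast_inj h2 (lt_of_lt_of_le (G.Val_lt _ _) G.Val_mq) h1

end NT

end Pool.Agent.W_5d512e_h4
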