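import Pool.Agent.W_5d512e_h4.TopD
import Pool.Agent.W_5d512e_h4.Val

/-!
# The test and the letter are computed correctly
-/

set_option autoImplicit false

namespace Pool.Agent.W_5d512e_h4

namespace NT

variable (G : NT)

private lemma Top_rev (c : ℕ) (f : ℕ → ℕ) :
    (List.range c).map (fun i => f (c - 1 - i)) = ((List.range c).map f).reverse := by
  apply List.ext_getElem
  · simp
  · intro i h1 h2
    simp only [List.length_map, List.length_range] at h1
    simp only [List.getElem_map, List.getElem_range, List.getElem_reverse, List.length_map,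
      List.length_range]

/-- the inputs of the cascade -/
private lemma Top_inp {n s M : ℕ} (hB : G.Big n s M) {ℓ j : ℕ} (hℓ : ℓ ≤ s)
    (hE : G.E (G.T0 n s + ℓ * s) ≤ n) (hj : j ≤ n + 1) :
    (List.range (G.k * s)).map (G.inpT (n, s, M) ℓ j) =
      seg (ltr (G.W (G.T0 n s + ℓ * s))) (G.k * s) (j + 1) ∧
    (List.range (G.k * s)).map (fun i => G.inpT (n, s, M) ℓ j (G.k * s + i)) =
      seg (ltr (G.W (G.T0 n s + ℓ * s))) (G.k * s) j := by
  constructor
  · unfold seg
    rw [← Top_rev]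
    apply List.map_congr_left
    intro i hi
    have hi := List.mem_range.1 hi
    unfold inpT cc
    simp only
    rw [if_pos hi, G.TV_good hB ℓ hℓ hE (j + 1) (by omega) _ (by omega)]
  · unfold seg
    rw [← Top_rev]
    apply List.map_congr_left
    intro i hi
    have hi := List.mem_range.1 hi
    unfold inpT cc
    simp only
    rw [if_neg (by omega), G.TV_good hB ℓ hℓ hE j (by omega) _ (by omega)]
    congr 2
    omega

private lemma Top_proc {n s M : ℕ} (hB : G.Big n s M) {g : ℕ} (hg : 1 ≤ g) (hgs : g ≤ s)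
    (pp : ℕ) (inp : ℕ → ℕ) :
    (G.proc M g (G.k * s) pp inp).2.1 = (G.OS g ((List.range (G.k * s)).map inp)
      ((List.range (G.k * s)).map fun i => inp (G.k * s + i))).length ∧
    (G.proc M g (G.k * s) pp inp).2.2.1 = (G.OS g ((List.range (G.k * s)).map inp)
      ((List.range (G.k * s)).map fun i => inp (G.k * s + i))).getD pp 0 := by
  have hBpos : 0 < G.B := lt_of_le_of_lt (Nat.zero_le _) G.a_lt
  apply G.proc_eq pp inp hg
  · exact (Nat.pow_le_pow_right (Nat.pow_pos hBpos) hgs).trans hB.p1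
  · exact (Nat.pow_le_pow_right (Nat.succ_pos _) hgs).trans hB.p2
  · exact (Nat.mul_le_mul_left _ (Nat.pow_le_pow_right (Nat.succ_pos _) (by omega))).trans hB.p3

lemma cntT_eq {n s M : ℕ} (hB : G.Big n s M) {ℓ g j : ℕ} (hℓ : ℓ ≤ s) (hg : 1 ≤ g) (hgs : g ≤ s)
    (hE : G.E (G.T0 n s + ℓ * s) ≤ n) (hj : j ≤ n + 1) :
    G.cntT (n, s, M) ℓ g j = (G.OS g (seg (ltr (G.W (G.T0 n s + ℓ * s))) (G.k * s) (j + 1))
      (seg (ltr (G.W (G.T0 n s + ℓ * s))) (G.k * s) j)).length := by
  have h1 := (G.Top_proc hB hg hgs 0 (G.inpT (n, s, M) ℓ j)).1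
  rw [(G.Top_inp hB hℓ hE hj).1, (G.Top_inp hB hℓ hE hj).2] at h1
  exact h1

lemma RT_eq {n s M : ℕ} (hB : G.Big n s M) {ℓ g j : ℕ} (hℓ : ℓ ≤ s) (hg : 1 ≤ g) (hgs : g ≤ s)
    (hE : G.E (G.T0 n s + ℓ * s) ≤ n) (hj : j ≤ n + 1) :
    G.RT (n, s, M) ℓ g j = G.R g (G.k * s) (ltr (G.W (G.T0 n s + ℓ * s))) j := by
  unfold RT R
  refine Finset.sum_congr rfl fun i hi => ?_
  have hi := Finset.mem_range.1 hi
  exact G.cntT_eq hB hℓ hg hgs hE (by omega)

private lemma Top_iter (t g : ℕ) : (G.tr 0)^[g] (G.W t) = G.W (t + g) := by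
  unfold W
  rw [← Function.iterate_add_apply, add_comm]

private lemma Top_total {n s M : ℕ} (hB : G.Big n s M) {ℓ g : ℕ} (hgs : g ≤ s)
    (hE : G.E (G.T0 n s + ℓ * s) ≤ n) :
    G.R g (G.k * s) (ltr (G.W (G.T0 n s + ℓ * s))) (n + 1) + G.E (G.T0 n s + ℓ * s) =
      (n + 1) * (G.k * s) + G.E (G.T0 n s + ℓ * s + g) := by
  have hc : 1 ≤ G.k * s := Nat.mul_pos G.k_pos hB.s1
  have h := G.R_total (g := g) (J := n + 1) hc (Nat.mul_le_mul_left _ hgs)
    (G.W (G.T0 n s + ℓ * s)) (by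
      have h1 : (G.W (G.T0 n s + ℓ * s)).length ≤ n := hE
      have h2 : (n + 1) * 1 ≤ (n + 1) * (G.k * s) := Nat.mul_le_mul_left _ hc
      omega)
  rw [Top_iter] at h
  exact h

lemma ET_eq {n s M : ℕ} (hB : G.Big n s M) {ℓ : ℕ} (hℓ : ℓ ≤ s)
    (hE : G.E (G.T0 n s + ℓ * s) ≤ n) : G.ET (n, s, M) ℓ = G.E (G.T0 n s + ℓ * s) := by
  induction ℓ with
  | zero =>
    rw [zero_mul, add_zero]
    exact G.e0c_eq hB.b1 hB.b2
  | succ ℓ ih =>
    have hE' : G.E (G.T0 n s + ℓ * s) ≤ n :=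
      (G.E_mono (by rw [add_mul, one_mul]; omega)).trans hE
    have h1 := ih (by omega) hE'
    have h2 : G.ET (n, s, M) (ℓ + 1) = min M (G.RT (n, s, M) ℓ s (n + 1) + G.ET (n, s, M) ℓ -
      (n + 1) * (G.k * s)) := rfl
    have h3 := G.Top_total hB (ℓ := ℓ) le_rfl hE'
    have h4 : G.T0 n s + (ℓ + 1) * s = G.T0 n s + ℓ * s + s := by ring
    rw [h2, h1, G.RT_eq hB (by omega) hB.s1 le_rfl hE' le_rfl, h3, Nat.add_sub_cancel_left, h4]
    rw [h4] at hE
    have := hB.t4
    exact min_eq_right (by omega)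

lemma EN_eq {n s M : ℕ} (hB : G.Big n s M) {ℓ g : ℕ} (hℓ : ℓ ≤ s) (hg : 1 ≤ g) (hgs : g ≤ s)
    (hE : G.E (G.T0 n s + ℓ * s) ≤ n) : G.EN (n, s, M) ℓ g = G.E (G.T0 n s + ℓ * s + g) := by
  have h2 : G.EN (n, s, M) ℓ g = G.RT (n, s, M) ℓ g (n + 1) + G.ET (n, s, M) ℓ -
      (n + 1) * (G.k * s) := rfl
  rw [h2, G.ET_eq hB hℓ hE, G.RT_eq hB hℓ hg hgs hE le_rfl, G.Top_total hB hgs hE,
    Nat.add_sub_cancel_left]

/-- address of the iterate number `t0 + i + 1` -/
private lemma Top_addr {n s M : ℕ} (hB : G.Big n s M) {i : ℕ} (hi : i < s * s)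
    (hE : G.E (G.T0 n s + i / s * s) ≤ n) :
    G.EN (n, s, M) (i / s) (i % s + 1) = G.E (G.T0 n s + i + 1) := by
  have hs := hB.s1
  have h1 : i / s < s := (Nat.div_lt_iff_lt_mul hs).2 hi
  have h2 : i % s < s := Nat.mod_lt _ hs
  rw [G.EN_eq hB h1.le (by omega) (by omega) hE]
  congr 1
  have h3 : i / s * s + i % s = i := by
    rw [mul_comm]; exact Nat.div_add_mod i s
  omega

/-- value of `fi`: every `i` below it has `E (t0 + i + 1) ≤ n` -/
lemma fi_eq {n s M : ℕ} (hB : G.Big n s M) (hE : G.E (G.T0 n s) ≤ n) :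
    (∀ i < G.fi (n, s, M), G.E (G.T0 n s + i + 1) ≤ n) ∧
      (G.fi (n, s, M) < s * s → n < G.E (G.T0 n s + G.fi (n, s, M) + 1)) := by
  have hlow : ∀ i, (∀ j < i, G.E (G.T0 n s + j + 1) ≤ n) → G.E (G.T0 n s + i / s * s) ≤ n := by
    intro i hi
    rcases Nat.eq_zero_or_pos i with rfl | hpos
    · simpa using hE
    · have h1 := hi (i - 1) (by omega)
      refine (G.E_mono ?_).trans h1
      have := Nat.div_mul_le_self i s
      omega
  have hfi : G.fi (n, s, M) = fnd (s * s)
      fun i => if n < G.EN (n, s, M) (i / s) (i % s + 1) then 1 else 0 := rfl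
  have hle : G.fi (n, s, M) ≤ s * s := fnd_le _ _
  have hA : ∀ i < G.fi (n, s, M), G.E (G.T0 n s + i + 1) ≤ n := by
    intro i
    induction i using Nat.strong_induction_on with
    | _ i ih =>
      intro hi
      have h1 := hlow i fun j hj => ih j hj (hj.trans hi)
      have h2 := fnd_lt (hfi ▸ hi : i < fnd (s * s)
        fun i => if n < G.EN (n, s, M) (i / s) (i % s + 1) then 1 else 0)
      simp only [ite_eq_right_iff, one_ne_zero, imp_false, not_lt] at h2
      rw [G.Top_addr hB (hi.trans_le hle) h1] at h2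
      exact h2
  refine ⟨hA, fun hlt => ?_⟩
  have h1 := hlow _ hA
  have h2 := fnd_spec (hfi ▸ hlt : fnd (s * s)
        (fun i => if n < G.EN (n, s, M) (i / s) (i % s + 1) then 1 else 0) < s * s)
  rw [← hfi] at h2
  simp only [ne_eq, ite_eq_right_iff, one_ne_zero, imp_false, not_not] at h2
  rw [G.Top_addr hB hlt h1] at h2
  exact h2

private lemma Top_fi {n s M : ℕ} (hB : G.Big n s M) (hE : G.E (G.T0 n s) ≤ n) :
    G.fi (n, s, M) < s * s ↔ n < G.E (G.T0 n s + s ^ 2) := by
  obtain ⟨h1, h2⟩ := G.fi_eq hB hE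
  constructor
  · intro h
    refine (h2 h).trans_le (G.E_mono ?_)
    rw [sq]; omega
  · intro h
    by_contra hcon
    have hs : 0 < s * s := Nat.mul_pos hB.s1 hB.s1
    have h3 := h1 (s * s - 1) (by omega)
    rw [show G.T0 n s + (s * s - 1) + 1 = G.T0 n s + s ^ 2 by rw [sq]; omega] at h3
    omega

/-- **the test is correct** -/
theorem PT_ne_zero {n s M : ℕ} (hB : G.Big n s M) :
    G.PT (n, s, M) ≠ 0 ↔ n < G.E (G.T0 n s + s ^ 2) := by
  have hs := hB.s1
  have h0 : G.PT (n, s, M) = if n < G.E (G.T0 n s) then 1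
      else if G.fi (n, s, M) < s * s then 1 else 0 := by
    unfold PT
    simp only
    rw [if_neg (by omega), G.e0c_eq hB.b1 hB.b2]
  rw [h0]
  split_ifs with h1 h2
  · simp only [ne_eq, one_ne_zero, not_false_eq_true, true_iff]
    exact h1.trans_le (G.E_mono (by omega))
  · simp only [ne_eq, one_ne_zero, not_false_eq_true, true_iff]
    exact (G.Top_fi hB (by omega)).1 h2
  · simp only [ne_eq, not_true_eq_false, false_iff]
    intro h3
    exact h2 ((G.Top_fi hB (by omega)).2 h3)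

/-- **the letter is correct** -/
theorem FT_eq {n s M : ℕ} (hB : G.Big n s M) (h : n < G.E (G.T0 n s + s ^ 2)) (t : ℕ)
    (ht : n < G.E t) : G.FT (n, s, M) = (G.W t).getD n 1 - 2 := by
  have hcomm : ∀ t', n < G.E t' → (G.W t').getD n 1 = (G.W t).getD n 1 := by
    intro t' ht'
    rcases le_total t t' with h1 | h1
    · exact G.W_getD ht h1 1
    · exact (G.W_getD ht' h1 1).symm
  unfold FT
  simp only
  congr 1
  rw [G.e0c_eq hB.b1 hB.b2]
  split_ifs with h0
  · rw [G.bas_eq _ hB.b1 hB.b2]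
    have h1 : G.E (G.T0 n s) - 1 - n = (G.W (G.T0 n s)).length - 1 - n := rfl
    rw [h1, ltr_left h0]
    exact hcomm _ h0
  · have hE0 : G.E (G.T0 n s) ≤ n := by omega
    have hs := hB.s1
    obtain ⟨hA, hC⟩ := G.fi_eq hB hE0
    have hfi := (G.Top_fi hB hE0).2 h
    have hfin := hC hfi
    set f := G.fi (n, s, M) with hf
    have hE1 : G.E (G.T0 n s + f / s * s) ≤ n := by
      rcases Nat.eq_zero_or_pos f with h1 | hpos
      · rw [h1]; simpa using hE0
      · have h1 := hA (f - 1) (by omega)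
        refine (G.E_mono ?_).trans h1
        have := Nat.div_mul_le_self f s
        omega
    have hEN := G.Top_addr hB hfi hE1
    have hls : f / s < s := (Nat.div_lt_iff_lt_mul hs).2 hfi
    have hms : f % s < s := Nat.mod_lt _ hs
    have hxT : G.xT (n, s, M) = G.E (G.T0 n s + f + 1) - 1 - n := by
      unfold xT
      simp only
      rw [← hf, hEN]
    have hadd : G.T0 n s + f / s * s + (f % s + 1) = G.T0 n s + f + 1 := by
      have h3 : f / s * s + f % s = f := by
        rw [mul_comm]; exact Nat.div_add_mod f s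
      omega
    set ℓ := f / s with hℓ
    set g := f % s + 1 with hg
    set x := G.xT (n, s, M) with hx
    set u := G.W (G.T0 n s + ℓ * s) with hu
    set c := G.k * s with hc
    have hc1 : 1 ≤ c := Nat.mul_pos G.k_pos hs
    have hgc : G.k * g ≤ c := Nat.mul_le_mul_left _ (by omega)
    have hRT : ∀ j ≤ n + 1, G.RT (n, s, M) ℓ g j = G.R g c (ltr u) j := fun j hj =>
      G.RT_eq hB hls.le (by omega) (by omega) hE1 hj
    have hcnt : ∀ j ≤ n + 1, G.cntT (n, s, M) ℓ g j =
        (G.OS g (seg (ltr u) c (j + 1)) (seg (ltr u) c j)).length := fun j hj =>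
      G.cntT_eq hB hls.le (by omega) (by omega) hE1 hj
    have hRs : ∀ j, G.R g c (ltr u) (j + 1) = G.R g c (ltr u) j +
        (G.OS g (seg (ltr u) c (j + 1)) (seg (ltr u) c j)).length := fun j => by
      unfold R
      rw [Finset.sum_range_succ]
    -- the terms
    have hterm : ∀ j ≤ n, G.lT (n, s, M) ℓ g x j =
        if G.R g c (ltr u) j ≤ x ∧ x < G.R g c (ltr u) (j + 1) then
          ltr ((G.tr 0)^[g] u) x else 0 := by
      intro j hj
      unfold lT
      simp only
      rw [hRT j (by omega), hcnt j (by omega), ← hRs]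
      by_cases h1 : G.R g c (ltr u) j ≤ x
      · by_cases h2 : x < G.R g c (ltr u) (j + 1)
        · rw [if_pos h1, if_pos h2, if_pos ⟨h1, h2⟩, ltr_iter G hc1 hgc u h1 h2]
          have h3 := (G.Top_proc hB (g := g) (by omega) (by omega)
            ((G.OS g (seg (ltr u) c (j + 1)) (seg (ltr u) c j)).length - 1 -
              (x - G.R g c (ltr u) j)) (G.inpT (n, s, M) ℓ j)).2
          rw [(G.Top_inp hB hls.le hE1 (by omega)).1, (G.Top_inp hB hls.le hE1 (by omega)).2] at h3
          exact h3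
        · rw [if_pos h1, if_neg h2, if_neg (fun h => h2 h.2)]
      · rw [if_neg h1, if_neg (fun h => h1 h.1)]
    -- the segment
    have hR0 : G.R g c (ltr u) 0 = 0 := by unfold R; simp
    have htot := G.Top_total hB (ℓ := ℓ) (g := g) (by omega) hE1
    rw [hadd] at htot
    have hxlt : x < G.E (G.T0 n s + f + 1) := by omega
    have hRn : x < G.R g c (ltr u) (n + 1) := by
      have h2 : (n + 1) * 1 ≤ (n + 1) * c := Nat.mul_le_mul_left _ hc1
      have h3 : G.R g c (ltr u) (n + 1) + G.E (G.T0 n s + ℓ * s) =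
        (n + 1) * c + G.E (G.T0 n s + f + 1) := htot
      omega
    obtain ⟨j, hj1, hj2, hj3⟩ : ∃ j ≤ n, G.R g c (ltr u) j ≤ x ∧ x < G.R g c (ltr u) (j + 1) := by
      have hex : ∃ j, x < G.R g c (ltr u) (j + 1) := ⟨n, hRn⟩
      refine ⟨Nat.find hex, Nat.find_min' hex hRn, ?_, Nat.find_spec hex⟩
      rcases Nat.eq_zero_or_pos (Nat.find hex) with h1 | h1
      · rw [h1, hR0]; exact Nat.zero_le _
      · have h2 := Nat.find_min hex (m := Nat.find hex - 1) (by omega)
        rw [Nat.sub_add_cancel h1] at h2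
        omega
    rw [Finset.sum_eq_single_of_mem j (Finset.mem_range.2 (by omega))]
    · rw [hterm j hj1, if_pos ⟨hj2, hj3⟩, hu, Top_iter, hadd]
      have h1 : x = (G.W (G.T0 n s + f + 1)).length - 1 - n := hxT
      rw [h1, ltr_left hfin]
      exact hcomm _ hfin
    · intro i hi hne
      have hi := Finset.mem_range.1 hi
      rw [hterm i (by omega), if_neg]
      rintro ⟨h1, h2⟩
      rcases lt_or_gt_of_ne hne with h3 | h3
      · have := G.R_mono (g := g) (c := c) (ltr u) (show i + 1 ≤ j from h3)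
        omega
      · have := G.R_mono (g := g) (c := c) (ltr u) (show j + 1 ≤ i from h3)
        omega

end NT

end Pool.Agent.W_5d512e_h4
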