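import Pool.Agent.W_5d512e_h4.Lev

/-!
# The letter with index `n` as a computable function of `(n, s, M)`
-/

set_option autoImplicit false

namespace Pool.Agent.W_5d512e_h4

namespace NT

variable (G : NT)

/-- input letters for the cascade on the segments `j + 1`, `j` at level `ℓ` -/
def inpT (P : Par) (ℓ j i : ℕ) : ℕ :=
  if i < G.cc P then G.cd.TV (P, 2 * ℓ, j + 1, G.cc P - 1 - i)
  else G.cd.TV (P, 2 * ℓ, j, 2 * G.cc P - 1 - i)

/-- length of the image of segment `j` after `g` generations -/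
def cntT (P : Par) (ℓ g j : ℕ) : ℕ := (G.proc P.2.2 g (G.cc P) 0 (G.inpT P ℓ j)).2.1

/-- length of the image of the last `j` segments -/
def RT (P : Par) (ℓ g j : ℕ) : ℕ := ∑ i ∈ Finset.range j, G.cntT P ℓ g i

/-- number of letters of the iterate number `t0 + ℓ * s` -/
def ET (P : Par) (ℓ : ℕ) : ℕ :=
  itr (G.e0c P.2.2 P.1 P.2.1)
    (fun acc i => min P.2.2 (G.RT P i P.2.1 (P.1 + 1) + acc - (P.1 + 1) * G.cc P)) ℓ

/-- number of letters of the iterate number `t0 + ℓ * s + g` -/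
def EN (P : Par) (ℓ g : ℕ) : ℕ := G.RT P ℓ g (P.1 + 1) + G.ET P ℓ - (P.1 + 1) * G.cc P

/-- the first `i < s ^ 2` such that the iterate number `t0 + i + 1` has more than `n` letters -/
def fi (P : Par) : ℕ :=
  fnd (P.2.1 * P.2.1) fun i => if P.1 < G.EN P (i / P.2.1) (i % P.2.1 + 1) then 1 else 0

/-- the test -/
def PT (P : Par) : ℕ :=
  if P.2.1 = 0 then 0 else if P.1 < G.e0c P.2.2 P.1 P.2.1 then 1
  else if G.fi P < P.2.1 * P.2.1 then 1 else 0

/-- position from the right in the iterate number `t0 + fi + 1` -/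
def xT (P : Par) : ℕ := G.EN P (G.fi P / P.2.1) (G.fi P % P.2.1 + 1) - 1 - P.1

/-- contribution of segment `j` -/
def lT (P : Par) (ℓ g x j : ℕ) : ℕ :=
  if G.RT P ℓ g j ≤ x then
    (if x < G.RT P ℓ g j + G.cntT P ℓ g j then
      (G.proc P.2.2 g (G.cc P) (G.cntT P ℓ g j - 1 - (x - G.RT P ℓ g j)) (G.inpT P ℓ j)).2.2.1
    else 0)
  else 0

/-- the letter with index `n`, minus `2` -/
def FT (P : Par) : ℕ :=
  (if P.1 < G.e0c P.2.2 P.1 P.2.1 then G.bas P.2.2 P.1 P.2.1 (G.e0c P.2.2 P.1 P.2.1 - 1 - P.1)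
  else ∑ j ∈ Finset.range (P.1 + 1), G.lT P (G.fi P / P.2.1) (G.fi P % P.2.1 + 1) (G.xT P) j) - 2

variable {α : Type} [Inp α]

@[fun_prop] theorem TopD_cc {P : α → Par} (hP : LF P) : LF fun a => G.cc (P a) := by
  unfold cc
  fun_prop

@[fun_prop] theorem TopD_inpT {P : α → Par} {l j i : α → ℕ} (hP : LF P) (hl : LF l) (hj : LF j)
    (hi : LF i) : LF fun a => G.inpT (P a) (l a) (j a) (i a) := by
  have hTV := G.cd.LF_TV G.cd_cpt
  unfold inpT
  refine LF.ite_lt hi (G.TopD_cc hP) ?_ ?_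
  · exact hTV.comp (by fun_prop)
  · exact hTV.comp (by fun_prop)

@[fun_prop] theorem TopD_cntT {P : α → Par} {l g j : α → ℕ} (hP : LF P) (hl : LF l) (hg : LF g)
    (hj : LF j) : LF fun a => G.cntT (P a) (l a) (g a) (j a) := by
  unfold cntT
  have h := G.LF_proc (M := fun a => (P a).2.2) (g := g) (c := fun a => G.cc (P a))
    (pp := fun _ => 0) (inp := fun a => G.inpT (P a) (l a) (j a)) (by fun_prop) hg (by fun_prop)
    (by fun_prop) (by fun_prop)
  exact h.snd.fst

@[fun_prop] theorem TopD_RT {P : α → Par} {l g j : α → ℕ} (hP : LF P) (hl : LF l) (hg : LF g)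
    (hj : LF j) : LF fun a => G.RT (P a) (l a) (g a) (j a) := by
  unfold RT
  exact LF.sum hj (by fun_prop)

@[fun_prop] theorem TopD_e0c {P : α → Par} (hP : LF P) :
    LF fun a => G.e0c (P a).2.2 (P a).1 (P a).2.1 :=
  G.LF_e0c (by fun_prop) (by fun_prop) (by fun_prop)

theorem TopD_ET_le (P : Par) (i : ℕ) :
    itr (G.e0c P.2.2 P.1 P.2.1)
    (fun acc i => min P.2.2 (G.RT P i P.2.1 (P.1 + 1) + acc - (P.1 + 1) * G.cc P)) i ≤
      G.e0c P.2.2 P.1 P.2.1 + P.2.2 := by
  cases i with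
  | zero => exact Nat.le_add_right _ _
  | succ i => exact (min_le_left _ _).trans (Nat.le_add_left _ _)

@[fun_prop] theorem TopD_ET {P : α → Par} {l : α → ℕ} (hP : LF P) (hl : LF l) :
    LF fun a => G.ET (P a) (l a) := by
  unfold ET
  refine LF.itr_le (n := l) (g := fun a => G.e0c (P a).2.2 (P a).1 (P a).2.1)
    (h := fun a acc i => min (P a).2.2 (G.RT (P a) i (P a).2.1 ((P a).1 + 1) + acc -
      ((P a).1 + 1) * G.cc (P a))) (b := fun a => G.e0c (P a).2.2 (P a).1 (P a).2.1 + (P a).2.2)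
    hl (by fun_prop) (by fun_prop) (by fun_prop) ?_
  intro a i _
  rw [size_nat]
  exact G.TopD_ET_le (P a) i

@[fun_prop] theorem TopD_EN {P : α → Par} {l g : α → ℕ} (hP : LF P) (hl : LF l) (hg : LF g) :
    LF fun a => G.EN (P a) (l a) (g a) := by
  unfold EN
  fun_prop

@[fun_prop] theorem TopD_fi {P : α → Par} (hP : LF P) : LF fun a => G.fi (P a) := by
  unfold fi
  exact LF.fnd (by fun_prop) (by fun_prop)

@[fun_prop] theorem TopD_xT {P : α → Par} (hP : LF P) : LF fun a => G.xT (P a) := by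
  unfold xT
  fun_prop

@[fun_prop] theorem TopD_lT {P : α → Par} {l g x j : α → ℕ} (hP : LF P) (hl : LF l) (hg : LF g)
    (hx : LF x) (hj : LF j) : LF fun a => G.lT (P a) (l a) (g a) (x a) (j a) := by
  unfold lT
  refine LF.ite_le (by fun_prop) hx (LF.ite_lt hx (by fun_prop) ?_ (by fun_prop)) (by fun_prop)
  have h := G.LF_proc (M := fun a => (P a).2.2) (g := g) (c := fun a => G.cc (P a))
    (pp := fun a => G.cntT (P a) (l a) (g a) (j a) - 1 - (x a - G.RT (P a) (l a) (g a) (j a)))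
    (inp := fun a => G.inpT (P a) (l a) (j a)) (by fun_prop) hg (by fun_prop)
    (by fun_prop) (by fun_prop)
  exact h.snd.snd.fst

theorem LF_cntT : LF fun p : Par × ℕ × ℕ × ℕ => G.cntT p.1 p.2.1 p.2.2.1 p.2.2.2 := by
  fun_prop

theorem LF_PT : LF G.PT := by
  have h : LF fun P : Par => G.PT P := by
    unfold PT
    fun_prop
  exact h

theorem LF_FT : LF G.FT := by
  have h : LF fun P : Par => G.FT P := by
    unfold FT
    refine LF.sub (LF.ite_lt (by fun_prop) (by fun_prop) ?_ ?_) (by fun_prop)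
    · exact G.LF_bas (by fun_prop) (by fun_prop) (by fun_prop) (by fun_prop)
    · exact LF.sum (by fun_prop) (by fun_prop)
  exact h

end NT

end Pool.Agent.W_5d512e_h4
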