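import Pool.Agent.W_5d512e_h4.Ext

/-!
# Tree evaluation with borrowed registers (after Cook and Mertz)

Values are vectors of `c` elements of `ZMod q`; the value of a node of level `d + 1` is a sum of
`I` terms, each a function `ex` of the values of three nodes of level `d`.  There are four
registers, register `a` at the positions `a * c + s`, `s < c`, of a state `ρ : ℕ → ZMod q`.  The
schedule `act d u t g τ` (level, node, target register, sign, time `τ < K ^ d`) adds `g` times the
value of the node `u` to register `t` and restores the other registers.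
-/

set_option autoImplicit false

namespace Pool.Agent.W_5d512e_h4

/-- the data -/
structure TD (q : ℕ) where
  /-- length of the vectors -/
  c : ℕ
  /-- number of terms -/
  I : ℕ
  /-- values of level `0`: node, position -/
  base : ℕ → ℕ → ZMod q
  /-- children: level, node, term, number of the child (`< 3`) -/
  ch : ℕ → ℕ → ℕ → ℕ → ℕ
  /-- the functions: level, node, term, position, values of the children (child `a` at the
  positions `a * c + s`) -/
  ex : ℕ → ℕ → ℕ → ℕ → (ℕ → ZMod q) → ZMod q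
  /-- only the positions `< 3 * c` matter -/
  loc : ∀ (d u i s : ℕ) (y y' : ℕ → ZMod q), (∀ l < 3 * c, y l = y' l) →
    ex d u i s y = ex d u i s y'
  /-- the identity of low degree polynomials -/
  low : ∀ (d u i s : ℕ) (ρ v : ℕ → ZMod q), ∑ z ∈ Finset.range (q - 1),
    ex d u i s (fun l => ((z + 1 : ℕ) : ZMod q) * ρ l + v l) = - ex d u i s v

namespace TD

variable {q : ℕ} (T : TD q)

/-- the values -/
def V : ℕ → ℕ → ℕ → ZMod q
  | 0, u, s => T.base u s
  | d + 1, u, s => ∑ i ∈ Finset.range T.I,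
      T.ex d u i s fun l => V d (T.ch d u i (l / T.c)) (l % T.c)

/-- the `p`-th register different from `t` -/
def reg (t p : ℕ) : ℕ := (t + 1 + p) % 4

/-- add the vector `x` to register `t` -/
def addv (t : ℕ) (x : ℕ → ZMod q) (ρ : ℕ → ZMod q) : ℕ → ZMod q :=
  fun l => if t * T.c ≤ l ∧ l < t * T.c + T.c then ρ l + x (l - t * T.c) else ρ l

/-- multiply the registers different from `t` by `z` -/
def scale (t : ℕ) (z : ZMod q) (ρ : ℕ → ZMod q) : ℕ → ZMod q :=
  fun l => if t * T.c ≤ l ∧ l < t * T.c + T.c then ρ l else z * ρ l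

/-- subtract `g` times the `i`-th term, evaluated at the other three registers, from register
`t` -/
def updt (d u i t g : ℕ) (ρ : ℕ → ZMod q) : ℕ → ZMod q :=
  T.addv t (fun s => - (g : ZMod q) *
    T.ex d u i s fun l => ρ (reg t (l / T.c) * T.c + l % T.c)) ρ

/-- number of parts of a step -/
def K : ℕ := 9 * (q - 1) * T.I

/-- the action at time `τ` of the schedule for (level, node `u`, target `t`, sign `g`); the sign
`-1` is the number `q - 1` -/
noncomputable def act : ℕ → ℕ → ℕ → ℕ → ℕ → (ℕ → ZMod q) → ℕ → ZMod q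
  | 0, u, t, g, _, ρ => T.addv t (fun s => (g : ZMod q) * T.base u s) ρ
  | d + 1, u, t, g, τ, ρ =>
    let a := τ / T.K ^ d
    let b := τ % T.K ^ d
    let i := a / (9 * (q - 1))
    let z := a / 9 % (q - 1) + 1
    let p := a % 9
    if p = 0 then (if b = 0 then T.scale t z ρ else ρ)
    else if p < 4 then act d (T.ch d u i (p - 1)) (reg t (p - 1)) 1 b ρ
    else if p = 4 then (if b = 0 then T.updt d u i t g ρ else ρ)
    else if p < 8 then act d (T.ch d u i (p - 5)) (reg t (p - 5)) (q - 1) b ρ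
    else (if b = 0 then T.scale t (z : ZMod q)⁻¹ ρ else ρ)

/-- the run of the schedule -/
noncomputable def run (d u t g : ℕ) (ρ : ℕ → ZMod q) : ℕ → ZMod q :=
  itr ρ (fun ρ τ => T.act d u t g τ ρ) (T.K ^ d)

lemma Tree_itr_add {β : Type} (g : β) (h : β → ℕ → β) (a b : ℕ) :
    itr g h (a + b) = itr (itr g h a) (fun x i => h x (a + i)) b := by
  induction b with
  | zero => rfl
  | succ b ih =>
    change h (itr g h (a + b)) (a + b) = h (itr (itr g h a) (fun x i => h x (a + i)) b) (a + b)
    rw [ih]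

lemma Tree_itr_congr {β : Type} (g : β) {h h' : β → ℕ → β} {n : ℕ}
    (H : ∀ x, ∀ i < n, h x i = h' x i) : itr g h n = itr g h' n := by
  induction n with
  | zero => rfl
  | succ n ih =>
    change h (itr g h n) n = h' (itr g h' n) n
    rw [ih fun x i hi => H x i (by omega), H _ n (by omega)]

lemma Tree_itr_mul {β : Type} (g : β) (h : β → ℕ → β) (A B : ℕ) :
    itr g h (A * B) = itr g (fun x a => itr x (fun y b => h y (a * B + b)) B) A := by
  induction A with
  | zero => rw [Nat.zero_mul]; rfl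
  | succ A ih =>
    rw [Nat.add_mul, Nat.one_mul, Tree_itr_add, ih]
    rfl

lemma Tree_itr_first {β : Type} (f : β → β) (x : β) {n : ℕ} (hn : 1 ≤ n) :
    itr x (fun y b => if b = 0 then f y else y) n = f x := by
  induction n with
  | zero => omega
  | succ n ih =>
    rcases Nat.eq_zero_or_pos n with rfl | h
    · rfl
    · change (if n = 0 then f _ else itr x (fun y b => if b = 0 then f y else y) n) = f x
      rw [if_neg (by omega), ih h]

lemma Tree_addv_zero (t : ℕ) (x : ℕ → ZMod q) (ρ : ℕ → ZMod q) (hx : ∀ s, x s = 0) :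
    T.addv t x ρ = ρ := by
  funext l
  simp only [addv, hx, add_zero, ite_self]

lemma Tree_addv_add (t : ℕ) (x y : ℕ → ZMod q) (ρ : ℕ → ZMod q) :
    T.addv t x (T.addv t y ρ) = T.addv t (fun s => y s + x s) ρ := by
  funext l
  simp only [addv]
  split_ifs
  · ring
  · rfl

lemma Tree_itr_addv (t : ℕ) (W : ℕ → (ℕ → ZMod q) → ℕ → ZMod q)
    (hW : ∀ i w y, W i (T.addv t w y) = W i y) (x : ℕ → ZMod q) (n : ℕ) :
    itr x (fun y i => T.addv t (W i y) y) n =
      T.addv t (fun s => ∑ i ∈ Finset.range n, W i x s) x := by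
  induction n with
  | zero =>
    symm
    exact T.Tree_addv_zero t _ x fun s => by rw [Finset.sum_range_zero]
  | succ n ih =>
    change T.addv t (W n (itr x (fun y i => T.addv t (W i y) y) n))
      (itr x (fun y i => T.addv t (W i y) y) n) = _
    rw [ih, hW, T.Tree_addv_add]
    congr 1
    funext s
    rw [Finset.sum_range_succ]

/-- the part of `addv` that is added -/
def Tree_ind (t : ℕ) (x : ℕ → ZMod q) (l : ℕ) : ZMod q :=
  if t * T.c ≤ l ∧ l < t * T.c + T.c then x (l - t * T.c) else 0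

lemma Tree_addv_apply (t : ℕ) (x ρ : ℕ → ZMod q) (l : ℕ) :
    T.addv t x ρ l = ρ l + T.Tree_ind t x l := by
  simp only [addv, Tree_ind]
  split_ifs
  · rfl
  · rw [add_zero]

lemma Tree_ind_neg (t : ℕ) (x : ℕ → ZMod q) (l : ℕ) :
    T.Tree_ind t (fun s => - x s) l = - T.Tree_ind t x l := by
  simp only [Tree_ind]
  split_ifs
  · rfl
  · rw [neg_zero]

lemma Tree_ind_reg (t r : ℕ) (x : ℕ → ZMod q) {s : ℕ} (hs : s < T.c) :
    T.Tree_ind t x (r * T.c + s) = if t = r then x s else 0 := by
  simp only [Tree_ind]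
  by_cases h : t = r
  · subst h
    rw [if_pos ⟨by omega, by omega⟩, if_pos rfl]
    congr 1
    omega
  · rw [if_neg h, if_neg]
    rintro ⟨h1, h2⟩
    rcases Nat.lt_or_gt_of_ne h with h3 | h3
    · have : (t + 1) * T.c ≤ r * T.c := Nat.mul_le_mul_right _ h3
      rw [Nat.add_mul, Nat.one_mul] at this
      omega
    · have : (r + 1) * T.c ≤ t * T.c := Nat.mul_le_mul_right _ h3
      rw [Nat.add_mul, Nat.one_mul] at this
      omega

/-- contents of the other registers -/
def Tree_oth (t : ℕ) (x : ℕ → ZMod q) (l : ℕ) : ZMod q := x (reg t (l / T.c) * T.c + l % T.c)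

lemma Tree_reg_ne {t p : ℕ} (_ht : t < 4) (hp : p < 3) : reg t p ≠ t := by
  unfold reg
  omega

lemma Tree_reg_inj {t p p' : ℕ} (hp : p < 3) (hp' : p' < 3) (h : reg t p = reg t p') :
    p = p' := by
  unfold reg at h
  omega

lemma Tree_oth_addv {t : ℕ} (hc : 1 ≤ T.c) (ht : t < 4) (w x : ℕ → ZMod q) {l : ℕ}
    (hl : l < 3 * T.c) : T.Tree_oth t (T.addv t w x) l = T.Tree_oth t x l := by
  have h1 : l / T.c < 3 := by
    rw [Nat.div_lt_iff_lt_mul (by omega)]
    exact hl
  unfold Tree_oth
  rw [T.Tree_addv_apply, T.Tree_ind_reg _ _ _ (Nat.mod_lt _ (by omega)),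
    if_neg (Tree_reg_ne ht h1).symm, add_zero]

/-- value of the children -/
noncomputable def Tree_cv (d u i l : ℕ) : ZMod q := T.V d (T.ch d u i (l / T.c)) (l % T.c)

/-- the state after a block -/
noncomputable def Tree_blk (d u t g a : ℕ) (x : ℕ → ZMod q) : ℕ → ZMod q :=
  let i := a / (9 * (q - 1))
  let z := a / 9 % (q - 1) + 1
  let p := a % 9
  if p = 0 then T.scale t z x
  else if p < 4 then T.run d (T.ch d u i (p - 1)) (reg t (p - 1)) 1 x
  else if p = 4 then T.updt d u i t g x
  else if p < 8 then T.run d (T.ch d u i (p - 5)) (reg t (p - 5)) (q - 1) x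
  else T.scale t (z : ZMod q)⁻¹ x

lemma Tree_block (d u t g : ℕ) {a : ℕ} (ha : a < T.K) (x : ℕ → ZMod q) :
    itr x (fun y b => T.act (d + 1) u t g (a * T.K ^ d + b) y) (T.K ^ d) =
      T.Tree_blk d u t g a x := by
  have hK : 1 ≤ T.K ^ d := Nat.one_le_pow _ _ (by omega)
  have e1 : ∀ b < T.K ^ d, (a * T.K ^ d + b) / T.K ^ d = a := by
    intro b hb
    rw [Nat.add_comm, Nat.add_mul_div_right _ _ (by omega), Nat.div_eq_of_lt hb, Nat.zero_add]
  have e2 : ∀ b < T.K ^ d, (a * T.K ^ d + b) % T.K ^ d = b := by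
    intro b hb
    rw [Nat.add_comm, Nat.add_mul_mod_self_right, Nat.mod_eq_of_lt hb]
  unfold Tree_blk
  simp only
  split_ifs with h1 h2 h3 h4
  · rw [← Tree_itr_first (fun y => T.scale t ((a / 9 % (q - 1) + 1 : ℕ) : ZMod q) y) x hK]
    refine Tree_itr_congr _ fun y b hb => ?_
    simp only [act, e1 b hb, e2 b hb]
    rw [if_pos h1]
  · unfold run
    refine Tree_itr_congr _ fun y b hb => ?_
    simp only [act, e1 b hb, e2 b hb]
    rw [if_neg h1, if_pos h2]
  · rw [← Tree_itr_first (fun y => T.updt d u (a / (9 * (q - 1))) t g y) x hK]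
    refine Tree_itr_congr _ fun y b hb => ?_
    simp only [act, e1 b hb, e2 b hb]
    rw [if_neg h1, if_neg h2, if_pos h3]
  · unfold run
    refine Tree_itr_congr _ fun y b hb => ?_
    simp only [act, e1 b hb, e2 b hb]
    rw [if_neg h1, if_neg h2, if_neg h3, if_pos h4]
  · rw [← Tree_itr_first (fun y => T.scale t ((a / 9 % (q - 1) + 1 : ℕ) : ZMod q)⁻¹ y) x hK]
    refine Tree_itr_congr _ fun y b hb => ?_
    simp only [act, e1 b hb, e2 b hb]
    rw [if_neg h1, if_neg h2, if_neg h3, if_neg h4]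

/-- nine consecutive blocks -/
lemma Tree_nine [Fact q.Prime] (hc : 1 ≤ T.c) (d u t g i z : ℕ) (ht : t < 4) (hz : z < q - 1)
    (ih : ∀ u t g, t < 4 → ∀ ρ : ℕ → ZMod q,
      T.run d u t g ρ = T.addv t (fun s => (g : ZMod q) * T.V d u s) ρ) (x : ℕ → ZMod q) :
    itr x (fun y p => T.Tree_blk d u t g (i * ((q - 1) * 9) + (z * 9 + p)) y) 9 =
      T.addv t (fun s => - (g : ZMod q) * T.ex d u i s
        fun l => ((z + 1 : ℕ) : ZMod q) * T.Tree_oth t x l + T.Tree_cv d u i l) x := by
  have hq : 0 < q - 1 := by omega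
  have e1 : ∀ p < 9, (i * ((q - 1) * 9) + (z * 9 + p)) / (9 * (q - 1)) = i := by
    intro p hp
    rw [Nat.mul_comm 9 (q - 1), Nat.add_comm, Nat.add_mul_div_right _ _ (by positivity),
      Nat.div_eq_of_lt, Nat.zero_add]
    omega
  have e2 : ∀ p < 9, (i * ((q - 1) * 9) + (z * 9 + p)) / 9 % (q - 1) + 1 = z + 1 := by
    intro p hp
    have : (i * ((q - 1) * 9) + (z * 9 + p)) / 9 = z + i * (q - 1) := by
      have h : i * ((q - 1) * 9) = (i * (q - 1)) * 9 := by ring
      rw [h]
      omega
    rw [this, Nat.add_mul_mod_self_right, Nat.mod_eq_of_lt hz]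
  have e3 : ∀ p < 9, (i * ((q - 1) * 9) + (z * 9 + p)) % 9 = p := by
    intro p hp
    have h : i * ((q - 1) * 9) = (i * (q - 1)) * 9 := by ring
    rw [h]
    omega
  have hz0 : ((z + 1 : ℕ) : ZMod q) ≠ 0 := by
    rw [Ne, ZMod.natCast_eq_zero_iff]
    intro h
    have := Nat.le_of_dvd (by omega) h
    omega
  have hm1 : ((q - 1 : ℕ) : ZMod q) = -1 := by
    rw [Nat.cast_sub (by omega), ZMod.natCast_self, Nat.cast_one, zero_sub]
  have hr : ∀ p, reg t p < 4 := fun p => Nat.mod_lt _ (by norm_num)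
  change T.Tree_blk d u t g _ (T.Tree_blk d u t g _ (T.Tree_blk d u t g _
    (T.Tree_blk d u t g _ (T.Tree_blk d u t g _ (T.Tree_blk d u t g _ (T.Tree_blk d u t g _
    (T.Tree_blk d u t g _ (T.Tree_blk d u t g _ x)))))))) = _
  have b0 : ∀ y, T.Tree_blk d u t g (i * ((q - 1) * 9) + (z * 9 + 0)) y =
      T.scale t ((z + 1 : ℕ) : ZMod q) y := by
    intro y
    simp only [Tree_blk, e1 0 (by norm_num), e2 0 (by norm_num), e3 0 (by norm_num), if_true]
  have b1 : ∀ p, p < 3 → ∀ y, T.Tree_blk d u t g (i * ((q - 1) * 9) + (z * 9 + (p + 1))) y =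
      T.addv (reg t p) (T.V d (T.ch d u i p)) y := by
    intro p hp y
    simp only [Tree_blk, e1 (p + 1) (by omega), e2 (p + 1) (by omega), e3 (p + 1) (by omega)]
    rw [if_neg (by omega), if_pos (by omega), Nat.add_sub_cancel, ih _ _ _ (hr _)]
    congr 1
    funext s
    rw [Nat.cast_one, one_mul]
  have b4 : ∀ y, T.Tree_blk d u t g (i * ((q - 1) * 9) + (z * 9 + 4)) y =
      T.updt d u i t g y := by
    intro y
    simp only [Tree_blk, e1 4 (by norm_num), e2 4 (by norm_num), e3 4 (by norm_num)]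
    rw [if_neg (by norm_num), if_neg (by norm_num), if_pos trivial]
  have b5 : ∀ p, p < 3 → ∀ y, T.Tree_blk d u t g (i * ((q - 1) * 9) + (z * 9 + (p + 5))) y =
      T.addv (reg t p) (fun s => - T.V d (T.ch d u i p) s) y := by
    intro p hp y
    simp only [Tree_blk, e1 (p + 5) (by omega), e2 (p + 5) (by omega), e3 (p + 5) (by omega)]
    rw [if_neg (by omega), if_neg (by omega), if_neg (by omega), if_pos (by omega),
      Nat.add_sub_cancel, ih _ _ _ (hr _)]
    congr 1
    funext s
    rw [hm1, neg_one_mul]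
  have b8 : ∀ y, T.Tree_blk d u t g (i * ((q - 1) * 9) + (z * 9 + 8)) y =
      T.scale t ((z + 1 : ℕ) : ZMod q)⁻¹ y := by
    intro y
    simp only [Tree_blk, e1 8 (by norm_num), e2 8 (by norm_num), e3 8 (by norm_num)]
    rw [if_neg (by norm_num), if_neg (by norm_num), if_neg (by norm_num), if_neg (by norm_num)]
  rw [b8, b5 2 (by norm_num), b5 1 (by norm_num), b5 0 (by norm_num), b4, b1 2 (by norm_num),
    b1 1 (by norm_num), b1 0 (by norm_num), b0]
  have hw : ∀ s, (- (g : ZMod q) * T.ex d u i s fun l =>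
      T.addv (reg t 2) (T.V d (T.ch d u i 2)) (T.addv (reg t 1) (T.V d (T.ch d u i 1))
        (T.addv (reg t 0) (T.V d (T.ch d u i 0)) (T.scale t ((z + 1 : ℕ) : ZMod q) x)))
        (reg t (l / T.c) * T.c + l % T.c)) =
      - (g : ZMod q) * T.ex d u i s
        fun l => ((z + 1 : ℕ) : ZMod q) * T.Tree_oth t x l + T.Tree_cv d u i l := by
    intro s
    congr 1
    refine T.loc _ _ _ _ _ _ fun l hl => ?_
    have h1 : l / T.c < 3 := by
      rw [Nat.div_lt_iff_lt_mul (by omega)]
      exact hl
    have h2 : l % T.c < T.c := Nat.mod_lt _ (by omega)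
    simp only [T.Tree_addv_apply, T.Tree_ind_reg _ _ _ h2]
    have h3 : T.scale t ((z + 1 : ℕ) : ZMod q) x (reg t (l / T.c) * T.c + l % T.c) =
        ((z + 1 : ℕ) : ZMod q) * T.Tree_oth t x l := by
      unfold scale
      rw [if_neg]
      · rfl
      · rintro ⟨h4, h5⟩
        have h6 := T.Tree_ind_reg t (reg t (l / T.c)) (fun _ => (1 : ZMod q)) h2
        rw [if_neg (Tree_reg_ne ht h1).symm] at h6
        unfold Tree_ind at h6
        rw [if_pos ⟨h4, h5⟩] at h6
        exact one_ne_zero h6
    rw [h3]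
    unfold Tree_cv
    generalize l / T.c = a at h1 ⊢
    have hrr : ∀ p p' : ℕ, p < 3 → p' < 3 → (reg t p = reg t p' ↔ p = p') :=
      fun p p' hp hp' => ⟨Tree_reg_inj hp hp', fun h => by rw [h]⟩
    interval_cases a
    · rw [if_pos rfl, if_neg (by rw [hrr] <;> norm_num), if_neg (by rw [hrr] <;> norm_num)]
      ring
    · rw [if_pos rfl, if_neg (by rw [hrr] <;> norm_num), if_neg (by rw [hrr] <;> norm_num)]
      ring
    · rw [if_pos rfl, if_neg (by rw [hrr] <;> norm_num), if_neg (by rw [hrr] <;> norm_num)]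
      ring
  funext l
  unfold updt
  simp only [hw]
  rw [T.Tree_addv_apply t]
  unfold scale
  simp only [T.Tree_addv_apply, T.Tree_ind_neg]
  by_cases hl : t * T.c ≤ l ∧ l < t * T.c + T.c
  · rw [if_pos hl, if_pos hl]
    ring
  · rw [if_neg hl, if_neg hl]
    have h0 : ∀ w, T.Tree_ind t w l = 0 := fun w => by
      unfold Tree_ind
      rw [if_neg hl]
    rw [h0]
    field_simp
    ring

/-- **the schedule computes the value**: by induction on `d`.  The `K ^ (d + 1)` steps are `K`
blocks of `K ^ d` steps; nine consecutive blocks (fixed `i`, `z`) subtract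
`g * ex d u i s (z ρ' + v)` from register `t`, `ρ'` = contents of the other registers, `v` = values
of the children, and change nothing else; `low` sums over `z`. -/
theorem run_eq [Fact q.Prime] (hc : 1 ≤ T.c) (d u t g : ℕ) (ht : t < 4) (ρ : ℕ → ZMod q) :
    T.run d u t g ρ = T.addv t (fun s => (g : ZMod q) * T.V d u s) ρ := by
  induction d generalizing u t g ρ with
  | zero => rfl
  | succ d ih =>
    unfold run
    rw [pow_succ', Tree_itr_mul]
    rw [Tree_itr_congr (h' := fun x a => T.Tree_blk d u t g a x) _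
      fun x a ha => T.Tree_block d u t g ha x]
    have hK : T.K = T.I * ((q - 1) * 9) := by
      unfold K
      ring
    rw [hK, Tree_itr_mul]
    have hinner : ∀ i x, itr x (fun y a => T.Tree_blk d u t g (i * ((q - 1) * 9) + a) y)
        ((q - 1) * 9) = T.addv t (fun s => (g : ZMod q) * T.ex d u i s
          fun l => T.V d (T.ch d u i (l / T.c)) (l % T.c)) x := by
      intro i x
      rw [Tree_itr_mul]
      rw [Tree_itr_congr (h' := fun y z => T.addv t ((fun z y s => - (g : ZMod q) * T.ex d u i s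
        fun l => ((z + 1 : ℕ) : ZMod q) * T.Tree_oth t y l + T.Tree_cv d u i l) z y) y) _
        fun y z hz => T.Tree_nine hc d u t g i z ht hz (fun u t g ht ρ => ih u t g ht ρ) y]
      rw [T.Tree_itr_addv]
      · congr 1
        funext s
        rw [← Finset.mul_sum, T.low]
        unfold Tree_cv
        ring
      · intro z w y
        funext s
        congr 1
        refine T.loc _ _ _ _ _ _ fun l hl => ?_
        rw [T.Tree_oth_addv hc ht w y hl]
    rw [Tree_itr_congr (h' := fun y i => T.addv t ((fun i _ s => (g : ZMod q) * T.ex d u i s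
      fun l => T.V d (T.ch d u i (l / T.c)) (l % T.c)) i y) y) _ fun y i _ => hinner i y]
    rw [T.Tree_itr_addv]
    · congr 1
      funext s
      rw [← Finset.mul_sum]
      rfl
    · intro i w y
      rfl

/-- the value from the run with all registers zero -/
theorem run_zero [Fact q.Prime] (hc : 1 ≤ T.c) (d u s : ℕ) (hs : s < T.c) :
    T.run d u 0 1 (fun _ => 0) s = T.V d u s := by
  rw [T.run_eq hc d u 0 1 (by norm_num)]
  simp [addv, hs]

end TD

end Pool.Agent.W_5d512e_h4
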