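import Pool.Agent.W_5d512e_h4.TreeOp

/-!
# Decoding of the schedule: which operation is performed at time `τ`

`act` of `Tree.lean` is a recursion on the level; here it is an iteration on tuples (mode, level,
node, target, sign, time, term, factor), mode `0` = descend, `1` = nothing, `2` = scale,
`3` = subtract the term.
-/

set_option autoImplicit false

namespace Pool.Agent.W_5d512e_h4

abbrev DS := ℕ × ℕ × ℕ × ℕ × ℕ × ℕ × ℕ × ℕ

/-- one level down, from level `d + 1`; `a`, `b` = quotient and remainder of the time -/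
def dnode (q : ℕ) (ch : ℕ → ℕ → ℕ → ℕ → ℕ) (d u t g a b : ℕ) : DS :=
  if a % 9 = 0 then (if b = 0 then 2 else 1, d, u, t, g, 0, 0, a / 9 % (q - 1) + 1)
  else if a % 9 < 4 then
    (0, d, ch d u (a / (9 * (q - 1))) (a % 9 - 1), TD.reg t (a % 9 - 1), 1, b, 0, 0)
  else if a % 9 = 4 then (if b = 0 then 3 else 1, d, u, t, g, 0, a / (9 * (q - 1)), 0)
  else if a % 9 < 8 then
    (0, d, ch d u (a / (9 * (q - 1))) (a % 9 - 5), TD.reg t (a % 9 - 5), q - 1, b, 0, 0)
  else (if b = 0 then 2 else 1, d, u, t, g, 0, 0, minv q (a / 9 % (q - 1) + 1))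

/-- one step of the decoding -/
def dstep (q M K : ℕ) (ch : ℕ → ℕ → ℕ → ℕ → ℕ) (x : DS) : DS :=
  if x.1 = 0 then
    (if 0 < x.2.1 then
      dnode q ch (x.2.1 - 1) x.2.2.1 x.2.2.2.1 x.2.2.2.2.1
        (x.2.2.2.2.2.1 / tpow M K (x.2.1 - 1)) (x.2.2.2.2.2.1 % tpow M K (x.2.1 - 1))
    else x)
  else x

/-- the decoding, `D` levels -/
def dec (q M K D : ℕ) (ch : ℕ → ℕ → ℕ → ℕ → ℕ) (x : DS) : DS :=
  itr x (fun y _ => dstep q M K ch y) D

theorem TreeDec_itr {β : Type} (f : β → β) (x : β) (n : ℕ) :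
    itr x (fun y _ => f y) (n + 1) = itr (f x) (fun y _ => f y) n := by
  induction n with
  | zero => rfl
  | succ n ih =>
    show f (itr x (fun y _ => f y) (n + 1)) = f (itr (f x) (fun y _ => f y) n)
    rw [ih]

theorem TreeDec_fix (q M K : ℕ) (ch : ℕ → ℕ → ℕ → ℕ → ℕ) (x : DS) (hx : x.1 ≠ 0) (n : ℕ) :
    dec q M K n ch x = x := by
  unfold dec
  induction n with
  | zero => rfl
  | succ n ih =>
    show dstep q M K ch (itr x (fun y _ => dstep q M K ch y) n) = x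
    rw [ih]
    unfold dstep
    rw [if_neg hx]

theorem TreeDec_succ (q M K : ℕ) (ch : ℕ → ℕ → ℕ → ℕ → ℕ) (d u t g τ : ℕ)
    (hM : tpow M K d = K ^ d) :
    dec q M K (d + 1) ch (0, d + 1, u, t, g, τ, 0, 0) =
      dec q M K d ch (dnode q ch d u t g (τ / K ^ d) (τ % K ^ d)) := by
  unfold dec
  rw [TreeDec_itr]
  congr 1
  unfold dstep
  simp only [if_true, Nat.add_sub_cancel, hM]
  rw [if_pos (Nat.succ_pos d)]

namespace TD

variable {q : ℕ} (T : TD q)

/-- the operation given by a tuple -/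
noncomputable def exm (x : DS) (ρ : ℕ → ZMod q) : ℕ → ZMod q :=
  if x.1 = 0 then T.addv x.2.2.2.1 (fun s => (x.2.2.2.2.1 : ZMod q) * T.base x.2.2.1 s) ρ
  else if x.1 = 1 then ρ
  else if x.1 = 2 then T.scale x.2.2.2.1 (x.2.2.2.2.2.2.2 : ZMod q) ρ
  else T.updt x.2.1 x.2.2.1 x.2.2.2.2.2.2.1 x.2.2.2.1 x.2.2.2.2.1 ρ

theorem TreeDec_aux [Fact q.Prime] {M : ℕ} (D : ℕ) :
    (∀ d < D, tpow M T.K d = T.K ^ d) → ∀ (u t g τ : ℕ) (ρ : ℕ → ZMod q),
    T.act D u t g τ ρ = T.exm (dec q M T.K D T.ch (0, D, u, t, g, τ, 0, 0)) ρ := by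
  have hq2 : 2 ≤ q := (Fact.out : q.Prime).two_le
  induction D with
  | zero =>
    intro _ u t g τ ρ
    rfl
  | succ D ih =>
    intro hM u t g τ ρ
    have ih' := ih (fun d hd => hM d (Nat.lt_succ_of_lt hd))
    rw [TreeDec_succ q M T.K T.ch D u t g τ (hM D (Nat.lt_succ_self D))]
    generalize ha : τ / T.K ^ D = a
    generalize hb : τ % T.K ^ D = b
    have hact : T.act (D + 1) u t g τ ρ =
        (if a % 9 = 0 then (if b = 0 then T.scale t ((a / 9 % (q - 1) + 1 : ℕ) : ZMod q) ρ else ρ)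
        else if a % 9 < 4 then T.act D (T.ch D u (a / (9 * (q - 1))) (a % 9 - 1))
          (reg t (a % 9 - 1)) 1 b ρ
        else if a % 9 = 4 then (if b = 0 then T.updt D u (a / (9 * (q - 1))) t g ρ else ρ)
        else if a % 9 < 8 then T.act D (T.ch D u (a / (9 * (q - 1))) (a % 9 - 5))
          (reg t (a % 9 - 5)) (q - 1) b ρ
        else (if b = 0 then T.scale t ((a / 9 % (q - 1) + 1 : ℕ) : ZMod q)⁻¹ ρ else ρ)) := by
      rw [← ha, ← hb]
      rfl
    rw [hact]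
    unfold dnode
    by_cases h0 : a % 9 = 0
    · rw [if_pos h0, if_pos h0]
      by_cases hb0 : b = 0
      · rw [if_pos hb0, if_pos hb0, TreeDec_fix _ _ _ _ _ (by norm_num)]
        simp [exm]
      · rw [if_neg hb0, if_neg hb0, TreeDec_fix _ _ _ _ _ (by norm_num)]
        simp [exm]
    · rw [if_neg h0, if_neg h0]
      by_cases h1 : a % 9 < 4
      · rw [if_pos h1, if_pos h1]
        exact ih' _ _ _ _ _
      · rw [if_neg h1, if_neg h1]
        by_cases h2 : a % 9 = 4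
        · rw [if_pos h2, if_pos h2]
          by_cases hb0 : b = 0
          · rw [if_pos hb0, if_pos hb0, TreeDec_fix _ _ _ _ _ (by norm_num)]
            simp [exm]
          · rw [if_neg hb0, if_neg hb0, TreeDec_fix _ _ _ _ _ (by norm_num)]
            simp [exm]
        · rw [if_neg h2, if_neg h2]
          by_cases h3 : a % 9 < 8
          · rw [if_pos h3, if_pos h3]
            exact ih' _ _ _ _ _
          · rw [if_neg h3, if_neg h3]
            by_cases hb0 : b = 0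
            · rw [if_pos hb0, if_pos hb0, TreeDec_fix _ _ _ _ _ (by norm_num)]
              have hz : ((a / 9 % (q - 1) + 1 : ℕ) : ZMod q) ≠ 0 := by
                intro h
                rw [ZMod.natCast_eq_zero_iff] at h
                have h4 := Nat.le_of_dvd (Nat.succ_pos _) h
                have h5 : a / 9 % (q - 1) < q - 1 := Nat.mod_lt _ (by omega)
                omega
              have hmi := minv_cast (q := q) _ hz
              unfold exm
              rw [if_neg (by norm_num), if_neg (by norm_num), if_pos rfl]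
              show _ = T.scale t ((minv q (a / 9 % (q - 1) + 1) : ℕ) : ZMod q) ρ
              rw [hmi]
            · rw [if_neg hb0, if_neg hb0, TreeDec_fix _ _ _ _ _ (by norm_num)]
              simp [exm]

/-- **the decoding is correct** -/
theorem act_eq_exm [Fact q.Prime] {M D : ℕ} (hM1 : 1 ≤ M) (hM : T.K ^ D ≤ M) (u t g τ : ℕ)
    (ρ : ℕ → ZMod q) :
    T.act D u t g τ ρ = T.exm (dec q M T.K D T.ch (0, D, u, t, g, τ, 0, 0)) ρ := by
  apply TreeDec_aux
  intro d hd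
  apply tpow_eq
  rcases Nat.eq_zero_or_pos T.K with hK | hK
  · rw [hK]
    rcases Nat.eq_zero_or_pos d with h0 | h0
    · rw [h0, pow_zero]
      exact hM1
    · rw [zero_pow (by omega)]
      exact Nat.zero_le _
  · exact le_trans (Nat.pow_le_pow_right hK hd.le) hM

theorem TreeDec_reg_lt (t p : ℕ) : TD.reg t p < 4 := Nat.mod_lt _ (by norm_num)

theorem TreeDec_dstep_reg (M K : ℕ) (ch : ℕ → ℕ → ℕ → ℕ → ℕ) (x : DS) (hx : x.2.2.2.1 < 4) :
    (dstep q M K ch x).2.2.2.1 < 4 := by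
  unfold dstep
  split_ifs
  · unfold dnode
    split_ifs
    all_goals first
      | exact hx
      | exact TreeDec_reg_lt _ _
  · exact hx
  · exact hx

/-- the targets are registers -/
theorem dec_reg (M D u t g τ : ℕ) (ht : t < 4) :
    (dec q M T.K D T.ch (0, D, u, t, g, τ, 0, 0)).2.2.2.1 < 4 := by
  have h : ∀ n (x : DS), x.2.2.2.1 < 4 → (dec q M T.K n T.ch x).2.2.2.1 < 4 := by
    intro n
    induction n with
    | zero => intro x hx; exact hx
    | succ n ih =>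
      intro x hx
      exact TreeDec_dstep_reg M T.K T.ch _ (ih x hx)
  exact h D _ ht

end TD

section

variable {α : Type} [Inp α]

/-- bounds which are preserved by one step -/
structure TreeDec_B (q M : ℕ) (x y : DS) : Prop where
  b1 : y.1 ≤ x.1 + 3
  b2 : y.2.1 ≤ x.2.1
  b3 : y.2.2.1 ≤ x.2.2.1 + M
  b4 : y.2.2.2.1 ≤ x.2.2.2.1 + 4
  b5 : y.2.2.2.2.1 ≤ x.2.2.2.2.1 + q + 1
  b6 : y.2.2.2.2.2.1 ≤ x.2.2.2.2.2.1
  b7 : y.2.2.2.2.2.2.1 ≤ x.2.2.2.2.2.2.1 + x.2.2.2.2.2.1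
  b8 : y.2.2.2.2.2.2.2 ≤ x.2.2.2.2.2.2.2 + x.2.2.2.2.2.1 + q + 1

theorem TreeDec_B_refl (q M : ℕ) (x : DS) : TreeDec_B q M x x := by
  constructor <;> omega

theorem TreeDec_B_step (q M K : ℕ) (ch : ℕ → ℕ → ℕ → ℕ → ℕ) (hle : ∀ d u i p, ch d u i p ≤ M)
    (x y : DS) (h : TreeDec_B q M x y) : TreeDec_B q M x (dstep q M K ch y) := by
  obtain ⟨h1, h2, h3, h4, h5, h6, h7, h8⟩ := h
  unfold dstep
  split_ifs with c1 c2
  · unfold dnode
    have hb := Nat.mod_le y.2.2.2.2.2.1 (tpow M K (y.2.1 - 1))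
    have hr : ∀ t p, TD.reg t p ≤ 4 := fun t p => (TD.TreeDec_reg_lt t p).le
    have ha := Nat.div_le_self y.2.2.2.2.2.1 (tpow M K (y.2.1 - 1))
    generalize y.2.2.2.2.2.1 % tpow M K (y.2.1 - 1) = b at *
    generalize y.2.2.2.2.2.1 / tpow M K (y.2.1 - 1) = a at *
    have hi := Nat.div_le_self a (9 * (q - 1))
    have hz : a / 9 % (q - 1) ≤ a :=
      le_trans (Nat.mod_le _ _) (Nat.div_le_self _ _)
    have hm : ∀ z, minv q z ≤ q := fun z => fnd_le _ _
    split_ifs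
    · constructor <;> simp only [] <;> omega
    · constructor <;> simp only [] <;> omega
    · have := hle (y.2.1 - 1) y.2.2.1 (a / (9 * (q - 1))) (a % 9 - 1)
      have := hr y.2.2.2.1 (a % 9 - 1)
      constructor <;> simp only [] <;> omega
    · constructor <;> simp only [] <;> omega
    · constructor <;> simp only [] <;> omega
    · have := hle (y.2.1 - 1) y.2.2.1 (a / (9 * (q - 1))) (a % 9 - 5)
      have := hr y.2.2.2.1 (a % 9 - 5)
      constructor <;> simp only [] <;> omega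
    · have := hm (a / 9 % (q - 1) + 1)
      constructor <;> simp only [] <;> omega
    · have := hm (a / 9 % (q - 1) + 1)
      constructor <;> simp only [] <;> omega
  · exact ⟨h1, h2, h3, h4, h5, h6, h7, h8⟩
  · exact ⟨h1, h2, h3, h4, h5, h6, h7, h8⟩

theorem TreeDec_B_itr (q M K : ℕ) (ch : ℕ → ℕ → ℕ → ℕ → ℕ) (hle : ∀ d u i p, ch d u i p ≤ M)
    (x : DS) (n : ℕ) : TreeDec_B q M x (itr x (fun y _ => dstep q M K ch y) n) := by
  induction n with
  | zero => exact TreeDec_B_refl q M x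
  | succ n ih => exact TreeDec_B_step q M K ch hle x _ ih

theorem TreeDec_size (y : DS) : size y = y.1 + (y.2.1 + (y.2.2.1 + (y.2.2.2.1 +
    (y.2.2.2.2.1 + (y.2.2.2.2.2.1 + (y.2.2.2.2.2.2.1 + y.2.2.2.2.2.2.2)))))) := by
  obtain ⟨y1, y2, y3, y4, y5, y6, y7, y8⟩ := y
  rw [size_pair, size_pair, size_pair, size_pair, size_pair, size_pair, size_pair]
  simp only [size_nat]

theorem TreeDec_dn {q d u t g a b c1 c2 : α → ℕ} (hq : LF q) (hd : LF d) (hu : LF u) (ht : LF t)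
    (hg : LF g) (ha : LF a) (hb : LF b) (hc1 : LF c1) (hc2 : LF c2) :
    LF fun x => (if a x % 9 = 0 then
      (if b x = 0 then 2 else 1, d x, u x, t x, g x, 0, 0, a x / 9 % (q x - 1) + 1)
    else if a x % 9 < 4 then
      (0, d x, c1 x, TD.reg (t x) (a x % 9 - 1), 1, b x, 0, 0)
    else if a x % 9 = 4 then
      (if b x = 0 then 3 else 1, d x, u x, t x, g x, 0, a x / (9 * (q x - 1)), 0)
    else if a x % 9 < 8 then
      (0, d x, c2 x, TD.reg (t x) (a x % 9 - 5), q x - 1, b x, 0, 0)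
    else (if b x = 0 then 2 else 1, d x, u x, t x, g x, 0, 0,
      minv (q x) (a x / 9 % (q x - 1) + 1)) : DS) := by
  have h9 : LF fun x => a x % 9 := by fun_prop
  have hz : LF fun x => a x / 9 % (q x - 1) + 1 := by fun_prop
  have hi : LF fun x => a x / (9 * (q x - 1)) := by fun_prop
  have hr1 : LF fun x => TD.reg (t x) (a x % 9 - 1) := by
    simp only [TD.reg]
    fun_prop
  have hr2 : LF fun x => TD.reg (t x) (a x % 9 - 5) := by
    simp only [TD.reg]
    fun_prop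
  have hb2 : LF fun x => if b x = 0 then 2 else 1 := by fun_prop
  have hb3 : LF fun x => if b x = 0 then 3 else 1 := by fun_prop
  have hm : LF fun x => minv (q x) (a x / 9 % (q x - 1) + 1) := by fun_prop
  have hq1 : LF fun x => q x - 1 := by fun_prop
  refine LF.ite_eq h9 (LF.const 0) ?_ (LF.ite_lt h9 (LF.const 4) ?_
    (LF.ite_eq h9 (LF.const 4) ?_ (LF.ite_lt h9 (LF.const 8) ?_ ?_)))
  · exact LF.mk hb2 (LF.mk hd (LF.mk hu (LF.mk ht (LF.mk hg (LF.mk (LF.const 0)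
      (LF.mk (LF.const 0) hz))))))
  · exact LF.mk (LF.const 0) (LF.mk hd (LF.mk hc1 (LF.mk hr1 (LF.mk (LF.const 1) (LF.mk hb
      (LF.mk (LF.const 0) (LF.const 0)))))))
  · exact LF.mk hb3 (LF.mk hd (LF.mk hu (LF.mk ht (LF.mk hg (LF.mk (LF.const 0)
      (LF.mk hi (LF.const 0)))))))
  · exact LF.mk (LF.const 0) (LF.mk hd (LF.mk hc2 (LF.mk hr2 (LF.mk hq1 (LF.mk hb
      (LF.mk (LF.const 0) (LF.const 0)))))))
  · exact LF.mk hb2 (LF.mk hd (LF.mk hu (LF.mk ht (LF.mk hg (LF.mk (LF.const 0)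
      (LF.mk (LF.const 0) hm))))))

theorem TreeDec_LF {q M K D : α → ℕ} {ch : α → ℕ → ℕ → ℕ → ℕ → ℕ} {x : α → DS} (hq : LF q)
    (hM : LF M) (hK : LF K) (hD : LF D)
    (hch : LF fun p : α × ℕ × ℕ × ℕ × ℕ => ch p.1 p.2.1 p.2.2.1 p.2.2.2.1 p.2.2.2.2)
    (hle : ∀ a d u i p, ch a d u i p ≤ M a) (hx : LF x) :
    LF fun a => dec (q a) (M a) (K a) (D a) (ch a) (x a) := by
  unfold dec
  refine LF.itr_le (h := fun a y _ => dstep (q a) (M a) (K a) (ch a) y)
    (b := fun a => 3 * ((x a).1 + ((x a).2.1 + ((x a).2.2.1 + ((x a).2.2.2.1 +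
    ((x a).2.2.2.2.1 + ((x a).2.2.2.2.2.1 + ((x a).2.2.2.2.2.2.1 + (x a).2.2.2.2.2.2.2))))))) +
      M a + 2 * q a + 9) hD hx ?_ ?_ ?_
  · have hq' : LF fun p : α × DS × ℕ => q p.1 := LF.comp hq (by fun_prop)
    have hM' : LF fun p : α × DS × ℕ => M p.1 := LF.comp hM (by fun_prop)
    have hK' : LF fun p : α × DS × ℕ => K p.1 := LF.comp hK (by fun_prop)
    have h1 : LF fun p : α × DS × ℕ => p.2.1.1 := by fun_prop
    have h2 : LF fun p : α × DS × ℕ => p.2.1.2.1 := by fun_prop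
    have h2' : LF fun p : α × DS × ℕ => p.2.1.2.1 - 1 := by fun_prop
    have h3 : LF fun p : α × DS × ℕ => p.2.1.2.2.1 := by fun_prop
    have h4 : LF fun p : α × DS × ℕ => p.2.1.2.2.2.1 := by fun_prop
    have h5 : LF fun p : α × DS × ℕ => p.2.1.2.2.2.2.1 := by fun_prop
    have h6 : LF fun p : α × DS × ℕ => p.2.1.2.2.2.2.2.1 := by fun_prop
    have ht : LF fun p : α × DS × ℕ => tpow (M p.1) (K p.1) (p.2.1.2.1 - 1) :=
      LF.tpow hM' hK' h2'
    have ha : LF fun p : α × DS × ℕ =>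
        p.2.1.2.2.2.2.2.1 / tpow (M p.1) (K p.1) (p.2.1.2.1 - 1) := LF.div h6 ht
    have hb : LF fun p : α × DS × ℕ =>
        p.2.1.2.2.2.2.2.1 % tpow (M p.1) (K p.1) (p.2.1.2.1 - 1) := LF.mod h6 ht
    have h9q : LF fun p : α × DS × ℕ => 9 * (q p.1 - 1) := by fun_prop
    have hi := LF.div ha h9q
    have hr1 : LF fun p : α × DS × ℕ =>
        p.2.1.2.2.2.2.2.1 / tpow (M p.1) (K p.1) (p.2.1.2.1 - 1) % 9 - 1 :=
      LF.sub (LF.mod ha (LF.const 9)) (LF.const 1)
    have hr2 : LF fun p : α × DS × ℕ =>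
        p.2.1.2.2.2.2.2.1 / tpow (M p.1) (K p.1) (p.2.1.2.1 - 1) % 9 - 5 :=
      LF.sub (LF.mod ha (LF.const 9)) (LF.const 5)
    have hp : LF fun p : α × DS × ℕ => p.1 := by fun_prop
    have hc1 := LF.comp hch (LF.mk hp (LF.mk h2' (LF.mk h3 (LF.mk hi hr1))))
    have hc2 := LF.comp hch (LF.mk hp (LF.mk h2' (LF.mk h3 (LF.mk hi hr2))))
    exact LF.ite_eq h1 (LF.const 0) (LF.ite_lt (LF.const 0) h2
      (TreeDec_dn hq' h2' h3 h4 h5 ha hb hc1 hc2) (LF.fst (LF.snd LF.id)))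
      (LF.fst (LF.snd LF.id))
  · fun_prop
  · intro a i _
    obtain ⟨h1, h2, h3, h4, h5, h6, h7, h8⟩ :=
      TreeDec_B_itr (q a) (M a) (K a) (ch a) (hle a) (x a) i
    rw [TreeDec_size]
    omega

theorem LF.dec {q M K D : α → ℕ} {ch : α → ℕ → ℕ → ℕ → ℕ → ℕ} {x : α → DS} (hq : LF q)
    (hM : LF M) (hK : LF K) (hD : LF D)
    (hch : LF fun p : α × ℕ × ℕ × ℕ × ℕ => ch p.1 p.2.1 p.2.2.1 p.2.2.2.1 p.2.2.2.2)
    (hle : ∀ a d u i p, ch a d u i p ≤ M a) (hx : LF x) :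
    LF fun a => dec (q a) (M a) (K a) (D a) (ch a) (x a) :=
  TreeDec_LF hq hM hK hD hch hle hx

end

end Pool.Agent.W_5d512e_h4
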