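import Pool.Agent.W_5d512e_h4.TreeDec

/-!
# Tree evaluation as a computable function of the parameters
-/

set_option autoImplicit false

namespace Pool.Agent.W_5d512e_h4

/-- the data of a family of evaluation problems, parameters in `π`; `F` is a function of the
code in base `m` of the `3 * c` entries of the values of the children -/
structure CD (π : Type) where
  q : π → ℕ
  M : π → ℕ
  c : π → ℕ
  I : π → ℕ
  m : π → ℕ
  /-- node, position -/
  base : π → ℕ → ℕ → ℕ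
  /-- level, node, term, child -/
  ch : π → ℕ → ℕ → ℕ → ℕ → ℕ
  /-- level, node, term, position, code -/
  F : π → ℕ → ℕ → ℕ → ℕ → ℕ → ℕ

/-- all the data are computable -/
structure CD.Cpt {π : Type} [Inp π] (D : CD π) : Prop where
  q : LF D.q
  M : LF D.M
  c : LF D.c
  I : LF D.I
  m : LF D.m
  base : LF fun p : π × ℕ × ℕ => D.base p.1 p.2.1 p.2.2
  ch : LF fun p : π × ℕ × ℕ × ℕ × ℕ => D.ch p.1 p.2.1 p.2.2.1 p.2.2.2.1 p.2.2.2.2
  F : LF fun p : π × ℕ × ℕ × ℕ × ℕ × ℕ =>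
    D.F p.1 p.2.1 p.2.2.1 p.2.2.2.1 p.2.2.2.2.1 p.2.2.2.2.2

namespace CD

variable {π : Type} (D : CD π)

/-- truncated child -/
def cht (P : π) (d u i p : ℕ) : ℕ := min (D.M P) (D.ch P d u i p)

/-- the mathematical problem for the parameter `P` -/
noncomputable def td (P : π) [Fact (D.q P).Prime] (h : 3 * D.c P * (D.m P - 1) < D.q P - 1) :
    TD (D.q P) where
  c := D.c P
  I := D.I P
  base u s := (D.base P u s : ZMod (D.q P))
  ch := D.cht P
  ex d u i s y := ext (D.m P) (3 * D.c P) (D.F P d u i s) y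
  loc d u i s y y' hy := ext_congr _ hy
  low d u i s ρ v := ext_sum h _ ρ v

/-- number of parts of a step -/
def K (P : π) : ℕ := 9 * (D.q P - 1) * D.I P

/-- the operation given by a tuple, on codes -/
def exe (P : π) (x : DS) (X : ℕ) : ℕ :=
  if x.1 = 0 then oAdd (D.q P) (D.M P) (D.c P) x.2.2.2.1 x.2.2.2.2.1 (D.base P x.2.2.1) X
  else if x.1 = 1 then X
  else if x.1 = 2 then oScale (D.q P) (D.M P) (D.c P) x.2.2.2.1 x.2.2.2.2.2.2.2 X
  else oUpd (D.q P) (D.M P) (D.c P) (D.m P) x.2.2.2.1 x.2.2.2.2.1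
    (D.F P x.2.1 x.2.2.1 x.2.2.2.2.2.2.1) X

/-- the state at the end of the run for the node `u` of level `d` -/
def fin (P : π) (d u : ℕ) : ℕ :=
  itr 0 (fun X τ => min (D.M P)
    (D.exe P (dec (D.q P) (D.M P) (D.K P) d (D.cht P) (0, d, u, 0, 1, τ, 0, 0)) X))
    (tpow (D.M P) (D.K P) d)

/-- the value of the node `u` of level `d` at position `s` -/
def TV (p : π × ℕ × ℕ × ℕ) : ℕ := dig (D.q p.1) (D.fin p.1 p.2.1 p.2.2.1) p.2.2.2

theorem TreeLF_f {α β γ : Type} [Inp α] [Inp β] [Inp γ] {f : α → γ} (hf : LF f) :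
    LF fun p : α × β => f p.1 :=
  LF.comp (f := f) (g := fun p : α × β => p.1) hf LF.fst'

theorem TreeLF_exe [Inp π] (hD : D.Cpt) {α : Type} [Inp α] {P : α → π} {x : α → DS}
    {X : α → ℕ} (hP : LF P) (hx : LF x) (hX : LF X) :
    LF fun a => D.exe (P a) (x a) (X a) := by
  have hq : LF fun a => D.q (P a) := LF.comp hD.q hP
  have hM : LF fun a => D.M (P a) := LF.comp hD.M hP
  have hc : LF fun a => D.c (P a) := LF.comp hD.c hP
  have hm : LF fun a => D.m (P a) := LF.comp hD.m hP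
  have h1 : LF fun a => (x a).1 := LF.fst hx
  have h2 : LF fun a => (x a).2.1 := LF.fst (LF.snd hx)
  have h3 : LF fun a => (x a).2.2.1 := LF.fst (LF.snd (LF.snd hx))
  have h4 : LF fun a => (x a).2.2.2.1 := LF.fst (LF.snd (LF.snd (LF.snd hx)))
  have h5 : LF fun a => (x a).2.2.2.2.1 := LF.fst (LF.snd (LF.snd (LF.snd (LF.snd hx))))
  have h6 : LF fun a => (x a).2.2.2.2.2.2 :=
    LF.snd (LF.snd (LF.snd (LF.snd (LF.snd (LF.snd hx)))))
  have h7 : LF fun a => (x a).2.2.2.2.2.2.1 := LF.fst h6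
  have h8 : LF fun a => (x a).2.2.2.2.2.2.2 := LF.snd h6
  unfold exe
  refine LF.ite_eq h1 (LF.const 0) ?_ (LF.ite_eq h1 (LF.const 1) hX
    (LF.ite_eq h1 (LF.const 2) ?_ ?_))
  · refine LF.oAdd hq hM hc h4 h5 ?_ hX
    have h9 : LF fun p : α × ℕ => (P p.1, (x p.1).2.2.1, p.2) :=
      LF.mk (TreeLF_f hP) (LF.mk (TreeLF_f h3) LF.snd')
    exact LF.comp hD.base h9
  · exact LF.oScale hq hM hc h4 h8 hX
  · refine LF.oUpd hq hM hc hm h4 h5 ?_ hX
    have h9 : LF fun p : α × ℕ × ℕ => (P p.1, (x p.1).2.1, (x p.1).2.2.1,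
        (x p.1).2.2.2.2.2.2.1, p.2.1, p.2.2) :=
      LF.mk (TreeLF_f hP) (LF.mk (TreeLF_f h2) (LF.mk (TreeLF_f h3)
        (LF.mk (TreeLF_f h7) (LF.mk (LF.fst LF.snd') (LF.snd LF.snd')))))
    exact LF.comp hD.F h9

theorem TreeLF_cht [Inp π] (hD : D.Cpt) {α : Type} [Inp α] {P : α → π} (hP : LF P) :
    LF fun p : α × ℕ × ℕ × ℕ × ℕ => D.cht (P p.1) p.2.1 p.2.2.1 p.2.2.2.1 p.2.2.2.2 := by
  unfold cht
  refine LF.min (TreeLF_f (LF.comp (f := D.M) (g := P) hD.M hP)) ?_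
  have h9 : LF fun p : α × ℕ × ℕ × ℕ × ℕ => (P p.1, p.2.1, p.2.2.1, p.2.2.2.1, p.2.2.2.2) :=
    LF.mk (TreeLF_f hP) LF.snd'
  exact LF.comp hD.ch h9

theorem TreeLF_K [Inp π] (hD : D.Cpt) : LF D.K := by
  unfold K
  exact LF.mul (LF.mul (LF.const 9) (LF.sub hD.q (LF.const 1))) hD.I

theorem LF_TV [Inp π] (hD : D.Cpt) : LF D.TV := by
  have hP : LF fun p : π × ℕ × ℕ × ℕ => p.1 := LF.fst'
  have hd : LF fun p : π × ℕ × ℕ × ℕ => p.2.1 := LF.fst LF.snd'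
  have hu : LF fun p : π × ℕ × ℕ × ℕ => p.2.2.1 := LF.fst (LF.snd LF.snd')
  have hs : LF fun p : π × ℕ × ℕ × ℕ => p.2.2.2 := LF.snd (LF.snd LF.snd')
  have hq : LF fun p : π × ℕ × ℕ × ℕ => D.q p.1 := LF.comp hD.q hP
  have hM : LF fun p : π × ℕ × ℕ × ℕ => D.M p.1 := LF.comp hD.M hP
  have hK : LF fun p : π × ℕ × ℕ × ℕ => D.K p.1 := LF.comp (D.TreeLF_K hD) hP
  show LF fun p : π × ℕ × ℕ × ℕ => dig (D.q p.1) (D.fin p.1 p.2.1 p.2.2.1) p.2.2.2
  refine LF.dig hq ?_ hs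
  unfold fin
  refine LF.itr_le (α := π × ℕ × ℕ × ℕ) (β := ℕ)
    (n := fun p => tpow (D.M p.1) (D.K p.1) p.2.1) (g := fun _ => 0)
    (h := fun p X τ => min (D.M p.1) (D.exe p.1 (dec (D.q p.1) (D.M p.1) (D.K p.1) p.2.1
      (D.cht p.1) (0, p.2.1, p.2.2.1, 0, 1, τ, 0, 0)) X))
    (b := fun p => D.M p.1) (LF.tpow hM hK hd) (LF.const 0) ?_ hM ?_
  · refine LF.min (TreeLF_f hM) (D.TreeLF_exe hD (TreeLF_f hP) ?_ (LF.fst LF.snd'))
    refine LF.dec (TreeLF_f hq) (TreeLF_f hM) (TreeLF_f hK)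
      (TreeLF_f hd) (D.TreeLF_cht hD (TreeLF_f hP)) ?_ ?_
    · intro a d u i p
      exact min_le_left _ _
    · exact LF.mk (LF.const 0) (LF.mk (TreeLF_f hd) (LF.mk (TreeLF_f hu)
        (LF.mk (LF.const 0) (LF.mk (LF.const 1) (LF.mk (LF.snd LF.snd')
          (LF.mk (LF.const 0) (LF.const 0)))))))
  · intro a i _
    rw [size_nat]
    cases i with
    | zero => exact Nat.zero_le _
    | succ i => exact min_le_left _ _

/-- one operation on the code -/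
theorem TreeLF_rep (P : π) [Fact (D.q P).Prime] (h : 3 * D.c P * (D.m P - 1) < D.q P - 1)
    (hm : 1 ≤ D.m P) (hmq : D.m P ≤ D.q P) (hM1 : D.q P ^ (4 * D.c P) ≤ D.M P)
    (hM2 : D.m P ^ (3 * D.c P) ≤ D.M P) (x : DS) (hx : x.2.2.2.1 < 4) {X : ℕ}
    {ρ : ℕ → ZMod (D.q P)} (hX : Rep (D.q P) (D.c P) X ρ) :
    Rep (D.q P) (D.c P) (min (D.M P) (D.exe P x X)) ((D.td P h).exm x ρ) := by
  have key : Rep (D.q P) (D.c P) (D.exe P x X) ((D.td P h).exm x ρ) := by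
    unfold exe TD.exm
    split_ifs with h0 h1 h2
    · exact rep_oAdd (D.td P h) hM1 hX hx _ _
    · exact hX
    · exact rep_oScale (D.td P h) hM1 hX hx _
    · exact rep_oUpd (D.td P h) hM1 hM2 hmq hm hX hx _ _ _ _ _ (fun s y => rfl)
  rw [min_eq_right (key.1.le.trans hM1)]
  exact key

/-- **computation of the values** -/
theorem TV_eq (P : π) [Fact (D.q P).Prime] (h : 3 * D.c P * (D.m P - 1) < D.q P - 1)
    (hc : 1 ≤ D.c P) (hm : 1 ≤ D.m P) (hmq : D.m P ≤ D.q P) (hM1 : D.q P ^ (4 * D.c P) ≤ D.M P)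
    (hM2 : D.m P ^ (3 * D.c P) ≤ D.M P) (d u s : ℕ) (hM3 : D.K P ^ d ≤ D.M P)
    (hs : s < D.c P) :
    (D.TV (P, d, u, s) : ZMod (D.q P)) = (D.td P h).V d u s ∧ D.TV (P, d, u, s) < D.q P := by
  have hq0 : 0 < D.q P := (Fact.out : (D.q P).Prime).pos
  have hM0 : 1 ≤ D.M P := (Nat.one_le_pow _ _ hq0).trans hM1
  have key : ∀ n : ℕ, Rep (D.q P) (D.c P)
      (itr 0 (fun X τ => min (D.M P)
        (D.exe P (dec (D.q P) (D.M P) (D.K P) d (D.cht P) (0, d, u, 0, 1, τ, 0, 0)) X)) n)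
      (itr (fun _ => 0) (fun ρ τ => (D.td P h).act d u 0 1 τ ρ) n) := by
    intro n
    induction n with
    | zero => exact rep_zero (D.c P)
    | succ n ih =>
      show Rep (D.q P) (D.c P) (min (D.M P)
        (D.exe P (dec (D.q P) (D.M P) (D.K P) d (D.cht P) (0, d, u, 0, 1, n, 0, 0)) _))
        ((D.td P h).act d u 0 1 n _)
      rw [(D.td P h).act_eq_exm hM0 (M := D.M P) hM3]
      exact D.TreeLF_rep P h hm hmq hM1 hM2 _ ((D.td P h).dec_reg _ _ _ _ _ _ (by norm_num)) ih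
  have hfin : D.fin P d u = itr 0 (fun X τ => min (D.M P)
      (D.exe P (dec (D.q P) (D.M P) (D.K P) d (D.cht P) (0, d, u, 0, 1, τ, 0, 0)) X))
      (D.K P ^ d) := by
    unfold fin
    rw [tpow_eq hM3]
  have hrun := (D.td P h).run_zero hc d u s hs
  constructor
  · rw [← hrun]
    show ((dig (D.q P) (D.fin P d u) s : ℕ) : ZMod (D.q P)) = _
    rw [hfin]
    exact (key _).2 s (by omega)
  · exact dig_lt hq0 _ _

end CD

end Pool.Agent.W_5d512e_h4
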