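import Pool.Agent.W_5d512e_h4.Tree

/-!
# The operations of the tree evaluation on coded states

A state is coded by the number with the `4 * c` digits in base `q`; `Rep` relates the code and
the state.  All codes are truncated at `M`, which has no effect if `q ^ (4 * c) ≤ M`.
-/

set_option autoImplicit false

namespace Pool.Agent.W_5d512e_h4

/-- `X` codes the state `ρ` -/
def Rep (q c X : ℕ) (ρ : ℕ → ZMod q) : Prop :=
  X < q ^ (4 * c) ∧ ∀ l < 4 * c, (dig q X l : ZMod q) = ρ l

/-- add `g * x s` to register `t` -/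
def oAdd (q M c t g : ℕ) (x : ℕ → ℕ) (X : ℕ) : ℕ :=
  itr X (fun Y s => min M (setd M q Y (t * c + s) ((dig q Y (t * c + s) + g * x s) % q))) c

/-- multiply the registers different from `t` by `z` -/
def oScale (q M c t z X : ℕ) : ℕ :=
  itr X (fun Y l => min M (if t * c ≤ l then (if l < t * c + c then Y else
    setd M q Y l (z * dig q Y l % q)) else setd M q Y l (z * dig q Y l % q))) (4 * c)

/-- subtract `g` times a term, `F s Y` = the function at position `s` and code `Y` -/
def oUpd (q M c m t g : ℕ) (F : ℕ → ℕ → ℕ) (X : ℕ) : ℕ :=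
  oAdd q M c t ((q - 1) * g)
    (fun s => extd q M m (3 * c) (F s) fun l => dig q X (TD.reg t (l / c) * c + l % c)) X

variable {q : ℕ} [Fact q.Prime]

lemma rep_zero (c : ℕ) : Rep q c 0 (fun _ => 0) := by
  have hq : 0 < q := (Fact.out : q.Prime).pos
  exact ⟨pow_pos hq _, fun l _ => by rw [dig_zero, Nat.cast_zero]⟩

private lemma TreeOp_idx {c t s : ℕ} (ht : t < 4) (hs : s < c) : t * c + s < 4 * c := by
  have h1 : (t + 1) * c ≤ 4 * c := Nat.mul_le_mul_right c ht
  have h2 : (t + 1) * c = t * c + c := by ring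
  omega

lemma rep_oAdd (T : TD q) {M X : ℕ} {ρ : ℕ → ZMod q} (hM : q ^ (4 * T.c) ≤ M)
    (h : Rep q T.c X ρ) {t : ℕ} (ht : t < 4) (g : ℕ) (x : ℕ → ℕ) :
    Rep q T.c (oAdd q M T.c t g x X) (T.addv t (fun s => (g : ZMod q) * (x s : ZMod q)) ρ) := by
  have hq : 0 < q := (Fact.out : q.Prime).pos
  have key : ∀ k ≤ T.c, Rep q T.c
      (itr X (fun Y s => min M (setd M q Y (t * T.c + s)
        ((dig q Y (t * T.c + s) + g * x s) % q))) k)
      (fun l => if t * T.c ≤ l ∧ l < t * T.c + k then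
        ρ l + (g : ZMod q) * (x (l - t * T.c) : ZMod q) else ρ l) := by
    intro k
    induction k with
    | zero =>
      intro _
      refine ⟨h.1, fun l hl => ?_⟩
      beta_reduce
      rw [if_neg (by omega)]
      exact h.2 l hl
    | succ k ih =>
      intro hk
      obtain ⟨h1, h2⟩ := ih (by omega)
      beta_reduce at h2
      set Y := itr X (fun Y s => min M (setd M q Y (t * T.c + s)
        ((dig q Y (t * T.c + s) + g * x s) % q))) k with hY
      have hi : t * T.c + k < 4 * T.c := TreeOp_idx ht (by omega)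
      have hd : (dig q Y (t * T.c + k) + g * x k) % q < q := Nat.mod_lt _ hq
      have h3 := setd_lt hM h1 hi hd
      have h4 : itr X (fun Y s => min M (setd M q Y (t * T.c + s)
          ((dig q Y (t * T.c + s) + g * x s) % q))) (k + 1) =
          setd M q Y (t * T.c + k) ((dig q Y (t * T.c + k) + g * x k) % q) := by
        show min M (setd M q Y (t * T.c + k) ((dig q Y (t * T.c + k) + g * x k) % q)) = _
        exact min_eq_right (h3.le.trans hM)
      rw [h4]
      refine ⟨h3, fun l hl => ?_⟩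
      beta_reduce
      rw [dig_setd hM h1 hi hd l]
      by_cases hl' : l = t * T.c + k
      · rw [if_pos hl', if_pos (by omega), ZMod.natCast_mod, Nat.cast_add, Nat.cast_mul,
          h2 _ hi, if_neg (by omega), hl', Nat.add_sub_cancel_left]
      · rw [if_neg hl', h2 l hl]
        by_cases h5 : t * T.c ≤ l ∧ l < t * T.c + k
        · rw [if_pos h5, if_pos (by omega)]
        · rw [if_neg h5, if_neg (by omega)]
  exact key T.c le_rfl

lemma rep_oScale (T : TD q) {M X : ℕ} {ρ : ℕ → ZMod q} (hM : q ^ (4 * T.c) ≤ M)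
    (h : Rep q T.c X ρ) {t : ℕ} (ht : t < 4) (z : ℕ) :
    Rep q T.c (oScale q M T.c t z X) (T.scale t (z : ZMod q) ρ) := by
  have hq : 0 < q := (Fact.out : q.Prime).pos
  have key : ∀ k ≤ 4 * T.c, Rep q T.c
      (itr X (fun Y l => min M (if t * T.c ≤ l then (if l < t * T.c + T.c then Y else
        setd M q Y l (z * dig q Y l % q)) else setd M q Y l (z * dig q Y l % q))) k)
      (fun l => if l < k then T.scale t (z : ZMod q) ρ l else ρ l) := by
    intro k
    induction k with
    | zero =>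
      intro _
      refine ⟨h.1, fun l hl => ?_⟩
      beta_reduce
      rw [if_neg (by omega)]
      exact h.2 l hl
    | succ k ih =>
      intro hk
      obtain ⟨h1, h2⟩ := ih (by omega)
      beta_reduce at h2
      set Y := itr X (fun Y l => min M (if t * T.c ≤ l then (if l < t * T.c + T.c then Y else
        setd M q Y l (z * dig q Y l % q)) else setd M q Y l (z * dig q Y l % q))) k with hY
      have hi : k < 4 * T.c := by omega
      have hd : z * dig q Y k % q < q := Nat.mod_lt _ hq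
      have h3 := setd_lt hM h1 hi hd
      have h0 : itr X (fun Y l => min M (if t * T.c ≤ l then (if l < t * T.c + T.c then Y else
          setd M q Y l (z * dig q Y l % q)) else setd M q Y l (z * dig q Y l % q))) (k + 1) =
          min M (if t * T.c ≤ k then (if k < t * T.c + T.c then Y else
            setd M q Y k (z * dig q Y k % q)) else setd M q Y k (z * dig q Y k % q)) := rfl
      by_cases hc : t * T.c ≤ k ∧ k < t * T.c + T.c
      · rw [h0, if_pos hc.1, if_pos hc.2, min_eq_right (h1.le.trans hM)]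
        refine ⟨h1, fun l hl => ?_⟩
        beta_reduce
        rw [h2 l hl]
        by_cases hl1 : l < k
        · rw [if_pos hl1, if_pos (by omega)]
        · rw [if_neg hl1]
          by_cases hl2 : l < k + 1
          · rw [if_pos hl2]
            have hl3 : l = k := by omega
            unfold TD.scale
            rw [if_pos (by rw [hl3]; exact hc)]
          · rw [if_neg hl2]
      · have h4 : itr X (fun Y l => min M (if t * T.c ≤ l then (if l < t * T.c + T.c then Y else
            setd M q Y l (z * dig q Y l % q)) else setd M q Y l (z * dig q Y l % q))) (k + 1) =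
            setd M q Y k (z * dig q Y k % q) := by
          rw [h0]
          by_cases hc1 : t * T.c ≤ k
          · rw [if_pos hc1, if_neg (by omega)]
            exact min_eq_right (h3.le.trans hM)
          · rw [if_neg hc1]
            exact min_eq_right (h3.le.trans hM)
        rw [h4]
        refine ⟨h3, fun l hl => ?_⟩
        beta_reduce
        rw [dig_setd hM h1 hi hd l]
        by_cases hl1 : l = k
        · rw [if_pos hl1, if_pos (by omega), ZMod.natCast_mod, Nat.cast_mul, h2 _ hi,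
            if_neg (lt_irrefl _), hl1]
          unfold TD.scale
          rw [if_neg hc]
        · rw [if_neg hl1, h2 l hl]
          by_cases hl2 : l < k
          · rw [if_pos hl2, if_pos (by omega)]
          · rw [if_neg hl2, if_neg (by omega)]
  have h5 := key (4 * T.c) le_rfl
  refine ⟨h5.1, fun l hl => ?_⟩
  have h6 := h5.2 l hl
  beta_reduce at h6
  rw [if_pos hl] at h6
  exact h6

lemma rep_oUpd (T : TD q) {M m X : ℕ} {ρ : ℕ → ZMod q} (hM : q ^ (4 * T.c) ≤ M)
    (hM' : m ^ (3 * T.c) ≤ M) (hm : m ≤ q) (hm0 : 1 ≤ m) (h : Rep q T.c X ρ) {t : ℕ} (ht : t < 4)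
    (d u i g : ℕ) (F : ℕ → ℕ → ℕ) (hF : ∀ s y, T.ex d u i s y = ext m (3 * T.c) (F s) y) :
    Rep q T.c (oUpd q M T.c m t g F X) (T.updt d u i t g ρ) := by
  have hq : 0 < q := (Fact.out : q.Prime).pos
  have h1 := rep_oAdd T hM h ht ((q - 1) * g)
    (fun s => extd q M m (3 * T.c) (F s) fun l => dig q X (TD.reg t (l / T.c) * T.c + l % T.c))
  have h2 : (fun s => (((q - 1) * g : ℕ) : ZMod q) *
      ((extd q M m (3 * T.c) (F s) fun l =>
        dig q X (TD.reg t (l / T.c) * T.c + l % T.c) : ℕ) : ZMod q)) =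
      fun s => - (g : ZMod q) *
        T.ex d u i s fun l => ρ (TD.reg t (l / T.c) * T.c + l % T.c) := by
    funext s
    rw [extd_cast hm hm0 hM', hF]
    congr 1
    · have hq1 : ((q - 1 : ℕ) : ZMod q) = -1 := by
        rw [Nat.cast_sub hq, Nat.cast_one, ZMod.natCast_self, zero_sub]
      rw [Nat.cast_mul, hq1]
      ring
    · refine ext_congr _ fun l hl => ?_
      have hc : 0 < T.c := by omega
      refine h.2 _ (TreeOp_idx (Nat.mod_lt _ (by norm_num)) (Nat.mod_lt _ hc))
  rw [h2] at h1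
  exact h1

section

variable {α : Type} [Inp α]

private theorem TreeOp_LF_oAdd {q M c t g X : α → ℕ} {x : α → ℕ → ℕ} (hq : LF q) (hM : LF M) (hc : LF c)
    (ht : LF t) (hg : LF g) (hx : LF fun p : α × ℕ => x p.1 p.2) (hX : LF X) :
    LF fun a => oAdd (q a) (M a) (c a) (t a) (g a) (x a) (X a) := by
  have hq1 : LF fun p : α × ℕ × ℕ => q p.1 := LF.comp hq LF.fst'
  have hM1 : LF fun p : α × ℕ × ℕ => M p.1 := LF.comp hM LF.fst'
  have hc1 : LF fun p : α × ℕ × ℕ => c p.1 := LF.comp hc LF.fst'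
  have ht1 : LF fun p : α × ℕ × ℕ => t p.1 := LF.comp ht LF.fst'
  have hg1 : LF fun p : α × ℕ × ℕ => g p.1 := LF.comp hg LF.fst'
  have hY : LF fun p : α × ℕ × ℕ => p.2.1 := LF.fst LF.snd'
  have hs : LF fun p : α × ℕ × ℕ => p.2.2 := LF.snd LF.snd'
  have hx1 : LF fun p : α × ℕ × ℕ => x p.1 p.2.2 := LF.comp hx (LF.mk LF.fst' hs)
  have hi : LF fun p : α × ℕ × ℕ => t p.1 * c p.1 + p.2.2 := (ht1.mul hc1).add hs
  refine LF.itr_le (n := c) (g := X) (h := fun a Y s => min (M a) (setd (M a) (q a) Y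
    (t a * c a + s) ((dig (q a) Y (t a * c a + s) + g a * x a s) % q a)))
    (b := fun a => M a + X a) hc hX ?_ (hM.add hX) ?_
  · exact hM1.min (LF.setd hM1 hq1 hY hi (((LF.dig hq1 hY hi).add (hg1.mul hx1)).mod hq1))
  · intro a i _
    rw [size_nat]
    cases i with
    | zero => exact Nat.le_add_left _ _
    | succ i => exact (min_le_left _ _).trans (Nat.le_add_right _ _)

theorem LF.oAdd {q M c t g X : α → ℕ} {x : α → ℕ → ℕ} (hq : LF q) (hM : LF M) (hc : LF c)
    (ht : LF t) (hg : LF g) (hx : LF fun p : α × ℕ => x p.1 p.2) (hX : LF X) :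
    LF fun a => oAdd (q a) (M a) (c a) (t a) (g a) (x a) (X a) := by
  exact TreeOp_LF_oAdd hq hM hc ht hg hx hX

private theorem TreeOp_LF_oScale {q M c t z X : α → ℕ} (hq : LF q) (hM : LF M) (hc : LF c)
    (ht : LF t) (hz : LF z) (hX : LF X) :
    LF fun a => oScale (q a) (M a) (c a) (t a) (z a) (X a) := by
  have hq1 : LF fun p : α × ℕ × ℕ => q p.1 := LF.comp hq LF.fst'
  have hM1 : LF fun p : α × ℕ × ℕ => M p.1 := LF.comp hM LF.fst'
  have hc1 : LF fun p : α × ℕ × ℕ => c p.1 := LF.comp hc LF.fst'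
  have ht1 : LF fun p : α × ℕ × ℕ => t p.1 := LF.comp ht LF.fst'
  have hz1 : LF fun p : α × ℕ × ℕ => z p.1 := LF.comp hz LF.fst'
  have hY : LF fun p : α × ℕ × ℕ => p.2.1 := LF.fst LF.snd'
  have hl : LF fun p : α × ℕ × ℕ => p.2.2 := LF.snd LF.snd'
  have hi : LF fun p : α × ℕ × ℕ => t p.1 * c p.1 := ht1.mul hc1
  have hS : LF fun p : α × ℕ × ℕ => setd (M p.1) (q p.1) p.2.1 p.2.2
      (z p.1 * dig (q p.1) p.2.1 p.2.2 % q p.1) :=
    LF.setd hM1 hq1 hY hl ((hz1.mul (LF.dig hq1 hY hl)).mod hq1)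
  refine LF.itr_le (n := fun a => 4 * c a) (g := X) (h := fun a Y l => min (M a)
    (if t a * c a ≤ l then (if l < t a * c a + c a then Y else
      setd (M a) (q a) Y l (z a * dig (q a) Y l % q a)) else
      setd (M a) (q a) Y l (z a * dig (q a) Y l % q a)))
    (b := fun a => M a + X a) ((LF.const 4).mul hc) hX ?_ (hM.add hX) ?_
  · exact hM1.min (LF.ite_le hi hl (LF.ite_lt hl (hi.add hc1) hY hS) hS)
  · intro a i _
    rw [size_nat]
    cases i with
    | zero => exact Nat.le_add_left _ _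
    | succ i => exact (min_le_left _ _).trans (Nat.le_add_right _ _)

theorem LF.oScale {q M c t z X : α → ℕ} (hq : LF q) (hM : LF M) (hc : LF c)
    (ht : LF t) (hz : LF z) (hX : LF X) :
    LF fun a => oScale (q a) (M a) (c a) (t a) (z a) (X a) := by
  exact TreeOp_LF_oScale hq hM hc ht hz hX

private theorem TreeOp_LF_oUpd {q M c m t g X : α → ℕ} {F : α → ℕ → ℕ → ℕ} (hq : LF q) (hM : LF M) (hc : LF c)
    (hm : LF m) (ht : LF t) (hg : LF g) (hF : LF fun p : α × ℕ × ℕ => F p.1 p.2.1 p.2.2)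
    (hX : LF X) :
    LF fun a => oUpd (q a) (M a) (c a) (m a) (t a) (g a) (F a) (X a) := by
  have hq1 : LF fun p : α × ℕ => q p.1 := LF.comp hq LF.fst'
  have hM1 : LF fun p : α × ℕ => M p.1 := LF.comp hM LF.fst'
  have hc1 : LF fun p : α × ℕ => c p.1 := LF.comp hc LF.fst'
  have hm1 : LF fun p : α × ℕ => m p.1 := LF.comp hm LF.fst'
  have e1 : LF fun p : (α × ℕ) × ℕ => p.1.1 := LF.fst LF.fst'
  have e2 : LF fun p : (α × ℕ) × ℕ => p.1.2 := LF.snd LF.fst'
  have e3 : LF fun p : (α × ℕ) × ℕ => p.2 := LF.snd'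
  have hq2 : LF fun p : (α × ℕ) × ℕ => q p.1.1 := LF.comp hq e1
  have hc2 : LF fun p : (α × ℕ) × ℕ => c p.1.1 := LF.comp hc e1
  have ht2 : LF fun p : (α × ℕ) × ℕ => t p.1.1 := LF.comp ht e1
  have hX2 : LF fun p : (α × ℕ) × ℕ => X p.1.1 := LF.comp hX e1
  have hF2 : LF fun p : (α × ℕ) × ℕ => F p.1.1 p.1.2 p.2 := LF.comp hF (LF.mk e1 (LF.mk e2 e3))
  have hreg : LF fun p : (α × ℕ) × ℕ => TD.reg (t p.1.1) (p.2 / c p.1.1) :=
    ((ht2.add (LF.const 1)).add (e3.div hc2)).mod (LF.const 4)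
  have hy : LF fun p : (α × ℕ) × ℕ => dig (q p.1.1) (X p.1.1)
      (TD.reg (t p.1.1) (p.2 / c p.1.1) * c p.1.1 + p.2 % c p.1.1) :=
    LF.dig hq2 hX2 ((hreg.mul hc2).add (e3.mod hc2))
  have hE : LF fun p : α × ℕ => extd (q p.1) (M p.1) (m p.1) (3 * c p.1) (F p.1 p.2) fun l =>
      dig (q p.1) (X p.1) (TD.reg (t p.1) (l / c p.1) * c p.1 + l % c p.1) :=
    LF.extd (F := fun (p : α × ℕ) (Y : ℕ) => F p.1 p.2 Y)
      (y := fun (p : α × ℕ) (l : ℕ) => dig (q p.1) (X p.1)
        (TD.reg (t p.1) (l / c p.1) * c p.1 + l % c p.1))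
      hq1 hM1 hm1 ((LF.const 3).mul hc1) hF2 hy
  exact LF.oAdd (g := fun a => (q a - 1) * g a)
    (x := fun a s => extd (q a) (M a) (m a) (3 * c a) (F a s) fun l =>
      dig (q a) (X a) (TD.reg (t a) (l / c a) * c a + l % c a))
    hq hM hc ht ((hq.sub (LF.const 1)).mul hg) hE hX

theorem LF.oUpd {q M c m t g X : α → ℕ} {F : α → ℕ → ℕ → ℕ} (hq : LF q) (hM : LF M) (hc : LF c)
    (hm : LF m) (ht : LF t) (hg : LF g) (hF : LF fun p : α × ℕ × ℕ => F p.1 p.2.1 p.2.2)
    (hX : LF X) :
    LF fun a => oUpd (q a) (M a) (c a) (m a) (t a) (g a) (F a) (X a) := by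
  exact TreeOp_LF_oUpd hq hM hc hm ht hg hF hX

end

end Pool.Agent.W_5d512e_h4
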